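import Pool.Agent.Run7.h481.MC3

set_option autoImplicit false

/-!
# The perturbed grid is in general position
-/

namespace Run7.h481.MC

open Pool.Agent.R143.MonoPath

theorem not_collinear {a b c : Plane}
    (h : (b 0 - a 0) * (c 1 - a 1) - (b 1 - a 1) * (c 0 - a 0) ≠ 0) :
    ¬ Collinear ℝ ({a, b, c} : Set Plane) := by
  intro hc
  apply h
  rw [collinear_iff_of_mem (p₀ := a) (by simp)] at hc
  obtain ⟨v, hv⟩ := hc
  obtain ⟨r, hr⟩ := hv b (by simp)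
  obtain ⟨s, hs⟩ := hv c (by simp)
  rw [hr, hs]
  simp only [vadd_eq_add, PiLp.add_apply, PiLp.smul_apply, smul_eq_mul]
  ring

theorem dom {x y z c d f K : ℝ} (hx : 0 < x) (hy : 0 ≤ y) (hz : 0 ≤ z) (hc : 1 ≤ |c|)
    (hd : |d| * 16 ≤ K) (hf : |f| * 16 ≤ K) (h1 : K * y ≤ x) (h2 : K * z ≤ x) :
    c * x + d * y + f * z ≠ 0 := by
  intro h
  have a1 : |c * x| = |d * y + f * z| := by
    rw [show c * x = -(d * y + f * z) by linarith, abs_neg]
  have a2 : |c * x| = |c| * x := by rw [abs_mul, abs_of_pos hx]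
  have a3 : |d * y + f * z| ≤ |d| * y + |f| * z := by
    refine (abs_add_le _ _).trans ?_
    rw [abs_mul, abs_mul, abs_of_nonneg hy, abs_of_nonneg hz]
  have a4 : x ≤ |c| * x := by nlinarith
  have a5 : |d| * 16 * y ≤ K * y := mul_le_mul_of_nonneg_right hd hy
  have a6 : |f| * 16 * z ≤ K * z := mul_le_mul_of_nonneg_right hf hz
  nlinarith

/-- the linear form whose values on the grid are different -/
def W (m : ℕ) (z : ℕ × ℕ) : ℤ := (m + 1) * z.1 - z.2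

theorem W_ne (m : ℕ) (z z' : ℕ × ℕ) (h2 : z.2 < m) (h4 : z'.2 < m) (h : z ≠ z') :
    W m z - W m z' ≠ 0 := by
  intro h0
  unfold W at h0
  have e1 : ((m : ℤ) + 1) * ((z.1 : ℤ) - z'.1) = z.2 - z'.2 := by linarith
  have h5 : (z.1 : ℤ) = z'.1 := by
    by_contra hc
    rcases lt_or_gt_of_ne hc with h6 | h6
    · have : (z.1 : ℤ) - z'.1 ≤ -1 := by omega
      nlinarith
    · have : (1 : ℤ) ≤ (z.1 : ℤ) - z'.1 := by omega
      nlinarith
  rw [h5, sub_self, mul_zero] at e1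
  apply h
  ext <;> omega

theorem W_le (m : ℕ) (z z' : ℕ × ℕ) (h1 : z.1 < m) (h2 : z.2 < m) (h3 : z'.1 < m)
    (h4 : z'.2 < m) : |((W m z - W m z' : ℤ) : ℝ)| * 16 ≤ MM m := by
  rw [MM_cast]
  have e : |((W m z - W m z' : ℤ) : ℝ)| ≤ ((m : ℝ) + 2) ^ 2 := by
    have h5 : |W m z - W m z'| ≤ ((m : ℤ) + 2) ^ 2 := by
      unfold W
      rw [abs_le]
      constructor <;> nlinarith
    have h6 : ((|W m z - W m z'| : ℤ) : ℝ) ≤ ((((m : ℤ) + 2) ^ 2 : ℤ) : ℝ) := by exact_mod_cast h5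
    push_cast at h6 ⊢
    exact h6
  linarith

theorem one_le_W (m : ℕ) (z z' : ℕ × ℕ) (h2 : z.2 < m) (h4 : z'.2 < m) (h : z ≠ z') :
    1 ≤ |((W m z - W m z' : ℤ) : ℝ)| := by
  have := Int.one_le_abs (W_ne m z z' h2 h4 h)
  exact_mod_cast this

theorem ord_ne (m : ℕ) (z z' : ℕ × ℕ) (h2 : z.2 < m) (h4 : z'.2 < m) (h : z ≠ z') :
    z.1 * m + z.2 ≠ z'.1 * m + z'.2 := by
  intro h0
  apply h
  have h5 : z.1 = z'.1 := by
    by_contra hc
    rcases lt_or_gt_of_ne hc with h6 | h6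
    · have : (z.1 + 1) * m ≤ z'.1 * m := Nat.mul_le_mul_right m h6
      nlinarith
    · have : (z'.1 + 1) * m ≤ z.1 * m := Nat.mul_le_mul_right m h6
      nlinarith
  ext
  · exact h5
  · rw [h5] at h0; omega

theorem small_W (m : ℕ) (x z z' : ℕ × ℕ) (h1 : z.1 < m) (h2 : z.2 < m) (h3 : z'.1 < m)
    (h4 : z'.2 < m) : |ee m x * ((W m z - W m z' : ℤ) : ℝ)| ≤ 1 / 16 := by
  rw [abs_mul, abs_of_pos (ee_pos m x)]
  have h5 := W_le m z z' h1 h2 h3 h4
  have h6 := ee_le m x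
  have h7 := MM_pos m
  have h8 : ee m x * MM m ≤ 1 := by
    calc ee m x * MM m ≤ 1 / MM m * MM m := by gcongr
      _ = 1 := by field_simp
  have h9 := ee_pos m x
  nlinarith [abs_nonneg (((W m z - W m z' : ℤ) : ℝ))]

theorem gen_pos (m : ℕ) (z1 z2 z3 : ℕ × ℕ) (a1 : z1.1 < m) (a2 : z1.2 < m) (b1 : z2.1 < m)
    (b2 : z2.2 < m) (c1 : z3.1 < m) (c2 : z3.2 < m) (h12 : z1 ≠ z2) (h23 : z2 ≠ z3)
    (h13 : z1 ≠ z3) : ¬ Collinear ℝ ({P m z1, P m z2, P m z3} : Set Plane) := by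
  apply not_collinear
  simp only [P_zero, P_one]
  set D : ℤ := ((z2.1 : ℤ) - z1.1) * ((z3.2 : ℤ) - z1.2) - ((z2.2 : ℤ) - z1.2) * ((z3.1 : ℤ) - z1.1)
    with hD
  have key : ((z2.1 : ℝ) + ee m z2 - (z1.1 + ee m z1)) *
      ((z3.2 : ℝ) + ee m z3 * (m + 1) - (z1.2 + ee m z1 * (m + 1))) -
      ((z2.2 : ℝ) + ee m z2 * (m + 1) - (z1.2 + ee m z1 * (m + 1))) *
        ((z3.1 : ℝ) + ee m z3 - (z1.1 + ee m z1)) =
      (D : ℝ) + ee m z3 * ((W m z2 - W m z1 : ℤ) : ℝ) + ee m z2 * ((W m z1 - W m z3 : ℤ) : ℝ) +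
        ee m z1 * ((W m z3 - W m z2 : ℤ) : ℝ) := by
    rw [hD]
    unfold W
    push_cast
    ring
  rw [key]
  by_cases hD0 : D = 0
  · rw [hD0, Int.cast_zero, zero_add]
    have o12 := ord_ne m z1 z2 a2 b2 h12
    have o23 := ord_ne m z2 z3 b2 c2 h23
    have o13 := ord_ne m z1 z3 a2 c2 h13
    have w1 := W_le m z2 z1 b1 b2 a1 a2
    have w2 := W_le m z1 z3 a1 a2 c1 c2
    have w3 := W_le m z3 z2 c1 c2 b1 b2
    have l1 := one_le_W m z2 z1 b2 a2 h12.symm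
    have l2 := one_le_W m z1 z3 a2 c2 h13
    have l3 := one_le_W m z3 z2 c2 b2 h23.symm
    have p1 := ee_pos m z1
    have p2 := ee_pos m z2
    have p3 := ee_pos m z3
    rcases lt_or_gt_of_ne o12 with q | q
    · rcases lt_or_gt_of_ne o13 with q' | q'
      · -- z1 smallest
        have := dom p1 p2.le p3.le l3 w2 w1 (ee_dec m z1 z2 q) (ee_dec m z1 z3 q')
        intro h
        exact this (by linarith)
      · -- z3 < z1 < z2
        have := dom p3 p2.le p1.le l1 w2 w3 (ee_dec m z3 z2 (by omega)) (ee_dec m z3 z1 q')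
        intro h
        exact this (by linarith)
    · rcases lt_or_gt_of_ne o23 with q' | q'
      · -- z2 smallest
        have := dom p2 p1.le p3.le l2 w3 w1 (ee_dec m z2 z1 q) (ee_dec m z2 z3 q')
        intro h
        exact this (by linarith)
      · have := dom p3 p2.le p1.le l1 w2 w3 (ee_dec m z3 z2 q') (ee_dec m z3 z1 (by omega))
        intro h
        exact this (by linarith)
  · have h1 : (1 : ℝ) ≤ |(D : ℝ)| := by
      have := Int.one_le_abs hD0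
      exact_mod_cast this
    have s1 := abs_le.mp (small_W m z3 z2 z1 b1 b2 a1 a2)
    have s2 := abs_le.mp (small_W m z2 z1 z3 a1 a2 c1 c2)
    have s3 := abs_le.mp (small_W m z1 z3 z2 c1 c2 b1 b2)
    intro h
    rcases le_abs.mp h1 with h2 | h2 <;> linarith [s1.1, s1.2, s2.1, s2.2, s3.1, s3.2]

end Run7.h481.MC
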