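import Pool.Agent.Run7.h481.MC5

set_option autoImplicit false

/-!
# The lower bound for the number of paths
-/

namespace Run7.h481.MC

open Pool.Agent.R143.MonoPath Finset

theorem card_Bd (k : ℕ) (d : ℕ × ℕ) : (Bd k d).card = d.1 * (k / 2) := by
  simp [Bd]

theorem card_Rd (a : ℕ) : (Rd a).card = a * a := by
  simp only [Rd, card_product, card_range, Nat.card_Ico]
  congr 1
  omega

/-- a direction cannot be almost orthogonal to two grid directions -/
theorem not_both {D : ℕ} {d d' : ℕ × ℕ} {u0 u1 U : ℝ} (hU : 0 < U)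
    (hmax : U ≤ |u0| ∨ U ≤ |u1|) (h1 : d.2 < d.1) (h1' : d'.2 < d'.1) (hD : d.1 ≤ D)
    (hD' : d'.1 ≤ D) (hdet : (d.1 : ℤ) * d'.2 - d.2 * d'.1 ≠ 0)
    (h : |(d.1 : ℝ) * u0 + d.2 * u1| < U / (2 * D))
    (h' : |(d'.1 : ℝ) * u0 + d'.2 * u1| < U / (2 * D)) : False := by
  have hD0 : (0 : ℝ) < D := by
    have : 0 < D := by omega
    exact_mod_cast this
  set s := (d.1 : ℝ) * u0 + d.2 * u1 with hs
  set s' := (d'.1 : ℝ) * u0 + d'.2 * u1 with hs'
  have hdet1 : (1 : ℝ) ≤ |(d.1 : ℝ) * d'.2 - d.2 * d'.1| := by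
    have := Int.one_le_abs hdet
    exact_mod_cast this
  have b1 : (d.1 : ℝ) ≤ D := by exact_mod_cast hD
  have b2 : (d.2 : ℝ) ≤ D := by
    have : d.2 ≤ D := by omega
    exact_mod_cast this
  have b1' : (d'.1 : ℝ) ≤ D := by exact_mod_cast hD'
  have b2' : (d'.2 : ℝ) ≤ D := by
    have : d'.2 ≤ D := by omega
    exact_mod_cast this
  have n1 : (0 : ℝ) ≤ d.1 := Nat.cast_nonneg _
  have n2 : (0 : ℝ) ≤ d.2 := Nat.cast_nonneg _
  have n1' : (0 : ℝ) ≤ d'.1 := Nat.cast_nonneg _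
  have n2' : (0 : ℝ) ≤ d'.2 := Nat.cast_nonneg _
  have hU2 : U / (2 * D) * D = U / 2 := by field_simp
  rcases hmax with hm | hm
  · have e : ((d.1 : ℝ) * d'.2 - d.2 * d'.1) * u0 = d'.2 * s - d.2 * s' := by
      rw [hs, hs']; ring
    have e1 : |((d.1 : ℝ) * d'.2 - d.2 * d'.1) * u0| ≤ d'.2 * |s| + d.2 * |s'| := by
      rw [e]
      refine (abs_sub _ _).trans ?_
      rw [abs_mul, abs_mul, abs_of_nonneg n2, abs_of_nonneg n2']
    rw [abs_mul] at e1
    have e2 : U ≤ |(d.1 : ℝ) * d'.2 - d.2 * d'.1| * |u0| := by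
      nlinarith [abs_nonneg u0]
    have e3 : (d'.2 : ℝ) * |s| ≤ D * |s| := mul_le_mul_of_nonneg_right b2' (abs_nonneg _)
    have e4 : (d.2 : ℝ) * |s'| ≤ D * |s'| := mul_le_mul_of_nonneg_right b2 (abs_nonneg _)
    have e5 : (D : ℝ) * |s| < D * (U / (2 * D)) := mul_lt_mul_of_pos_left h hD0
    have e6 : (D : ℝ) * |s'| < D * (U / (2 * D)) := mul_lt_mul_of_pos_left h' hD0
    linarith
  · have e : ((d.1 : ℝ) * d'.2 - d.2 * d'.1) * u1 = d.1 * s' - d'.1 * s := by
      rw [hs, hs']; ring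
    have e1 : |((d.1 : ℝ) * d'.2 - d.2 * d'.1) * u1| ≤ d.1 * |s'| + d'.1 * |s| := by
      rw [e]
      refine (abs_sub _ _).trans ?_
      rw [abs_mul, abs_mul, abs_of_nonneg n1, abs_of_nonneg n1']
    rw [abs_mul] at e1
    have e2 : U ≤ |(d.1 : ℝ) * d'.2 - d.2 * d'.1| * |u1| := by
      nlinarith [abs_nonneg u1]
    have e3 : (d'.1 : ℝ) * |s| ≤ D * |s| := mul_le_mul_of_nonneg_right b1' (abs_nonneg _)
    have e4 : (d.1 : ℝ) * |s'| ≤ D * |s'| := mul_le_mul_of_nonneg_right b1 (abs_nonneg _)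
    have e5 : (D : ℝ) * |s| < D * (U / (2 * D)) := mul_lt_mul_of_pos_left h hD0
    have e6 : (D : ℝ) * |s'| < D * (U / (2 * D)) := mul_lt_mul_of_pos_left h' hD0
    linarith

open Classical in
theorem lower (m k r D : ℕ) (𝒟 T : Finset (ℕ × ℕ)) (hkm : k ≤ m) (hmk : m ≤ 2 * k)
    (hkD : 12 * D ≤ k) (h𝒟 : ∀ d ∈ 𝒟, 1 ≤ d.2 ∧ d.2 < d.1 ∧ d.1 ≤ D)
    (hdet : ∀ d ∈ 𝒟, ∀ d' ∈ 𝒟, d ≠ d' → (d.1 : ℤ) * d'.2 - d.2 * d'.1 ≠ 0)
    (hT : range k ×ˢ range k ⊆ T) (hcov : HasCover (T.image (P m)) r) :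
    ∑ d ∈ 𝒟, ((k / (6 * d.1) : ℕ) : ℝ) ^ 2 ≤
      r * (7 + 3 * (384 * (D : ℝ) ^ 2 + 2) * 𝒟.card / k) := by
  rcases 𝒟.eq_empty_or_nonempty with h𝒟0 | ⟨d0, hd0⟩
  · subst h𝒟0
    simp only [sum_empty, card_empty, Nat.cast_zero, mul_zero, zero_div, add_zero]
    positivity
  have hD1 : 1 ≤ D := by
    obtain ⟨x1, x2, x3⟩ := h𝒟 d0 hd0
    omega
  have hk0 : (0 : ℝ) < k := by
    have : 0 < k := by omega
    exact_mod_cast this
  obtain ⟨t, v, hv, hedge⟩ := hcov
  choose hvA u hu0 hu using hv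
  set U : Fin r → ℝ := fun s => max |u s 0| |u s 1| with hUdef
  have hU : ∀ s, 0 < U s := by
    intro s
    rw [hUdef]
    simp only [lt_max_iff, abs_pos]
    by_contra hc
    push Not at hc
    apply hu0 s
    ext i
    fin_cases i
    · simpa using hc.1
    · simpa using hc.2
  have hUmax : ∀ s, U s ≤ |u s 0| ∨ U s ≤ |u s 1| := by
    intro s
    rcases max_choice |u s 0| |u s 1| with h | h
    · left; rw [hUdef]; simp only [h]; exact le_rfl
    · right; rw [hUdef]; simp only [h]; exact le_rfl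
  let near : (ℕ × ℕ) → Fin r → Prop := fun d s =>
    |(d.1 : ℝ) * u s 0 + d.2 * u s 1| < U s / (2 * D)
  -- each direction
  have each : ∀ d ∈ 𝒟, ((k / (6 * d.1) : ℕ) : ℝ) ^ 2 ≤
      7 * ((univ.filter (near d)).card : ℝ) + 3 * (384 * (D : ℝ) ^ 2 + 2) * r / k := by
    intro d hd
    obtain ⟨g1, g2, g3⟩ := h𝒟 d hd
    set a := k / (6 * d.1) with ha
    have hd1 : 0 < d.1 := by omega
    have ha1 : 1 ≤ a := by
      rw [ha, Nat.le_div_iff_mul_le (by omega)]
      have : 6 * d.1 ≤ 6 * D := Nat.mul_le_mul_left _ g3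
      omega
    have ha2 : 3 * a * d.1 ≤ k / 2 := by
      rw [Nat.le_div_iff_mul_le (by norm_num)]
      have := Nat.div_mul_le_self k (6 * d.1)
      rw [← ha] at this
      calc 3 * a * d.1 * 2 = a * (6 * d.1) := by ring
        _ ≤ k := this
    have hka : k ≤ 12 * D * a := by
      have h1 : k < 6 * d.1 * (a + 1) := by
        rw [ha]
        exact Nat.lt_mul_div_succ k (by omega)
      have h2 : 6 * d.1 * (a + 1) ≤ 6 * d.1 * (2 * a) := Nat.mul_le_mul_left _ (by omega)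
      have h3 : 6 * d.1 * (2 * a) ≤ 6 * D * (2 * a) :=
        Nat.mul_le_mul_right _ (Nat.mul_le_mul_left _ g3)
      calc k ≤ 6 * D * (2 * a) := by omega
        _ = 12 * D * a := by ring
    -- covering
    have c1 : (Bd k d ×ˢ Rd a) ⊆ univ.biUnion (fun s : Fin r =>
        (Bd k d ×ˢ Rd a).filter (Cov m d (v s))) := by
      intro x hx
      have hx' := hx
      rw [mem_product] at hx'
      have hx2 := hx'.2
      simp only [Rd, mem_product, mem_range, mem_Ico] at hx2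
      have hb1 : x.1.1 < d.1 := by
        have := hx'.1
        simp only [Bd, mem_product, mem_range] at this
        exact this.1
      have m1 := zz_mem hx'.1 (show x.2.1 < 3 * a by omega) g2 ha2
      have m2 := zz_mem hx'.1 (show x.2.2 < 3 * a by omega) g2 ha2
      obtain ⟨s, hs⟩ := hedge (P m (zz d x.1 x.2.1))
        (mem_image_of_mem _ (hT (mem_product.mpr ⟨mem_range.mpr m1.1, mem_range.mpr m1.2⟩)))
        (P m (zz d x.1 x.2.2))
        (mem_image_of_mem _ (hT (mem_product.mpr ⟨mem_range.mpr m2.1, mem_range.mpr m2.2⟩)))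
        (fun h => by
          have := (zz_inj hb1 hb1 (P_inj m h)).2
          omega)
      rw [mem_biUnion]
      exact ⟨s, mem_univ _, mem_filter.mpr ⟨hx, hs⟩⟩
    have c2 : (Bd k d).card * (a * a) ≤
        ∑ s : Fin r, ((Bd k d ×ˢ Rd a).filter (Cov m d (v s))).card := by
      rw [← card_Rd, ← card_product]
      exact (card_le_card c1).trans card_biUnion_le
    have c3 : ∀ s : Fin r, (((Bd k d ×ˢ Rd a).filter (Cov m d (v s))).card : ℝ) ≤
        (if near d s then 7 * ((Bd k d).card : ℝ) else 0) + (384 * (D : ℝ) ^ 2 + 2) := by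
      intro s
      split_ifs with hn
      · have := near_count m k a d hkm g1 g2 ha2 (hu0 s) (hu s)
        have h1 : (((Bd k d ×ˢ Rd a).filter (Cov m d (v s))).card : ℝ) ≤
            7 * ((Bd k d).card : ℝ) := by exact_mod_cast this
        have h2 : (0 : ℝ) ≤ 384 * (D : ℝ) ^ 2 + 2 := by positivity
        linarith
      · rw [zero_add]
        exact far_count m k a D d hkm hmk g2 g3 (by omega) ha1 hka ha2 (hU s)
          (le_max_left _ _) (le_max_right _ _) (hu s) (not_lt.mp hn)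
    have c4 : ((Bd k d).card : ℝ) * (a * a) ≤
        7 * ((Bd k d).card : ℝ) * ((univ.filter (near d)).card : ℝ) +
          r * (384 * (D : ℝ) ^ 2 + 2) := by
      have e1 : ((Bd k d).card : ℝ) * (a * a) ≤
          ∑ s : Fin r, (((Bd k d ×ˢ Rd a).filter (Cov m d (v s))).card : ℝ) := by
        exact_mod_cast c2
      refine e1.trans ((sum_le_sum fun s _ => c3 s).trans (le_of_eq ?_))
      rw [sum_add_distrib, ← sum_filter, sum_const, sum_const, nsmul_eq_mul, nsmul_eq_mul,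
        card_univ, Fintype.card_fin]
      ring
    have c5 : (k : ℝ) / 3 ≤ ((Bd k d).card : ℝ) := by
      have h1 : k ≤ 3 * (Bd k d).card := by
        rw [card_Bd]
        have : 1 * (k / 2) ≤ d.1 * (k / 2) := Nat.mul_le_mul_right _ hd1
        omega
      have : (k : ℝ) ≤ 3 * ((Bd k d).card : ℝ) := by exact_mod_cast h1
      linarith
    have c6 : (0 : ℝ) < ((Bd k d).card : ℝ) := by linarith
    have c7 : (a : ℝ) * a ≤ 7 * ((univ.filter (near d)).card : ℝ) +
        r * (384 * (D : ℝ) ^ 2 + 2) / ((Bd k d).card : ℝ) := by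
      rw [← sub_le_iff_le_add', le_div_iff₀ c6]
      nlinarith
    have c8 : r * (384 * (D : ℝ) ^ 2 + 2) / ((Bd k d).card : ℝ) ≤
        3 * (384 * (D : ℝ) ^ 2 + 2) * r / k := by
      rw [div_le_div_iff₀ c6 hk0]
      have : (0 : ℝ) ≤ r * (384 * (D : ℝ) ^ 2 + 2) := by positivity
      nlinarith
    rw [sq]
    linarith
  have tot : ∑ d ∈ 𝒟, ((univ.filter (near d)).card : ℝ) ≤ r := by
    have h1 : ∑ d ∈ 𝒟, (univ.filter (near d)).card = ∑ s : Fin r, (𝒟.filter (fun d => near d s)).card := by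
      simp only [card_filter]
      exact sum_comm
    have h2 : ∀ s : Fin r, (𝒟.filter (fun d => near d s)).card ≤ 1 := by
      intro s
      rw [card_le_one]
      intro d hd d' hd'
      rw [mem_filter] at hd hd'
      by_contra hne
      obtain ⟨g1, g2, g3⟩ := h𝒟 d hd.1
      obtain ⟨g1', g2', g3'⟩ := h𝒟 d' hd'.1
      exact not_both (hU s) (hUmax s) g2 g2' g3 g3' (hdet d hd.1 d' hd'.1 hne) hd.2 hd'.2
    have h3 : ∑ d ∈ 𝒟, (univ.filter (near d)).card ≤ r := by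
      rw [h1]
      calc ∑ s : Fin r, (𝒟.filter (fun d => near d s)).card ≤ ∑ _s : Fin r, 1 :=
            sum_le_sum fun s _ => h2 s
        _ = r := by simp
    exact_mod_cast h3
  calc ∑ d ∈ 𝒟, ((k / (6 * d.1) : ℕ) : ℝ) ^ 2
      ≤ ∑ d ∈ 𝒟, (7 * ((univ.filter (near d)).card : ℝ) +
          3 * (384 * (D : ℝ) ^ 2 + 2) * r / k) := sum_le_sum each
    _ = 7 * ∑ d ∈ 𝒟, ((univ.filter (near d)).card : ℝ) +
          𝒟.card * (3 * (384 * (D : ℝ) ^ 2 + 2) * r / k) := by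
        rw [sum_add_distrib, ← mul_sum, sum_const, nsmul_eq_mul]
    _ ≤ 7 * r + 𝒟.card * (3 * (384 * (D : ℝ) ^ 2 + 2) * r / k) := by linarith
    _ = r * (7 + 3 * (384 * (D : ℝ) ^ 2 + 2) * 𝒟.card / k) := by ring

end Run7.h481.MC
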