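import Pool.Agent.Run7.h481.Single

namespace Run7.h481

open MeasureTheory UnitAddTorus ENNReal

theorem final_lower (Sg : ℕ → ℝ≥0∞) (e : ℕ) {r t : ℝ} (hr : 0 < r) (ht : 0 ≤ e * r + t)
    (h : ∃ (n0 : ℕ) (c c2 : ℝ), 0 < c ∧ 0 < c2 ∧ ∀ n ≥ n0, 1 ≤ n ∧
      ∀ m : ℕ, (m : ℝ) ≤ c2 * 2 ^ n * (n : ℝ) ^ e →
        ENNReal.ofReal (c * (2 : ℝ) ^ (-(r * n)) * (n : ℝ) ^ t) ≤ Sg m) :
    ∃ c : ℝ, 0 < c ∧ ∀ m : ℕ, 2 ≤ m →
      ENNReal.ofReal (c * (m : ℝ) ^ (-r) * (Real.log m) ^ (e * r + t)) ≤ Sg m := by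
  obtain ⟨n0, c, c2, hc, hc2, h⟩ := h
  have hn0 : 1 ≤ n0 := (h n0 le_rfl).1
  have hn0r : (0 : ℝ) < n0 := by exact_mod_cast hn0
  set M0 : ℝ := c2 * 2 ^ n0 * (n0 : ℝ) ^ e with hM0
  have hM0p : 0 < M0 := by positivity
  set ca : ℝ := c * (2 : ℝ) ^ (-(r * n0)) * (n0 : ℝ) ^ t / (M0 ^ (e * r + t)) with hca
  have hcap : 0 < ca := by positivity
  set C5 : ℝ := 2 ^ (e + 1) / c2 with hC5
  have hC5p : 0 < C5 := by positivity
  set C6 : ℝ := |Real.log c2| + (1 + e) with hC6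
  have hC6p : 0 < C6 := by positivity
  set cb : ℝ := c * C5 ^ (-r) / C6 ^ (e * r + t) with hcb
  have hcbp : 0 < cb := by positivity
  refine ⟨min ca cb, lt_min hcap hcbp, ?_⟩
  intro m hm
  have hm1 : (1 : ℝ) ≤ m := by exact_mod_cast (by omega : 1 ≤ m)
  have hm0 : (0 : ℝ) < m := by linarith
  have hlog0 : 0 ≤ Real.log m := Real.log_nonneg hm1
  have hex : ∃ n, n0 ≤ n ∧ (m : ℝ) ≤ c2 * 2 ^ n * (n : ℝ) ^ e := by
    obtain ⟨N, hN⟩ := exists_nat_ge ((m : ℝ) / c2)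
    refine ⟨max N n0, le_max_right _ _, ?_⟩
    set K := max N n0
    have hK1 : (1 : ℝ) ≤ K := by exact_mod_cast hn0.trans (le_max_right _ _)
    have h1 : (m : ℝ) / c2 ≤ 2 ^ K := by
      calc (m : ℝ) / c2 ≤ N := hN
        _ ≤ K := by exact_mod_cast le_max_left _ _
        _ ≤ 2 ^ K := by exact_mod_cast (Nat.lt_two_pow_self (n := K)).le
    have h2 : (1 : ℝ) ≤ (K : ℝ) ^ e := one_le_pow₀ hK1
    rw [div_le_iff₀ hc2] at h1
    calc (m : ℝ) ≤ 2 ^ K * c2 := h1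
      _ = c2 * 2 ^ K * 1 := by ring
      _ ≤ _ := by gcongr
  classical
  obtain ⟨hn, hmn⟩ := Nat.find_spec hex
  have hmin := fun k => Nat.find_min hex (m := k)
  set n := Nat.find hex with hndef
  have hmain := (h n hn).2 m hmn
  have hn1 : 1 ≤ n := (h n hn).1
  have hnr : (0 : ℝ) < n := by exact_mod_cast hn1
  refine le_trans (ENNReal.ofReal_le_ofReal ?_) hmain
  rcases Nat.eq_or_lt_of_le hn with heq | hlt
  · -- n = n0
    rw [← heq]
    rw [← heq, ← hM0] at hmn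
    have h1 : (m : ℝ) ^ (-r) ≤ 1 := Real.rpow_le_one_of_one_le_of_nonpos hm1 (by linarith)
    have h2 : (Real.log m) ^ (e * r + t) ≤ M0 ^ (e * r + t) := by
      refine Real.rpow_le_rpow hlog0 ?_ ht
      have := Real.log_le_sub_one_of_pos hm0
      linarith
    have h3 : 0 ≤ (Real.log m) ^ (e * r + t) := Real.rpow_nonneg hlog0 _
    calc min ca cb * (m : ℝ) ^ (-r) * (Real.log m) ^ (e * r + t)
        ≤ ca * 1 * M0 ^ (e * r + t) := by
          gcongr
          exact min_le_left _ _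
      _ = _ := by
          rw [hca]
          field_simp
  · -- n > n0
    have h1 : ¬ (n0 ≤ n - 1 ∧ (m : ℝ) ≤ c2 * 2 ^ (n - 1) * ((n - 1 : ℕ) : ℝ) ^ e) :=
      hmin (n - 1) (by omega)
    have h2 : c2 * 2 ^ (n - 1) * ((n - 1 : ℕ) : ℝ) ^ e < m := by
      by_contra hcon
      exact h1 ⟨by omega, not_lt.mp hcon⟩
    have h3 : (n : ℝ) ≤ 2 * ((n - 1 : ℕ) : ℝ) := by
      have : n ≤ 2 * (n - 1) := by omega
      exact_mod_cast this
    have h4 : (2 : ℝ) ^ n * (n : ℝ) ^ e ≤ C5 * m := by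
      have e1 : (2 : ℝ) ^ n = 2 * 2 ^ (n - 1) := by
        rw [← pow_succ']
        congr 1
        omega
      have e2 : (n : ℝ) ^ e ≤ 2 ^ e * ((n - 1 : ℕ) : ℝ) ^ e := by
        rw [← mul_pow]
        gcongr
      calc (2 : ℝ) ^ n * (n : ℝ) ^ e ≤ (2 * 2 ^ (n - 1)) * (2 ^ e * ((n - 1 : ℕ) : ℝ) ^ e) := by
            rw [e1]
            gcongr
        _ = C5 * (c2 * 2 ^ (n - 1) * ((n - 1 : ℕ) : ℝ) ^ e) := by
            rw [hC5]
            field_simp
            ring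
        _ ≤ C5 * m := by gcongr
    have h5 : Real.log m ≤ C6 * n := by
      have h6 : (m : ℝ) ≤ c2 * ((2 : ℝ) ^ n * (2 ^ n) ^ e) := by
        have : (n : ℝ) ≤ 2 ^ n := by exact_mod_cast (Nat.lt_two_pow_self (n := n)).le
        calc (m : ℝ) ≤ c2 * 2 ^ n * (n : ℝ) ^ e := hmn
          _ ≤ c2 * 2 ^ n * (2 ^ n) ^ e := by gcongr
          _ = _ := by ring
      have h7 := Real.log_le_log hm0 h6
      rw [Real.log_mul hc2.ne' (by positivity), ← pow_succ', ← pow_mul, Real.log_pow] at h7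
      push_cast at h7
      have h8 : Real.log 2 ≤ 1 := by
        have := Real.log_two_lt_d9
        linarith
      have h9 : Real.log c2 ≤ |Real.log c2| * n := by
        calc Real.log c2 ≤ |Real.log c2| := le_abs_self _
          _ = |Real.log c2| * 1 := (mul_one _).symm
          _ ≤ _ := by
            have : (1 : ℝ) ≤ n := by exact_mod_cast hn1
            gcongr
      have h10 : (n : ℝ) * (e + 1) * Real.log 2 ≤ n * (e + 1) * 1 := by gcongr
      rw [hC6]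
      nlinarith
    have h6 : (C5 * m) ^ (-r) * (n : ℝ) ^ (e * r) ≤ (2 : ℝ) ^ (-(r * n)) := by
      have h7 : (C5 * m) ^ (-r) ≤ ((2 : ℝ) ^ n * (n : ℝ) ^ e) ^ (-r) :=
        Real.rpow_le_rpow_of_nonpos (by positivity) h4 (by linarith)
      calc (C5 * m) ^ (-r) * (n : ℝ) ^ (e * r)
          ≤ ((2 : ℝ) ^ n * (n : ℝ) ^ e) ^ (-r) * (n : ℝ) ^ (e * r) := by gcongr
        _ = (2 : ℝ) ^ (-(r * n)) := by
          rw [Real.mul_rpow (by positivity) (by positivity), mul_assoc, ← Real.rpow_natCast,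
            ← Real.rpow_natCast, ← Real.rpow_mul (by norm_num), ← Real.rpow_mul hnr.le,
            ← Real.rpow_add hnr]
          have : (e : ℝ) * -r + e * r = 0 := by ring
          rw [this, Real.rpow_zero, mul_one]
          congr 1
          ring
    have h7 : (Real.log m) ^ (e * r + t) ≤ C6 ^ (e * r + t) * (n : ℝ) ^ (e * r + t) := by
      rw [← Real.mul_rpow hC6p.le hnr.le]
      exact Real.rpow_le_rpow hlog0 h5 ht
    calc min ca cb * (m : ℝ) ^ (-r) * (Real.log m) ^ (e * r + t)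
        ≤ cb * (m : ℝ) ^ (-r) * (C6 ^ (e * r + t) * (n : ℝ) ^ (e * r + t)) := by
          gcongr
          exact min_le_right _ _
      _ = c * ((C5 * m) ^ (-r) * (n : ℝ) ^ (e * r)) * (n : ℝ) ^ t := by
          rw [hcb, Real.mul_rpow hC5p.le hm0.le, Real.rpow_add hnr]
          field_simp
      _ ≤ _ := by gcongr

theorem lower_H (e : ℕ) {p q r : ℝ} (hp : 1 < p) (hq1 : 1 ≤ q) (hq2 : q ≤ 2) (hr : 0 < r) :
    ∃ c : ℝ, 0 < c ∧ ∀ m : ℕ, 2 ≤ m →
      ENNReal.ofReal (c * (m : ℝ) ^ (-r) * (Real.log m) ^ (e * (r + 1 / q)))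
        ≤ sigC m p (HC (e + 1) r q) := by
  have h := final_lower (fun m => sigC m p (HC (e + 1) r q)) e (t := (e : ℝ) / q) hr
    (by positivity) (level_H e r hp hq1 hq2)
  have e1 : (e : ℝ) * r + e / q = e * (r + 1 / q) := by ring
  rwa [e1] at h

theorem lower_B (e : ℕ) {p q r θ : ℝ} (hp : 1 < p) (hq1 : 1 ≤ q) (hq2 : q ≤ 2) (hr : 0 < r)
    (hθ : 0 < θ) : ∃ c : ℝ, 0 < c ∧ ∀ m : ℕ, 2 ≤ m →
      ENNReal.ofReal (c * (m : ℝ) ^ (-r) * (Real.log m) ^ (e * max (r + 1 / q - 1 / θ) 0))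
        ≤ sigC m p (BC (e + 1) r q θ) := by
  rcases le_total 0 (r + 1 / q - 1 / θ) with hs | hs
  · have e1 : (e : ℝ) * r + e * (1 / q - 1 / θ) = e * max (r + 1 / q - 1 / θ) 0 := by
      rw [max_eq_left hs]
      ring
    have h := final_lower (fun m => sigC m p (BC (e + 1) r q θ)) e
      (t := (e : ℝ) * (1 / q - 1 / θ)) hr (by rw [e1]; positivity) (level_B e r hp hq1 hq2 hθ)
    rwa [e1] at h
  · rw [max_eq_right hs]
    obtain ⟨c, hc, h⟩ := single_B e r hp hq2 hθ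
    refine ⟨c * 2 ^ (-(8 * r)), by positivity, ?_⟩
    intro m hm
    have hm0 : (0 : ℝ) < m := by exact_mod_cast (by omega : 0 < m)
    refine le_trans (ENNReal.ofReal_le_ofReal ?_) (h (Nat.clog 2 m + 7) (by omega) m (by
      rw [Nat.add_sub_cancel]
      exact Nat.le_pow_clog (by norm_num) m))
    rw [mul_zero, Real.rpow_zero, mul_one, mul_assoc]
    gcongr
    have h1 : (2 : ℝ) ^ (Nat.clog 2 m + 7) ≤ 2 ^ (8 : ℝ) * m := by
      have h2 : 2 ^ (Nat.clog 2 m).pred < m := Nat.pow_pred_clog_lt_self (by norm_num) (by omega)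
      have h3 : 1 ≤ Nat.clog 2 m := Nat.clog_pos (by norm_num) hm
      have h4 : 2 ^ (Nat.clog 2 m + 7) = 2 ^ 8 * 2 ^ (Nat.clog 2 m).pred := by
        rw [← pow_add]
        congr 1
        rw [Nat.pred_eq_sub_one]
        omega
      have h5 : 2 ^ (Nat.clog 2 m + 7) ≤ 2 ^ 8 * m := by
        rw [h4]
        exact Nat.mul_le_mul_left _ h2.le
      have h6 : ((2 ^ (Nat.clog 2 m + 7) : ℕ) : ℝ) ≤ ((2 ^ 8 * m : ℕ) : ℝ) := by
        exact_mod_cast h5
      push_cast at h6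
      have h7 : (2 : ℝ) ^ (8 : ℝ) = 256 := by norm_num
      rw [h7]
      linarith
    calc (2 : ℝ) ^ (-(8 * r)) * (m : ℝ) ^ (-r) = (2 ^ (8 : ℝ) * m) ^ (-r) := by
          rw [Real.mul_rpow (by positivity) hm0.le, ← Real.rpow_mul (by norm_num)]
          congr 2
          ring
      _ ≤ ((2 : ℝ) ^ (Nat.clog 2 m + 7)) ^ (-r) :=
          Real.rpow_le_rpow_of_nonpos (by positivity) h1 (by linarith)
      _ = _ := by
          rw [← Real.rpow_natCast, ← Real.rpow_mul (by norm_num)]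
          congr 1
          ring

end Run7.h481
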