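import Pool.Agent.Run7.h481.U8

namespace Run7.h481

open MeasureTheory UnitAddTorus ENNReal Filter Topology

theorem conv_level (e : ℕ) {r g t C1 C2 : ℝ} (hr : 0 < r) (hg0 : 0 ≤ g) (hgr : g ≤ r)
    (ht : 0 ≤ t) (hC1 : 0 < C1) (hC2 : 0 < C2) :
    ∃ C : ℝ, 0 < C ∧ ∀ S : ℕ → ℝ≥0∞, (∀ m, S m ≤ ENNReal.ofReal C1) →
      (∀ n m : ℕ, 1 ≤ n → 2 * (2 ^ n * n ^ e) ≤ m →
        S m ≤ ENNReal.ofReal (C2 * (n : ℝ) ^ t * (m : ℝ) ^ (-g) * (2 : ℝ) ^ (-((r - g) * n)))) →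
      ∀ m : ℕ, 2 ≤ m →
        S m ≤ ENNReal.ofReal (C * (m : ℝ) ^ (-r) * (Real.log m) ^ (e * (r - g) + t)) := by
  obtain ⟨C0, hC0, hsel⟩ := select e
  have hC00 : 0 < C0 := by linarith
  set k : ℝ := e * (r - g) + t with hk
  have hk0 : 0 ≤ k := by
    have : 0 ≤ r - g := by linarith
    positivity
  have hlog2 : 0 < Real.log 2 := Real.log_pos (by norm_num)
  refine ⟨max (C1 * 4 ^ r * ((Real.log 2) ^ k)⁻¹) (C2 * C0 ^ (r - g) * C0 ^ k), by positivity, ?_⟩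
  intro S hS1 hS2 m hm
  have hm0 : (0 : ℝ) < m := by
    have : 0 < m := by omega
    exact_mod_cast this
  have hm2 : (2 : ℝ) ≤ m := by exact_mod_cast hm
  have hlogm : Real.log 2 ≤ Real.log m := Real.log_le_log (by norm_num) hm2
  by_cases h4 : m < 4
  · refine (hS1 m).trans (ENNReal.ofReal_le_ofReal ?_)
    have h5 : (m : ℝ) ≤ 4 := by exact_mod_cast h4.le
    have h6 : (4 : ℝ) ^ (-r) ≤ (m : ℝ) ^ (-r) :=
      Real.rpow_le_rpow_of_nonpos hm0 h5 (by linarith)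
    have h7 : (Real.log 2) ^ k ≤ (Real.log m) ^ k := Real.rpow_le_rpow hlog2.le hlogm hk0
    have h8 : 0 < (Real.log 2) ^ k := by positivity
    calc C1 = (C1 * 4 ^ r * ((Real.log 2) ^ k)⁻¹) * 4 ^ (-r) * (Real.log 2) ^ k := by
          rw [Real.rpow_neg (by norm_num)]
          field_simp
      _ ≤ _ := by
          gcongr
          exact le_max_left _ _
  · obtain ⟨n, hn, hn1, hn2, hn3⟩ := hsel m (by omega)
    have hn0 : (0 : ℝ) < n := by exact_mod_cast hn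
    refine (hS2 n m hn hn1).trans (ENNReal.ofReal_le_ofReal ?_)
    have h5 : (2 : ℝ) ^ (-((r - g) * n)) ≤ (C0 * (n : ℝ) ^ e / m) ^ (r - g) := by
      have h6 : ((2 : ℝ) ^ n)⁻¹ ≤ C0 * (n : ℝ) ^ e / m := by
        rw [inv_le_iff_one_le_mul₀ (by positivity), mul_comm, ← mul_div_assoc]
        rw [one_le_div hm0]
        calc (m : ℝ) ≤ C0 * (2 ^ n * (n : ℝ) ^ e) := hn2
          _ = _ := by ring
      calc (2 : ℝ) ^ (-((r - g) * n)) = (((2 : ℝ) ^ n)⁻¹) ^ (r - g) := by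
            rw [← Real.rpow_natCast, ← Real.rpow_neg (by norm_num), ← Real.rpow_mul (by norm_num)]
            congr 1
            ring
        _ ≤ _ := Real.rpow_le_rpow (by positivity) h6 (by linarith)
    have h7 : (C0 * (n : ℝ) ^ e / m) ^ (r - g)
        = C0 ^ (r - g) * (n : ℝ) ^ (e * (r - g)) * (m : ℝ) ^ (-(r - g)) := by
      rw [Real.div_rpow (by positivity) hm0.le, Real.mul_rpow hC00.le (by positivity),
        ← Real.rpow_natCast, ← Real.rpow_mul hn0.le, Real.rpow_neg hm0.le]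
      ring
    have h8 : (n : ℝ) ^ k ≤ C0 ^ k * (Real.log m) ^ k := by
      rw [← Real.mul_rpow hC00.le (by linarith)]
      exact Real.rpow_le_rpow hn0.le hn3 hk0
    have h9 : (n : ℝ) ^ t * (n : ℝ) ^ (e * (r - g)) = (n : ℝ) ^ k := by
      rw [← Real.rpow_add hn0, hk]; congr 1; ring
    have h10 : (m : ℝ) ^ (-g) * (m : ℝ) ^ (-(r - g)) = (m : ℝ) ^ (-r) := by
      rw [← Real.rpow_add hm0]; congr 1; ring
    calc C2 * (n : ℝ) ^ t * (m : ℝ) ^ (-g) * (2 : ℝ) ^ (-((r - g) * n))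
        ≤ C2 * (n : ℝ) ^ t * (m : ℝ) ^ (-g)
          * (C0 ^ (r - g) * (n : ℝ) ^ (e * (r - g)) * (m : ℝ) ^ (-(r - g))) := by
          rw [← h7]
          gcongr
      _ = C2 * C0 ^ (r - g) * ((n : ℝ) ^ t * (n : ℝ) ^ (e * (r - g)))
            * ((m : ℝ) ^ (-g) * (m : ℝ) ^ (-(r - g))) := by ring
      _ = C2 * C0 ^ (r - g) * (n : ℝ) ^ k * (m : ℝ) ^ (-r) := by rw [h9, h10]
      _ ≤ C2 * C0 ^ (r - g) * (C0 ^ k * (Real.log m) ^ k) * (m : ℝ) ^ (-r) := by gcongr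
      _ = (C2 * C0 ^ (r - g) * C0 ^ k) * (m : ℝ) ^ (-r) * (Real.log m) ^ k := by ring
      _ ≤ _ := by
          have : 0 ≤ (Real.log m) ^ k := Real.rpow_nonneg (by linarith) k
          gcongr
          exact le_max_right _ _

/-- **Upper bound for the Nikol'skii classes.** -/
theorem upper_H (e : ℕ) {p q r : ℝ} (hp : 1 ≤ p) (hpq : p < q) (hq2 : q ≤ 2) (hr : 0 < r) :
    ∃ C : ℝ, 0 < C ∧ ∀ m : ℕ, 2 ≤ m → sigC m p (HC (e + 1) r q)
      ≤ ENNReal.ofReal (C * (m : ℝ) ^ (-r) * (Real.log m) ^ ((e : ℝ) * (r + 1 / q))) := by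
  have hq0 : 0 < q := by linarith
  obtain ⟨C1, hC1, h1⟩ := upper_small e hp hpq hq2 hr
  obtain ⟨C2, hC2, h2⟩ := upper_H_level e hp hpq hq2 hr
  obtain ⟨C, hC, h⟩ := conv_level e (g := 0) (t := (e : ℝ) / q) hr le_rfl hr.le (by positivity)
    hC1 hC2
  refine ⟨C, hC, ?_⟩
  intro m hm
  have h3 := h (fun m => sigC m p (HC (e + 1) r q))
    (fun m => iSup₂_le (fun f hf => h1 f hf.1 hf.2 m))
    (fun n m hn hm => iSup₂_le (fun f hf => by
      have h4 := h2 f hf n m hn (by omega)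
      refine h4.trans (ENNReal.ofReal_le_ofReal (le_of_eq ?_))
      rw [neg_zero, Real.rpow_zero, sub_zero, mul_one])) m hm
  refine h3.trans (ENNReal.ofReal_le_ofReal (le_of_eq ?_))
  congr 2
  rw [sub_zero]
  ring

/-- **Upper bound for the Besov classes.** -/
theorem upper_B (e : ℕ) {p q r θ : ℝ} (hp : 1 ≤ p) (hpq : p < q) (hq2 : q ≤ 2) (hr : 0 < r)
    (hθ : 0 < θ) :
    ∃ C : ℝ, 0 < C ∧ ∀ m : ℕ, 2 ≤ m → sigC m p (BC (e + 1) r q θ)
      ≤ ENNReal.ofReal (C * (m : ℝ) ^ (-r)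
          * (Real.log m) ^ ((e : ℝ) * max (r + 1 / q - 1 / θ) 0)) := by
  have hq0 : 0 < q := by linarith
  obtain ⟨C1, hC1, h1⟩ := upper_small e hp hpq hq2 hr
  rcases lt_or_ge q θ with hθq | hθq
  · have hlt : 1 / θ < 1 / q := one_div_lt_one_div_of_lt hq0 hθq
    obtain ⟨C2, hC2, h2⟩ := upper_B_level e hp hpq hq2 hr hθq
    obtain ⟨C, hC, h⟩ := conv_level e (g := 0) (t := (e : ℝ) * (1 / q - 1 / θ)) hr le_rfl hr.le
      (mul_nonneg (Nat.cast_nonneg e) (by linarith)) hC1 hC2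
    refine ⟨C, hC, ?_⟩
    intro m hm
    have h3 := h (fun m => sigC m p (BC (e + 1) r q θ))
      (fun m => iSup₂_le (fun f hf => h1 f hf.1 (BC_wt hθ hf) m))
      (fun n m hn hm => iSup₂_le (fun f hf => by
        have h4 := h2 f hf n m hn (by omega)
        refine h4.trans (ENNReal.ofReal_le_ofReal (le_of_eq ?_))
        rw [neg_zero, Real.rpow_zero, sub_zero, mul_one])) m hm
    refine h3.trans (ENNReal.ofReal_le_ofReal (le_of_eq ?_))
    congr 2
    rw [max_eq_left (by linarith), sub_zero]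
    ring
  · obtain ⟨C2, hC2, h2⟩ := upper_B_small e hp hpq hq2 hr hθ hθq
    have hle : 1 / q ≤ 1 / θ := one_div_le_one_div_of_le hθ hθq
    obtain ⟨C, hC, h⟩ := conv_level e (g := min (1 / θ - 1 / q) r) (t := 0) hr
      (le_min (by linarith) hr.le) (min_le_right _ _) le_rfl hC1 hC2
    refine ⟨C, hC, ?_⟩
    intro m hm
    have h3 := h (fun m => sigC m p (BC (e + 1) r q θ))
      (fun m => iSup₂_le (fun f hf => h1 f hf.1 (BC_wt hθ hf) m))
      (fun n m hn hm => iSup₂_le (fun f hf => by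
        have h4 := h2 f hf n m hn (by omega)
        refine h4.trans (ENNReal.ofReal_le_ofReal (le_of_eq ?_))
        rw [Real.rpow_zero, mul_one])) m hm
    refine h3.trans (ENNReal.ofReal_le_ofReal (le_of_eq ?_))
    congr 2
    rw [add_zero]
    congr 1
    rcases le_total (1 / θ - 1 / q) r with h5 | h5
    · rw [min_eq_left h5, max_eq_left (by linarith)]
      ring
    · rw [min_eq_right h5, max_eq_right (by linarith), sub_self]

end Run7.h481
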