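import Mathlib

namespace Run7.h481

open MeasureTheory UnitAddTorus

variable {ι : Type*} [Fintype ι]

/-- Normalised Haar measure on the torus. -/
noncomputable def mu (ι : Type*) [Fintype ι] : Measure (UnitAddTorus ι) :=
  Measure.pi (fun _ => AddCircle.haarAddCircle)

instance : IsProbabilityMeasure (mu ι) := by unfold mu; infer_instance

theorem cint {E : Type*} [NormedAddCommGroup E] {f : UnitAddTorus ι → E} (hf : Continuous f) :
    Integrable f (mu ι) :=
  hf.integrable_of_hasCompactSupport (HasCompactSupport.of_compactSpace f)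

theorem int_fourier (n : ℤ) : ∫ x, fourier n x ∂(AddCircle.haarAddCircle (T := 1))
    = if n = 0 then (1 : ℂ) else 0 := by
  have h := fourierCoeff_fourier (T := 1) n
  have h2 := congrFun h 0
  simp only [fourierCoeff, neg_zero, fourier_zero, one_smul] at h2
  rw [h2, Pi.single_apply]
  simp [eq_comm]

theorem int_e (k : ι → ℤ) : ∫ x, mFourier k x ∂(mu ι) = if k = 0 then (1 : ℂ) else 0 := by
  unfold mu
  simp only [mFourier, ContinuousMap.coe_mk]
  rw [integral_fintype_prod_eq_prod (fun i (x : UnitAddCircle) => (fourier (k i) x : ℂ))]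
  simp only [int_fourier]
  split_ifs with h
  · subst h; simp
  · have : ∃ i, k i ≠ 0 := by
      by_contra hc
      push Not at hc
      exact h (funext hc)
    obtain ⟨i, hi⟩ := this
    exact Finset.prod_eq_zero (Finset.mem_univ i) (by simp [hi])

theorem norm_e (k : ι → ℤ) (x : UnitAddTorus ι) : ‖mFourier k x‖ = 1 := by
  simp [mFourier, fourier_apply, norm_prod]

/-- trigonometric polynomials with spectrum in `S` -/
noncomputable def TP (S : Set (ι → ℤ)) : Submodule ℂ C(UnitAddTorus ι, ℂ) :=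
  Submodule.span ℂ (mFourier '' S)

theorem e_mem {S : Set (ι → ℤ)} {k : ι → ℤ} (h : k ∈ S) : mFourier k ∈ TP S :=
  Submodule.subset_span ⟨k, h, rfl⟩

theorem TP_mono {S S' : Set (ι → ℤ)} (h : S ⊆ S') : TP S ≤ TP S' :=
  Submodule.span_mono (Set.image_mono h)

theorem e_mul (k l : ι → ℤ) : mFourier k * mFourier l = mFourier (k + l) := by
  ext x
  simp [mFourier_add]

theorem e_star (k : ι → ℤ) : star (mFourier k) = mFourier (-k) := by
  ext x
  simp [mFourier_neg]

theorem TP_mul {S S' S'' : Set (ι → ℤ)} {f g : C(UnitAddTorus ι, ℂ)} (hf : f ∈ TP S)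
    (hg : g ∈ TP S') (h : ∀ a ∈ S, ∀ b ∈ S', a + b ∈ S'') : f * g ∈ TP S'' := by
  unfold TP at hf hg ⊢
  induction hf using Submodule.span_induction with
  | zero => simp
  | add x y _ _ hx hy => rw [add_mul]; exact Submodule.add_mem _ hx hy
  | smul c x _ hx => rw [smul_mul_assoc]; exact Submodule.smul_mem _ _ hx
  | mem x hx =>
    obtain ⟨a, ha, rfl⟩ := hx
    induction hg using Submodule.span_induction with
    | zero => simp
    | add x y _ _ hx hy => rw [mul_add]; exact Submodule.add_mem _ hx hy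
    | smul c x _ hx => rw [mul_smul_comm]; exact Submodule.smul_mem _ _ hx
    | mem y hy =>
      obtain ⟨b, hb, rfl⟩ := hy
      rw [e_mul]
      exact Submodule.subset_span ⟨a + b, h a ha b hb, rfl⟩

theorem TP_star {S S' : Set (ι → ℤ)} {f : C(UnitAddTorus ι, ℂ)} (hf : f ∈ TP S)
    (h : ∀ a ∈ S, -a ∈ S') : star f ∈ TP S' := by
  unfold TP at hf ⊢
  induction hf using Submodule.span_induction with
  | zero => simp
  | add x y _ _ hx hy => rw [star_add]; exact Submodule.add_mem _ hx hy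
  | smul c x _ hx => rw [star_smul]; exact Submodule.smul_mem _ _ hx
  | mem x hx =>
    obtain ⟨a, ha, rfl⟩ := hx
    rw [e_star]
    exact Submodule.subset_span ⟨-a, h a ha, rfl⟩

theorem TP_int {S : Set (ι → ℤ)} {f : C(UnitAddTorus ι, ℂ)} (hf : f ∈ TP S)
    (h : (0 : ι → ℤ) ∉ S) : ∫ x, f x ∂(mu ι) = 0 := by
  unfold TP at hf
  induction hf using Submodule.span_induction with
  | zero => simp
  | add x y _ _ hx hy =>
    simp only [ContinuousMap.add_apply]
    rw [integral_add (cint x.continuous) (cint y.continuous), hx, hy, add_zero]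
  | smul c x _ hx =>
    simp only [ContinuousMap.smul_apply]
    rw [integral_smul, hx, smul_zero]
  | mem x hx =>
    obtain ⟨a, ha, rfl⟩ := hx
    rw [int_e, if_neg]
    rintro rfl
    exact h ha

section TI

/-- trigonometric polynomials whose frequencies in coordinate `i` lie in `[a,b]` -/
noncomputable def TI (i : ι) (a b : ℤ) : Submodule ℂ C(UnitAddTorus ι, ℂ) :=
  TP {k | a ≤ k i ∧ k i ≤ b}

variable {i : ι} {a b a' b' : ℤ} {f g : C(UnitAddTorus ι, ℂ)}

theorem TI_mono (ha : a' ≤ a) (hb : b ≤ b') (hf : f ∈ TI i a b) : f ∈ TI i a' b' :=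
  TP_mono (S' := {k | a' ≤ k i ∧ k i ≤ b'}) (fun _ hk => ⟨ha.trans hk.1, hk.2.trans hb⟩) hf

theorem TI_mul (hf : f ∈ TI i a b) (hg : g ∈ TI i a' b') : f * g ∈ TI i (a + a') (b + b') :=
  TP_mul hf hg (fun k hk l hl => ⟨by simpa using add_le_add hk.1 hl.1,
    by simpa using add_le_add hk.2 hl.2⟩)

theorem TI_star (hf : f ∈ TI i a b) : star f ∈ TI i (-b) (-a) :=
  TP_star (S' := {k | -b ≤ k i ∧ k i ≤ -a}) hf
    (fun k hk => ⟨by simpa using hk.2, by simpa using hk.1⟩)

theorem TI_one : (1 : C(UnitAddTorus ι, ℂ)) ∈ TI i 0 0 := by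
  rw [← mFourier_zero]
  refine e_mem (k := (0 : ι → ℤ)) (S := {k | 0 ≤ k i ∧ k i ≤ 0}) ?_
  simp

theorem TI_pow (hf : f ∈ TI i a b) (n : ℕ) : f ^ n ∈ TI i (n * a) (n * b) := by
  induction n with
  | zero => simpa using TI_one
  | succ n ih =>
    rw [pow_succ]
    have := TI_mul ih hf
    have e1 : ((n + 1 : ℕ) : ℤ) * a = n * a + a := by push_cast; ring
    have e2 : ((n + 1 : ℕ) : ℤ) * b = n * b + b := by push_cast; ring
    rw [e1, e2]
    exact this

theorem TI_int_pos (hf : f ∈ TI i a b) (h : 0 < a) : ∫ x, f x ∂(mu ι) = 0 :=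
  TP_int hf (fun hk => by simpa using lt_of_lt_of_le h hk.1)

theorem TI_int_neg (hf : f ∈ TI i a b) (h : b < 0) : ∫ x, f x ∂(mu ι) = 0 :=
  TP_int hf (fun hk => by simpa using lt_of_le_of_lt hk.2 h)

end TI

section ei
variable [DecidableEq ι]

/-- the character `e(n x_i)` -/
noncomputable def ei (i : ι) (n : ℤ) : C(UnitAddTorus ι, ℂ) := mFourier (Pi.single i n)

theorem ei_mem (i : ι) (n : ℤ) : ei i n ∈ TI i n n := e_mem ⟨by simp, by simp⟩

theorem ei_mem' {i i' : ι} (h : i ≠ i') (n : ℤ) : ei i' n ∈ TI i 0 0 :=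
  e_mem ⟨by simp [h], by simp [h]⟩

theorem ei_mul (i : ι) (m n : ℤ) : ei i m * ei i n = ei i (m + n) := by
  unfold ei
  rw [e_mul, Pi.single_add]

theorem ei_star (i : ι) (n : ℤ) : star (ei i n) = ei i (-n) := by
  unfold ei
  rw [e_star, Pi.single_neg]

theorem norm_ei (i : ι) (n : ℤ) (x : UnitAddTorus ι) : ‖ei i n x‖ = 1 := norm_e _ _

end ei

end Run7.h481
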