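import Pool.Agent.Run7.h481.Core

namespace Run7.h481

open MeasureTheory UnitAddTorus ENNReal

variable {d : ℕ}

/-- Fourier coefficient -/
noncomputable def coef (f : UnitAddTorus (Fin d) → ℂ) (k : Fin d → ℤ) : ℂ :=
  ∫ x, f x * mFourier (-k) x ∂(mu (Fin d))

/-- dyadic block -/
noncomputable def blk (s : Fin d → ℕ) (f : UnitAddTorus (Fin d) → ℂ)
    (x : UnitAddTorus (Fin d)) : ℂ := ∑ k ∈ rho s, coef f k * mFourier k x

/-- weighted norm of a block -/
noncomputable def wt (r q : ℝ) (f : UnitAddTorus (Fin d) → ℂ) (s : Fin d → ℕ) : ℝ≥0∞ :=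
  ENNReal.ofReal ((2 : ℝ) ^ (r * ∑ j, (s j : ℝ))) * eLpNorm (blk s f) (ENNReal.ofReal q) (mu (Fin d))

/-- Nikolskii class -/
def HC (d : ℕ) (r q : ℝ) : Set (UnitAddTorus (Fin d) → ℂ) :=
  {f | MemLp f (ENNReal.ofReal q) (mu (Fin d)) ∧ ∀ s, wt r q f s ≤ 1}

/-- Besov class -/
def BC (d : ℕ) (r q θ : ℝ) : Set (UnitAddTorus (Fin d) → ℂ) :=
  {f | MemLp f (ENNReal.ofReal q) (mu (Fin d)) ∧ ∑' s, (wt r q f s) ^ θ ≤ 1}

/-- best m-term approximation -/
noncomputable def sig (m : ℕ) (p : ℝ) (f : UnitAddTorus (Fin d) → ℂ) : ℝ≥0∞ :=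
  ⨅ (K : Fin m → Fin d → ℤ) (c : Fin m → ℂ),
    eLpNorm (fun x => f x - ∑ i, c i * mFourier (K i) x) (ENNReal.ofReal p) (mu (Fin d))

/-- best m-term approximation of a class -/
noncomputable def sigC (m : ℕ) (p : ℝ) (F : Set (UnitAddTorus (Fin d) → ℂ)) : ℝ≥0∞ :=
  ⨆ f ∈ F, sig m p f

theorem coef_eq (f : C(UnitAddTorus (Fin d), ℂ)) (k : Fin d → ℤ) :
    coef f k = ip f (mFourier k) := by
  unfold coef ip
  congr 1
  ext x
  rw [mFourier_neg]
  rfl

theorem coef_TP {S : Set (Fin d → ℤ)} {f : C(UnitAddTorus (Fin d), ℂ)} (hf : f ∈ TP S)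
    {k : Fin d → ℤ} (hk : k ∉ S) : coef f k = 0 := by
  rw [coef_eq]
  unfold TP at hf
  induction hf using Submodule.span_induction with
  | zero => simp [ip]
  | add x y _ _ hx hy =>
    have h := ip_sum_left (Finset.univ : Finset (Fin 2)) ![x, y] (mFourier k)
    simp only [Fin.sum_univ_two, Matrix.cons_val_zero, Matrix.cons_val_one] at h
    rw [h, hx, hy, add_zero]
  | smul c x _ hx => rw [ip_smul_left, hx, mul_zero]
  | mem x hx =>
    obtain ⟨a, ha, rfl⟩ := hx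
    rw [ip_e, if_neg]
    rintro rfl
    exact hk ha

theorem recon_TP {S : Finset (Fin d → ℤ)} {f : C(UnitAddTorus (Fin d), ℂ)}
    (hf : f ∈ TP (S : Set (Fin d → ℤ))) (x : UnitAddTorus (Fin d)) :
    ∑ k ∈ S, coef f k * mFourier k x = f x := by
  simp only [coef_eq]
  unfold TP at hf
  induction hf using Submodule.span_induction with
  | zero => simp [ip]
  | add f g _ _ hx hy =>
    have h : ∀ k, ip (f + g) (mFourier k) = ip f (mFourier k) + ip g (mFourier k) := by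
      intro k
      have h := ip_sum_left (Finset.univ : Finset (Fin 2)) ![f, g] (mFourier k)
      simpa only [Fin.sum_univ_two, Matrix.cons_val_zero, Matrix.cons_val_one] using h
    simp only [h, add_mul, Finset.sum_add_distrib, hx, hy, ContinuousMap.add_apply]
  | smul c f _ hx =>
    simp only [ip_smul_left, mul_assoc, ← Finset.mul_sum, hx, ContinuousMap.smul_apply, smul_eq_mul]
  | mem f hf =>
    obtain ⟨a, ha, rfl⟩ := hf
    simp only [ip_e, ite_mul, one_mul, zero_mul]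
    rw [Finset.sum_ite_eq, if_pos (Finset.mem_coe.mp ha)]

theorem coef_sum {J : Type*} (s : Finset J) (g : J → C(UnitAddTorus (Fin d), ℂ))
    (k : Fin d → ℤ) : coef (∑ j ∈ s, g j : C(UnitAddTorus (Fin d), ℂ)) k = ∑ j ∈ s, coef (g j) k := by
  simp only [coef_eq]
  rw [ip_sum_left]

theorem rho_inj {s s' : Fin d → ℕ} {k : Fin d → ℤ} (h : k ∈ rho s) (h' : k ∈ rho s') : s = s' := by
  have key : ∀ {a b : ℕ} {x : ℤ}, ((2 ^ a / 2 : ℕ) : ℤ) ≤ |x| → |x| < 2 ^ a →
      ((2 ^ b / 2 : ℕ) : ℤ) ≤ |x| → |x| < 2 ^ b → ¬ a < b := by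
    intro a b x _ h2 h3 _ hlt
    rw [half_pow_nat b (by omega)] at h3
    have : (2 : ℤ) ^ a ≤ 2 ^ (b - 1) := pow_le_pow_right₀ (by norm_num) (by omega)
    linarith
  rw [mem_rho] at h h'
  funext j
  have h1 := h j
  have h2 := h' j
  rcases lt_trichotomy (s j) (s' j) with hl | hl | hl
  · exact absurd hl (key h1.1 h1.2 h2.1 h2.2)
  · exact hl
  · exact absurd hl (key h2.1 h2.2 h1.1 h1.2)

section family

variable {J : Type*} [Fintype J] (g : J → C(UnitAddTorus (Fin d), ℂ)) (s : J → Fin d → ℕ)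

theorem blk_family (hs : Function.Injective s)
    (hg : ∀ j, g j ∈ TP (rho (s j) : Set (Fin d → ℤ))) (j : J) :
    blk (s j) (∑ j, g j : C(UnitAddTorus (Fin d), ℂ)) = g j := by
  classical
  ext x
  unfold blk
  have h1 : ∀ k ∈ rho (s j), coef (∑ j, g j : C(UnitAddTorus (Fin d), ℂ)) k = coef (g j) k := by
    intro k hk
    rw [coef_sum, Finset.sum_eq_single j]
    · intro j' _ hne
      refine coef_TP (hg j') (fun hk' => hne ?_)
      exact hs (rho_inj hk' hk)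
    · intro h; exact absurd (Finset.mem_univ _) h
  rw [Finset.sum_congr rfl (fun k hk => by rw [h1 k hk])]
  exact recon_TP (hg j) x

theorem blk_family_zero (hg : ∀ j, g j ∈ TP (rho (s j) : Set (Fin d → ℤ))) (s' : Fin d → ℕ)
    (hs' : ∀ j, s j ≠ s') :
    blk s' (∑ j, g j : C(UnitAddTorus (Fin d), ℂ)) = 0 := by
  ext x
  unfold blk
  refine Finset.sum_eq_zero (fun k hk => ?_)
  rw [coef_sum, Finset.sum_eq_zero, zero_mul]
  intro j _
  exact coef_TP (hg j) (fun hk' => hs' j (rho_inj hk' hk))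

theorem family_HC (hs : Function.Injective s)
    (hg : ∀ j, g j ∈ TP (rho (s j) : Set (Fin d → ℤ))) {r q : ℝ}
    (hb : ∀ j, ENNReal.ofReal ((2 : ℝ) ^ (r * ∑ i, (s j i : ℝ)))
      * eLpNorm (g j) (ENNReal.ofReal q) (mu (Fin d)) ≤ 1) :
    (⇑(∑ j, g j : C(UnitAddTorus (Fin d), ℂ))) ∈ HC d r q := by
  refine ⟨memLp_cont _ _, fun s' => ?_⟩
  unfold wt
  by_cases h : ∃ j, s j = s'
  · obtain ⟨j, rfl⟩ := h
    rw [blk_family g s hs hg]
    exact hb j
  · push Not at h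
    rw [blk_family_zero g s hg s' h]
    simp

theorem family_BC (hs : Function.Injective s)
    (hg : ∀ j, g j ∈ TP (rho (s j) : Set (Fin d → ℤ))) {r q θ : ℝ} (hθ : 0 < θ)
    (b : ℝ≥0∞) (hb : ∀ j, ENNReal.ofReal ((2 : ℝ) ^ (r * ∑ i, (s j i : ℝ)))
      * eLpNorm (g j) (ENNReal.ofReal q) (mu (Fin d)) ≤ b)
    (hb1 : (Fintype.card J : ℝ≥0∞) * b ^ θ ≤ 1) :
    (⇑(∑ j, g j : C(UnitAddTorus (Fin d), ℂ))) ∈ BC d r q θ := by
  classical
  refine ⟨memLp_cont _ _, ?_⟩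
  have h1 : ∀ s' ∉ (Finset.univ.image s), (wt r q (⇑(∑ j, g j : C(UnitAddTorus (Fin d), ℂ))) s') ^ θ = 0 := by
    intro s' hs'
    have h : ∀ j, s j ≠ s' := by
      intro j hj
      exact hs' (Finset.mem_image.mpr ⟨j, Finset.mem_univ _, hj⟩)
    unfold wt
    rw [blk_family_zero g s hg s' h]
    simp [hθ]
  rw [tsum_eq_sum h1, Finset.sum_image (fun a _ b _ h => hs h)]
  refine le_trans ?_ hb1
  calc ∑ j, (wt r q (⇑(∑ j, g j : C(UnitAddTorus (Fin d), ℂ))) (s j)) ^ θ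
      ≤ ∑ _j : J, b ^ θ := by
        refine Finset.sum_le_sum (fun j _ => ?_)
        refine ENNReal.rpow_le_rpow ?_ hθ.le
        unfold wt
        rw [blk_family g s hs hg]
        exact hb j
    _ = _ := by rw [Finset.sum_const, Finset.card_univ, nsmul_eq_mul]

end family

theorem ff_TP {l κ e n : ℕ} (hb : Big l κ e n) {j : Fin e → ℕ} (hj : ∀ i, j i < LL l κ)
    (ε : (Fin (e + 1) → ℤ) → ℝ) :
    ff l κ n j ε ∈ TP (rho (sv l κ n j) : Set (Fin (e + 1) → ℤ)) := by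
  unfold ff poly
  refine Submodule.sum_mem _ (fun ν _ => Submodule.sum_mem _ (fun ν' _ => ?_))
  rw [Finset.mul_sum]
  refine Submodule.sum_mem _ (fun k hk => ?_)
  rw [mul_smul_comm, e_mul]
  refine Submodule.smul_mem _ _ (e_mem ?_)
  refine vv_mem_rho hb hj (fun i => ?_) hk
  have h1 := (ν i).2
  have h2 := (ν' i).2
  have h3 := LL_eq l κ
  omega

end Run7.h481
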