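import Pool.Agent.Run7.h481.FF

namespace Run7.h481

open MeasureTheory UnitAddTorus

attribute [local irreducible] LL MM LP

variable {l κ e n : ℕ}

/-- first components as naturals -/
def jc {e L : ℕ} (u : Fin e → Fin L × Fin L) : Fin e → ℕ := fun i => ((u i).1 : ℕ)

/-- second components as naturals -/
def hc {e L : ℕ} (u : Fin e → Fin L × Fin L) : Fin e → ℕ := fun i => ((u i).2 : ℕ)

theorem jc_lt {e L : ℕ} (u : Fin e → Fin L × Fin L) (i : Fin e) : jc u i < L := (u i).1.2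
theorem hc_lt {e L : ℕ} (u : Fin e → Fin L × Fin L) (i : Fin e) : hc u i < L := (u i).2.2

/-- the dual polynomial -/
noncomputable def hh (l κ n : ℕ) {e : ℕ}
    (c : (Fin e → Fin (LL l κ) × Fin (LL l κ)) → (Fin (e + 1) → ℤ) → ℝ) :
    C(UnitAddTorus (Fin (e + 1)), ℂ) :=
  ∑ u : Fin e → Fin (LL l κ) × Fin (LL l κ),
    mFourier (vv l κ n (jc u) (hc u)) * poly (RR l κ n (jc u)) (c u)

theorem vv_prod (j η : Fin e → ℕ) : mFourier (vv l κ n j η)
    = ei 0 (2 ^ (s0 l κ n j - 1)) * ∏ s : Fin e,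
      ei s.succ ((MM l (j s) : ℤ) * ((LL l κ + η s : ℕ) : ℤ)) := by
  have h : ∀ (s : Finset (Fin e)) (a : Fin e → ℤ),
      (∏ i ∈ s, ei (Fin.succ i) (a i) : C(UnitAddTorus (Fin (e + 1)), ℂ))
        = mFourier (∑ i ∈ s, Pi.single (Fin.succ i) (a i)) := by
    intro s a
    induction s using Finset.induction_on with
    | empty => simp [mFourier_zero]
    | insert i s hi ih => rw [Finset.prod_insert hi, Finset.sum_insert hi, ih, ei, e_mul]
  rw [h, ei, e_mul]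
  congr 1
  funext i
  refine Fin.cases ?_ (fun i => ?_) i
  · simp [vv, Finset.sum_apply]
  · simp only [vv, Fin.cons_succ, Pi.add_apply, Finset.sum_apply, Pi.single_apply]
    rw [if_neg (Fin.succ_ne_zero i), zero_add, Finset.sum_eq_single i]
    · simp
    · intro b _ hb
      rw [if_neg]
      intro h'
      exact hb (Fin.succ_injective _ h').symm
    · simp

theorem poly_mem (j : Fin e → ℕ) (c : (Fin (e + 1) → ℤ) → ℝ) (s : Fin e) :
    poly (RR l κ n j) c ∈ TI s.succ 0 (MM l (j s)) := by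
  unfold poly
  refine Submodule.sum_mem _ (fun k hk => Submodule.smul_mem _ _ (e_mem ?_))
  rw [mem_RR] at hk
  exact ⟨(hk.2 s).1, (hk.2 s).2.le⟩

theorem hh_norm (e l : ℕ) (hl : 1 ≤ l) : ∃ C : ℝ, 0 < C ∧ ∀ (κ n : ℕ)
    (c : (Fin e → Fin (LL l κ) × Fin (LL l κ)) → (Fin (e + 1) → ℤ) → ℝ) (B : ℝ) (_ : 0 ≤ B)
    (_ : ∀ u, ∫ x, ‖poly (RR l κ n (jc u)) (c u) x‖ ^ (2 * l + 2) ∂(mu (Fin (e + 1))) ≤ B),
    ∫ x, ‖hh l κ n c x‖ ^ (2 * l + 2) ∂(mu (Fin (e + 1)))
      ≤ (C * (LL l κ : ℝ) ^ (2 * l + 2)) ^ e * B := by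
  obtain ⟨C, hC, h⟩ := multi (Fin (e + 1)) l hl
  refine ⟨C, hC, ?_⟩
  intro κ n c B hB0 hB
  have h1 := h κ e Fin.succ (Fin.succ_injective _)
    (fun u => ei 0 (2 ^ (s0 l κ n (jc u) - 1)) * poly (RR l κ n (jc u)) (c u))
    (fun u s => by
      have h2 := TI_mul (ei_mem' (i := s.succ) (i' := 0) (Fin.succ_ne_zero s)
        (2 ^ (s0 l κ n (jc u) - 1))) (poly_mem (l := l) (κ := κ) (n := n) (jc u) (c u) s)
      rwa [add_zero, zero_add] at h2) B hB0
    (fun u => by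
      refine le_trans (le_of_eq ?_) (hB u)
      congr 1
      ext x
      rw [ContinuousMap.mul_apply, norm_mul, norm_ei, one_mul])
  have e1 : hh l κ n c = ∑ u : Fin e → Fin (LL l κ) × Fin (LL l κ),
      (ei 0 (2 ^ (s0 l κ n (jc u) - 1)) * poly (RR l κ n (jc u)) (c u))
        * ∏ s, ei s.succ ((MM l (u s).1 : ℤ) * (LL l κ + ((u s).2 : ℕ) : ℕ)) := by
    unfold hh
    refine Finset.sum_congr rfl (fun u _ => ?_)
    rw [vv_prod]
    simp only [jc, hc]
    ring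
  rw [e1]
  exact h1

/-- orthogonality of `h` to the characters of `Λ` -/
theorem hh_orth (c : (Fin e → Fin (LL l κ) × Fin (LL l κ)) → (Fin (e + 1) → ℤ) → ℝ)
    (k : Fin (e + 1) → ℤ)
    (hc0 : ∀ u, ∀ k' ∈ RR l κ n (jc u), k = vv l κ n (jc u) (hc u) + k' → c u k' = 0) :
    ip (mFourier k) (hh l κ n c) = 0 := by
  unfold hh
  rw [ip_sum_right]
  refine Finset.sum_eq_zero (fun u _ => ?_)
  unfold poly
  rw [Finset.mul_sum, ip_sum_right]
  refine Finset.sum_eq_zero (fun k' hk' => ?_)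
  rw [mul_smul_comm, e_mul, ip_smul_right, ip_e]
  split_ifs with h
  · rw [hc0 u k' hk' h]
    simp
  · simp

/-- pair index -/
def pr {e L : ℕ} (j η : Fin e → Fin L) : Fin e → Fin L × Fin L := fun i => (j i, η i)

/-- sum of two short indices -/
def add2 {l κ e : ℕ} (ν ν' : Fin e → Fin (LP l κ)) : Fin e → Fin (LL l κ) :=
  fun i => ⟨(ν i : ℕ) + (ν' i : ℕ), by
    have h1 := (ν i).2
    have h2 := (ν' i).2
    have h3 := LL_eq l κ
    omega⟩

theorem ip_ff (j : Fin e → Fin (LL l κ)) (ε : (Fin (e + 1) → ℤ) → ℝ)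
    (c : (Fin e → Fin (LL l κ) × Fin (LL l κ)) → (Fin (e + 1) → ℤ) → ℝ) :
    ip (ff l κ n (fun i => (j i : ℕ)) ε) (hh l κ n c)
      = ((∑ ν : Fin e → Fin (LP l κ), ∑ ν' : Fin e → Fin (LP l κ),
        ∑ k ∈ RR l κ n (fun i => (j i : ℕ)), ε k * c (pr j (add2 ν ν')) k : ℝ) : ℂ) := by
  unfold ff hh
  rw [ip_sum_left]
  push_cast
  refine Finset.sum_congr rfl (fun ν _ => ?_)
  rw [ip_sum_left]
  refine Finset.sum_congr rfl (fun ν' _ => ?_)
  rw [ip_sum_right, Finset.sum_eq_single (pr j (add2 ν ν'))]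
  · have e1 : jc (pr j (add2 ν ν')) = fun i => (j i : ℕ) := rfl
    have e2 : hc (pr j (add2 ν ν')) = fun i => (ν i : ℕ) + (ν' i : ℕ) := rfl
    rw [e1, e2, ip_poly_same]
    push_cast
    rfl
  · intro u _ hu
    refine ip_poly_disj _ _ _ _ _ _ (fun k hk k' hk' heq => hu ?_)
    have h3 := LL_eq l κ
    have := vv_disj (fun i => by have := (ν i).2; have := (ν' i).2; omega) (hc_lt u) hk hk' heq
    funext i
    refine Prod.ext (Fin.ext ?_) (Fin.ext ?_)
    · exact (congrFun this.1 i).symm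
    · exact (congrFun this.2 i).symm
  · intro h
    exact absurd (Finset.mem_univ _) h

/-- few bad indices -/
theorem bad_card (Λ : Finset (Fin (e + 1) → ℤ)) (E : ℕ)
    (bad : Finset (Fin e → Fin (LL l κ) × Fin (LL l κ)))
    (hbad : ∀ u ∈ bad, E ≤ (RR l κ n (jc u) ∩
      Λ.image (fun k => k - vv l κ n (jc u) (hc u))).card) : bad.card * E ≤ Λ.card := by
  classical
  set S : (Fin e → Fin (LL l κ) × Fin (LL l κ)) → Finset (Fin (e + 1) → ℤ) := fun u =>
    (RR l κ n (jc u) ∩ Λ.image (fun k => k - vv l κ n (jc u) (hc u))).image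
      (fun k => vv l κ n (jc u) (hc u) + k) with hS
  have h1 : ∀ u, (S u).card = (RR l κ n (jc u) ∩
      Λ.image (fun k => k - vv l κ n (jc u) (hc u))).card := by
    intro u
    rw [hS]
    exact Finset.card_image_of_injective _ (fun a b hab => add_left_cancel hab)
  have h2 : ∀ u, S u ⊆ Λ := by
    intro u k hk
    rw [hS] at hk
    simp only [Finset.mem_image, Finset.mem_inter] at hk
    obtain ⟨k', ⟨_, k'', hk'', rfl⟩, rfl⟩ := hk
    simpa using hk''
  have h3 : ∀ u ∈ bad, ∀ u' ∈ bad, u ≠ u' → Disjoint (S u) (S u') := by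
    intro u _ u' _ hne
    rw [Finset.disjoint_left]
    intro k hk hk'
    rw [hS] at hk hk'
    simp only [Finset.mem_image, Finset.mem_inter] at hk hk'
    obtain ⟨k1, ⟨hk1, _⟩, rfl⟩ := hk
    obtain ⟨k2, ⟨hk2, _⟩, heq⟩ := hk'
    have := vv_disj (hc_lt u') (hc_lt u) hk2 hk1 heq
    apply hne
    funext i
    refine Prod.ext (Fin.ext ?_) (Fin.ext ?_)
    · exact (congrFun this.1 i).symm
    · exact (congrFun this.2 i).symm
  calc bad.card * E = ∑ u ∈ bad, E := by rw [Finset.sum_const, smul_eq_mul]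
    _ ≤ ∑ u ∈ bad, (S u).card := by
      refine Finset.sum_le_sum (fun u hu => ?_)
      rw [h1]
      exact hbad u hu
    _ = (bad.biUnion S).card := (Finset.card_biUnion h3).symm
    _ ≤ Λ.card := Finset.card_le_card (Finset.biUnion_subset.mpr (fun u _ => h2 u))

/-- few bad triples -/
theorem bad_triples (bad : Finset (Fin e → Fin (LL l κ) × Fin (LL l κ))) :
    (Finset.univ.filter (fun y : (Fin e → Fin (LL l κ)) × (Fin e → Fin (LP l κ))
      × (Fin e → Fin (LP l κ)) => pr y.1 (add2 y.2.1 y.2.2) ∈ bad)).card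
      ≤ (LP l κ) ^ e * bad.card := by
  classical
  have h1 : (Finset.univ.filter (fun y : (Fin e → Fin (LL l κ)) × (Fin e → Fin (LP l κ))
      × (Fin e → Fin (LP l κ)) => pr y.1 (add2 y.2.1 y.2.2) ∈ bad)).card
      ≤ ((Finset.univ : Finset (Fin e → Fin (LP l κ))) ×ˢ bad).card := by
    refine Finset.card_le_card_of_injOn (fun y => (y.2.1, pr y.1 (add2 y.2.1 y.2.2))) ?_ ?_
    · intro y hy
      rw [Finset.mem_coe, Finset.mem_filter] at hy
      rw [Finset.mem_coe, Finset.mem_product]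
      exact ⟨Finset.mem_univ _, hy.2⟩
    · rintro ⟨j, ν, ν'⟩ _ ⟨j', μ, μ'⟩ _ heq
      simp only [Prod.mk.injEq] at heq
      obtain ⟨h2, h3⟩ := heq
      subst h2
      have h4 : j = j' := by
        funext i
        have := congrArg Prod.fst (congrFun h3 i)
        exact this
      subst h4
      have h5 : ν' = μ' := by
        funext i
        have := congrArg (fun z => ((Prod.snd z : Fin (LL l κ)) : ℕ)) (congrFun h3 i)
        simp only [pr, add2] at this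
        exact Fin.ext (by omega)
      subst h5
      rfl
  refine h1.trans (le_of_eq ?_)
  rw [Finset.card_product, Finset.card_univ, Fintype.card_pi, Finset.prod_const, Finset.card_univ,
    Fintype.card_fin, Fintype.card_fin]

theorem core (e l : ℕ) (hl : 1 ≤ l) : ∃ c : ℝ, 0 < c ∧ ∀ (κ n m : ℕ), Big l κ e n →
    2 ^ (e + 1) * m ≤ 2 ^ (n - 7 - e * ((8 * l + 8) * (κ + 1) + 1)) * (LL l κ) ^ (2 * e) →
    ∃ ε : (Fin e → Fin (LL l κ)) → (Fin (e + 1) → ℤ) → ℝ, (∀ j k, ε j k = 1 ∨ ε j k = -1) ∧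
    ∀ (p : ℝ), 1 < p → p / (p - 1) ≤ 2 * l + 2 → ∀ (K : Fin m → Fin (e + 1) → ℤ) (a : Fin m → ℂ),
      ENNReal.ofReal (c * Real.sqrt (64 * 2 ^ (n - 7 - e * ((8 * l + 8) * (κ + 1) + 1)))
        * (LP l κ : ℝ) ^ (2 * e))
      ≤ eLpNorm ((∑ j, ff l κ n (fun i => (j i : ℕ)) (ε j)) - ∑ i, a i • mFourier (K i) :
        C(UnitAddTorus (Fin (e + 1)), ℂ)) (ENNReal.ofReal p) (mu (Fin (e + 1))) := by
  classical
  obtain ⟨C1, hC1, hRB⟩ := RB (Fin (e + 1)) l
  obtain ⟨C2, hC2, hnorm⟩ := hh_norm e l hl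
  set C3 : ℝ := (C2 ^ e * C1) ^ ((1 : ℝ) / (2 * l + 2)) with hC3
  have hC3p : 0 < C3 := by positivity
  refine ⟨(64 * C3)⁻¹, by positivity, ?_⟩
  intro κ n m hb hm
  set E : ℕ := 2 ^ (n - 7 - e * ((8 * l + 8) * (κ + 1) + 1)) with hE
  have hE1 : 1 ≤ E := Nat.one_le_two_pow
  have hcard : ∀ j : Fin e → ℕ, (∀ i, j i < LL l κ) → (RR l κ n j).card = 64 * E :=
    fun j hj => card_RR hb j hj
  -- choose the signs
  have hch : ∀ j : Fin e → Fin (LL l κ), ∃ ε : (Fin (e + 1) → ℤ) → ℝ,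
      (∀ k, ε k = 1 ∨ ε k = -1) ∧
      ∀ Λ : Finset (Fin (e + 1) → ℤ), (RR l κ n (fun i => (j i : ℕ)) ∩ Λ).card ≤ E →
        ∃ c : (Fin (e + 1) → ℤ) → ℝ, (∀ k ∈ Λ, c k = 0) ∧
        (∫ x, ‖poly (RR l κ n (fun i => (j i : ℕ))) c x‖ ^ (2 * l + 2) ∂(mu (Fin (e + 1)))
          ≤ C1 * ((RR l κ n (fun i => (j i : ℕ))).card : ℝ) ^ (l + 1)) ∧
        2 * (E : ℝ) ≤ ∑ k ∈ RR l κ n (fun i => (j i : ℕ)), ε k * c k :=
    fun j => hRB _ E hE1 (hcard _ (fun i => (j i).2))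
  choose ε hε1 hε2 using hch
  refine ⟨ε, hε1, ?_⟩
  intro p hp hpl K a
  set Λ : Finset (Fin (e + 1) → ℤ) := Finset.univ.image K with hΛ
  have hΛc : Λ.card ≤ m := by
    refine Finset.card_image_le.trans (le_of_eq ?_)
    rw [Finset.card_univ, Fintype.card_fin]
  -- translated sets
  set Λu : (Fin e → Fin (LL l κ) × Fin (LL l κ)) → Finset (Fin (e + 1) → ℤ) := fun u =>
    Λ.image (fun k => k - vv l κ n (jc u) (hc u)) with hΛu
  have hc : ∀ u : Fin e → Fin (LL l κ) × Fin (LL l κ), ∃ c : (Fin (e + 1) → ℤ) → ℝ,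
      (∀ k ∈ Λu u, c k = 0) ∧
      (∫ x, ‖poly (RR l κ n (jc u)) c x‖ ^ (2 * l + 2) ∂(mu (Fin (e + 1)))
          ≤ C1 * ((64 * E : ℕ) : ℝ) ^ (l + 1)) ∧
      (0 ≤ ∑ k ∈ RR l κ n (jc u), ε (fun i => (u i).1) k * c k) ∧
      ((RR l κ n (jc u) ∩ Λu u).card ≤ E →
        2 * (E : ℝ) ≤ ∑ k ∈ RR l κ n (jc u), ε (fun i => (u i).1) k * c k) := by
    intro u
    by_cases hg : (RR l κ n (jc u) ∩ Λu u).card ≤ E
    · obtain ⟨c, h1, h2, h3⟩ := hε2 (fun i => (u i).1) (Λu u) hg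
      refine ⟨c, h1, ?_, ?_, fun _ => h3⟩
      · rw [hcard _ (fun i => ((u i).1).2)] at h2
        exact h2
      · exact le_trans (by positivity) h3
    · refine ⟨fun _ => 0, fun _ _ => rfl, ?_, by simp, fun h => absurd h hg⟩
      have : poly (RR l κ n (jc u)) (fun _ => 0) = 0 := by
        ext x
        simp [poly_apply]
      rw [this]
      simp only [ContinuousMap.zero_apply, norm_zero]
      rw [zero_pow (by omega)]
      simp only [integral_zero]
      positivity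
  choose c hc1 hc2 hc3 hc4 using hc
  set h := hh l κ n c with hh_def
  -- norm of `h`
  have hhn := hnorm κ n c (C1 * ((64 * E : ℕ) : ℝ) ^ (l + 1)) (by positivity) hc2
  rw [← hh_def] at hhn
  set D : ℝ := ((64 * E : ℕ) : ℝ) with hD
  have hD0 : 0 < D := by rw [hD]; positivity
  have hL0 : (0 : ℝ) < LL l κ := by exact_mod_cast LL_pos l κ
  have hP0 : (0 : ℝ) < LP l κ := by exact_mod_cast LP_pos l κ
  have hroot : (∫ x, ‖h x‖ ^ (2 * l + 2) ∂(mu (Fin (e + 1)))) ^ ((1 : ℝ) / (2 * l + 2))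
      ≤ C3 * (LL l κ : ℝ) ^ e * Real.sqrt D := by
    have hnn : 0 ≤ ∫ x, ‖h x‖ ^ (2 * l + 2) ∂(mu (Fin (e + 1))) :=
      integral_nonneg (fun x => by positivity)
    calc (∫ x, ‖h x‖ ^ (2 * l + 2) ∂(mu (Fin (e + 1)))) ^ ((1 : ℝ) / (2 * l + 2))
        ≤ ((C2 * (LL l κ : ℝ) ^ (2 * l + 2)) ^ e * (C1 * D ^ (l + 1))) ^ ((1 : ℝ) / (2 * l + 2)) :=
          Real.rpow_le_rpow hnn hhn (by positivity)
      _ = ((C2 ^ e * C1) * (((LL l κ : ℝ) ^ e) ^ (2 * l + 2) * (Real.sqrt D) ^ (2 * l + 2)))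
          ^ ((1 : ℝ) / (2 * l + 2)) := by
          congr 1
          have h1 : (Real.sqrt D) ^ (2 * l + 2) = D ^ (l + 1) := by
            rw [show 2 * l + 2 = 2 * (l + 1) by ring, pow_mul, Real.sq_sqrt hD0.le]
          rw [h1, mul_pow, ← pow_mul, ← pow_mul, mul_comm e (2 * l + 2)]
          ring
      _ = _ := by
          rw [Real.mul_rpow (by positivity) (by positivity), ← mul_pow, ← hC3]
          have h2 : (1 : ℝ) / (2 * l + 2) = ((2 * l + 2 : ℕ) : ℝ)⁻¹ := by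
            push_cast
            rw [one_div]
          rw [h2, Real.pow_rpow_inv_natCast (by positivity) (by omega)]
          ring
  -- orthogonality
  set F : C(UnitAddTorus (Fin (e + 1)), ℂ) := ∑ j, ff l κ n (fun i => (j i : ℕ)) (ε j) with hF
  have horth : ip (∑ i, a i • mFourier (K i)) h = 0 := by
    rw [ip_sum_left]
    refine Finset.sum_eq_zero (fun i _ => ?_)
    rw [ip_smul_left, hh_def, hh_orth, mul_zero]
    intro u k' hk' heq
    refine hc1 u k' ?_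
    rw [hΛu]
    simp only [Finset.mem_image]
    refine ⟨K i, ?_, ?_⟩
    · rw [hΛ, Finset.mem_image]
      exact ⟨i, Finset.mem_univ _, rfl⟩
    · rw [heq]
      simp
  -- the inner product
  set S : (Fin e → Fin (LL l κ)) × (Fin e → Fin (LP l κ)) × (Fin e → Fin (LP l κ)) → ℝ :=
    fun y => ∑ k ∈ RR l κ n (fun i => (y.1 i : ℕ)), ε y.1 k * c (pr y.1 (add2 y.2.1 y.2.2)) k with hS
  have hipF : ip F h = ((∑ y, S y : ℝ) : ℂ) := by
    rw [hF, ip_sum_left, hh_def]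
    simp only [ip_ff]
    rw [Fintype.sum_prod_type]
    push_cast
    refine Finset.sum_congr rfl (fun j _ => ?_)
    rw [Fintype.sum_prod_type]
    refine Finset.sum_congr rfl (fun ν _ => Finset.sum_congr rfl (fun ν' _ => ?_))
    simp only [hS]
    push_cast
    rfl
  have hS0 : ∀ y, 0 ≤ S y := fun y => hc3 (pr y.1 (add2 y.2.1 y.2.2))
  set bad : Finset (Fin e → Fin (LL l κ) × Fin (LL l κ)) :=
    Finset.univ.filter (fun u => ¬ (RR l κ n (jc u) ∩ Λu u).card ≤ E) with hbad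
  have hbadc : bad.card * E ≤ m := by
    refine le_trans (bad_card (n := n) Λ E bad (fun u hu => ?_)) hΛc
    rw [hbad, Finset.mem_filter] at hu
    exact (not_le.mp hu.2).le
  have hSg : ∀ y, pr y.1 (add2 y.2.1 y.2.2) ∉ bad → 2 * (E : ℝ) ≤ S y := by
    intro y hy
    refine hc4 (pr y.1 (add2 y.2.1 y.2.2)) ?_
    by_contra hcon
    apply hy
    rw [hbad, Finset.mem_filter]
    exact ⟨Finset.mem_univ _, hcon⟩
  have htri := bad_triples bad
  set T := (Finset.univ.filter (fun y : (Fin e → Fin (LL l κ)) × (Fin e → Fin (LP l κ))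
      × (Fin e → Fin (LP l κ)) => pr y.1 (add2 y.2.1 y.2.2) ∈ bad)) with hT
  set T' := (Finset.univ.filter (fun y : (Fin e → Fin (LL l κ)) × (Fin e → Fin (LP l κ))
      × (Fin e → Fin (LP l κ)) => ¬ pr y.1 (add2 y.2.1 y.2.2) ∈ bad)) with hT'
  have htot : T.card + T'.card = (LL l κ) ^ e * ((LP l κ) ^ e * (LP l κ) ^ e) := by
    have h1 := Finset.card_filter_add_card_filter_not
      (s := (Finset.univ : Finset ((Fin e → Fin (LL l κ)) × (Fin e → Fin (LP l κ))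
      × (Fin e → Fin (LP l κ))))) (fun y => pr y.1 (add2 y.2.1 y.2.2) ∈ bad)
    rw [Finset.card_univ, Fintype.card_prod, Fintype.card_prod, Fintype.card_pi, Fintype.card_pi,
      Finset.prod_const, Finset.prod_const, Finset.card_univ, Fintype.card_fin, Fintype.card_fin,
      Fintype.card_fin] at h1
    exact h1
  -- count
  have hcount : (LL l κ) ^ e * ((LP l κ) ^ e * (LP l κ) ^ e) ≤ 2 * T'.card := by
    have h1 : 2 ^ (e + 1) * bad.card ≤ (LL l κ) ^ (2 * e) := by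
      have h2 : (2 ^ (e + 1) * bad.card) * E ≤ (LL l κ) ^ (2 * e) * E := by
        calc (2 ^ (e + 1) * bad.card) * E = 2 ^ (e + 1) * (bad.card * E) := by ring
          _ ≤ 2 ^ (e + 1) * m := Nat.mul_le_mul_left _ hbadc
          _ ≤ E * (LL l κ) ^ (2 * e) := hm
          _ = _ := mul_comm _ _
      exact Nat.le_of_mul_le_mul_right h2 (by omega)
    have h3 : 2 * T.card ≤ (LL l κ) ^ e * ((LP l κ) ^ e * (LP l κ) ^ e) := by
      have h4 : 2 ^ e * (2 * T.card) ≤ 2 ^ e * ((LL l κ) ^ e * ((LP l κ) ^ e * (LP l κ) ^ e)) := by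
        calc 2 ^ e * (2 * T.card) ≤ 2 ^ e * (2 * ((LP l κ) ^ e * bad.card)) := by gcongr
          _ = (LP l κ) ^ e * (2 ^ (e + 1) * bad.card) := by ring
          _ ≤ (LP l κ) ^ e * (LL l κ) ^ (2 * e) := Nat.mul_le_mul_left _ h1
          _ = (LP l κ) ^ e * (LL l κ) ^ e * (2 * LP l κ) ^ e := by
            rw [← LL_eq]
            ring
          _ = _ := by
            rw [mul_pow]
            ring
      exact Nat.le_of_mul_le_mul_left h4 (by positivity)
    omega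
  have hsum : (E : ℝ) * ((LL l κ : ℝ) ^ e * (LP l κ : ℝ) ^ (2 * e)) ≤ ∑ y, S y := by
    have h1 : (((LL l κ) ^ e * ((LP l κ) ^ e * (LP l κ) ^ e) : ℕ) : ℝ) ≤ ((2 * T'.card : ℕ) : ℝ) := by
      exact_mod_cast hcount
    push_cast at h1
    calc (E : ℝ) * ((LL l κ : ℝ) ^ e * (LP l κ : ℝ) ^ (2 * e))
        = E * ((LL l κ : ℝ) ^ e * ((LP l κ : ℝ) ^ e * (LP l κ : ℝ) ^ e)) := by ring
      _ ≤ E * (2 * T'.card) := by gcongr
      _ = ∑ y ∈ T', 2 * (E : ℝ) := by rw [Finset.sum_const, nsmul_eq_mul]; ring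
      _ ≤ ∑ y ∈ T', S y := by
          refine Finset.sum_le_sum (fun y hy => hSg y ?_)
          rw [hT', Finset.mem_filter] at hy
          exact hy.2
      _ ≤ ∑ y, S y := Finset.sum_le_sum_of_subset_of_nonneg (Finset.subset_univ _)
          (fun y _ _ => hS0 y)
  -- conclusion
  have hip : ip (F - ∑ i, a i • mFourier (K i)) h = ((∑ y, S y : ℝ) : ℂ) := by
    rw [ip_sub_left, horth, sub_zero, hipF]
  have hdual := dual_bound (F - ∑ i, a i • mFourier (K i)) h hp l hpl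
  rw [hip, Complex.norm_real, Real.norm_of_nonneg (Finset.sum_nonneg (fun y _ => hS0 y))] at hdual
  set N := eLpNorm (F - ∑ i, a i • mFourier (K i) :
        C(UnitAddTorus (Fin (e + 1)), ℂ)) (ENNReal.ofReal p) (mu (Fin (e + 1))) with hN
  have h1 : ENNReal.ofReal ((E : ℝ) * ((LL l κ : ℝ) ^ e * (LP l κ : ℝ) ^ (2 * e)))
      ≤ N * ENNReal.ofReal (C3 * (LL l κ : ℝ) ^ e * Real.sqrt D) :=
    (ENNReal.ofReal_le_ofReal hsum).trans (hdual.trans (by gcongr))
  have hpos : 0 < C3 * (LL l κ : ℝ) ^ e * Real.sqrt D := by positivity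
  rw [← ENNReal.div_le_iff (by simpa using hpos) ENNReal.ofReal_ne_top,
    ← ENNReal.ofReal_div_of_pos hpos] at h1
  refine le_trans (ENNReal.ofReal_le_ofReal (le_of_eq ?_)) h1
  have hDE : D = 64 * E := by rw [hD]; push_cast; ring
  have hDs : Real.sqrt D * Real.sqrt D = 64 * E := by rw [Real.mul_self_sqrt hD0.le, hDE]
  have hE' : (64 * 2 ^ (n - 7 - e * ((8 * l + 8) * (κ + 1) + 1)) : ℝ) = D := by
    rw [hDE, hE]
    push_cast
    ring
  rw [hE', eq_div_iff hpos.ne']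
  have hsD : 0 < Real.sqrt D := Real.sqrt_pos.mpr hD0
  calc (64 * C3)⁻¹ * Real.sqrt D * (LP l κ : ℝ) ^ (2 * e) * (C3 * (LL l κ : ℝ) ^ e * Real.sqrt D)
      = (64 * C3)⁻¹ * C3 * (Real.sqrt D * Real.sqrt D) * ((LL l κ : ℝ) ^ e * (LP l κ : ℝ) ^ (2 * e)) := by
        ring
    _ = _ := by
        rw [hDs]
        field_simp

end Run7.h481
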