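import Pool.Agent.Run7.h481.Geo

namespace Run7.h481

open MeasureTheory UnitAddTorus

variable {l κ e n : ℕ}

/-- frequencies of the Dirichlet factors -/
def mm (l : ℕ) {e : ℕ} (j ν : Fin e → ℕ) : Fin (e + 1) → ℤ :=
  Fin.cons 0 (fun i => (MM l (j i) : ℤ) * (ν i : ℤ))

/-- product of Dirichlet kernels -/
noncomputable def GG (l κ : ℕ) {e : ℕ} (j : Fin e → ℕ) : C(UnitAddTorus (Fin (e + 1)), ℂ) :=
  ∑ ν : Fin e → Fin (LP l κ), mFourier (mm l j (fun i => (ν i : ℕ)))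

/-- the bump blocks -/
noncomputable def ff (l κ n : ℕ) {e : ℕ} (j : Fin e → ℕ) (ε : (Fin (e + 1) → ℤ) → ℝ) :
    C(UnitAddTorus (Fin (e + 1)), ℂ) :=
  ∑ ν : Fin e → Fin (LP l κ), ∑ ν' : Fin e → Fin (LP l κ),
    mFourier (vv l κ n j (fun i => (ν i : ℕ) + (ν' i : ℕ))) * poly (RR l κ n j) ε

theorem vv_add (j ν ν' : Fin e → ℕ) :
    vv l κ n j (fun i => ν i + ν' i) = vv l κ n j 0 + mm l j ν + mm l j ν' := by
  funext i
  refine Fin.cases ?_ (fun i => ?_) i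
  · simp [vv, mm]
  · simp only [vv, mm, Pi.add_apply, Fin.cons_succ, Pi.zero_apply]
    push_cast
    ring

theorem ff_eq (j : Fin e → ℕ) (ε : (Fin (e + 1) → ℤ) → ℝ) :
    ff l κ n j ε = mFourier (vv l κ n j 0) * (GG l κ j * (GG l κ j * poly (RR l κ n j) ε)) := by
  unfold ff GG
  rw [Finset.sum_mul, Finset.mul_sum]
  refine Finset.sum_congr rfl (fun ν _ => ?_)
  rw [Finset.sum_mul, Finset.mul_sum, Finset.mul_sum]
  refine Finset.sum_congr rfl (fun ν' _ => ?_)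
  rw [vv_add, ← e_mul, ← e_mul]
  ring

theorem mm_inj (j : Fin e → ℕ) {ν ν' : Fin e → ℕ} {k k' : Fin (e + 1) → ℤ}
    (hk : k ∈ RR l κ n j) (hk' : k' ∈ RR l κ n j) (h : mm l j ν + k = mm l j ν' + k') :
    ν = ν' ∧ k = k' := by
  rw [mem_RR] at hk hk'
  have h1 : ∀ i, ν i = ν' i := by
    intro i
    have h2 := congrFun h i.succ
    simp only [Pi.add_apply, mm, Fin.cons_succ] at h2
    have := digit (hk.2 i).1 (hk.2 i).2 (hk'.2 i).1 (hk'.2 i).2 h2
    exact_mod_cast this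
  have h2 : ν = ν' := funext h1
  subst h2
  exact ⟨rfl, add_left_cancel h⟩

theorem zero_mem_RR (j : Fin e → ℕ) : (0 : Fin (e + 1) → ℤ) ∈ RR l κ n j := by
  rw [mem_RR]
  refine ⟨⟨by simp, by simp⟩, fun i => ⟨by simp, ?_⟩⟩
  simpa using MM_pos l (j i)

theorem int_GG (j : Fin e → ℕ) :
    ∫ x, ‖GG l κ j x‖ ^ 2 ∂(mu (Fin (e + 1))) = (LP l κ : ℝ) ^ e := by
  have h := l2_inj (Finset.univ : Finset (Fin e → Fin (LP l κ)))
    (fun ν => mm l j (fun i => (ν i : ℕ))) (c := fun _ => (1 : ℝ)) (by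
      intro ν _ ν' _ hh
      have := (mm_inj (κ := κ) (n := 0) j (zero_mem_RR j) (zero_mem_RR j)
        (show mm l j (fun i => (ν i : ℕ)) + 0 = mm l j (fun i => (ν' i : ℕ)) + 0 by
          simpa using hh)).1
      funext i
      exact Fin.ext (congrFun this i))
  simp only [Complex.ofReal_one, one_smul, one_pow, Finset.sum_const, Finset.card_univ,
    Fintype.card_pi, Fintype.card_fin, Finset.prod_const, nsmul_eq_mul, mul_one] at h
  rw [show (GG l κ j) = ∑ ν : Fin e → Fin (LP l κ), mFourier (mm l j (fun i => (ν i : ℕ))) from rfl,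
    h]
  push_cast
  rfl

theorem int_GGu (j : Fin e → ℕ) (ε : (Fin (e + 1) → ℤ) → ℝ) (hε : ∀ k, ε k = 1 ∨ ε k = -1) :
    ∫ x, ‖(GG l κ j * poly (RR l κ n j) ε) x‖ ^ 2 ∂(mu (Fin (e + 1)))
      = (LP l κ : ℝ) ^ e * (RR l κ n j).card := by
  have h := l2_inj ((Finset.univ : Finset (Fin e → Fin (LP l κ))) ×ˢ (RR l κ n j))
    (fun y => mm l j (fun i => (y.1 i : ℕ)) + y.2) (c := fun y => ε y.2) (by
      intro y hy y' hy' hh
      rw [Finset.mem_coe, Finset.mem_product] at hy hy'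
      have := mm_inj j hy.2 hy'.2 hh
      refine Prod.ext ?_ this.2
      funext i
      exact Fin.ext (congrFun this.1 i))
  have e1 : (∑ y ∈ (Finset.univ : Finset (Fin e → Fin (LP l κ))) ×ˢ (RR l κ n j),
      ((ε y.2 : ℝ) : ℂ) • mFourier (mm l j (fun i => (y.1 i : ℕ)) + y.2))
      = GG l κ j * poly (RR l κ n j) ε := by
    unfold GG poly
    rw [Finset.sum_product, Finset.sum_mul]
    refine Finset.sum_congr rfl (fun ν _ => ?_)
    rw [Finset.mul_sum]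
    refine Finset.sum_congr rfl (fun k _ => ?_)
    rw [mul_smul_comm, e_mul]
  rw [e1] at h
  rw [h]
  have e2 : ∀ y ∈ (Finset.univ : Finset (Fin e → Fin (LP l κ))) ×ˢ (RR l κ n j),
      ε y.2 ^ 2 = 1 := by
    intro y _
    rcases hε y.2 with h | h <;> rw [h] <;> norm_num
  rw [Finset.sum_congr rfl e2, Finset.sum_const, Finset.card_product, Finset.card_univ,
    Fintype.card_pi, Finset.prod_const, Finset.card_univ, Fintype.card_fin, nsmul_eq_mul, mul_one]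
  push_cast
  rw [Fintype.card_fin]

theorem GG_bound (j : Fin e → ℕ) (x : UnitAddTorus (Fin (e + 1))) :
    ‖GG l κ j x‖ ≤ (LP l κ : ℝ) ^ e := by
  unfold GG
  simp only [ContinuousMap.coe_sum, Finset.sum_apply]
  refine (norm_sum_le _ _).trans ?_
  simp only [norm_e, Finset.sum_const, Finset.card_univ, Fintype.card_pi, Fintype.card_fin,
    Finset.prod_const, nsmul_eq_mul, mul_one]
  push_cast
  rfl

theorem memLp_cont {ι : Type*} [Fintype ι] (f : C(UnitAddTorus ι, ℂ)) (p : ENNReal) :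
    MemLp f p (mu ι) :=
  f.continuous.memLp_of_hasCompactSupport (HasCompactSupport.of_compactSpace _)

theorem eLpNorm_two {ι : Type*} [Fintype ι] (f : C(UnitAddTorus ι, ℂ)) :
    eLpNorm f 2 (mu ι) = ENNReal.ofReal (Real.sqrt (∫ x, ‖f x‖ ^ 2 ∂(mu ι))) := by
  rw [(memLp_cont f 2).eLpNorm_eq_integral_rpow_norm (by norm_num) (by norm_num)]
  simp only [ENNReal.toReal_ofNat, Real.rpow_ofNat]
  rw [Real.sqrt_eq_rpow]
  norm_num

theorem eLpNorm_mul_one {ι : Type*} [Fintype ι] (f g : C(UnitAddTorus ι, ℂ)) :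
    eLpNorm (f * g : C(UnitAddTorus ι, ℂ)) 1 (mu ι) ≤ eLpNorm f 2 (mu ι) * eLpNorm g 2 (mu ι) := by
  have h := eLpNorm_smul_le_mul_eLpNorm (p := 2) (q := 2) (r := 1)
    (memLp_cont g 2).1 (memLp_cont f 2).1
  exact h

theorem ff_norm1 (j : Fin e → ℕ) (ε : (Fin (e + 1) → ℤ) → ℝ) (hε : ∀ k, ε k = 1 ∨ ε k = -1) :
    eLpNorm (ff l κ n j ε) 1 (mu (Fin (e + 1)))
      ≤ ENNReal.ofReal (Real.sqrt (RR l κ n j).card * (LP l κ : ℝ) ^ e) := by
  have e1 : eLpNorm (ff l κ n j ε) 1 (mu (Fin (e + 1)))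
      = eLpNorm (GG l κ j * (GG l κ j * poly (RR l κ n j) ε) : C(UnitAddTorus (Fin (e + 1)), ℂ)) 1
        (mu (Fin (e + 1))) := by
    refine eLpNorm_congr_norm_ae (Filter.Eventually.of_forall (fun x => ?_))
    rw [ff_eq, ContinuousMap.mul_apply, norm_mul, norm_e, one_mul]
  rw [e1]
  refine (eLpNorm_mul_one _ _).trans ?_
  rw [eLpNorm_two, eLpNorm_two, int_GG, int_GGu j ε hε,
    ← ENNReal.ofReal_mul (Real.sqrt_nonneg _)]
  refine ENNReal.ofReal_le_ofReal (le_of_eq ?_)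
  rw [Real.sqrt_mul (by positivity), ← mul_assoc, Real.mul_self_sqrt (by positivity)]
  ring

theorem ff_norm2 (j : Fin e → ℕ) (ε : (Fin (e + 1) → ℤ) → ℝ) (hε : ∀ k, ε k = 1 ∨ ε k = -1) :
    eLpNorm (ff l κ n j ε) 2 (mu (Fin (e + 1)))
      ≤ ENNReal.ofReal (Real.sqrt (RR l κ n j).card * ((LP l κ : ℝ) ^ e) ^ ((3 : ℝ) / 2)) := by
  rw [eLpNorm_two]
  refine ENNReal.ofReal_le_ofReal ?_
  set x : ℝ := (LP l κ : ℝ) ^ e with hx
  have hx0 : 0 < x := by rw [hx]; have := LP_pos l κ; positivity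
  have h1 : ∫ y, ‖ff l κ n j ε y‖ ^ 2 ∂(mu (Fin (e + 1)))
      ≤ x ^ 2 * (x * (RR l κ n j).card) := by
    calc ∫ y, ‖ff l κ n j ε y‖ ^ 2 ∂(mu (Fin (e + 1)))
        ≤ ∫ y, x ^ 2 * ‖(GG l κ j * poly (RR l κ n j) ε) y‖ ^ 2 ∂(mu (Fin (e + 1))) := by
          apply integral_mono (cint (by fun_prop)) (cint (by fun_prop))
          intro y
          simp only
          rw [ff_eq, ContinuousMap.mul_apply, norm_mul, norm_e, one_mul, ContinuousMap.mul_apply,
            norm_mul, mul_pow]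
          have := GG_bound (l := l) (κ := κ) j y
          gcongr
      _ = _ := by rw [integral_const_mul, int_GGu j ε hε]
  calc Real.sqrt (∫ y, ‖ff l κ n j ε y‖ ^ 2 ∂(mu (Fin (e + 1))))
      ≤ Real.sqrt (x ^ 2 * (x * (RR l κ n j).card)) := Real.sqrt_le_sqrt h1
    _ = _ := by
      rw [show x ^ 2 * (x * ((RR l κ n j).card : ℝ)) = (x ^ 3) * (RR l κ n j).card by ring,
        Real.sqrt_mul (by positivity), mul_comm]
      congr 1
      rw [Real.sqrt_eq_rpow, ← Real.rpow_natCast, ← Real.rpow_mul hx0.le]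
      norm_num

theorem ff_normq (j : Fin e → ℕ) (ε : (Fin (e + 1) → ℤ) → ℝ) (hε : ∀ k, ε k = 1 ∨ ε k = -1)
    {q : ℝ} (h1 : 1 ≤ q) (h2 : q ≤ 2) (hR : 0 < (RR l κ n j).card) :
    eLpNorm (ff l κ n j ε) (ENNReal.ofReal q) (mu (Fin (e + 1)))
      ≤ ENNReal.ofReal (Real.sqrt (RR l κ n j).card * ((LP l κ : ℝ) ^ e) ^ (2 - 1 / q)) := by
  have hq0 : 0 < q := by linarith
  refine (interp_real (memLp_cont (ff l κ n j ε) 1).1 h1 h2 (by positivity) (by positivity)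
    (ff_norm1 j ε hε) (ff_norm2 j ε hε)).trans (ENNReal.ofReal_le_ofReal (le_of_eq ?_))
  set x : ℝ := (LP l κ : ℝ) ^ e with hx
  have hx0 : 0 < x := by rw [hx]; have := LP_pos l κ; positivity
  have hs : 0 < Real.sqrt ((RR l κ n j).card : ℝ) := Real.sqrt_pos.mpr (by exact_mod_cast hR)
  set s := Real.sqrt ((RR l κ n j).card : ℝ) with hs'
  rw [Real.mul_rpow hs.le hx0.le, Real.mul_rpow hs.le (by positivity), ← Real.rpow_mul hx0.le]
  calc s ^ (2 / q - 1) * x ^ (2 / q - 1) * (s ^ (2 - 2 / q) * x ^ (3 / 2 * (2 - 2 / q)))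
      = (s ^ (2 / q - 1) * s ^ (2 - 2 / q)) * (x ^ (2 / q - 1) * x ^ (3 / 2 * (2 - 2 / q))) := by
        ring
    _ = s ^ (1 : ℝ) * x ^ (2 - 1 / q) := by
        rw [← Real.rpow_add hs, ← Real.rpow_add hx0]
        congr 2
        · ring
        · field_simp
          ring
    _ = _ := by rw [Real.rpow_one]

end Run7.h481
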