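import Mathlib

namespace Run7.h481

open MeasureTheory ENNReal

theorem interp {X E : Type*} [MeasurableSpace X] {μ : Measure X} [NormedAddCommGroup E]
    {f : X → E} (hf : AEStronglyMeasurable f μ) {q : ℝ} (h1 : 1 ≤ q) (h2 : q ≤ 2) :
    eLpNorm f (ENNReal.ofReal q) μ ≤ (eLpNorm f 1 μ) ^ (2 / q - 1) * (eLpNorm f 2 μ) ^ (2 - 2 / q) := by
  have hq0 : 0 < q := by linarith
  have hfm : AEMeasurable (fun x => ‖f x‖ₑ) μ := hf.enorm
  have key : ∫⁻ x, ‖f x‖ₑ ^ q ∂μ ≤ (∫⁻ x, ‖f x‖ₑ ∂μ) ^ (2 - q) * (∫⁻ x, ‖f x‖ₑ ^ (2:ℝ) ∂μ) ^ (q - 1) := by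
    have h := ENNReal.lintegral_mul_norm_pow_le (μ := μ) hfm (hfm.pow_const (2:ℝ))
      (p := 2 - q) (q := q - 1) (by linarith) (by linarith) (by ring)
    refine le_trans (le_of_eq ?_) h
    refine lintegral_congr (fun x => ?_)
    rw [← ENNReal.rpow_mul, ← ENNReal.rpow_add_of_nonneg _ _ (by linarith) (by linarith)]
    congr 1
    ring
  rw [eLpNorm_eq_lintegral_rpow_enorm_toReal (by simpa using hq0) ENNReal.ofReal_ne_top,
    ENNReal.toReal_ofReal hq0.le, eLpNorm_one_eq_lintegral_enorm,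
    eLpNorm_eq_lintegral_rpow_enorm_toReal (by norm_num) (by norm_num)]
  simp only [ENNReal.toReal_ofNat]
  calc (∫⁻ x, ‖f x‖ₑ ^ q ∂μ) ^ (1 / q)
      ≤ ((∫⁻ x, ‖f x‖ₑ ∂μ) ^ (2 - q) * (∫⁻ x, ‖f x‖ₑ ^ (2:ℝ) ∂μ) ^ (q - 1)) ^ (1 / q) :=
        ENNReal.rpow_le_rpow key (by positivity)
    _ = _ := by
        rw [ENNReal.mul_rpow_of_nonneg _ _ (by positivity), ← ENNReal.rpow_mul,
          ← ENNReal.rpow_mul, ← ENNReal.rpow_mul]
        congr 2 <;> field_simp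

/-- real-valued consequence -/
theorem interp_real {X E : Type*} [MeasurableSpace X] {μ : Measure X} [NormedAddCommGroup E]
    {f : X → E} (hf : AEStronglyMeasurable f μ) {q : ℝ} (h1 : 1 ≤ q) (h2 : q ≤ 2)
    {A B : ℝ} (hA : 0 ≤ A) (hB : 0 ≤ B) (hA1 : eLpNorm f 1 μ ≤ ENNReal.ofReal A)
    (hB1 : eLpNorm f 2 μ ≤ ENNReal.ofReal B) :
    eLpNorm f (ENNReal.ofReal q) μ ≤ ENNReal.ofReal (A ^ (2 / q - 1) * B ^ (2 - 2 / q)) := by
  have hq0 : 0 < q := by linarith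
  have e1 : 0 ≤ 2 / q - 1 := by
    rw [sub_nonneg, le_div_iff₀ hq0]; linarith
  have e2 : 0 ≤ 2 - 2 / q := by
    rw [sub_nonneg, div_le_iff₀ hq0]; linarith
  refine (interp hf h1 h2).trans ?_
  rw [ENNReal.ofReal_mul (by positivity), ← ENNReal.ofReal_rpow_of_nonneg hA e1,
    ← ENNReal.ofReal_rpow_of_nonneg hB e2]
  gcongr

end Run7.h481
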