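import Pool.Agent.Run7.h481.RB

namespace Run7.h481

open MeasureTheory UnitAddTorus

variable {ι : Type*} [Fintype ι] [DecidableEq ι]

/-- the inner product of two continuous functions -/
noncomputable def ip (f g : C(UnitAddTorus ι, ℂ)) : ℂ := ∫ x, f x * star (g x) ∂(mu ι)

omit [DecidableEq ι] in
theorem ip_sum_left {β : Type*} (s : Finset β) (f : β → C(UnitAddTorus ι, ℂ))
    (g : C(UnitAddTorus ι, ℂ)) : ip (∑ i ∈ s, f i) g = ∑ i ∈ s, ip (f i) g := by
  unfold ip
  rw [← integral_finsetSum]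
  · congr 1
    ext x
    simp only [ContinuousMap.coe_sum, Finset.sum_apply, Finset.sum_mul]
  · intro i _
    exact cint (by fun_prop)

omit [DecidableEq ι] in
theorem ip_sum_right {β : Type*} (s : Finset β) (f : C(UnitAddTorus ι, ℂ))
    (g : β → C(UnitAddTorus ι, ℂ)) : ip f (∑ i ∈ s, g i) = ∑ i ∈ s, ip f (g i) := by
  unfold ip
  rw [← integral_finsetSum]
  · congr 1
    ext x
    simp only [ContinuousMap.coe_sum, Finset.sum_apply, star_sum, Finset.mul_sum]
  · intro i _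
    exact cint (by fun_prop)

omit [DecidableEq ι] in
theorem ip_smul_left (c : ℂ) (f g : C(UnitAddTorus ι, ℂ)) : ip (c • f) g = c * ip f g := by
  unfold ip
  rw [← integral_const_mul]
  congr 1
  ext x
  simp only [ContinuousMap.smul_apply, smul_eq_mul]
  ring

omit [DecidableEq ι] in
theorem ip_smul_right (c : ℂ) (f g : C(UnitAddTorus ι, ℂ)) : ip f (c • g) = star c * ip f g := by
  unfold ip
  rw [← integral_const_mul]
  congr 1
  ext x
  simp only [ContinuousMap.smul_apply, smul_eq_mul, star_mul']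
  ring

omit [DecidableEq ι] in
theorem ip_sub_left (f f' g : C(UnitAddTorus ι, ℂ)) : ip (f - f') g = ip f g - ip f' g := by
  unfold ip
  rw [← integral_sub (cint (by fun_prop)) (cint (by fun_prop))]
  congr 1
  ext x
  simp only [ContinuousMap.sub_apply]
  ring

omit [DecidableEq ι] in
theorem ip_e (k l : ι → ℤ) : ip (mFourier k) (mFourier l) = if k = l then 1 else 0 := by
  unfold ip
  have : ∀ x : UnitAddTorus ι, mFourier k x * star (mFourier l x) = mFourier (k - l) x := by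
    intro x
    rw [sub_eq_add_neg, mFourier_add, mFourier_neg]
    rfl
  simp_rw [this, int_e, sub_eq_zero]

omit [DecidableEq ι] in
theorem ip_self (f : C(UnitAddTorus ι, ℂ)) :
    ip f f = ((∫ x, ‖f x‖ ^ 2 ∂(mu ι) : ℝ) : ℂ) := by
  unfold ip
  rw [← integral_complex_ofReal]
  congr 1
  ext x
  have : f x * star (f x) = ((‖f x‖ ^ 2 : ℝ) : ℂ) := by
    rw [← starRingEnd_apply, Complex.mul_conj, Complex.normSq_eq_norm_sq]
  exact this

/-- inner product of two translates of real-coefficient polynomials -/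
theorem ip_poly (v v' : ι → ℤ) (R R' : Finset (ι → ℤ)) (a b : (ι → ℤ) → ℝ) :
    ip (mFourier v * poly R a) (mFourier v' * poly R' b)
      = ∑ k ∈ R, ∑ k' ∈ R', if v + k = v' + k' then ((a k * b k' : ℝ) : ℂ) else 0 := by
  unfold poly
  rw [Finset.mul_sum, Finset.mul_sum, ip_sum_left]
  refine Finset.sum_congr rfl (fun k _ => ?_)
  rw [ip_sum_right]
  refine Finset.sum_congr rfl (fun k' _ => ?_)
  rw [mul_smul_comm, mul_smul_comm, e_mul, e_mul, ip_smul_left, ip_smul_right, ip_e]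
  have : star ((b k' : ℝ) : ℂ) = (b k' : ℂ) := Complex.conj_ofReal _
  rw [this]
  split_ifs
  · push_cast; ring
  · ring

theorem ip_poly_disj (v v' : ι → ℤ) (R R' : Finset (ι → ℤ)) (a b : (ι → ℤ) → ℝ)
    (h : ∀ k ∈ R, ∀ k' ∈ R', v + k ≠ v' + k') :
    ip (mFourier v * poly R a) (mFourier v' * poly R' b) = 0 := by
  rw [ip_poly]
  refine Finset.sum_eq_zero (fun k hk => Finset.sum_eq_zero (fun k' hk' => ?_))
  rw [if_neg (h k hk k' hk')]

theorem ip_poly_same (v : ι → ℤ) (R : Finset (ι → ℤ)) (a b : (ι → ℤ) → ℝ) :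
    ip (mFourier v * poly R a) (mFourier v * poly R b) = ((∑ k ∈ R, a k * b k : ℝ) : ℂ) := by
  rw [ip_poly]
  push_cast
  refine Finset.sum_congr rfl (fun k hk => ?_)
  rw [Finset.sum_eq_single k]
  · simp
  · intro k' _ hne
    rw [if_neg]
    intro h
    exact hne (add_left_cancel h).symm
  · intro h
    exact absurd hk h

/-- Parseval for sums of distinct characters -/
theorem l2_inj {β : Type*} (I : Finset β) (k : β → ι → ℤ) (hk : Set.InjOn k I) (c : β → ℝ) :
    ∫ x, ‖(∑ i ∈ I, (c i : ℂ) • mFourier (k i) : C(UnitAddTorus ι, ℂ)) x‖ ^ 2 ∂(mu ι)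
      = ∑ i ∈ I, c i ^ 2 := by
  have h := ip_self (∑ i ∈ I, (c i : ℂ) • mFourier (k i) : C(UnitAddTorus ι, ℂ))
  rw [ip_sum_left] at h
  have h2 : ∀ i ∈ I, ip ((c i : ℂ) • mFourier (k i))
      (∑ i ∈ I, (c i : ℂ) • mFourier (k i) : C(UnitAddTorus ι, ℂ)) = ((c i ^ 2 : ℝ) : ℂ) := by
    intro i hi
    rw [ip_sum_right, Finset.sum_eq_single i]
    · rw [ip_smul_left, ip_smul_right, ip_e, if_pos rfl]
      have : star ((c i : ℝ) : ℂ) = (c i : ℂ) := Complex.conj_ofReal _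
      rw [this]
      push_cast
      ring
    · intro j hj hne
      rw [ip_smul_left, ip_smul_right, ip_e, if_neg]
      · ring
      · intro heq
        exact hne (hk hi hj heq).symm
    · intro h
      exact absurd hi h
  rw [Finset.sum_congr rfl h2] at h
  have h3 : ((∑ i ∈ I, c i ^ 2 : ℝ) : ℂ)
      = ((∫ x, ‖(∑ i ∈ I, (c i : ℂ) • mFourier (k i) : C(UnitAddTorus ι, ℂ)) x‖ ^ 2 ∂(mu ι) : ℝ) : ℂ)
      := by
    rw [← h]
    push_cast
    rfl
  exact_mod_cast h3.symm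

omit [DecidableEq ι] in
/-- duality: the lower bound for the `L_p` norm -/
theorem dual_bound (F h : C(UnitAddTorus ι, ℂ)) {p : ℝ} (hp : 1 < p) (l : ℕ)
    (hl : p / (p - 1) ≤ 2 * l + 2) :
    ENNReal.ofReal ‖ip F h‖ ≤ eLpNorm F (ENNReal.ofReal p) (mu ι)
      * ENNReal.ofReal ((∫ x, ‖h x‖ ^ (2 * l + 2) ∂(mu ι)) ^ ((1 : ℝ) / (2 * l + 2))) := by
  have hpq : p.HolderConjugate (p / (p - 1)) := Real.HolderConjugate.conjExponent hp
  set q := p / (p - 1) with hq
  have hq0 : 0 < q := hpq.symm.pos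
  have hp0 : 0 < p := hpq.pos
  have h1 : ‖ip F h‖ ≤ ∫ x, ‖F x‖ * ‖h x‖ ∂(mu ι) := by
    refine (norm_integral_le_integral_norm _).trans (le_of_eq ?_)
    congr 1
    ext x
    rw [norm_mul, norm_star]
  have mF : MemLp F (ENNReal.ofReal p) (mu ι) :=
    F.continuous.memLp_of_hasCompactSupport (HasCompactSupport.of_compactSpace _)
  have mh : MemLp h (ENNReal.ofReal q) (mu ι) :=
    h.continuous.memLp_of_hasCompactSupport (HasCompactSupport.of_compactSpace _)
  have h2 := integral_mul_norm_le_Lp_mul_Lq hpq mF mh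
  have e1 : eLpNorm F (ENNReal.ofReal p) (mu ι)
      = ENNReal.ofReal ((∫ x, ‖F x‖ ^ p ∂(mu ι)) ^ (1 / p)) := by
    rw [mF.eLpNorm_eq_integral_rpow_norm (by simpa using hp0) ENNReal.ofReal_ne_top,
      ENNReal.toReal_ofReal hp0.le, one_div]
  have e2 : eLpNorm h (ENNReal.ofReal q) (mu ι)
      = ENNReal.ofReal ((∫ x, ‖h x‖ ^ q ∂(mu ι)) ^ (1 / q)) := by
    rw [mh.eLpNorm_eq_integral_rpow_norm (by simpa using hq0) ENNReal.ofReal_ne_top,
      ENNReal.toReal_ofReal hq0.le, one_div]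
  have mh2 : MemLp h (ENNReal.ofReal (2 * l + 2)) (mu ι) :=
    h.continuous.memLp_of_hasCompactSupport (HasCompactSupport.of_compactSpace _)
  have e3 : eLpNorm h (ENNReal.ofReal (2 * l + 2)) (mu ι)
      = ENNReal.ofReal ((∫ x, ‖h x‖ ^ (2 * l + 2) ∂(mu ι)) ^ ((1 : ℝ) / (2 * l + 2))) := by
    rw [mh2.eLpNorm_eq_integral_rpow_norm (by simp; positivity) ENNReal.ofReal_ne_top,
      ENNReal.toReal_ofReal (by positivity), one_div]
    congr 3
    ext x
    have : ((2 * l + 2 : ℕ) : ℝ) = 2 * (l : ℝ) + 2 := by push_cast; ring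
    rw [← this, Real.rpow_natCast]
  have h3 : eLpNorm h (ENNReal.ofReal q) (mu ι) ≤ eLpNorm h (ENNReal.ofReal (2 * l + 2)) (mu ι) :=
    eLpNorm_le_eLpNorm_of_exponent_le (ENNReal.ofReal_le_ofReal hl) mh.1
  calc ENNReal.ofReal ‖ip F h‖
      ≤ ENNReal.ofReal ((∫ x, ‖F x‖ ^ p ∂(mu ι)) ^ (1 / p) * (∫ x, ‖h x‖ ^ q ∂(mu ι)) ^ (1 / q)) :=
        ENNReal.ofReal_le_ofReal (h1.trans h2)
    _ = eLpNorm F (ENNReal.ofReal p) (mu ι) * eLpNorm h (ENNReal.ofReal q) (mu ι) := by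
        rw [e1, e2, ENNReal.ofReal_mul (by positivity)]
    _ ≤ eLpNorm F (ENNReal.ofReal p) (mu ι) * eLpNorm h (ENNReal.ofReal (2 * l + 2)) (mu ι) := by
        gcongr
    _ = _ := by rw [e3]

end Run7.h481
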