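import Pool.Agent.Run7.h481.Multi
import Pool.Agent.Run7.h481.Ip
import Pool.Agent.Run7.h481.Interp

namespace Run7.h481

open MeasureTheory UnitAddTorus

/-- the dyadic block of frequencies -/
noncomputable def rho {d : ℕ} (s : Fin d → ℕ) : Finset (Fin d → ℤ) :=
  Fintype.piFinset fun j => (Finset.Icc (-(2 : ℤ) ^ s j) (2 ^ s j)).filter
    fun k => ((2 ^ s j / 2 : ℕ) : ℤ) ≤ |k| ∧ |k| < 2 ^ s j

theorem mem_rho {d : ℕ} (s : Fin d → ℕ) (k : Fin d → ℤ) :
    k ∈ rho s ↔ ∀ j, ((2 ^ s j / 2 : ℕ) : ℤ) ≤ |k j| ∧ |k j| < 2 ^ s j := by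
  unfold rho
  rw [Fintype.mem_piFinset]
  refine forall_congr' (fun j => ?_)
  rw [Finset.mem_filter, Finset.mem_Icc]
  constructor
  · rintro ⟨_, h⟩; exact h
  · intro h
    refine ⟨?_, h⟩
    have := abs_lt.mp h.2
    exact ⟨this.1.le, this.2.le⟩

section geo

variable (l κ e n : ℕ)

/-- the exponents of the localised coordinates -/
def sb {e : ℕ} (j : Fin e → ℕ) (i : Fin e) : ℕ := (8 * l + 8) * (κ + 1) + 1 + (8 * l + 8) * j i

/-- the exponent of the free coordinate -/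
def s0 {e : ℕ} (j : Fin e → ℕ) : ℕ := n - ∑ i, sb l κ j i

/-- the block -/
def sv {e : ℕ} (j : Fin e → ℕ) : Fin (e + 1) → ℕ := Fin.cons (s0 l κ n j) (sb l κ j)

/-- the shift -/
def vv {e : ℕ} (j η : Fin e → ℕ) : Fin (e + 1) → ℤ :=
  Fin.cons (2 ^ (s0 l κ n j - 1)) (fun i => (MM l (j i) : ℤ) * ((LL l κ + η i : ℕ) : ℤ))

/-- the box -/
noncomputable def RR {e : ℕ} (j : Fin e → ℕ) : Finset (Fin (e + 1) → ℤ) :=
  Fintype.piFinset (Fin.cons (Finset.Ico 0 (2 ^ (s0 l κ n j - 1)))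
    (fun i => Finset.Ico 0 (MM l (j i) : ℤ)))

/-- half the length -/
def LP : ℕ := 2 ^ ((8 * l + 8) * (κ + 1) - 1)

theorem LL_eq : LL l κ = 2 * LP l κ := by
  unfold LL LP
  have : 1 ≤ (8 * l + 8) * (κ + 1) := Nat.one_le_iff_ne_zero.mpr (by positivity)
  rw [← pow_succ', Nat.sub_add_cancel this]

theorem LP_pos : 0 < LP l κ := by unfold LP; positivity

variable {l κ e n}

theorem mem_RR (j : Fin e → ℕ) (k : Fin (e + 1) → ℤ) : k ∈ RR l κ n j ↔
    (0 ≤ k 0 ∧ k 0 < 2 ^ (s0 l κ n j - 1)) ∧ ∀ i : Fin e, 0 ≤ k i.succ ∧ k i.succ < MM l (j i) := by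
  unfold RR
  rw [Fintype.mem_piFinset, Fin.forall_fin_succ]
  simp only [Fin.cons_zero, Fin.cons_succ, Finset.mem_Ico]

/-- the size condition -/
def Big (l κ e n : ℕ) : Prop := e * ((8 * l + 8) * (κ + 1) + 1 + (8 * l + 8) * LL l κ) + 7 ≤ n

theorem sum_sb_le (hb : Big l κ e n) (j : Fin e → ℕ) (hj : ∀ i, j i < LL l κ) :
    ∑ i, sb l κ j i + 7 ≤ n := by
  unfold Big at hb
  have : ∑ i, sb l κ j i ≤ ∑ _i : Fin e, ((8 * l + 8) * (κ + 1) + 1 + (8 * l + 8) * LL l κ) := by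
    refine Finset.sum_le_sum (fun i _ => ?_)
    unfold sb
    have := Nat.mul_le_mul_left (8 * l + 8) (hj i).le
    omega
  rw [Finset.sum_const, Finset.card_univ, Fintype.card_fin, smul_eq_mul] at this
  omega

theorem s0_ge (hb : Big l κ e n) (j : Fin e → ℕ) (hj : ∀ i, j i < LL l κ) : 7 ≤ s0 l κ n j := by
  have := sum_sb_le hb j hj
  unfold s0
  omega

theorem sum_sv (hb : Big l κ e n) (j : Fin e → ℕ) (hj : ∀ i, j i < LL l κ) :
    ∑ i, sv l κ n j i = n := by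
  have := sum_sb_le hb j hj
  rw [Fin.sum_univ_succ]
  simp only [sv, Fin.cons_zero, Fin.cons_succ]
  unfold s0
  omega

theorem sv_inj {j j' : Fin e → ℕ} (h : sv l κ n j = sv l κ n j') : j = j' := by
  funext i
  have h1 := congrFun h i.succ
  simp only [sv, Fin.cons_succ, sb] at h1
  have : (8 * l + 8) * j i = (8 * l + 8) * j' i := by omega
  exact Nat.eq_of_mul_eq_mul_left (by positivity) this

theorem card_RR (hb : Big l κ e n) (j : Fin e → ℕ) (hj : ∀ i, j i < LL l κ) :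
    (RR l κ n j).card = 64 * 2 ^ (n - 7 - e * ((8 * l + 8) * (κ + 1) + 1)) := by
  have h0 := sum_sb_le hb j hj
  unfold RR
  rw [Fintype.card_piFinset, Fin.prod_univ_succ]
  simp only [Fin.cons_zero, Fin.cons_succ, Int.card_Ico, sub_zero]
  have e1 : ((2 : ℤ) ^ (s0 l κ n j - 1)).toNat = 2 ^ (s0 l κ n j - 1) := by
    have : ((2 : ℤ) ^ (s0 l κ n j - 1)) = ((2 ^ (s0 l κ n j - 1) : ℕ) : ℤ) := by push_cast; rfl
    rw [this, Int.toNat_natCast]
  rw [e1]
  have e2 : ∏ i : Fin e, ((MM l (j i) : ℤ)).toNat = 2 ^ (∑ i, (8 * l + 8) * j i) := by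
    rw [← Finset.prod_pow_eq_pow_sum]
    refine Finset.prod_congr rfl (fun i _ => ?_)
    rw [Int.toNat_natCast]
    rfl
  rw [e2, ← pow_add, show (64 : ℕ) = 2 ^ 6 by norm_num, ← pow_add]
  congr 1
  have e3 : ∑ i, sb l κ j i = e * ((8 * l + 8) * (κ + 1) + 1) + ∑ i, (8 * l + 8) * j i := by
    unfold sb
    rw [Finset.sum_add_distrib, Finset.sum_const, Finset.card_univ, Fintype.card_fin, smul_eq_mul]
  unfold s0
  omega

theorem digit {M x y k k' : ℤ} (hk : 0 ≤ k) (hk2 : k < M) (hk' : 0 ≤ k') (hk2' : k' < M)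
    (h : M * x + k = M * y + k') : x = y := by
  rcases lt_trichotomy x y with hlt | heq | hgt
  · nlinarith
  · exact heq
  · nlinarith

theorem coord_disj {j j' η η' : ℕ} (hη : η < LL l κ) (hη' : η' < LL l κ) {k k' : ℤ}
    (hk : 0 ≤ k ∧ k < MM l j) (hk' : 0 ≤ k' ∧ k' < MM l j')
    (h : (MM l j : ℤ) * ((LL l κ + η : ℕ) : ℤ) + k = (MM l j' : ℤ) * ((LL l κ + η' : ℕ) : ℤ) + k') :
    j = j' ∧ η = η' := by
  have key : ∀ {j j' η η' : ℕ} (_ : η < LL l κ) {k k' : ℤ}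
      (_ : 0 ≤ k ∧ k < MM l j) (_ : 0 ≤ k' ∧ k' < MM l j')
      (_ : (MM l j : ℤ) * ((LL l κ + η : ℕ) : ℤ) + k
        = (MM l j' : ℤ) * ((LL l κ + η' : ℕ) : ℤ) + k'), ¬ (j < j') := by
    intro j j' η η' hη k k' hk hk' h hlt
    have h1 : 2 * MM l j ≤ MM l j' := by
      unfold MM
      calc 2 * 2 ^ ((8 * l + 8) * j) = 2 ^ ((8 * l + 8) * j + 1) := by ring
        _ ≤ 2 ^ ((8 * l + 8) * j') := by
          refine Nat.pow_le_pow_right (by norm_num) ?_
          have := Nat.mul_le_mul_left (8 * l + 8) (Nat.succ_le_of_lt hlt)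
          have h2 : (8 * l + 8) * (j.succ) = (8 * l + 8) * j + (8 * l + 8) := by
            rw [Nat.mul_succ]
          omega
    have h2 : (2 : ℤ) * MM l j ≤ MM l j' := by exact_mod_cast h1
    have hL : (0 : ℤ) < LL l κ := by exact_mod_cast LL_pos l κ
    have h3 : (η : ℤ) + 1 ≤ LL l κ := by exact_mod_cast hη
    have hM : (0 : ℤ) < MM l j := by exact_mod_cast MM_pos l j
    push_cast at h
    have h4 : (MM l j : ℤ) * (LL l κ + η) + k < 2 * MM l j * LL l κ := by nlinarith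
    have h5 : (2 * MM l j : ℤ) * LL l κ ≤ MM l j' * LL l κ := by nlinarith
    have h6 : (MM l j' : ℤ) * LL l κ ≤ (MM l j' : ℤ) * (LL l κ + η') + k' := by
      have : (0 : ℤ) ≤ MM l j' * η' := by positivity
      nlinarith
    linarith
  have hjj : j = j' := by
    rcases lt_trichotomy j j' with h1 | h1 | h1
    · exact absurd h1 (key hη hk hk' h)
    · exact h1
    · exact absurd h1 (key hη' hk' hk h.symm)
  subst hjj
  refine ⟨rfl, ?_⟩
  have := digit hk.1 hk.2 hk'.1 hk'.2 h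
  have h2 : LL l κ + η = LL l κ + η' := by exact_mod_cast this
  omega

theorem vv_disj {j j' η η' : Fin e → ℕ} (hη : ∀ i, η i < LL l κ) (hη' : ∀ i, η' i < LL l κ)
    {k k' : Fin (e + 1) → ℤ} (hk : k ∈ RR l κ n j) (hk' : k' ∈ RR l κ n j')
    (h : vv l κ n j η + k = vv l κ n j' η' + k') : j = j' ∧ η = η' := by
  rw [mem_RR] at hk hk'
  have h1 : ∀ i, j i = j' i ∧ η i = η' i := by
    intro i
    have h2 := congrFun h i.succ
    simp only [Pi.add_apply, vv, Fin.cons_succ] at h2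
    exact coord_disj (hη i) (hη' i) (hk.2 i) (hk'.2 i) h2
  exact ⟨funext fun i => (h1 i).1, funext fun i => (h1 i).2⟩

theorem half_pow_nat (s : ℕ) (hs : 1 ≤ s) : ((2 ^ s / 2 : ℕ) : ℤ) = 2 ^ (s - 1) := by
  obtain ⟨t, rfl⟩ : ∃ t, s = t + 1 := ⟨s - 1, by omega⟩
  rw [pow_succ, Nat.mul_div_cancel _ (by norm_num)]
  push_cast
  simp

theorem vv_mem_rho (hb : Big l κ e n) {j η : Fin e → ℕ} (hj : ∀ i, j i < LL l κ)
    (hη : ∀ i, η i < LL l κ) {k : Fin (e + 1) → ℤ} (hk : k ∈ RR l κ n j) :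
    vv l κ n j η + k ∈ rho (sv l κ n j) := by
  rw [mem_RR] at hk
  rw [mem_rho, Fin.forall_fin_succ]
  constructor
  · have h7 := s0_ge hb j hj
    simp only [sv, Fin.cons_zero, Pi.add_apply, vv]
    rw [half_pow_nat _ (by omega)]
    have hp : (0 : ℤ) < 2 ^ (s0 l κ n j - 1) := by positivity
    have e1 : (2 : ℤ) ^ s0 l κ n j = 2 * 2 ^ (s0 l κ n j - 1) := by
      rw [← pow_succ']
      congr 1
      omega
    rw [e1, abs_of_nonneg (by linarith [hk.1.1])]
    constructor <;> linarith [hk.1.1, hk.1.2]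
  · intro i
    simp only [sv, Fin.cons_succ, Pi.add_apply, vv]
    have hs : 1 ≤ sb l κ j i := by unfold sb; omega
    rw [half_pow_nat _ hs]
    have e1 : (2 : ℤ) ^ (sb l κ j i - 1) = MM l (j i) * LL l κ := by
      unfold sb MM LL
      push_cast
      rw [← pow_add]
      congr 1
      omega
    have e2 : (2 : ℤ) ^ (sb l κ j i) = 2 * (MM l (j i) * LL l κ) := by
      rw [← e1, ← pow_succ']
      congr 1
      omega
    rw [e1, e2]
    have hM : (0 : ℤ) < MM l (j i) := by exact_mod_cast MM_pos l (j i)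
    have hL : (0 : ℤ) < LL l κ := by exact_mod_cast LL_pos l κ
    have h3 : (η i : ℤ) + 1 ≤ LL l κ := by exact_mod_cast hη i
    obtain ⟨hk1, hk2⟩ := hk.2 i
    push_cast
    have h0 : (0 : ℤ) ≤ MM l (j i) * η i := by positivity
    rw [abs_of_nonneg (by nlinarith)]
    constructor <;> nlinarith

end geo

end Run7.h481
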