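import Pool.Agent.Run7.h481.Class

namespace Run7.h481

open MeasureTheory UnitAddTorus ENNReal

theorem exists_kappa (l e : ℕ) : ∃ (c1 : ℝ) (n0 : ℕ), 0 < c1 ∧ ∀ n ≥ n0, 1 ≤ n ∧ ∃ κ,
    Big l κ e n ∧ c1 * n ≤ LP l κ ∧ (LL l κ : ℝ) ≤ n := by
  set a : ℕ := 8 * l + 8 with ha
  set M : ℕ := (e + 1) * (a + 1) with hM
  have hM0 : 1 ≤ M := Nat.one_le_iff_ne_zero.mpr (by positivity)
  refine ⟨(((7 + 2 * M) * 2 ^ (a + 1) : ℕ) : ℝ)⁻¹, 7 + 2 * M * 2 ^ a, by positivity, ?_⟩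
  intro n hn
  have h2a : 1 ≤ 2 ^ a := Nat.one_le_two_pow
  set P : ℕ := (n - 7) / M with hP
  have hP1 : 2 * 2 ^ a ≤ P := by
    rw [hP, Nat.le_div_iff_mul_le (by omega)]
    have : 2 * 2 ^ a * M = 2 * M * 2 ^ a := by ring
    omega
  have hPM : P * M ≤ n - 7 := Nat.div_mul_le_self _ _
  have hPM2 : n - 7 < (P + 1) * M := by
    have := Nat.lt_div_mul_add (a := n - 7) (b := M) (by omega)
    rw [← hP] at this
    calc n - 7 < P * M + M := this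
      _ = _ := by ring
  have hn7 : 7 ≤ n := by omega
  refine ⟨by omega, ?_⟩
  set t := Nat.log (2 ^ a) P with ht
  have hb1 : 1 < 2 ^ a := Nat.one_lt_two_pow (by omega)
  have ht1 : 1 ≤ t := by
    rw [ht]
    apply Nat.log_pos hb1
    omega
  have ht2 : (2 ^ a) ^ t ≤ P := Nat.pow_log_le_self _ (by omega)
  have ht3 : P < (2 ^ a) ^ (t + 1) := Nat.lt_pow_succ_log_self hb1 _
  have hL : LL l (t - 1) = (2 ^ a) ^ t := by
    unfold LL
    rw [← ha, Nat.sub_add_cancel ht1, pow_mul]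
  refine ⟨t - 1, ?_, ?_, ?_⟩
  · unfold Big
    have h1 : (8 * l + 8) * (t - 1 + 1) + 1 ≤ LL l (t - 1) := Nat.lt_two_pow_self
    rw [← ha] at h1 ⊢
    calc e * (a * (t - 1 + 1) + 1 + a * LL l (t - 1)) + 7
        ≤ e * (LL l (t - 1) + a * LL l (t - 1)) + 7 := by gcongr
      _ = (e * (a + 1)) * LL l (t - 1) + 7 := by ring
      _ ≤ M * P + 7 := by
        rw [hL]
        gcongr
        rw [hM]
        gcongr
        omega
      _ ≤ n := by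
        rw [mul_comm M P]
        omega
  · have h1 : n ≤ (7 + 2 * M) * P := by
      have h2 : n ≤ 7 + (P + 1) * M := by omega
      have hP2 : 1 ≤ P := by omega
      nlinarith
    have h3 : P ≤ 2 ^ (a + 1) * LP l (t - 1) := by
      have h4 := LL_eq l (t - 1)
      rw [hL] at h4
      have h5 : (2 ^ a) ^ (t + 1) = 2 ^ (a + 1) * LP l (t - 1) := by
        rw [pow_succ (2 ^ a) t, h4]
        ring
      omega
    have h6 : n ≤ (7 + 2 * M) * 2 ^ (a + 1) * LP l (t - 1) := by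
      calc n ≤ (7 + 2 * M) * P := h1
        _ ≤ (7 + 2 * M) * (2 ^ (a + 1) * LP l (t - 1)) := by gcongr
        _ = _ := by ring
    rw [inv_mul_le_iff₀ (by positivity)]
    exact_mod_cast h6
  · rw [hL]
    have : (2 ^ a) ^ t ≤ n := by
      have : P ≤ P * M := Nat.le_mul_of_pos_right _ (by omega)
      omega
    exact_mod_cast this

/-- common form of the level-`n` lower bound -/
theorem level_common (e : ℕ) {p : ℝ} (hp : 1 < p) : ∃ (l n0 : ℕ) (c c1 c2 : ℝ), 0 < c ∧ 0 < c1 ∧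
    0 < c2 ∧ ∀ n ≥ n0, 1 ≤ n ∧ ∀ m : ℕ, (m : ℝ) ≤ c2 * 2 ^ n * (n : ℝ) ^ e →
    ∃ κ, Big l κ e n ∧ c1 * n ≤ LP l κ ∧ (LL l κ : ℝ) ≤ n ∧
      ∃ ε : (Fin e → Fin (LL l κ)) → (Fin (e + 1) → ℤ) → ℝ, (∀ j k, ε j k = 1 ∨ ε j k = -1) ∧
      ∀ (K : Fin m → Fin (e + 1) → ℤ) (a : Fin m → ℂ),
        ENNReal.ofReal (c * Real.sqrt (64 * 2 ^ (n - 7 - e * ((8 * l + 8) * (κ + 1) + 1)))
          * (LP l κ : ℝ) ^ (2 * e))
        ≤ eLpNorm ((∑ j, ff l κ n (fun i => (j i : ℕ)) (ε j)) - ∑ i, a i • mFourier (K i) :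
          C(UnitAddTorus (Fin (e + 1)), ℂ)) (ENNReal.ofReal p) (mu (Fin (e + 1))) := by
  obtain ⟨l, hl1, hl2⟩ : ∃ l : ℕ, 1 ≤ l ∧ p / (p - 1) ≤ 2 * l + 2 := by
    obtain ⟨l0, hl0⟩ := exists_nat_ge (p / (p - 1))
    refine ⟨l0 + 1, by omega, ?_⟩
    push_cast
    have : (0 : ℝ) ≤ l0 := by positivity
    linarith
  obtain ⟨c, hc, hcore⟩ := core e l hl1
  obtain ⟨c1, n0, hc1, hk⟩ := exists_kappa l e
  refine ⟨l, n0, c, c1, c1 ^ e / 2 ^ (2 * e + 8), hc, hc1, by positivity, ?_⟩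
  intro n hn
  obtain ⟨hn1, κ, hbig, hLP, hLL⟩ := hk n hn
  refine ⟨hn1, fun m hm => ⟨κ, hbig, hLP, hLL, ?_⟩⟩
  have hcnt : 2 ^ (e + 1) * m ≤ 2 ^ (n - 7 - e * ((8 * l + 8) * (κ + 1) + 1))
      * (LL l κ) ^ (2 * e) := by
    set x := (8 * l + 8) * (κ + 1) with hx
    have hexp : e * (x + 1) + 7 ≤ n := by
      have h := hbig
      unfold Big at h
      rw [← hx] at h
      have : e * (x + 1) ≤ e * (x + 1 + (8 * l + 8) * LL l κ) := Nat.mul_le_mul_left _ (by omega)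
      omega
    have hLx : LL l κ = 2 ^ x := rfl
    -- real inequality
    have h1 : (2 : ℝ) ^ (2 * e + 8) * m ≤ 2 ^ n * (LP l κ : ℝ) ^ e := by
      have h2 : (c1 * n) ^ e ≤ (LP l κ : ℝ) ^ e := by gcongr
      calc (2 : ℝ) ^ (2 * e + 8) * m ≤ 2 ^ (2 * e + 8) * (c1 ^ e / 2 ^ (2 * e + 8) * 2 ^ n * (n : ℝ) ^ e) := by
            gcongr
        _ = 2 ^ n * (c1 * n) ^ e := by
            rw [mul_pow]
            field_simp
        _ ≤ _ := by gcongr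
    have h3 : 2 ^ (2 * e + 8) * m ≤ 2 ^ n * (LP l κ) ^ e := by exact_mod_cast h1
    have h4 : (LP l κ) ^ e ≤ (LL l κ) ^ e := Nat.pow_le_pow_left (by rw [LL_eq]; omega) _
    have h5 : 2 ^ (e + 7) * (2 ^ (e + 1) * m) ≤ 2 ^ (e + 7) *
        (2 ^ (n - 7 - e * (x + 1)) * (LL l κ) ^ (2 * e)) := by
      calc 2 ^ (e + 7) * (2 ^ (e + 1) * m) = 2 ^ (2 * e + 8) * m := by ring
        _ ≤ 2 ^ n * (LP l κ) ^ e := h3
        _ ≤ 2 ^ n * (LL l κ) ^ e := Nat.mul_le_mul_left _ h4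
        _ = 2 ^ n * (2 ^ x) ^ e := by rw [hLx]
        _ = _ := by
          rw [hLx, ← pow_mul, ← pow_mul, ← pow_add, ← pow_add, ← pow_add]
          congr 1
          have : e * (x + 1) = x * e + e := by ring
          have h6 : x * (2 * e) = x * e + x * e := by ring
          omega
    exact Nat.le_of_mul_le_mul_left h5 (by positivity)
  obtain ⟨ε, hε, h⟩ := hcore κ n m hbig hcnt
  exact ⟨ε, hε, fun K a => h p hp hl2 K a⟩

/-- scaling -/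
theorem sig_scale {d : ℕ} (m : ℕ) (p : ℝ) {A : ℝ} (hA : 0 < A)
    (F : C(UnitAddTorus (Fin d), ℂ)) {b : ℝ≥0∞}
    (h : ∀ (K : Fin m → Fin d → ℤ) (a : Fin m → ℂ), b ≤ eLpNorm (F - ∑ i, a i • mFourier (K i) :
          C(UnitAddTorus (Fin d), ℂ)) (ENNReal.ofReal p) (mu (Fin d))) :
    ENNReal.ofReal A⁻¹ * b ≤ sig m p (((A⁻¹ : ℝ) : ℂ) • F : C(UnitAddTorus (Fin d), ℂ)) := by
  unfold sig
  refine le_iInf (fun K => le_iInf (fun c => ?_))
  have h1 := h K (fun i => (A : ℂ) * c i)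
  have hAc : (A : ℂ) ≠ 0 := by exact_mod_cast hA.ne'
  have e1 : (fun x => (((A⁻¹ : ℝ) : ℂ) • F : C(UnitAddTorus (Fin d), ℂ)) x
      - ∑ i, c i * mFourier (K i) x)
      = (((A⁻¹ : ℝ) : ℂ)) • (⇑(F - ∑ i, ((A : ℂ) * c i) • mFourier (K i) :
          C(UnitAddTorus (Fin d), ℂ))) := by
    ext x
    simp only [ContinuousMap.smul_apply, Pi.smul_apply, ContinuousMap.sub_apply,
      ContinuousMap.coe_sum, Finset.sum_apply, smul_eq_mul, mul_sub, Finset.mul_sum]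
    congr 1
    refine Finset.sum_congr rfl (fun i _ => ?_)
    push_cast
    field_simp
  rw [e1, eLpNorm_const_smul]
  have e2 : ‖(((A⁻¹ : ℝ) : ℂ))‖ₑ = ENNReal.ofReal A⁻¹ := by
    rw [← ofReal_norm, Complex.norm_real, Real.norm_of_nonneg (by positivity)]
  rw [e2]
  gcongr

end Run7.h481
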