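import Pool.Agent.Run7.h481.Level

namespace Run7.h481

open MeasureTheory UnitAddTorus ENNReal

theorem level_fam (e : ℕ) {p q : ℝ} (r : ℝ) (hp : 1 < p) (hq1 : 1 ≤ q) (hq2 : q ≤ 2) :
    ∃ (l n0 : ℕ) (c c2 : ℝ), 0 < c ∧ 0 < c2 ∧ ∀ n ≥ n0, 1 ≤ n ∧
    ∀ m : ℕ, (m : ℝ) ≤ c2 * 2 ^ n * (n : ℝ) ^ e →
    ∃ κ, Big l κ e n ∧ (LL l κ : ℝ) ≤ n ∧ ∀ β : ℝ, 0 < β →
      ∃ g : (Fin e → Fin (LL l κ)) → C(UnitAddTorus (Fin (e + 1)), ℂ),
        (∀ j, g j ∈ TP (rho (sv l κ n (fun i => (j i : ℕ))) : Set (Fin (e + 1) → ℤ))) ∧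
        (∀ j, ENNReal.ofReal ((2 : ℝ) ^ (r * ∑ i, (sv l κ n (fun i => (j i : ℕ)) i : ℝ)))
          * eLpNorm (g j) (ENNReal.ofReal q) (mu (Fin (e + 1))) ≤ ENNReal.ofReal β⁻¹) ∧
        ENNReal.ofReal (c * (2 : ℝ) ^ (-(r * n)) * (n : ℝ) ^ ((e : ℝ) / q) / β)
          ≤ sig m p (⇑(∑ j, g j : C(UnitAddTorus (Fin (e + 1)), ℂ))) := by
  obtain ⟨l, n0, c, c1, c2, hc, hc1, hc2, hlev⟩ := level_common e hp
  refine ⟨l, n0, c * c1 ^ ((e : ℝ) / q), c2, by positivity, hc2, ?_⟩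
  intro n hn
  obtain ⟨hn1, hlev⟩ := hlev n hn
  refine ⟨hn1, fun m hm => ?_⟩
  obtain ⟨κ, hbig, hLP, hLL, ε, hε, hlow⟩ := hlev m hm
  refine ⟨κ, hbig, hLL, fun β hβ => ?_⟩
  have hq0 : 0 < q := by linarith
  have hn0 : (0 : ℝ) < n := by exact_mod_cast hn1
  set D : ℝ := 64 * 2 ^ (n - 7 - e * ((8 * l + 8) * (κ + 1) + 1)) with hD
  have hD0 : 0 < D := by positivity
  set x : ℝ := (LP l κ : ℝ) ^ e with hx
  have hP0 : (0 : ℝ) < LP l κ := by exact_mod_cast LP_pos l κ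
  have hx0 : 0 < x := by positivity
  set A : ℝ := (2 : ℝ) ^ (r * n) * Real.sqrt D * x ^ (2 - 1 / q) * β with hA
  have hsD : 0 < Real.sqrt D := Real.sqrt_pos.mpr hD0
  have hA0 : 0 < A := by positivity
  have hcard : ∀ j : Fin e → Fin (LL l κ),
      ((RR l κ n (fun i => (j i : ℕ))).card : ℝ) = D := by
    intro j
    rw [card_RR hbig _ (fun i => (j i).2), hD]
    push_cast
    ring
  refine ⟨fun j => ((A⁻¹ : ℝ) : ℂ) • ff l κ n (fun i => (j i : ℕ)) (ε j), ?_, ?_, ?_⟩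
  · intro j
    exact Submodule.smul_mem _ _ (ff_TP hbig (fun i => (j i).2) (ε j))
  · intro j
    have h1 : ∑ i, (sv l κ n (fun i => (j i : ℕ)) i : ℝ) = n := by
      have := sum_sv hbig (fun i => (j i : ℕ)) (fun i => (j i).2)
      exact_mod_cast this
    rw [h1]
    have h2 := ff_normq (l := l) (κ := κ) (n := n) (fun i => (j i : ℕ)) (ε j) (hε j) hq1 hq2 (by
      rw [card_RR hbig _ (fun i => (j i).2)]; positivity)
    rw [hcard j, ← hx] at h2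
    have e1 : (⇑(((A⁻¹ : ℝ) : ℂ) • ff l κ n (fun i => (j i : ℕ)) (ε j) :
        C(UnitAddTorus (Fin (e + 1)), ℂ)) : UnitAddTorus (Fin (e + 1)) → ℂ)
        = ((A⁻¹ : ℝ) : ℂ) • ⇑(ff l κ n (fun i => (j i : ℕ)) (ε j)) := rfl
    have e2 : ‖(((A⁻¹ : ℝ) : ℂ))‖ₑ = ENNReal.ofReal A⁻¹ := by
      rw [← ofReal_norm, Complex.norm_real, Real.norm_of_nonneg (by positivity)]
    rw [e1, eLpNorm_const_smul, e2]
    calc ENNReal.ofReal ((2 : ℝ) ^ (r * n)) * (ENNReal.ofReal A⁻¹ *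
          eLpNorm (ff l κ n (fun i => (j i : ℕ)) (ε j)) (ENNReal.ofReal q) (mu (Fin (e + 1))))
        ≤ ENNReal.ofReal ((2 : ℝ) ^ (r * n)) * (ENNReal.ofReal A⁻¹ *
          ENNReal.ofReal (Real.sqrt D * x ^ (2 - 1 / q))) := by gcongr
      _ = ENNReal.ofReal β⁻¹ := by
          rw [← ENNReal.ofReal_mul (by positivity), ← ENNReal.ofReal_mul (by positivity)]
          congr 1
          rw [hA]
          field_simp
  · have h1 := sig_scale m p hA0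
      (∑ j : Fin e → Fin (LL l κ), ff l κ n (fun i => ((j i : Fin (LL l κ)) : ℕ)) (ε j)) hlow
    rw [Finset.smul_sum] at h1
    refine le_trans ?_ h1
    rw [← ENNReal.ofReal_mul (by positivity)]
    refine ENNReal.ofReal_le_ofReal ?_
    have hx1 : (c1 * n) ^ ((e : ℝ) / q) ≤ x ^ (1 / q) := by
      rw [hx, ← Real.rpow_natCast, ← Real.rpow_mul hP0.le]
      rw [show (e : ℝ) * (1 / q) = (e : ℝ) / q by ring]
      exact Real.rpow_le_rpow (by positivity) hLP (by positivity)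
    rw [Real.mul_rpow hc1.le hn0.le] at hx1
    have hxx : x ^ (1 / q) * x ^ (2 - 1 / q) = (LP l κ : ℝ) ^ (2 * e) := by
      rw [← Real.rpow_add hx0, show 1 / q + (2 - 1 / q) = (2 : ℝ) by ring, Real.rpow_two, hx]
      ring
    have h2 : A⁻¹ * (c * Real.sqrt D * (LP l κ : ℝ) ^ (2 * e))
        = c * (2 : ℝ) ^ (-(r * n)) * x ^ (1 / q) / β := by
      rw [← hxx, hA, Real.rpow_neg (by norm_num)]
      have hxq : x ^ (2 - 1 / q) ≠ 0 := by positivity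
      have h2r : (2 : ℝ) ^ (r * n) ≠ 0 := by positivity
      field_simp
    rw [h2]
    calc c * c1 ^ ((e : ℝ) / q) * (2 : ℝ) ^ (-(r * n)) * (n : ℝ) ^ ((e : ℝ) / q) / β
        = c * (2 : ℝ) ^ (-(r * n)) * (c1 ^ ((e : ℝ) / q) * (n : ℝ) ^ ((e : ℝ) / q)) / β := by ring
      _ ≤ _ := by gcongr

theorem sv_inj' {l κ n e : ℕ} :
    Function.Injective (fun (j : Fin e → Fin (LL l κ)) => sv l κ n (fun i => (j i : ℕ))) := by
  intro j j' h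
  have := sv_inj h
  funext i
  exact Fin.ext (congrFun this i)

theorem level_H (e : ℕ) {p q : ℝ} (r : ℝ) (hp : 1 < p) (hq1 : 1 ≤ q) (hq2 : q ≤ 2) :
    ∃ (n0 : ℕ) (c c2 : ℝ), 0 < c ∧ 0 < c2 ∧ ∀ n ≥ n0, 1 ≤ n ∧
    ∀ m : ℕ, (m : ℝ) ≤ c2 * 2 ^ n * (n : ℝ) ^ e →
      ENNReal.ofReal (c * (2 : ℝ) ^ (-(r * n)) * (n : ℝ) ^ ((e : ℝ) / q))
        ≤ sigC m p (HC (e + 1) r q) := by
  obtain ⟨l, n0, c, c2, hc, hc2, h⟩ := level_fam e r hp hq1 hq2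
  refine ⟨n0, c, c2, hc, hc2, fun n hn => ⟨(h n hn).1, fun m hm => ?_⟩⟩
  obtain ⟨κ, hbig, hLL, hβ⟩ := (h n hn).2 m hm
  obtain ⟨g, hg1, hg2, hg3⟩ := hβ 1 one_pos
  rw [div_one] at hg3
  rw [inv_one, ENNReal.ofReal_one] at hg2
  refine hg3.trans ?_
  unfold sigC
  exact le_iSup₂_of_le _ (family_HC g _ sv_inj' hg1 hg2) le_rfl

theorem level_B (e : ℕ) {p q : ℝ} (r : ℝ) (hp : 1 < p) (hq1 : 1 ≤ q) (hq2 : q ≤ 2) {θ : ℝ}
    (hθ : 0 < θ) :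
    ∃ (n0 : ℕ) (c c2 : ℝ), 0 < c ∧ 0 < c2 ∧ ∀ n ≥ n0, 1 ≤ n ∧
    ∀ m : ℕ, (m : ℝ) ≤ c2 * 2 ^ n * (n : ℝ) ^ e →
      ENNReal.ofReal (c * (2 : ℝ) ^ (-(r * n)) * (n : ℝ) ^ ((e : ℝ) * (1 / q - 1 / θ)))
        ≤ sigC m p (BC (e + 1) r q θ) := by
  obtain ⟨l, n0, c, c2, hc, hc2, h⟩ := level_fam e r hp hq1 hq2
  refine ⟨n0, c, c2, hc, hc2, fun n hn => ⟨(h n hn).1, fun m hm => ?_⟩⟩
  obtain ⟨κ, hbig, hLL, hβ⟩ := (h n hn).2 m hm
  have hn0 : (0 : ℝ) < n := by exact_mod_cast (h n hn).1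
  have hL0 : (0 : ℝ) < LL l κ := by exact_mod_cast LL_pos l κ
  set y : ℝ := (LL l κ : ℝ) ^ e with hy
  have hy0 : 0 < y := by positivity
  obtain ⟨g, hg1, hg2, hg3⟩ := hβ (y ^ (1 / θ)) (by positivity)
  refine le_trans ?_ (hg3.trans ?_)
  · refine ENNReal.ofReal_le_ofReal ?_
    have h1 : y ^ (1 / θ) ≤ (n : ℝ) ^ ((e : ℝ) / θ) := by
      rw [hy, ← Real.rpow_natCast, ← Real.rpow_mul hL0.le,
        show (e : ℝ) * (1 / θ) = (e : ℝ) / θ by ring]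
      exact Real.rpow_le_rpow hL0.le hLL (by positivity)
    have h2 : (n : ℝ) ^ ((e : ℝ) * (1 / q - 1 / θ))
        = (n : ℝ) ^ ((e : ℝ) / q) / (n : ℝ) ^ ((e : ℝ) / θ) := by
      rw [← Real.rpow_sub hn0]
      congr 1
      ring
    rw [h2, ← mul_div_assoc]
    gcongr
  · unfold sigC
    refine le_iSup₂_of_le _ (family_BC g _ sv_inj' hg1 hθ _ hg2 ?_) le_rfl
    have hcard : (Fintype.card (Fin e → Fin (LL l κ)) : ℝ≥0∞) = ENNReal.ofReal y := by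
      rw [Fintype.card_pi, Finset.prod_const, Finset.card_univ, Fintype.card_fin, Fintype.card_fin,
        hy, ← ENNReal.ofReal_natCast]
      push_cast
      rfl
    rw [hcard, ENNReal.ofReal_rpow_of_nonneg (by positivity) hθ.le,
      ← ENNReal.ofReal_mul (by positivity)]
    have : y * ((y ^ (1 / θ))⁻¹) ^ θ = 1 := by
      rw [Real.inv_rpow (by positivity), ← Real.rpow_mul hy0.le, one_div_mul_cancel hθ.ne',
        Real.rpow_one, mul_inv_cancel₀ hy0.ne']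
    rw [this, ENNReal.ofReal_one]

end Run7.h481
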