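import Pool.Agent.R143.MonoPath

set_option autoImplicit false

/-!
# Edges of monotone paths: separation, the line lemma and the length lemma
-/

namespace Run7.h481.MC

open Pool.Agent.R143.MonoPath

theorem path_mono {t : ℕ} {v : Fin t → Plane} {u : Plane}
    (hu : ∀ i j : Fin t, (j : ℕ) = i + 1 → 0 < inner ℝ (v j - v i) u) :
    ∀ i j : Fin t, i < j → inner ℝ (v i) u < inner ℝ (v j) u := by
  have key : ∀ n : ℕ, ∀ i j : Fin t, (j : ℕ) = i + 1 + n → inner ℝ (v i) u < inner ℝ (v j) u := by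
    intro n
    induction n with
    | zero =>
      intro i j h
      have := hu i j (by omega)
      rw [inner_sub_left] at this
      linarith
    | succ n ih =>
      intro i j h
      have hj : (j : ℕ) - 1 < t := by have := j.2; omega
      have h1 := ih i ⟨(j : ℕ) - 1, hj⟩ (by simp only; omega)
      have h2 := hu ⟨(j : ℕ) - 1, hj⟩ j (by simp only; omega)
      rw [inner_sub_left] at h2
      linarith
  intro i j h
  exact key ((j : ℕ) - i - 1) i j (by have : (i : ℕ) < j := h; omega)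

theorem edge_ne {t : ℕ} {v : Fin t → Plane} {u : Plane}
    (hu : ∀ i j : Fin t, (j : ℕ) = i + 1 → 0 < inner ℝ (v j - v i) u)
    {p q : Plane} (h : IsEdge v p q) : inner ℝ p u ≠ inner ℝ q u := by
  obtain ⟨i, j, hij, h1⟩ := h
  have h2 := path_mono hu i j (by show (i : ℕ) < j; omega)
  rcases h1 with ⟨rfl, rfl⟩ | ⟨rfl, rfl⟩
  · exact h2.ne
  · exact h2.ne'

/-- Two edges of a monotone path occupy intervals without common interior points. -/
theorem sep {t : ℕ} {v : Fin t → Plane} {u : Plane}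
    (hu : ∀ i j : Fin t, (j : ℕ) = i + 1 → 0 < inner ℝ (v j - v i) u)
    {p q p' q' : Plane} (h : IsEdge v p q) (h' : IsEdge v p' q')
    (hne : ¬ ((p = p' ∧ q = q') ∨ (p = q' ∧ q = p'))) :
    max (inner ℝ p u) (inner ℝ q u) ≤ min (inner ℝ p' u) (inner ℝ q' u) ∨
      max (inner ℝ p' u) (inner ℝ q' u) ≤ min (inner ℝ p u) (inner ℝ q u) := by
  have hm := path_mono hu
  have hm' : ∀ i j : Fin t, i ≤ j → inner ℝ (v i) u ≤ inner ℝ (v j) u := by
    intro i j hij
    rcases hij.eq_or_lt with h | h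
    · rw [h]
    · exact (hm i j h).le
  have iv : ∀ {p q : Plane}, IsEdge v p q → ∃ i j : Fin t, (j : ℕ) = i + 1 ∧
      max (inner ℝ p u) (inner ℝ q u) = inner ℝ (v j) u ∧
      min (inner ℝ p u) (inner ℝ q u) = inner ℝ (v i) u ∧
      ((v i = p ∧ v j = q) ∨ (v i = q ∧ v j = p)) := by
    intro p q h
    obtain ⟨i, j, hij, h1⟩ := h
    have h2 := hm i j (by show (i : ℕ) < j; omega)
    refine ⟨i, j, hij, ?_, ?_, h1⟩
    · rcases h1 with ⟨rfl, rfl⟩ | ⟨rfl, rfl⟩
      · exact max_eq_right h2.le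
      · exact max_eq_left h2.le
    · rcases h1 with ⟨rfl, rfl⟩ | ⟨rfl, rfl⟩
      · exact min_eq_left h2.le
      · exact min_eq_right h2.le
  obtain ⟨i, j, hij, h1, h2, h3⟩ := iv h
  obtain ⟨i', j', hij', h1', h2', h3'⟩ := iv h'
  rw [h1, h2, h1', h2']
  rcases lt_trichotomy (i : ℕ) i' with hlt | heq | hgt
  · left
    exact hm' j i' (by show (j : ℕ) ≤ i'; omega)
  · exfalso
    have e1 : i = i' := Fin.ext heq
    have e2 : j = j' := Fin.ext (by omega)
    subst e1 e2
    apply hne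
    rcases h3 with ⟨a, b⟩ | ⟨a, b⟩ <;> rcases h3' with ⟨a', b'⟩ | ⟨a', b'⟩
    · exact Or.inl ⟨a.symm.trans a', b.symm.trans b'⟩
    · exact Or.inr ⟨a.symm.trans a', b.symm.trans b'⟩
    · exact Or.inr ⟨b.symm.trans b', a.symm.trans a'⟩
    · exact Or.inl ⟨b.symm.trans b', a.symm.trans a'⟩
  · right
    exact hm' j' i (by show (j' : ℕ) ≤ i; omega)

/-- The length lemma. -/
theorem length_lemma {β : Type*} (E : Finset β) (lo hi : β → ℝ) (δ R : ℝ) (hδ : 0 < δ)
    (hsep : ∀ e ∈ E, ∀ e' ∈ E, e ≠ e' → hi e ≤ lo e' ∨ hi e' ≤ lo e)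
    (hlen : ∀ e ∈ E, lo e + δ ≤ hi e) (hR : ∀ e ∈ E, |hi e| ≤ R) (hR0 : 0 ≤ R) :
    (E.card : ℝ) ≤ 2 * R / δ + 2 := by
  classical
  have h1 : E.card ≤ (Finset.Icc ⌊-R / δ⌋ ⌊R / δ⌋).card := by
    apply Finset.card_le_card_of_injOn (fun e => ⌊hi e / δ⌋)
    · intro e he
      have h := abs_le.mp (hR e he)
      simp only [Finset.coe_Icc, Set.mem_Icc]
      constructor
      · apply Int.floor_le_floor
        exact div_le_div_of_nonneg_right h.1 hδ.le
      · apply Int.floor_le_floor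
        exact div_le_div_of_nonneg_right h.2 hδ.le
    · intro e he e' he' h
      by_contra hne
      have aux : ∀ x y : β, x ∈ E → y ∈ E → hi x ≤ lo y → ⌊hi x / δ⌋ < ⌊hi y / δ⌋ := by
        intro x y hx hy hxy
        have h2 : hi x / δ + 1 ≤ hi y / δ := by
          rw [div_add_one hδ.ne']
          apply div_le_div_of_nonneg_right _ hδ.le
          have := hlen y hy
          linarith
        have h3 : ⌊hi x / δ⌋ + 1 ≤ ⌊hi y / δ⌋ := by
          rw [← Int.floor_add_one]
          exact Int.floor_le_floor h2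
        omega
      rcases hsep e he e' he' hne with h2 | h2
      · have := aux e e' he he' h2
        simp only at h
        omega
      · have := aux e' e he' he h2
        simp only at h
        omega
  have h2 : ((Finset.Icc ⌊-R / δ⌋ ⌊R / δ⌋).card : ℝ) ≤ 2 * R / δ + 2 := by
    rw [Int.card_Icc]
    have h3 : ⌊-R / δ⌋ ≤ ⌊R / δ⌋ := by
      apply Int.floor_le_floor
      apply div_le_div_of_nonneg_right _ hδ.le
      linarith
    have h4 : (((⌊R / δ⌋ + 1 - ⌊-R / δ⌋).toNat : ℕ) : ℝ) = ((⌊R / δ⌋ + 1 - ⌊-R / δ⌋ : ℤ) : ℝ) := by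
      have : ((⌊R / δ⌋ + 1 - ⌊-R / δ⌋).toNat : ℤ) = ⌊R / δ⌋ + 1 - ⌊-R / δ⌋ :=
        Int.toNat_of_nonneg (by omega)
      exact_mod_cast this
    rw [h4]
    push_cast
    have h5 := Int.floor_le (R / δ)
    have h6 := Int.lt_floor_add_one (-R / δ)
    have h7 : -R / δ = -(R / δ) := neg_div _ _
    rw [h7] at h6 ⊢
    have h8 : 2 * R / δ = R / δ + R / δ := by ring
    rw [h8]
    linarith
  exact le_trans (by exact_mod_cast h1) h2

end Run7.h481.MC
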