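import Mathlib

set_option autoImplicit false

/-!
# The line lemma
-/

namespace Run7.h481.MC

theorem line_pos (M : ℝ) (m a : ℕ) (ε : ℕ → ℝ) (s t c : ℝ) (φ : ℕ → ℝ)
    (hφ : ∀ i, φ i = c + i * s + ε i * t) (hM : 16 * (m : ℝ) < M)
    (hpos : ∀ i < 3 * a, 0 < ε i) (hdec : ∀ i j, i < j → j < 3 * a → M * ε j ≤ ε i)
    (ham : 3 * a ≤ m) (hst : s ≠ 0 ∨ t ≠ 0) (hs : 0 ≤ s)
    (E : Finset (ℕ × ℕ)) (hE : ∀ e ∈ E, e.1 < a ∧ 2 * a ≤ e.2 ∧ e.2 < 3 * a)
    (hne : ∀ e ∈ E, φ e.1 ≠ φ e.2)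
    (hsep : ∀ e ∈ E, ∀ e' ∈ E, e ≠ e' →
      max (φ e.1) (φ e.2) ≤ min (φ e'.1) (φ e'.2) ∨
        max (φ e'.1) (φ e'.2) ≤ min (φ e.1) (φ e.2)) :
    E.card ≤ 7 := by
  classical
  -- overlapping
  have up : ∀ e ∈ E, ∀ e' ∈ E, φ e.1 < φ e'.2 → φ e'.1 < φ e.2 → e = e' := by
    intro e he e' he' h1 h2
    by_contra hc
    rcases hsep e he e' he' hc with h | h
    · have := (le_max_right (φ e.1) (φ e.2)).trans (h.trans (min_le_left (φ e'.1) (φ e'.2)))
      linarith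
    · have := (le_max_right (φ e'.1) (φ e'.2)).trans (h.trans (min_le_left (φ e.1) (φ e.2)))
      linarith
  have down : ∀ e ∈ E, ∀ e' ∈ E, φ e'.2 < φ e.1 → φ e.2 < φ e'.1 → e = e' := by
    intro e he e' he' h1 h2
    by_contra hc
    rcases hsep e he e' he' hc with h | h
    · have := (le_max_left (φ e.1) (φ e.2)).trans (h.trans (min_le_right (φ e'.1) (φ e'.2)))
      linarith
    · have := (le_max_left (φ e'.1) (φ e'.2)).trans (h.trans (min_le_right (φ e.1) (φ e.2)))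
      linarith
  have hm0 : (0 : ℝ) ≤ m := Nat.cast_nonneg m
  have hM1 : 0 < M := by linarith
  have hdec' : ∀ i j, i < j → j < 3 * a → ε j < ε i := by
    intro i j hij hj
    have h1 := hdec i j hij hj
    have h2 := hpos j hj
    have hm1 : (1 : ℝ) ≤ m := by
      have : 1 ≤ m := by omega
      exact_mod_cast this
    nlinarith
  by_cases ht : 0 < t ∧ 0 < s
  swap
  · -- monotone case
    have h1 : E.card ≤ 1 := by
      rw [Finset.card_le_one]
      intro e he e' he'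
      obtain ⟨a1, a2, a3⟩ := hE e he
      obtain ⟨b1, b2, b3⟩ := hE e' he'
      by_cases ht0 : 0 < t
      · -- s = 0
        have hs0 : s = 0 := by
          by_contra hc
          exact ht ⟨ht0, lt_of_le_of_ne hs (Ne.symm hc)⟩
        have mono : ∀ i j, i < j → j < 3 * a → φ j < φ i := by
          intro i j hij hj
          rw [hφ, hφ, hs0]
          have := hdec' i j hij hj
          nlinarith
        exact down e he e' he' (mono _ _ (by omega) (by omega)) (mono _ _ (by omega) (by omega))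
      · have mono : ∀ i j, i < j → j < 3 * a → φ i < φ j := by
          intro i j hij hj
          rw [hφ, hφ]
          have h1 := hdec' i j hij hj
          have h2 : (i : ℝ) + 1 ≤ j := by exact_mod_cast hij
          have h3 : ε i * t ≤ ε j * t := by nlinarith
          rcases hs.eq_or_lt with h4 | h4
          · rw [← h4]
            have ht' : t < 0 := by
              rcases hst with h5 | h5
              · exact absurd h4.symm h5
              · exact lt_of_le_of_ne (not_lt.mp ht0) h5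
            have : ε i * t < ε j * t := by nlinarith
            nlinarith
          · nlinarith
        exact up e he e' he' (mono _ _ (by omega) (by omega)) (mono _ _ (by omega) (by omega))
    omega
  obtain ⟨ht0, hs0⟩ := ht
  -- large and small indices
  have LL : ∀ i j, i < j → j < 3 * a → 4 * m * s < ε i * t → φ j < φ i := by
    intro i j hij hj hL
    rw [hφ, hφ]
    have h1 := hdec i j hij hj
    have h2 := hpos j hj
    have h3 : (j : ℝ) ≤ m := by
      have : j ≤ m := by omega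
      exact_mod_cast this
    have hm1 : (1 : ℝ) ≤ m := by
      have : 1 ≤ m := by omega
      exact_mod_cast this
    have h4 : ε j * t * 2 ≤ ε i * t := by
      have : 2 * ε j ≤ ε i := by nlinarith
      nlinarith
    have h5 : (j : ℝ) * s ≤ m * s := by nlinarith
    have h6 : 0 ≤ (i : ℝ) * s := by positivity
    have h7 : 0 < (m : ℝ) * s := by positivity
    nlinarith
  have SS : ∀ i j, i < j → j < 3 * a → ε i * t < s / 4 → φ i < φ j := by
    intro i j hij hj hS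
    rw [hφ, hφ]
    have h2 := hpos j hj
    have h3 : (i : ℝ) + 1 ≤ j := by exact_mod_cast hij
    have h4 : 0 < ε j * t := by positivity
    have h5 : ((i : ℝ) + 1) * s ≤ j * s := by nlinarith
    nlinarith
  have mid : ∀ i j, i < j → j < 3 * a → s / 4 ≤ ε j * t → 4 * m * s < ε i * t := by
    intro i j hij hj h
    have h1 := hdec i j hij hj
    have h2 : M * (ε j * t) ≤ ε i * t := by nlinarith
    have h3 : M * (s / 4) ≤ M * (ε j * t) := by nlinarith
    nlinarith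
  have LS : ∀ i j, i < 3 * a → j < 3 * a → 4 * m * s < ε i * t → ε j * t < s / 4 →
      φ j < φ i := by
    intro i j hi hj hL hS
    rw [hφ, hφ]
    have h3 : (j : ℝ) ≤ m := by
      have : j ≤ m := by omega
      exact_mod_cast this
    have hm1 : (1 : ℝ) ≤ m := by
      have : 1 ≤ m := by omega
      exact_mod_cast this
    have h5 : (j : ℝ) * s ≤ m * s := by nlinarith
    have h6 : 0 ≤ (i : ℝ) * s := by positivity
    nlinarith
  have main := Finset.card_le_card_of_forall_subsingleton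
    (s := E) (t := Finset.range 7)
    (fun (e : ℕ × ℕ) (k : ℕ) =>
      (k = 0 ∧ 4 * m * s < ε e.2 * t) ∨ (k = 1 ∧ ε e.1 * t < s / 4) ∨
      (k = 2 ∧ 4 * m * s < ε e.1 * t ∧ ε e.2 * t < s / 4) ∨
      (k = 3 ∧ (¬ 4 * m * s < ε e.1 * t ∧ ¬ ε e.1 * t < s / 4) ∧ φ e.2 < φ e.1) ∨
      (k = 4 ∧ (¬ 4 * m * s < ε e.1 * t ∧ ¬ ε e.1 * t < s / 4) ∧ φ e.1 < φ e.2) ∨
      (k = 5 ∧ (¬ 4 * m * s < ε e.2 * t ∧ ¬ ε e.2 * t < s / 4) ∧ φ e.2 < φ e.1) ∨
      (k = 6 ∧ (¬ 4 * m * s < ε e.2 * t ∧ ¬ ε e.2 * t < s / 4) ∧ φ e.1 < φ e.2)) ?_ ?_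
  · simpa using main
  · intro e he
    obtain ⟨a1, a2, a3⟩ := hE e he
    by_cases h0 : 4 * m * s < ε e.2 * t
    · exact ⟨0, by simp, Or.inl ⟨rfl, h0⟩⟩
    by_cases h1 : ε e.1 * t < s / 4
    · exact ⟨1, by simp, Or.inr (Or.inl ⟨rfl, h1⟩)⟩
    by_cases h2 : ε e.2 * t < s / 4
    · by_cases h3 : 4 * m * s < ε e.1 * t
      · exact ⟨2, by simp, Or.inr (Or.inr (Or.inl ⟨rfl, h3, h2⟩))⟩
      · rcases lt_or_gt_of_ne (hne e he) with h4 | h4
        · exact ⟨4, by simp, Or.inr (Or.inr (Or.inr (Or.inr (Or.inl ⟨rfl, ⟨h3, h1⟩, h4⟩))))⟩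
        · exact ⟨3, by simp, Or.inr (Or.inr (Or.inr (Or.inl ⟨rfl, ⟨h3, h1⟩, h4⟩)))⟩
    · rcases lt_or_gt_of_ne (hne e he) with h4 | h4
      · exact ⟨6, by simp, Or.inr (Or.inr (Or.inr (Or.inr (Or.inr (Or.inr ⟨rfl, ⟨h0, h2⟩, h4⟩)))))⟩
      · exact ⟨5, by simp, Or.inr (Or.inr (Or.inr (Or.inr (Or.inr (Or.inl ⟨rfl, ⟨h0, h2⟩, h4⟩)))))⟩
  · intro k _ e he e' he'
    obtain ⟨he, h⟩ := he
    obtain ⟨he', h'⟩ := he'
    obtain ⟨a1, a2, a3⟩ := hE e he
    obtain ⟨b1, b2, b3⟩ := hE e' he'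
    have same : ∀ i j, i < 3 * a → j < 3 * a → (¬ 4 * m * s < ε i * t ∧ ¬ ε i * t < s / 4) →
        (¬ 4 * m * s < ε j * t ∧ ¬ ε j * t < s / 4) → i = j := by
      intro i j hi hj h1 h2
      by_contra hc
      rcases lt_or_gt_of_ne hc with h3 | h3
      · exact h1.1 (mid i j h3 hj (not_lt.mp h2.2))
      · exact h2.1 (mid j i h3 hi (not_lt.mp h1.2))
    rcases h with ⟨k0, h⟩ | ⟨k0, h⟩ | ⟨k0, h⟩ | ⟨k0, h⟩ | ⟨k0, h⟩ | ⟨k0, h⟩ | ⟨k0, h⟩ <;>
    rcases h' with ⟨k1, h'⟩ | ⟨k1, h'⟩ | ⟨k1, h'⟩ | ⟨k1, h'⟩ | ⟨k1, h'⟩ | ⟨k1, h'⟩ | ⟨k1, h'⟩ <;>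
    first
    | (exfalso; omega)
    | skip
    · have c1 : 4 * m * s < ε e.1 * t :=
        lt_of_lt_of_le h (by have := hdec' e.1 e.2 (by omega) a3; nlinarith)
      have c2 : 4 * m * s < ε e'.1 * t :=
        lt_of_lt_of_le h' (by have := hdec' e'.1 e'.2 (by omega) b3; nlinarith)
      exact down e he e' he' (LL _ _ (by omega) (by omega) c1) (LL _ _ (by omega) (by omega) c2)
    · exact up e he e' he' (SS _ _ (by omega) (by omega) h) (SS _ _ (by omega) (by omega) h')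
    · exact down e he e' he' (LS _ _ (by omega) (by omega) h.1 h'.2)
        (LS _ _ (by omega) (by omega) h'.1 h.2)
    · have := same e.1 e'.1 (by omega) (by omega) h.1 h'.1
      exact down e he e' he' (by rw [this]; exact h'.2) (by rw [← this]; exact h.2)
    · have := same e.1 e'.1 (by omega) (by omega) h.1 h'.1
      exact up e he e' he' (by rw [this]; exact h'.2) (by rw [← this]; exact h.2)
    · have := same e.2 e'.2 (by omega) (by omega) h.1 h'.1
      exact down e he e' he' (by rw [← this]; exact h.2) (by rw [this]; exact h'.2)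
    · have := same e.2 e'.2 (by omega) (by omega) h.1 h'.1
      exact up e he e' he' (by rw [← this]; exact h.2) (by rw [this]; exact h'.2)

theorem line_lemma (M : ℝ) (m a : ℕ) (ε : ℕ → ℝ) (s t c : ℝ) (φ : ℕ → ℝ)
    (hφ : ∀ i, φ i = c + i * s + ε i * t) (hM : 16 * (m : ℝ) < M)
    (hpos : ∀ i < 3 * a, 0 < ε i) (hdec : ∀ i j, i < j → j < 3 * a → M * ε j ≤ ε i)
    (ham : 3 * a ≤ m) (hst : s ≠ 0 ∨ t ≠ 0)
    (E : Finset (ℕ × ℕ)) (hE : ∀ e ∈ E, e.1 < a ∧ 2 * a ≤ e.2 ∧ e.2 < 3 * a)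
    (hne : ∀ e ∈ E, φ e.1 ≠ φ e.2)
    (hsep : ∀ e ∈ E, ∀ e' ∈ E, e ≠ e' →
      max (φ e.1) (φ e.2) ≤ min (φ e'.1) (φ e'.2) ∨
        max (φ e'.1) (φ e'.2) ≤ min (φ e.1) (φ e.2)) :
    E.card ≤ 7 := by
  rcases le_or_gt 0 s with hs | hs
  · exact line_pos M m a ε s t c φ hφ hM hpos hdec ham hst hs E hE hne hsep
  · refine line_pos M m a ε (-s) (-t) (-c) (fun i => -φ i) ?_ hM hpos hdec ham ?_
      (by linarith) E hE ?_ ?_
    · intro i
      rw [hφ]
      ring
    · rcases hst with h | h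
      · exact Or.inl (neg_ne_zero.mpr h)
      · exact Or.inr (neg_ne_zero.mpr h)
    · intro e he h
      exact hne e he (neg_injective h)
    · intro e he e' he' hc
      simp only [max_neg_neg, min_neg_neg, neg_le_neg_iff]
      exact (hsep e he e' he' hc).symm

end Run7.h481.MC
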