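import Pool.Agent.R143.MonoPath

set_option autoImplicit false

/-!
# The perturbed grid
-/

namespace Run7.h481.MC

open Pool.Agent.R143.MonoPath

/-- base of the displacements -/
def MM (m : ℕ) : ℕ := 16 * (m + 2) ^ 2

/-- the displacement of the grid point `z` -/
noncomputable def ee (m : ℕ) (z : ℕ × ℕ) : ℝ := 1 / (MM m : ℝ) ^ (z.1 * m + z.2 + 1)

/-- the displaced grid point -/
noncomputable def P (m : ℕ) (z : ℕ × ℕ) : Plane :=
  !₂[(z.1 : ℝ) + ee m z, (z.2 : ℝ) + ee m z * (m + 1)]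

@[simp] theorem P_zero (m : ℕ) (z : ℕ × ℕ) : (P m z) 0 = (z.1 : ℝ) + ee m z := by simp [P]
@[simp] theorem P_one (m : ℕ) (z : ℕ × ℕ) : (P m z) 1 = (z.2 : ℝ) + ee m z * (m + 1) := by simp [P]

theorem inner_P (m : ℕ) (z : ℕ × ℕ) (u : Plane) : inner ℝ (P m z) u =
    z.1 * u 0 + z.2 * u 1 + ee m z * (u 0 + (m + 1) * u 1) := by
  rw [inner_eq]
  simp only [P_zero, P_one]
  ring

theorem MM_pos (m : ℕ) : (0 : ℝ) < MM m := by
  have : 0 < MM m := by unfold MM; positivity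
  exact_mod_cast this

theorem MM_cast (m : ℕ) : (MM m : ℝ) = 16 * ((m : ℝ) + 2) ^ 2 := by
  unfold MM; push_cast; ring

theorem ee_pos (m : ℕ) (z : ℕ × ℕ) : 0 < ee m z := by
  have := MM_pos m
  unfold ee; positivity

theorem one_le_MM (m : ℕ) : (1 : ℝ) ≤ MM m := by
  rw [MM_cast]
  have : (0 : ℝ) ≤ m := Nat.cast_nonneg m
  nlinarith

theorem ee_le (m : ℕ) (z : ℕ × ℕ) : ee m z ≤ 1 / MM m := by
  unfold ee
  apply one_div_le_one_div_of_le (MM_pos m)
  calc (MM m : ℝ) = (MM m : ℝ) ^ 1 := (pow_one _).symm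
    _ ≤ _ := pow_le_pow_right₀ (one_le_MM m) (by omega)

theorem ee_dec (m : ℕ) (z z' : ℕ × ℕ) (h : z.1 * m + z.2 < z'.1 * m + z'.2) :
    (MM m : ℝ) * ee m z' ≤ ee m z := by
  unfold ee
  have h0 := MM_pos m
  rw [mul_one_div, div_le_div_iff₀ (by positivity) (by positivity), one_mul, ← pow_succ']
  exact pow_le_pow_right₀ (one_le_MM m) (by omega)

theorem small (m : ℕ) (z : ℕ × ℕ) : ee m z * (m + 2) * (m + 2) ≤ 1 / 16 := by
  have h := ee_le m z
  have h1 : (0 : ℝ) < (m : ℝ) + 2 := by positivity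
  have h2 : 1 / (MM m : ℝ) * (m + 2) * (m + 2) = 1 / 16 := by
    rw [MM_cast]; field_simp
  calc ee m z * (m + 2) * (m + 2) ≤ 1 / (MM m : ℝ) * (m + 2) * (m + 2) := by gcongr
    _ = 1 / 16 := h2

theorem small1 (m : ℕ) (z : ℕ × ℕ) : ee m z * (m + 2) ≤ 1 / 16 := by
  have h := small m z
  have h1 : 0 < ee m z * (m + 2) := mul_pos (ee_pos m z) (by positivity)
  have h2 : (0 : ℝ) ≤ m := Nat.cast_nonneg m
  nlinarith

theorem coord0 (x y : Plane) : |x 0 - y 0| ≤ dist x y := by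
  rw [EuclideanSpace.dist_eq, Fin.sum_univ_two]
  apply Real.abs_le_sqrt
  rw [Real.dist_eq, Real.dist_eq, sq_abs, sq_abs]
  nlinarith [sq_nonneg (x 1 - y 1)]

theorem coord1 (x y : Plane) : |x 1 - y 1| ≤ dist x y := by
  rw [EuclideanSpace.dist_eq, Fin.sum_univ_two]
  apply Real.abs_le_sqrt
  rw [Real.dist_eq, Real.dist_eq, sq_abs, sq_abs]
  nlinarith [sq_nonneg (x 0 - y 0)]

theorem dist_le (x y : Plane) : dist x y ≤ |x 0 - y 0| + |x 1 - y 1| := by
  rw [EuclideanSpace.dist_eq, Fin.sum_univ_two]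
  apply Real.sqrt_le_iff.mpr
  refine ⟨by positivity, ?_⟩
  rw [Real.dist_eq, Real.dist_eq]
  nlinarith [abs_nonneg (x 0 - y 0), abs_nonneg (x 1 - y 1)]

theorem far (m : ℕ) (z z' : ℕ × ℕ) (h : z ≠ z') : 1 / 2 ≤ dist (P m z) (P m z') := by
  have e1 := ee_pos m z
  have e2 := ee_pos m z'
  have s1 := small1 m z
  have s2 := small1 m z'
  have hm : (0 : ℝ) ≤ m := Nat.cast_nonneg m
  have t1 : ee m z ≤ 1 / 16 := by nlinarith
  have t2 : ee m z' ≤ 1 / 16 := by nlinarith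
  have nat_far : ∀ a b : ℕ, a ≠ b → (1 : ℝ) ≤ |(a : ℝ) - b| := by
    intro a b hab
    have h1 : (1 : ℤ) ≤ |(a : ℤ) - b| := Int.one_le_abs (sub_ne_zero.mpr (by exact_mod_cast hab))
    exact_mod_cast h1
  by_cases h1 : z.1 = z'.1
  · have h2 : z.2 ≠ z'.2 := fun h3 => h (Prod.ext h1 h3)
    refine le_trans ?_ (coord1 _ _)
    rw [P_one, P_one]
    have h3 := nat_far _ _ h2
    rcases le_abs.mp h3 with h4 | h4
    · exact le_abs.mpr (Or.inl (by nlinarith))
    · exact le_abs.mpr (Or.inr (by nlinarith))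
  · refine le_trans ?_ (coord0 _ _)
    rw [P_zero, P_zero]
    have h3 := nat_far _ _ h1
    rcases le_abs.mp h3 with h4 | h4
    · exact le_abs.mpr (Or.inl (by nlinarith))
    · exact le_abs.mpr (Or.inr (by nlinarith))

theorem P_inj (m : ℕ) : Function.Injective (P m) := by
  intro z z' h
  by_contra hc
  have := far m z z' hc
  rw [h, dist_self] at this
  norm_num at this

theorem near (m : ℕ) (z z' : ℕ × ℕ) (h1 : z.1 < m) (h2 : z.2 < m) (h3 : z'.1 < m) (h4 : z'.2 < m) :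
    dist (P m z) (P m z') ≤ 2 * m := by
  have e1 := ee_pos m z
  have e2 := ee_pos m z'
  have s1 := small1 m z
  have s2 := small1 m z'
  have hm : (0 : ℝ) ≤ m := Nat.cast_nonneg m
  have t1 : ee m z ≤ 1 / 16 := by nlinarith
  have t2 : ee m z' ≤ 1 / 16 := by nlinarith
  have nn : ∀ a b : ℕ, a < m → b < m → (a : ℝ) - b ≤ m - 1 := by
    intro a b ha hb
    have h5 : (a : ℝ) + 1 ≤ m := by exact_mod_cast ha
    have h6 : (0 : ℝ) ≤ b := Nat.cast_nonneg b
    linarith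
  refine (dist_le _ _).trans ?_
  have h5 : |(P m z) 0 - (P m z') 0| ≤ m := by
    rw [P_zero, P_zero, abs_le]
    constructor
    · have := nn z'.1 z.1 h3 h1; nlinarith
    · have := nn z.1 z'.1 h1 h3; nlinarith
  have h6 : |(P m z) 1 - (P m z') 1| ≤ m := by
    rw [P_one, P_one, abs_le]
    constructor
    · have := nn z'.2 z.2 h4 h2; nlinarith
    · have := nn z.2 z'.2 h2 h4; nlinarith
  linarith

end Run7.h481.MC
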