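import Pool.Agent.Run7.h481.MC1
import Pool.Agent.Run7.h481.MC2
import Pool.Agent.Run7.h481.MC3

set_option autoImplicit false

/-!
# Counting the long segments of the grid lines covered by one path
-/

namespace Run7.h481.MC

open Pool.Agent.R143.MonoPath Finset

/-- the point number `i` of the grid line in direction `d` with the base point `b` -/
def zz (d b : ℕ × ℕ) (i : ℕ) : ℕ × ℕ := (b.1 + i * d.1, b.2 + i * d.2)

/-- base points -/
def Bd (k : ℕ) (d : ℕ × ℕ) : Finset (ℕ × ℕ) := range d.1 ×ˢ range (k / 2)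

/-- pairs of indices -/
def Rd (a : ℕ) : Finset (ℕ × ℕ) := range a ×ˢ Ico (2 * a) (3 * a)

theorem zz_inj {d b b' : ℕ × ℕ} {i i' : ℕ} (hb : b.1 < d.1) (hb' : b'.1 < d.1)
    (h : zz d b i = zz d b' i') : b = b' ∧ i = i' := by
  have hd : 0 < d.1 := by omega
  have h1 : b.1 + i * d.1 = b'.1 + i' * d.1 := congrArg Prod.fst h
  have h2 : b.2 + i * d.2 = b'.2 + i' * d.2 := congrArg Prod.snd h
  have h3 : (b.1 + i * d.1) / d.1 = i := by
    rw [Nat.add_mul_div_right _ _ hd, Nat.div_eq_of_lt hb, zero_add]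
  have h4 : (b'.1 + i' * d.1) / d.1 = i' := by
    rw [Nat.add_mul_div_right _ _ hd, Nat.div_eq_of_lt hb', zero_add]
  have h5 : i = i' := by rw [← h3, ← h4, h1]
  subst h5
  exact ⟨Prod.ext (by omega) (by omega), rfl⟩

theorem zz_mem {k a : ℕ} {d b : ℕ × ℕ} {i : ℕ} (hb : b ∈ Bd k d) (hi : i < 3 * a)
    (hd : d.2 < d.1) (ha : 3 * a * d.1 ≤ k / 2) : (zz d b i).1 < k ∧ (zz d b i).2 < k := by
  unfold Bd at hb
  rw [mem_product, mem_range, mem_range] at hb
  unfold zz
  have h1 : (i + 1) * d.1 ≤ 3 * a * d.1 := Nat.mul_le_mul_right _ hi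
  have h2 : i * d.2 ≤ i * d.1 := Nat.mul_le_mul_left _ hd.le
  constructor
  · simp only
    nlinarith [hb.1, Nat.div_mul_le_self k 2]
  · simp only
    have : (i + 1) * d.1 = i * d.1 + d.1 := by ring
    have h3 := Nat.div_mul_le_self k 2
    omega

/-- the predicate: the segment `x` is an edge of the path `v` -/
def Cov (m : ℕ) (d : ℕ × ℕ) {t : ℕ} (v : Fin t → Plane) (x : (ℕ × ℕ) × (ℕ × ℕ)) : Prop :=
  IsEdge v (P m (zz d x.1 x.2.1)) (P m (zz d x.1 x.2.2))

theorem cov_sep (m k a : ℕ) (d : ℕ × ℕ) {t : ℕ} {v : Fin t → Plane} {u : Plane}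
    (hu : ∀ i j : Fin t, (j : ℕ) = i + 1 → 0 < inner ℝ (v j - v i) u)
    (x y : (ℕ × ℕ) × (ℕ × ℕ)) (hx : x ∈ Bd k d ×ˢ Rd a) (hy : y ∈ Bd k d ×ˢ Rd a)
    (h : Cov m d v x) (h' : Cov m d v y) (hne : x ≠ y) :
    max (inner ℝ (P m (zz d x.1 x.2.1)) u) (inner ℝ (P m (zz d x.1 x.2.2)) u) ≤
      min (inner ℝ (P m (zz d y.1 y.2.1)) u) (inner ℝ (P m (zz d y.1 y.2.2)) u) ∨
    max (inner ℝ (P m (zz d y.1 y.2.1)) u) (inner ℝ (P m (zz d y.1 y.2.2)) u) ≤
      min (inner ℝ (P m (zz d x.1 x.2.1)) u) (inner ℝ (P m (zz d x.1 x.2.2)) u) := by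
  apply sep hu h h'
  simp only [Bd, Rd, mem_product, mem_range, mem_Ico] at hx hy
  rintro (⟨h1, h2⟩ | ⟨h1, h2⟩)
  · have e1 := zz_inj hx.1.1 hy.1.1 (P_inj m h1)
    have e2 := zz_inj hx.1.1 hy.1.1 (P_inj m h2)
    exact hne (Prod.ext e1.1 (Prod.ext e1.2 e2.2))
  · have e1 := zz_inj hx.1.1 hy.1.1 (P_inj m h1)
    omega

open Classical in
/-- any path covers at most seven long segments of each line -/
theorem near_count (m k a : ℕ) (d : ℕ × ℕ) (hkm : k ≤ m) (hd1 : 1 ≤ d.2) (hd : d.2 < d.1)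
    (ha : 3 * a * d.1 ≤ k / 2) {t : ℕ} {v : Fin t → Plane} {u : Plane} (hu0 : u ≠ 0)
    (hu : ∀ i j : Fin t, (j : ℕ) = i + 1 → 0 < inner ℝ (v j - v i) u) :
    ((Bd k d ×ˢ Rd a).filter (Cov m d v)).card ≤ 7 * (Bd k d).card := by
  have h1 : ((Bd k d ×ˢ Rd a).filter (Cov m d v)).card =
      ∑ b ∈ Bd k d, ((Rd a).filter (fun e => Cov m d v (b, e))).card := by
    rw [card_filter, sum_product]
    apply sum_congr rfl
    intro b _
    rw [card_filter]
  rw [h1]
  have h2 : ∀ b ∈ Bd k d, ((Rd a).filter (fun e => Cov m d v (b, e))).card ≤ 7 := by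
    intro b hb
    have ham : 3 * a ≤ m := by
      have : 3 * a * 1 ≤ 3 * a * d.1 := Nat.mul_le_mul_left _ (by omega)
      omega
    apply line_lemma (MM m : ℝ) m a (fun i => ee m (zz d b i)) (d.1 * u 0 + d.2 * u 1)
      (u 0 + (m + 1) * u 1) (b.1 * u 0 + b.2 * u 1) (fun i => inner ℝ (P m (zz d b i)) u)
    · intro i
      rw [inner_P]
      simp only [zz]
      push_cast
      ring
    · rw [MM_cast]
      have : (0 : ℝ) ≤ m := Nat.cast_nonneg m
      nlinarith
    · intro i _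
      exact ee_pos _ _
    · intro i j hij hj
      apply ee_dec
      simp only [zz]
      have e1 : i * d.1 + 1 ≤ j * d.1 := by nlinarith
      have e2 : i * d.2 ≤ j * d.2 := Nat.mul_le_mul_right _ hij.le
      have e3 : 0 < m := by omega
      have e4 : (b.1 + i * d.1 + 1) * m ≤ (b.1 + j * d.1) * m := Nat.mul_le_mul_right _ (by omega)
      have e5 : (b.1 + i * d.1 + 1) * m = (b.1 + i * d.1) * m + m := by ring
      omega
    · exact ham
    · by_contra hc
      push Not at hc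
      obtain ⟨c1, c2⟩ := hc
      have c3 : u 0 = -((m + 1) * u 1) := by linarith
      rw [c3] at c1
      have c4 : ((d.2 : ℝ) - d.1 * (m + 1)) * u 1 = 0 := by linarith
      have c5 : ((d.2 : ℝ) - d.1 * (m + 1)) ≠ 0 := by
        have : (d.2 : ℝ) < d.1 := by exact_mod_cast hd
        have h3 : (0 : ℝ) ≤ m := Nat.cast_nonneg m
        have h4 : (0 : ℝ) ≤ d.1 := Nat.cast_nonneg _
        nlinarith
      have c6 : u 1 = 0 := by
        rcases mul_eq_zero.mp c4 with h | h
        · exact absurd h c5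
        · exact h
      apply hu0
      ext i
      fin_cases i
      · simpa [c6] using c3
      · simpa using c6
    · intro e he
      simp only [Rd, mem_filter, mem_product, mem_range, mem_Ico] at he
      exact ⟨he.1.1, he.1.2.1, he.1.2.2⟩
    · intro e he
      rw [mem_filter] at he
      exact edge_ne hu he.2
    · intro e he e' he' hne
      rw [mem_filter] at he he'
      have := cov_sep m k a d hu (b, e) (b, e') (mem_product.mpr ⟨hb, he.1⟩)
        (mem_product.mpr ⟨hb, he'.1⟩) he.2 he'.2 (fun h => hne (congrArg Prod.snd h))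
      exact this
  calc ∑ b ∈ Bd k d, ((Rd a).filter (fun e => Cov m d v (b, e))).card
      ≤ ∑ _b ∈ Bd k d, 7 := sum_le_sum h2
    _ = 7 * (Bd k d).card := by rw [sum_const, smul_eq_mul, mul_comm]

open Classical in
/-- a path in a direction which is not almost orthogonal to `d` covers few segments -/
theorem far_count (m k a D : ℕ) (d : ℕ × ℕ) (hkm : k ≤ m) (hmk : m ≤ 2 * k)
    (hd : d.2 < d.1) (hD : d.1 ≤ D) (hDm : D ≤ m) (ha1 : 1 ≤ a) (hka : k ≤ 12 * D * a)
    (ha : 3 * a * d.1 ≤ k / 2) {t : ℕ} {v : Fin t → Plane} {u : Plane} {U : ℝ} (hU : 0 < U)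
    (hu0 : |u 0| ≤ U) (hu1 : |u 1| ≤ U)
    (hu : ∀ i j : Fin t, (j : ℕ) = i + 1 → 0 < inner ℝ (v j - v i) u)
    (hfar : U / (2 * D) ≤ |(d.1 : ℝ) * u 0 + d.2 * u 1|) :
    (((Bd k d ×ˢ Rd a).filter (Cov m d v)).card : ℝ) ≤ 384 * (D : ℝ) ^ 2 + 2 := by
  have hD0 : (0 : ℝ) < D := by
    have : 0 < D := by omega
    exact_mod_cast this
  have ha0 : (1 : ℝ) ≤ a := by exact_mod_cast ha1
  have hm0 : (0 : ℝ) < m := by
    have : 0 < m := by omega
    exact_mod_cast this
  have hDm' : (D : ℝ) ≤ m := by exact_mod_cast hDm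
  have wbound : |u 0 + (m + 1) * u 1| ≤ (m + 2) * U := by
    refine (abs_add_le _ _).trans ?_
    rw [abs_mul, abs_of_pos (by positivity : (0 : ℝ) < (m : ℝ) + 1)]
    nlinarith
  have key := length_lemma ((Bd k d ×ˢ Rd a).filter (Cov m d v))
    (fun x => min (inner ℝ (P m (zz d x.1 x.2.1)) u) (inner ℝ (P m (zz d x.1 x.2.2)) u))
    (fun x => max (inner ℝ (P m (zz d x.1 x.2.1)) u) (inner ℝ (P m (zz d x.1 x.2.2)) u))
    (a * U / (4 * D)) (2 * m * U) (by positivity) ?_ ?_ ?_ (by positivity)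
  · refine key.trans ?_
    have e1 : 2 * (2 * (m : ℝ) * U) / (a * U / (4 * D)) = 16 * m * D / a := by
      field_simp
      ring
    rw [e1]
    have e2 : (m : ℝ) ≤ 2 * k := by exact_mod_cast hmk
    have e3 : (k : ℝ) ≤ 12 * D * a := by exact_mod_cast hka
    have e4 : 16 * (m : ℝ) * D / a ≤ 384 * (D : ℝ) ^ 2 := by
      rw [div_le_iff₀ (by linarith)]
      nlinarith
    linarith
  · intro x hx y hy hne
    rw [mem_filter] at hx hy
    exact cov_sep m k a d hu x y hx.1 hy.1 hx.2 hy.2 hne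
  · intro x hx
    rw [mem_filter] at hx
    have hx1 := hx.1
    simp only [Rd, mem_product, mem_range, mem_Ico] at hx1
    obtain ⟨-, h1, h2, h3⟩ := hx1
    rw [← sub_nonneg]
    have e0 : ∀ p q : ℝ, max p q - min p q = |q - p| := fun p q => max_sub_min_eq_abs p q
    have e1 : a * U / (4 * D) ≤ |inner ℝ (P m (zz d x.1 x.2.2)) u -
        inner ℝ (P m (zz d x.1 x.2.1)) u| := by
      have e2 : inner ℝ (P m (zz d x.1 x.2.2)) u - inner ℝ (P m (zz d x.1 x.2.1)) u =
          ((x.2.2 : ℝ) - x.2.1) * (d.1 * u 0 + d.2 * u 1) +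
          (ee m (zz d x.1 x.2.2) - ee m (zz d x.1 x.2.1)) * (u 0 + (m + 1) * u 1) := by
        rw [inner_P, inner_P]
        simp only [zz]
        push_cast
        ring
      rw [e2]
      have e3 : (a : ℝ) ≤ (x.2.2 : ℝ) - x.2.1 := by
        have : a + x.2.1 ≤ x.2.2 := by omega
        have : (a : ℝ) + x.2.1 ≤ x.2.2 := by exact_mod_cast this
        linarith
      have e4 : a * (U / (2 * D)) ≤ |((x.2.2 : ℝ) - x.2.1) * (d.1 * u 0 + d.2 * u 1)| := by
        rw [abs_mul, abs_of_nonneg (by linarith : (0 : ℝ) ≤ (x.2.2 : ℝ) - x.2.1)]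
        apply mul_le_mul e3 hfar (by positivity) (by linarith)
      have e5 : |(ee m (zz d x.1 x.2.2) - ee m (zz d x.1 x.2.1)) * (u 0 + (m + 1) * u 1)| ≤
          U / (16 * (m + 2)) := by
        rw [abs_mul]
        have f1 := ee_pos m (zz d x.1 x.2.2)
        have f2 := ee_pos m (zz d x.1 x.2.1)
        have f3 := ee_le m (zz d x.1 x.2.2)
        have f4 := ee_le m (zz d x.1 x.2.1)
        have f5 : |ee m (zz d x.1 x.2.2) - ee m (zz d x.1 x.2.1)| ≤ 1 / MM m := by
          rw [abs_le]; constructor <;> linarith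
        calc _ ≤ 1 / (MM m : ℝ) * ((m + 2) * U) :=
              mul_le_mul f5 wbound (abs_nonneg _) (by positivity)
          _ = U / (16 * (m + 2)) := by rw [MM_cast]; field_simp
      have e6 : U / (16 * (m + 2)) ≤ a * U / (4 * D) := by
        rw [div_le_div_iff₀ (by positivity) (by positivity)]
        have : 4 * (D : ℝ) ≤ a * (16 * (m + 2)) := by nlinarith
        nlinarith
      have e7 : a * (U / (2 * D)) = a * U / (4 * D) + a * U / (4 * D) := by field_simp; ring
      have e8 := abs_sub_abs_le_abs_add (((x.2.2 : ℝ) - x.2.1) * (d.1 * u 0 + d.2 * u 1))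
        ((ee m (zz d x.1 x.2.2) - ee m (zz d x.1 x.2.1)) * (u 0 + (m + 1) * u 1))
      linarith
    have e9 := e0 (inner ℝ (P m (zz d x.1 x.2.1)) u) (inner ℝ (P m (zz d x.1 x.2.2)) u)
    linarith
  · intro x hx
    rw [mem_filter] at hx
    have hx1 := hx.1
    rw [mem_product] at hx1
    have hx2 := hx1.2
    simp only [Rd, mem_product, mem_range, mem_Ico] at hx2
    have bound : ∀ i < 3 * a, |inner ℝ (P m (zz d x.1 i)) u| ≤ 2 * m * U := by
      intro i hi
      obtain ⟨g1, g2⟩ := zz_mem hx1.1 hi hd ha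
      rw [inner_P]
      have f1 := ee_pos m (zz d x.1 i)
      have f2 := small1 m (zz d x.1 i)
      have g1' : ((zz d x.1 i).1 : ℝ) + 1 ≤ m := by
        have : (zz d x.1 i).1 + 1 ≤ m := by omega
        exact_mod_cast this
      have g2' : ((zz d x.1 i).2 : ℝ) + 1 ≤ m := by
        have : (zz d x.1 i).2 + 1 ≤ m := by omega
        exact_mod_cast this
      refine (abs_add_le _ _).trans ?_
      have t1 : |((zz d x.1 i).1 : ℝ) * u 0 + (zz d x.1 i).2 * u 1| ≤ (2 * m - 2) * U := by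
        refine (abs_add_le _ _).trans ?_
        rw [abs_mul, abs_mul, Nat.abs_cast, Nat.abs_cast]
        have q1 : ((zz d x.1 i).1 : ℝ) * |u 0| ≤ ((m : ℝ) - 1) * U :=
          mul_le_mul (by linarith) hu0 (abs_nonneg _) (by
            have : (0 : ℝ) ≤ ((zz d x.1 i).1 : ℝ) := Nat.cast_nonneg _
            linarith)
        have q2 : ((zz d x.1 i).2 : ℝ) * |u 1| ≤ ((m : ℝ) - 1) * U :=
          mul_le_mul (by linarith) hu1 (abs_nonneg _) (by
            have : (0 : ℝ) ≤ ((zz d x.1 i).1 : ℝ) := Nat.cast_nonneg _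
            linarith)
        linarith
      have t2 : |ee m (zz d x.1 i) * (u 0 + (m + 1) * u 1)| ≤ 1 / 16 * U := by
        rw [abs_mul, abs_of_pos f1]
        calc ee m (zz d x.1 i) * |u 0 + (m + 1) * u 1| ≤ ee m (zz d x.1 i) * ((m + 2) * U) :=
              mul_le_mul_of_nonneg_left wbound f1.le
          _ = ee m (zz d x.1 i) * (m + 2) * U := by ring
          _ ≤ 1 / 16 * U := mul_le_mul_of_nonneg_right f2 hU.le
      linarith
    rcases max_choice (inner ℝ (P m (zz d x.1 x.2.1)) u) (inner ℝ (P m (zz d x.1 x.2.2)) u)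
      with h | h
    · simp only [h]; exact bound _ (by omega)
    · simp only [h]; exact bound _ (by omega)

end Run7.h481.MC
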