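import Pool.Agent.Run7.h481.OneVar3

namespace Run7.h481

open MeasureTheory UnitAddTorus

attribute [local irreducible] LL MM

variable {ι : Type*} [Fintype ι] [DecidableEq ι]

section ext

variable {E : Type*} [Zero E]

/-- extension by zero -/
noncomputable def extz (L : ℕ) (ψ : Fin L × Fin L → E) (j ξ : ℕ) : E :=
  if h : j < L ∧ ξ - L < L then ψ (⟨j, h.1⟩, ⟨ξ - L, h.2⟩) else 0

theorem extz_cases (L : ℕ) (ψ : Fin L × Fin L → E) (Q : ℕ → E → Prop) (h0 : ∀ j, Q j 0)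
    (h : ∀ p, Q p.1 (ψ p)) (j ξ : ℕ) : Q j (extz L ψ j ξ) := by
  unfold extz
  split_ifs with hh
  · exact h (⟨j, hh.1⟩, ⟨ξ - L, hh.2⟩)
  · exact h0 j

theorem extz_fin (L : ℕ) (ψ : Fin L × Fin L → E) (j η : Fin L) :
    extz L ψ j (L + η) = ψ (j, η) := by
  unfold extz
  simp

end ext

theorem ext_sum (l κ : ℕ) (i : ι)
    (ψ : Fin (LL l κ) × Fin (LL l κ) → C(UnitAddTorus ι, ℂ)) :
    Hh l i κ (extz (LL l κ) ψ) (LL l κ) = ∑ p : Fin (LL l κ) × Fin (LL l κ),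
      ψ p * ei i ((MM l p.1 : ℤ) * (LL l κ + (p.2 : ℕ) : ℕ)) := by
  rw [Fintype.sum_prod_type]
  unfold Hh
  rw [Finset.sum_range]
  refine Finset.sum_congr rfl (fun j _ => ?_)
  rw [Ph_def, Finset.sum_Ico_eq_sum_range, show 2 * LL l κ - LL l κ = LL l κ by omega,
    Finset.sum_range]
  refine Finset.sum_congr rfl (fun η _ => ?_)
  rw [extz_fin]

/-- the one-variable lemma with finite index types -/
theorem onevar' (l : ℕ) (hl : 1 ≤ l) : ∃ C : ℝ, 0 < C ∧ ∀ (i : ι) (κ : ℕ)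
    (ψ : Fin (LL l κ) × Fin (LL l κ) → C(UnitAddTorus ι, ℂ))
    (_ : ∀ p, ψ p ∈ TI i 0 (MM l p.1)) (B : ℝ) (_ : 0 ≤ B)
    (_ : ∀ p, ∫ x, ‖ψ p x‖ ^ (2 * l + 2) ∂(mu ι) ≤ B),
    ∫ x, ‖(∑ p : Fin (LL l κ) × Fin (LL l κ),
      ψ p * ei i ((MM l p.1 : ℤ) * (LL l κ + (p.2 : ℕ) : ℕ))) x‖ ^ (2 * l + 2) ∂(mu ι)
      ≤ C * (LL l κ : ℝ) ^ (2 * l + 2) * B := by
  obtain ⟨C, hC, h⟩ := onevar (ι := ι) l hl
  refine ⟨C, hC, ?_⟩
  intro i κ ψ hψ B hB0 hB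
  have h1 : ∀ j ξ, extz (LL l κ) ψ j ξ ∈ TI i 0 (MM l j) :=
    extz_cases (LL l κ) ψ (fun j f => f ∈ TI i 0 (MM l j)) (fun j => Submodule.zero_mem _) hψ
  have h2 : ∀ j ξ, ∫ x, ‖extz (LL l κ) ψ j ξ x‖ ^ (2 * l + 2) ∂(mu ι) ≤ B :=
    extz_cases (LL l κ) ψ (fun j f => ∫ x, ‖f x‖ ^ (2 * l + 2) ∂(mu ι) ≤ B)
      (fun j => by simpa using hB0) hB
  have h3 := h i κ (extz (LL l κ) ψ) h1 B hB0 h2
  rw [ext_sum] at h3
  exact h3

theorem prod_ei_mem {n : ℕ} (σ : Fin n → ι) (i : ι) (hi : ∀ s, σ s ≠ i) (a : Fin n → ℤ) :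
    ∏ s, ei (σ s) (a s) ∈ TI i 0 0 := by
  induction n with
  | zero => simpa using TI_one
  | succ n ih =>
    rw [Fin.prod_univ_succ]
    have h1 := ih (fun s => σ s.succ) (fun s => hi _) (fun s => a s.succ)
    have h2 := TI_mul (ei_mem' (i := i) (i' := σ 0) (Ne.symm (hi 0)) (a 0)) h1
    simpa using h2

theorem multi (ι : Type*) [Fintype ι] [DecidableEq ι] (l : ℕ) (hl : 1 ≤ l) :
    ∃ C : ℝ, 0 < C ∧ ∀ (κ n : ℕ) (σ : Fin n → ι)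
    (_ : Function.Injective σ) (φ : (Fin n → Fin (LL l κ) × Fin (LL l κ)) → C(UnitAddTorus ι, ℂ))
    (_ : ∀ u s, φ u ∈ TI (σ s) 0 (MM l (u s).1)) (B : ℝ) (_ : 0 ≤ B)
    (_ : ∀ u, ∫ x, ‖φ u x‖ ^ (2 * l + 2) ∂(mu ι) ≤ B),
    ∫ x, ‖(∑ u : Fin n → Fin (LL l κ) × Fin (LL l κ),
      φ u * ∏ s, ei (σ s) ((MM l (u s).1 : ℤ) * (LL l κ + ((u s).2 : ℕ) : ℕ))) x‖ ^ (2 * l + 2)
      ∂(mu ι) ≤ (C * (LL l κ : ℝ) ^ (2 * l + 2)) ^ n * B := by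
  obtain ⟨C, hC, h⟩ := onevar' (ι := ι) l hl
  refine ⟨C, hC, ?_⟩
  intro κ n
  induction n with
  | zero =>
    intro σ hσ φ hφ B hB0 hB
    simpa using hB _
  | succ n ih =>
    intro σ hσ φ hφ B hB0 hB
    set ψ : Fin (LL l κ) × Fin (LL l κ) → C(UnitAddTorus ι, ℂ) := fun p =>
      ∑ v : Fin n → Fin (LL l κ) × Fin (LL l κ), φ (Fin.cons p v)
      * ∏ s : Fin n, ei (σ s.succ) ((MM l (v s).1 : ℤ) * (LL l κ + ((v s).2 : ℕ) : ℕ)) with hψ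
    have e : (∑ u : Fin (n + 1) → Fin (LL l κ) × Fin (LL l κ),
      φ u * ∏ s, ei (σ s) ((MM l (u s).1 : ℤ) * (LL l κ + ((u s).2 : ℕ) : ℕ)))
        = ∑ p : Fin (LL l κ) × Fin (LL l κ), ψ p * ei (σ 0) ((MM l p.1 : ℤ) * (LL l κ + (p.2 : ℕ) : ℕ)) := by
      rw [← (Fin.consEquiv (fun _ : Fin (n + 1) =>
        Fin (LL l κ) × Fin (LL l κ))).sum_comp, Fintype.sum_prod_type]
      refine Finset.sum_congr rfl (fun p _ => ?_)
      rw [hψ]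
      simp only [Finset.sum_mul]
      refine Finset.sum_congr rfl (fun v _ => ?_)
      rw [Fin.prod_univ_succ]
      have hc : (Fin.consEquiv (fun _ : Fin (n + 1) => Fin (LL l κ) × Fin (LL l κ))) (p, v)
        = Fin.cons p v := rfl
      rw [hc]
      simp only [Fin.cons_zero, Fin.cons_succ]
      ring
    rw [e]
    have hψm : ∀ p, ψ p ∈ TI (σ 0) 0 (MM l p.1) := by
      intro p
      refine Submodule.sum_mem _ (fun v _ => ?_)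
      have h1 := hφ (Fin.cons p v) 0
      rw [Fin.cons_zero] at h1
      have h2 := prod_ei_mem (fun s : Fin n => σ s.succ) (σ 0)
        (fun s hs => Fin.succ_ne_zero s (hσ hs))
        (fun s => ((MM l (v s).1 : ℤ) * (LL l κ + ((v s).2 : ℕ) : ℕ)))
      have h3 := TI_mul h1 h2
      rwa [add_zero, add_zero] at h3
    have hψn : ∀ p, ∫ x, ‖ψ p x‖ ^ (2 * l + 2) ∂(mu ι)
        ≤ (C * (LL l κ : ℝ) ^ (2 * l + 2)) ^ n * B := by
      intro p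
      have h1 := ih (fun s : Fin n => σ s.succ)
        (fun a b hab => Fin.succ_injective _ (hσ hab)) (fun v => φ (Fin.cons p v))
        (fun v s => by have h2 := hφ (Fin.cons p v) s.succ; rwa [Fin.cons_succ] at h2) B hB0
        (fun v => hB _)
      exact h1
    refine (h (σ 0) κ ψ hψm _ (by positivity) hψn).trans (le_of_eq ?_)
    rw [pow_succ]
    ring

end Run7.h481
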