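import Pool.Agent.Run7.h481.Basic

namespace Run7.h481

open MeasureTheory UnitAddTorus

variable {ι : Type*} [Fintype ι] [DecidableEq ι]

theorem amgm (l : ℕ) {a b c : ℝ} (ha : 0 ≤ a) (hb : 0 ≤ b) (hc : 0 ≤ c) :
    a ^ (2 * l) * b * c ≤ a ^ (2 * l + 2) + b ^ (2 * l + 2) + c ^ (2 * l + 2) := by
  have hM : ∃ M : ℝ, a ≤ M ∧ b ≤ M ∧ c ≤ M ∧ (M = a ∨ M = b ∨ M = c) := by
    refine ⟨max a (max b c), le_max_left _ _, (le_max_left _ _).trans (le_max_right _ _),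
      (le_max_right _ _).trans (le_max_right _ _), ?_⟩
    rcases max_choice a (max b c) with h | h
    · left; exact h
    · rcases max_choice b c with h' | h'
      · right; left; rw [h, h']
      · right; right; rw [h, h']
  obtain ⟨M, h1, h2, h3, h4⟩ := hM
  have hM0 : 0 ≤ M := ha.trans h1
  have e1 : a ^ (2 * l) * b * c ≤ M ^ (2 * l) * M * M := by gcongr
  have e2 : M ^ (2 * l) * M * M = M ^ (2 * l + 2) := by ring
  have p1 : 0 ≤ a ^ (2 * l + 2) := by positivity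
  have p2 : 0 ≤ b ^ (2 * l + 2) := by positivity
  have p3 : 0 ≤ c ^ (2 * l + 2) := by positivity
  rcases h4 with h | h | h <;> (rw [e2, h] at e1; linarith)

theorem amgm' (l : ℕ) {a b c τ : ℝ} (ha : 0 ≤ a) (hb : 0 ≤ b) (hc : 0 ≤ c) (hτ : 0 < τ) :
    a ^ (2 * l) * b * c ≤ (τ ^ 2)⁻¹ * (a ^ (2 * l + 2) + τ ^ (2 * l + 2) * b ^ (2 * l + 2)
      + τ ^ (2 * l + 2) * c ^ (2 * l + 2)) := by
  have h := amgm l ha (mul_nonneg hτ.le hb) (mul_nonneg hτ.le hc)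
  rw [mul_pow, mul_pow] at h
  rw [inv_mul_eq_div, le_div_iff₀ (by positivity)]
  calc a ^ (2 * l) * b * c * τ ^ 2 = a ^ (2 * l) * (τ * b) * (τ * c) := by ring
    _ ≤ _ := h

omit [Fintype ι] [DecidableEq ι] in
theorem mul_star_apply (f : C(UnitAddTorus ι, ℂ)) (x : UnitAddTorus ι) :
    (f * star f) x = (‖f x‖ : ℂ) ^ 2 := by
  simp only [ContinuousMap.mul_apply, ContinuousMap.star_apply]
  rw [← starRingEnd_apply, Complex.mul_conj, Complex.normSq_eq_norm_sq]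
  push_cast
  rfl

theorem OL (l : ℕ) (i : ι) {A K : ℤ} (hK : 0 < K) {G : C(UnitAddTorus ι, ℂ)}
    (hG : G ∈ TI i A (A + 2 * K)) (I : Finset ℕ) (U : ℕ → C(UnitAddTorus ι, ℂ))
    (hU : ∀ η ∈ I, U η ∈ TI i 0 K) {B τ : ℝ} (hτ : 0 < τ)
    (hB : ∀ η ∈ I, ∫ x, ‖U η x‖ ^ (2 * l + 2) ∂(mu ι) ≤ B) :
    ∫ x, ‖G x‖ ^ (2 * l) * ‖(∑ η ∈ I, U η * ei i (K * η)) x‖ ^ 2 ∂(mu ι)
      ≤ (4 * l + 4) * I.card * (τ ^ 2)⁻¹ *
        ((∫ x, ‖G x‖ ^ (2 * l + 2) ∂(mu ι)) + 2 * τ ^ (2 * l + 2) * B) := by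
  classical
  set P : C(UnitAddTorus ι, ℂ) := (G * star G) ^ l with hP
  have hPm : P ∈ TI i (l * (-(2 * K))) (l * (2 * K)) := by
    apply TI_pow
    have := TI_mul hG (TI_star hG)
    have e1 : A + -(A + 2 * K) = -(2 * K) := by ring
    have e2 : A + 2 * K + -A = 2 * K := by ring
    rwa [e1, e2] at this
  have hPx : ∀ x, P x = (‖G x‖ : ℂ) ^ (2 * l) := by
    intro x
    rw [hP, ContinuousMap.pow_apply, mul_star_apply, ← pow_mul]
  set V : ℕ → C(UnitAddTorus ι, ℂ) := fun η => U η * ei i (K * η) with hV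
  have hVm : ∀ η ∈ I, V η ∈ TI i (K * η) (K + K * η) := by
    intro η hη
    have := TI_mul (hU η hη) (ei_mem i (K * η))
    rwa [zero_add] at this
  set Y := ∫ x, ‖G x‖ ^ (2 * l + 2) ∂(mu ι) with hY
  set Q := (τ ^ 2)⁻¹ * (Y + 2 * τ ^ (2 * l + 2) * B) with hQ
  -- the expansion
  have key : ((∫ x, ‖G x‖ ^ (2 * l) * ‖(∑ η ∈ I, V η) x‖ ^ 2 ∂(mu ι) : ℝ) : ℂ)
      = ∑ η ∈ I, ∑ η' ∈ I, ∫ x, (P * (V η * star (V η'))) x ∂(mu ι) := by
    rw [← integral_complex_ofReal]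
    have : ∀ x, ((‖G x‖ ^ (2 * l) * ‖(∑ η ∈ I, V η) x‖ ^ 2 : ℝ) : ℂ)
        = ∑ η ∈ I, ∑ η' ∈ I, (P * (V η * star (V η'))) x := by
      intro x
      rw [Complex.ofReal_mul, Complex.ofReal_pow, Complex.ofReal_pow, ← mul_star_apply,
        ← hPx x, star_sum, Finset.sum_mul_sum, ← ContinuousMap.mul_apply, Finset.mul_sum]
      simp only [Finset.mul_sum, ContinuousMap.coe_sum, Finset.sum_apply]
    simp_rw [this]
    rw [integral_finsetSum]
    · refine Finset.sum_congr rfl (fun η _ => ?_)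
      rw [integral_finsetSum]
      intro η' _
      exact cint (ContinuousMap.continuous _)
    · intro η _
      refine cint ?_
      exact continuous_finsetSum _ (fun η' _ => ContinuousMap.continuous _)
  -- the bound for each pair
  have hpair : ∀ η ∈ I, ∀ η' ∈ I, ‖∫ x, (P * (V η * star (V η'))) x ∂(mu ι)‖ ≤ Q := by
    intro η hη η' hη'
    have hpt : ∀ x, ‖(P * (V η * star (V η'))) x‖ ≤
        (τ ^ 2)⁻¹ * (‖G x‖ ^ (2 * l + 2) + τ ^ (2 * l + 2) * ‖U η x‖ ^ (2 * l + 2)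
          + τ ^ (2 * l + 2) * ‖U η' x‖ ^ (2 * l + 2)) := by
      intro x
      have e : ‖(P * (V η * star (V η'))) x‖ = ‖G x‖ ^ (2 * l) * ‖U η x‖ * ‖U η' x‖ := by
        simp only [hV, ContinuousMap.mul_apply, ContinuousMap.star_apply, norm_mul, norm_star,
          norm_ei, mul_one, hPx, norm_pow, Complex.norm_real, norm_norm]
        ring
      rw [e]
      exact amgm' l (norm_nonneg _) (norm_nonneg _) (norm_nonneg _) hτ
    have c1 : Integrable (fun x => ‖G x‖ ^ (2 * l + 2)) (mu ι) := cint (by fun_prop)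
    have c2 : Integrable (fun x => τ ^ (2 * l + 2) * ‖U η x‖ ^ (2 * l + 2)) (mu ι) :=
      cint (by fun_prop)
    have c3 : Integrable (fun x => τ ^ (2 * l + 2) * ‖U η' x‖ ^ (2 * l + 2)) (mu ι) :=
      cint (by fun_prop)
    calc ‖∫ x, (P * (V η * star (V η'))) x ∂(mu ι)‖
        ≤ ∫ x, ‖(P * (V η * star (V η'))) x‖ ∂(mu ι) := norm_integral_le_integral_norm _
      _ ≤ ∫ x, (τ ^ 2)⁻¹ * (‖G x‖ ^ (2 * l + 2) + τ ^ (2 * l + 2) * ‖U η x‖ ^ (2 * l + 2)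
          + τ ^ (2 * l + 2) * ‖U η' x‖ ^ (2 * l + 2)) ∂(mu ι) := by
        apply integral_mono (cint (by fun_prop)) (((c1.add c2).add c3).const_mul _)
        intro x
        exact hpt x
      _ = (τ ^ 2)⁻¹ * (Y + τ ^ (2 * l + 2) * (∫ x, ‖U η x‖ ^ (2 * l + 2) ∂(mu ι))
          + τ ^ (2 * l + 2) * (∫ x, ‖U η' x‖ ^ (2 * l + 2) ∂(mu ι))) := by
        have c12 : Integrable (fun x => ‖G x‖ ^ (2 * l + 2)
          + τ ^ (2 * l + 2) * ‖U η x‖ ^ (2 * l + 2)) (mu ι) := c1.add c2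
        rw [integral_const_mul, integral_add c12 c3, integral_add c1 c2,
          integral_const_mul, integral_const_mul]
      _ ≤ Q := by
        rw [hQ]
        have h1 := hB η hη
        have h2 := hB η' hη'
        have : Y + τ ^ (2 * l + 2) * (∫ x, ‖U η x‖ ^ (2 * l + 2) ∂(mu ι))
          + τ ^ (2 * l + 2) * (∫ x, ‖U η' x‖ ^ (2 * l + 2) ∂(mu ι))
          ≤ Y + τ ^ (2 * l + 2) * B + τ ^ (2 * l + 2) * B := by gcongr
        calc _ ≤ (τ ^ 2)⁻¹ * (Y + τ ^ (2 * l + 2) * B + τ ^ (2 * l + 2) * B) := by gcongr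
          _ = _ := by ring
  have hfar : ∀ η ∈ I, ∀ η' ∈ I, ¬ (η' ≤ η + (2 * l + 1) ∧ η ≤ η' + (2 * l + 1)) →
      ∫ x, (P * (V η * star (V η'))) x ∂(mu ι) = 0 := by
    intro η hη η' hη' hn
    have hm := TI_mul hPm (TI_mul (hVm η hη) (TI_star (hVm η' hη')))
    by_cases h1 : η' ≤ η + (2 * l + 1)
    · have h2 : ¬ (η ≤ η' + (2 * l + 1)) := fun h => hn ⟨h1, h⟩
      push Not at h2
      apply TI_int_pos hm
      have h3 : (η' : ℤ) + (2 * l + 1) + 1 ≤ η := by exact_mod_cast h2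
      nlinarith
    · push Not at h1
      apply TI_int_neg hm
      have h3 : (η : ℤ) + (2 * l + 1) + 1 ≤ η' := by exact_mod_cast h1
      nlinarith
  rcases I.eq_empty_or_nonempty with hI | ⟨η0, hη0⟩
  · subst hI
    simp
  have hQ0 : 0 ≤ Q := (norm_nonneg _).trans (hpair η0 hη0 η0 hη0)
  have hnn : 0 ≤ ∫ x, ‖G x‖ ^ (2 * l) * ‖(∑ η ∈ I, V η) x‖ ^ 2 ∂(mu ι) :=
    integral_nonneg (fun x => by positivity)
  have e0 : ∫ x, ‖G x‖ ^ (2 * l) * ‖(∑ η ∈ I, V η) x‖ ^ 2 ∂(mu ι)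
      = ‖((∫ x, ‖G x‖ ^ (2 * l) * ‖(∑ η ∈ I, V η) x‖ ^ 2 ∂(mu ι) : ℝ) : ℂ)‖ := by
    rw [Complex.norm_real, Real.norm_of_nonneg hnn]
  rw [e0, key]
  calc ‖∑ η ∈ I, ∑ η' ∈ I, ∫ x, (P * (V η * star (V η'))) x ∂(mu ι)‖
      ≤ ∑ η ∈ I, ∑ η' ∈ I, ‖∫ x, (P * (V η * star (V η'))) x ∂(mu ι)‖ :=
        (norm_sum_le _ _).trans (Finset.sum_le_sum (fun η _ => norm_sum_le _ _))
    _ ≤ ∑ η ∈ I, ∑ η' ∈ I, (if η' ≤ η + (2 * l + 1) ∧ η ≤ η' + (2 * l + 1) then Q else 0) := by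
        refine Finset.sum_le_sum (fun η hη => Finset.sum_le_sum (fun η' hη' => ?_))
        split_ifs with h
        · exact hpair η hη η' hη'
        · rw [hfar η hη η' hη' h, norm_zero]
    _ ≤ ∑ η ∈ I, (4 * l + 4) * Q := by
        refine Finset.sum_le_sum (fun η hη => ?_)
        rw [← Finset.sum_filter, Finset.sum_const, nsmul_eq_mul]
        gcongr
        have hsub : I.filter (fun η' => η' ≤ η + (2 * l + 1) ∧ η ≤ η' + (2 * l + 1))
            ⊆ Finset.Icc (η - (2 * l + 1)) (η + (2 * l + 1)) := by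
          intro η' h
          simp only [Finset.mem_filter, Finset.mem_Icc] at h ⊢
          omega
        have hc := Finset.card_le_card hsub
        rw [Nat.card_Icc] at hc
        have : (I.filter (fun η' => η' ≤ η + (2 * l + 1) ∧ η ≤ η' + (2 * l + 1))).card
          ≤ 4 * l + 4 := by omega
        exact_mod_cast this
    _ = _ := by
        rw [Finset.sum_const, nsmul_eq_mul, hQ]
        ring

end Run7.h481
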