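import Pool.Agent.Run7.h481.OL

namespace Run7.h481

open MeasureTheory UnitAddTorus

section pointwise

theorem mono_le (n i : ℕ) (hi : i ≤ n) {a b : ℝ} (ha : 0 ≤ a) (hb : 0 ≤ b) :
    a ^ i * b ^ (n + 2 - i) ≤ a ^ n * b ^ 2 + b ^ (n + 2) := by
  rcases le_total a b with h | h
  · have : a ^ i * b ^ (n + 2 - i) ≤ b ^ i * b ^ (n + 2 - i) := by gcongr
    rw [← pow_add, show i + (n + 2 - i) = n + 2 by omega] at this
    have h2 : 0 ≤ a ^ n * b ^ 2 := by positivity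
    linarith
  · have e : b ^ (n + 2 - i) = b ^ (n - i) * b ^ 2 := by
      rw [← pow_add]; congr 1; omega
    have : a ^ i * (b ^ (n - i) * b ^ 2) ≤ a ^ i * (a ^ (n - i) * b ^ 2) := by gcongr
    have e' : a ^ i * (a ^ (n - i) * b ^ 2) = a ^ n * b ^ 2 := by
      rw [← mul_assoc (a ^ i) (a ^ (n - i)), ← pow_add, show i + (n - i) = n by omega]
    rw [e'] at this
    rw [e]
    have h2 : 0 ≤ b ^ (n + 2) := by positivity
    linarith

theorem pointwise (l : ℕ) : ∃ C : ℝ, 0 < C ∧ ∀ z w : ℂ,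
    ‖z + w‖ ^ (2 * l + 2) ≤ ‖z‖ ^ (2 * l + 2)
      + (2 * l + 2) * (‖z‖ ^ (2 * l) * ((starRingEnd ℂ z) * w).re)
      + C * (‖z‖ ^ (2 * l) * ‖w‖ ^ 2 + ‖w‖ ^ (2 * l + 2)) := by
  have hsq : ∀ z w : ℂ, ‖z + w‖ ^ 2 = ‖z‖ ^ 2 + 2 * ((starRingEnd ℂ z) * w).re + ‖w‖ ^ 2 := by
    intro z w
    rw [Complex.sq_norm, Complex.sq_norm, Complex.sq_norm, Complex.normSq_add]
    have : (z * (starRingEnd ℂ) w).re = ((starRingEnd ℂ) z * w).re := by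
      simp [Complex.mul_re]
    rw [this]; ring
  have hre : ∀ z w : ℂ, |((starRingEnd ℂ z) * w).re| ≤ ‖z‖ * ‖w‖ := by
    intro z w
    calc _ ≤ ‖(starRingEnd ℂ z) * w‖ := Complex.abs_re_le_norm _
      _ = _ := by rw [norm_mul, RCLike.norm_conj]
  induction l with
  | zero =>
    refine ⟨1, one_pos, fun z w => ?_⟩
    have := hsq z w
    simp only [pow_zero, one_mul, Nat.cast_zero, mul_zero, zero_add]
    nlinarith [sq_nonneg ‖w‖]
  | succ l ih =>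
    obtain ⟨C, hC, h⟩ := ih
    refine ⟨8 * C + 6 * (l + 1) + 1, by positivity, fun z w => ?_⟩
    have h0 := h z w
    have hs := hsq z w
    have hr := hre z w
    set t := ((starRingEnd ℂ z) * w).re with ht
    set a := ‖z‖ with ha
    set b := ‖w‖ with hb
    have ha0 : 0 ≤ a := norm_nonneg _
    have hb0 : 0 ≤ b := norm_nonneg _
    have hY : 0 ≤ ‖z + w‖ ^ 2 := by positivity
    have e1 : ‖z + w‖ ^ (2 * (l + 1) + 2) = ‖z + w‖ ^ (2 * l + 2) * ‖z + w‖ ^ 2 := by ring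
    rw [e1]
    have h1 := mul_le_mul_of_nonneg_right h0 hY
    rw [hs] at h1 ⊢
    refine h1.trans ?_
    -- monomials
    set m1 := a ^ (2 * l + 2) * b ^ 2 with hm1
    set m2 := b ^ (2 * l + 4) with hm2
    have q1 : a ^ 2 * b ^ (2 * l + 2) ≤ m1 + m2 := by
      have := mono_le (2 * l + 2) 2 (by omega) ha0 hb0
      simpa [hm1, hm2] using this
    have q2 : a ^ (2 * l + 1) * b ^ 3 ≤ m1 + m2 := by
      have := mono_le (2 * l + 2) (2 * l + 1) (by omega) ha0 hb0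
      rw [show 2 * l + 2 + 2 - (2 * l + 1) = 3 by omega] at this
      simpa [hm1, hm2] using this
    have q3 : a * b ^ (2 * l + 3) ≤ m1 + m2 := by
      have := mono_le (2 * l + 2) 1 (by omega) ha0 hb0
      simpa [hm1, hm2] using this
    have q4 : a ^ (2 * l) * b ^ 4 ≤ m1 + m2 := by
      have := mono_le (2 * l + 2) (2 * l) (by omega) ha0 hb0
      rw [show 2 * l + 2 + 2 - (2 * l) = 4 by omega] at this
      simpa [hm1, hm2] using this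
    have ht1 : t ≤ a * b := (le_abs_self t).trans hr
    have ht2 : t ^ 2 ≤ (a * b) ^ 2 := sq_le_sq' (by linarith [neg_abs_le t]) ht1
    have hm1' : 0 ≤ m1 := by positivity
    have hm2' : 0 ≤ m2 := by positivity
    have r1 : t * (a ^ (2 * l) * b ^ 2) ≤ m1 + m2 := by
      have : t * (a ^ (2 * l) * b ^ 2) ≤ (a * b) * (a ^ (2 * l) * b ^ 2) := by gcongr
      refine this.trans ?_
      calc (a * b) * (a ^ (2 * l) * b ^ 2) = a ^ (2 * l + 1) * b ^ 3 := by ring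
        _ ≤ _ := q2
    have r2 : t * b ^ (2 * l + 2) ≤ m1 + m2 := by
      have : t * b ^ (2 * l + 2) ≤ (a * b) * b ^ (2 * l + 2) := by gcongr
      refine this.trans ?_
      calc (a * b) * b ^ (2 * l + 2) = a * b ^ (2 * l + 3) := by ring
        _ ≤ _ := q3
    have r3 : a ^ (2 * l) * t ^ 2 ≤ m1 := by
      calc a ^ (2 * l) * t ^ 2 ≤ a ^ (2 * l) * (a * b) ^ 2 := by gcongr
        _ = m1 := by rw [hm1]; ring
    have expand : (a ^ (2 * l + 2) + (2 * l + 2) * (a ^ (2 * l) * t)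
        + C * (a ^ (2 * l) * b ^ 2 + b ^ (2 * l + 2))) * (a ^ 2 + 2 * t + b ^ 2)
        = a ^ (2 * l + 4) + (2 * l + 4) * (a ^ (2 * l + 2) * t)
          + C * m1 + C * (a ^ 2 * b ^ (2 * l + 2)) + (4 * l + 4) * (a ^ (2 * l) * t ^ 2)
          + 2 * C * (t * (a ^ (2 * l) * b ^ 2)) + 2 * C * (t * b ^ (2 * l + 2))
          + m1 + (2 * l + 2) * (t * (a ^ (2 * l) * b ^ 2)) + C * (a ^ (2 * l) * b ^ 4)
          + C * m2 := by
      rw [hm1, hm2]; ring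
    rw [expand]
    have e2 : a ^ (2 * (l + 1)) * b ^ 2 + b ^ (2 * (l + 1) + 2) = m1 + m2 := by
      rw [hm1, hm2]; ring
    rw [e2]
    have e3 : a ^ (2 * (l + 1) + 2) = a ^ (2 * l + 4) := by ring
    have e4 : a ^ (2 * (l + 1)) = a ^ (2 * l + 2) := by ring
    rw [e3, e4]
    push_cast
    have s1 := mul_le_mul_of_nonneg_left q1 hC.le
    have s2 := mul_le_mul_of_nonneg_left r3 (by positivity : (0 : ℝ) ≤ 4 * l + 4)
    have s3 := mul_le_mul_of_nonneg_left r1 (by positivity : (0 : ℝ) ≤ 2 * C)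
    have s4 := mul_le_mul_of_nonneg_left r2 (by positivity : (0 : ℝ) ≤ 2 * C)
    have s5 := mul_le_mul_of_nonneg_left r1 (by positivity : (0 : ℝ) ≤ 2 * l + 2)
    have s6 := mul_le_mul_of_nonneg_left q4 hC.le
    have hl0 : (0 : ℝ) ≤ l := by positivity
    have s7 : 0 ≤ C * m1 := by positivity
    have s8 : 0 ≤ C * m2 := by positivity
    have s9 : 0 ≤ (l : ℝ) * m1 := by positivity
    have s10 : 0 ≤ (l : ℝ) * m2 := by positivity
    linarith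

end pointwise

variable {ι : Type*} [Fintype ι] [DecidableEq ι]

theorem E1 (l : ℕ) (hl : 1 ≤ l) (i : ι) {M : ℤ} (hM : 0 < M) (I : Finset ℕ)
    (φ : ℕ → C(UnitAddTorus ι, ℂ)) (hφ : ∀ ζ ∈ I, φ ζ ∈ TI i 0 M) {B : ℝ}
    (hB : ∀ ζ ∈ I, ∫ x, ‖φ ζ x‖ ^ (2 * l + 2) ∂(mu ι) ≤ B) :
    ∫ x, ‖(∑ ζ ∈ I, φ ζ * ei i (M * ζ)) x‖ ^ (2 * l + 2) ∂(mu ι)
      ≤ 3 * (4 * l + 4) * I.card ^ (2 * l + 1) * B := by
  set Φ := ∑ ζ ∈ I, φ ζ * ei i (M * ζ) with hΦ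
  obtain ⟨l', rfl⟩ : ∃ l', l = l' + 1 := ⟨l - 1, by omega⟩
  have hpt : ∀ x, ‖Φ x‖ ^ (2 * (l' + 1) + 2) ≤
      I.card ^ (2 * l' + 1) * ∑ ζ ∈ I, ‖φ ζ x‖ ^ (2 * (l' + 1)) * ‖Φ x‖ ^ 2 := by
    intro x
    have h1 : ‖Φ x‖ ≤ ∑ ζ ∈ I, ‖φ ζ x‖ := by
      rw [hΦ]
      simp only [ContinuousMap.coe_sum, Finset.sum_apply, ContinuousMap.mul_apply]
      refine (norm_sum_le _ _).trans (le_of_eq ?_)
      refine Finset.sum_congr rfl (fun ζ _ => ?_)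
      rw [norm_mul, norm_ei, mul_one]
    have h2 := pow_sum_le_card_mul_sum_pow (s := I) (f := fun ζ => ‖φ ζ x‖)
      (fun _ _ => norm_nonneg _) (2 * l' + 1)
    calc ‖Φ x‖ ^ (2 * (l' + 1) + 2) = ‖Φ x‖ ^ (2 * l' + 1 + 1) * ‖Φ x‖ ^ 2 := by ring
      _ ≤ (∑ ζ ∈ I, ‖φ ζ x‖) ^ (2 * l' + 1 + 1) * ‖Φ x‖ ^ 2 := by gcongr
      _ ≤ (I.card ^ (2 * l' + 1) * ∑ ζ ∈ I, ‖φ ζ x‖ ^ (2 * l' + 1 + 1)) * ‖Φ x‖ ^ 2 := by
        gcongr
      _ = _ := by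
        rw [mul_assoc, Finset.sum_mul]
        rfl
  have hOL : ∀ ζ ∈ I, ∫ x, ‖φ ζ x‖ ^ (2 * (l' + 1)) * ‖Φ x‖ ^ 2 ∂(mu ι)
      ≤ 3 * (4 * (l' + 1 : ℕ) + 4) * I.card * B := by
    intro ζ hζ
    have h := OL (l' + 1) i hM (A := 0) (G := φ ζ) (TI_mono le_rfl (by omega) (hφ ζ hζ)) I φ hφ
      one_pos hB
    refine h.trans ?_
    rw [one_pow, one_pow, inv_one]
    have := hB ζ hζ
    calc _ ≤ (4 * ((l' + 1 : ℕ) : ℝ) + 4) * I.card * 1 * (B + 2 * 1 * B) := by gcongr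
      _ = _ := by ring
  calc ∫ x, ‖Φ x‖ ^ (2 * (l' + 1) + 2) ∂(mu ι)
      ≤ ∫ x, I.card ^ (2 * l' + 1) * ∑ ζ ∈ I, ‖φ ζ x‖ ^ (2 * (l' + 1)) * ‖Φ x‖ ^ 2 ∂(mu ι) := by
        apply integral_mono (cint (by fun_prop)) (cint (by fun_prop))
        intro x
        exact hpt x
    _ = I.card ^ (2 * l' + 1) * ∑ ζ ∈ I, ∫ x, ‖φ ζ x‖ ^ (2 * (l' + 1)) * ‖Φ x‖ ^ 2 ∂(mu ι) := by
        rw [integral_const_mul, integral_finsetSum]
        intro ζ _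
        exact cint (by fun_prop)
    _ ≤ I.card ^ (2 * l' + 1) * ∑ ζ ∈ I, 3 * (4 * (l' + 1 : ℕ) + 4) * I.card * B := by
        gcongr with ζ hζ
        exact hOL ζ hζ
    _ = _ := by
        rw [Finset.sum_const, nsmul_eq_mul]
        ring

end Run7.h481
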