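import Pool.Agent.Run7.h481.OneVar

namespace Run7.h481

open MeasureTheory UnitAddTorus

variable {ι : Type*} [Fintype ι] [DecidableEq ι]

section sumpow

theorem sum_pow_le_max (s : Finset ℕ) (hs : s.Nonempty) (w x : ℕ → ℝ) (hw : ∀ i ∈ s, 0 < w i)
    (hx : ∀ i ∈ s, 0 ≤ x i) (hsum : ∑ i ∈ s, w i ≤ 1) (n : ℕ) :
    (∑ i ∈ s, x i) ^ n ≤ ∑ i ∈ s, (x i / w i) ^ n := by
  obtain ⟨i0, hi0, hmax⟩ := Finset.exists_max_image s (fun i => x i / w i) hs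
  have h1 : ∑ i ∈ s, x i ≤ x i0 / w i0 := by
    calc ∑ i ∈ s, x i = ∑ i ∈ s, w i * (x i / w i) := by
          refine Finset.sum_congr rfl (fun i hi => ?_)
          rw [mul_div_cancel₀ _ (hw i hi).ne']
      _ ≤ ∑ i ∈ s, w i * (x i0 / w i0) :=
          Finset.sum_le_sum (fun i hi => mul_le_mul_of_nonneg_left (hmax i hi) (hw i hi).le)
      _ = (∑ i ∈ s, w i) * (x i0 / w i0) := by rw [Finset.sum_mul]
      _ ≤ 1 * (x i0 / w i0) := by
          have := div_nonneg (hx i0 hi0) (hw i0 hi0).le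
          gcongr
      _ = _ := one_mul _
  have h0 : 0 ≤ ∑ i ∈ s, x i := Finset.sum_nonneg hx
  calc (∑ i ∈ s, x i) ^ n ≤ (x i0 / w i0) ^ n := by gcongr
    _ ≤ _ := Finset.single_le_sum (f := fun i => (x i / w i) ^ n)
        (fun i hi => pow_nonneg (div_nonneg (hx i hi) (hw i hi).le) _) hi0

theorem half_geom (t : ℕ) : ∑ i ∈ Finset.range t, ((1 : ℝ) / 2) ^ (i + 1) ≤ 1 := by
  have : ∑ i ∈ Finset.range t, ((1 : ℝ) / 2) ^ (i + 1) = 1 - (1 / 2) ^ t := by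
    induction t with
    | zero => simp
    | succ t ih => rw [Finset.sum_range_succ, ih]; ring
  rw [this]
  have : (0 : ℝ) ≤ (1 / 2) ^ t := by positivity
  linarith

/-- `(A + ∑ x_i)^n ≤ 2^n A^n + ∑ (2^{i+2} x_i)^n` -/
theorem add_sum_pow_le (n : ℕ) (hn : n ≠ 0) (t : ℕ) (A : ℝ) (hA : 0 ≤ A) (x : ℕ → ℝ)
    (hx : ∀ i, 0 ≤ x i) :
    (A + ∑ i ∈ Finset.range t, x i) ^ n ≤ 2 ^ n * A ^ n
      + ∑ i ∈ Finset.range t, (2 ^ (i + 2)) ^ n * x i ^ n := by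
  set S := ∑ i ∈ Finset.range t, x i with hS
  have hS0 : 0 ≤ S := Finset.sum_nonneg (fun i _ => hx i)
  have h1 : (A + S) ^ n ≤ (2 * A) ^ n + (2 * S) ^ n := by
    rcases le_total A S with h | h
    · have : (A + S) ^ n ≤ (2 * S) ^ n := by gcongr; linarith
      have h0 : 0 ≤ (2 * A) ^ n := by positivity
      linarith
    · have : (A + S) ^ n ≤ (2 * A) ^ n := by gcongr; linarith
      have h0 : 0 ≤ (2 * S) ^ n := by positivity
      linarith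
  have h2 : (2 * S) ^ n ≤ ∑ i ∈ Finset.range t, (2 ^ (i + 2)) ^ n * x i ^ n := by
    rcases Nat.eq_zero_or_pos t with ht | ht
    · subst ht
      simp [hS, hn]
    · have := sum_pow_le_max (Finset.range t) ⟨0, Finset.mem_range.mpr ht⟩
        (fun i => (1 / 2) ^ (i + 1)) (fun i => 2 * x i) (fun i _ => by positivity)
        (fun i _ => by have := hx i; positivity) (half_geom t) n
      rw [hS, Finset.mul_sum]
      refine this.trans (le_of_eq (Finset.sum_congr rfl (fun i _ => ?_)))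
      rw [← mul_pow]
      congr 1
      rw [one_div, inv_pow, div_inv_eq_mul]
      ring
  rw [mul_pow] at h1
  linarith

end sumpow

section reindex

theorem sum_range_mul' {E : Type*} [AddCommMonoid E] (Z W : ℕ) (F : ℕ → E) :
    ∑ ξ ∈ Finset.range (Z * W), F ξ
      = ∑ η ∈ Finset.range W, ∑ ζ ∈ Finset.range Z, F (ζ + Z * η) := by
  induction W with
  | zero => simp
  | succ W ih =>
    rw [Finset.sum_range_succ, ← ih, Nat.mul_succ, Finset.sum_range_add]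
    congr 1
    refine Finset.sum_congr rfl (fun ζ _ => ?_)
    rw [add_comm]

theorem sum_Ico_mul' {E : Type*} [AddCommGroup E] (Z W : ℕ) (F : ℕ → E) :
    ∑ ξ ∈ Finset.Ico (Z * W) (2 * (Z * W)), F ξ
      = ∑ η ∈ Finset.Ico W (2 * W), ∑ ζ ∈ Finset.range Z, F (ζ + Z * η) := by
  rw [Finset.sum_Ico_eq_sub _ (by omega), Finset.sum_Ico_eq_sub _ (by omega),
    show 2 * (Z * W) = Z * (2 * W) by ring, sum_range_mul' Z (2 * W), sum_range_mul' Z W]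

end reindex

section onevar

variable (l : ℕ) (i : ι) (κ : ℕ) (φ : ℕ → ℕ → C(UnitAddTorus ι, ℂ))

/-- the length `L = 2^{a(κ+1)}`, `a = 8l+8` -/
def LL : ℕ := 2 ^ ((8 * l + 8) * (κ + 1))

/-- the scales -/
def MM (j : ℕ) : ℕ := 2 ^ ((8 * l + 8) * j)

theorem MM_pos (j : ℕ) : 0 < MM l j := by unfold MM; positivity
theorem LL_pos : 0 < LL l κ := by unfold LL; positivity

noncomputable def Ph (j : ℕ) : C(UnitAddTorus ι, ℂ) :=
  ∑ ξ ∈ Finset.Ico (LL l κ) (2 * LL l κ), φ j ξ * ei i ((MM l j : ℤ) * ξ)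

theorem Ph_def (j : ℕ) : Ph l i κ φ j
    = ∑ ξ ∈ Finset.Ico (LL l κ) (2 * LL l κ), φ j ξ * ei i ((MM l j : ℤ) * ξ) := rfl

noncomputable def Hh (j : ℕ) : C(UnitAddTorus ι, ℂ) := ∑ j' ∈ Finset.range j, Ph l i κ φ j'

variable (hφ : ∀ j ξ, φ j ξ ∈ TI i 0 (MM l j))

include hφ in
theorem Ph_mem (j : ℕ) :
    Ph l i κ φ j ∈ TI i ((LL l κ : ℤ) * MM l j) (2 * (LL l κ : ℤ) * MM l j) := by
  unfold Ph
  refine Submodule.sum_mem _ (fun ξ hξ => ?_)
  rw [Finset.mem_Ico] at hξ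
  have h := TI_mul (hφ j ξ) (ei_mem i ((MM l j : ℤ) * ξ))
  have hM : (0 : ℤ) < MM l j := by exact_mod_cast MM_pos l j
  have h1 : (LL l κ : ℤ) ≤ ξ := by exact_mod_cast hξ.1
  have h2 : (ξ : ℤ) + 1 ≤ 2 * LL l κ := by exact_mod_cast hξ.2
  refine TI_mono ?_ ?_ h
  · nlinarith
  · nlinarith

include hφ in
theorem Hh_mem (j : ℕ) : Hh l i κ φ (j + 1) ∈ TI i 0 (2 * (LL l κ : ℤ) * MM l j) := by
  unfold Hh
  refine Submodule.sum_mem _ (fun j' hj' => ?_)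
  rw [Finset.mem_range] at hj'
  have h := Ph_mem l i κ φ hφ j'
  refine TI_mono (by positivity) ?_ h
  have : MM l j' ≤ MM l j := by
    unfold MM
    exact Nat.pow_le_pow_right (by norm_num) (Nat.mul_le_mul_left _ (by omega))
  have h2 : (MM l j' : ℤ) ≤ MM l j := by exact_mod_cast this
  gcongr

variable {B : ℝ}

include hφ in
theorem Ph_norm (hl : 1 ≤ l) (hB : ∀ j ξ, ∫ x, ‖φ j ξ x‖ ^ (2 * l + 2) ∂(mu ι) ≤ B) (j : ℕ) :
    ∫ x, ‖Ph l i κ φ j x‖ ^ (2 * l + 2) ∂(mu ι)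
      ≤ 3 * (4 * l + 4) * (LL l κ : ℝ) ^ (2 * l + 1) * B := by
  have h := E1 l hl i (M := (MM l j : ℤ)) (by exact_mod_cast MM_pos l j)
    (Finset.Ico (LL l κ) (2 * LL l κ)) (φ j) (fun ζ _ => hφ j ζ) (fun ζ _ => hB j ζ)
  rw [Nat.card_Ico, show 2 * LL l κ - LL l κ = LL l κ by omega] at h
  exact h

include hφ in
theorem lin_zero (j : ℕ) :
    ∫ x, ‖Hh l i κ φ j x‖ ^ (2 * l)
      * ((starRingEnd ℂ (Hh l i κ φ j x)) * Ph l i κ φ j x).re ∂(mu ι) = 0 := by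
  set H := Hh l i κ φ j with hH
  set P := Ph l i κ φ j with hP
  have hmem : (H * star H) ^ l * (star H * P) ∈ TI i 1 (4 * (l + 1) * (LL l κ : ℤ) * MM l j) := by
    rcases j with _ | j
    · have : H = 0 := by rw [hH]; simp [Hh]
      rw [this, star_zero, zero_mul, zero_mul, mul_zero]
      exact Submodule.zero_mem _
    · have h1 := Hh_mem l i κ φ hφ j
      rw [← hH] at h1
      have h2 := Ph_mem l i κ φ hφ (j + 1)
      rw [← hP] at h2
      have h3 := TI_mul (TI_pow (TI_mul h1 (TI_star h1)) l) (TI_mul (TI_star h1) h2)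
      have hM : (MM l (j + 1) : ℤ) = 2 ^ (8 * l + 8) * MM l j := by
        unfold MM
        push_cast
        ring
      have hM0 : (1 : ℤ) ≤ MM l j := by exact_mod_cast MM_pos l j
      have hL0 : (1 : ℤ) ≤ LL l κ := by exact_mod_cast LL_pos l κ
      have hLM : (1 : ℤ) ≤ (LL l κ : ℤ) * MM l j := by nlinarith
      have hbig : (2 * l + 3 : ℤ) ≤ 2 ^ (8 * l + 8) := by
        have h5 : 8 * l + 8 < 2 ^ (8 * l + 8) := Nat.lt_two_pow_self
        have h6 : ((8 * l + 8 : ℕ) : ℤ) < 2 ^ (8 * l + 8) := by exact_mod_cast h5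
        push_cast at h6
        linarith
      rw [hM] at h3 ⊢
      refine TI_mono ?_ ?_ h3
      · nlinarith [mul_le_mul_of_nonneg_right hbig (by linarith : (0:ℤ) ≤ (LL l κ : ℤ) * MM l j)]
      · have h7 : (1 : ℤ) ≤ 2 ^ (8 * l + 8) := by linarith
        have h8 : (LL l κ : ℤ) * MM l j ≤ 2 ^ (8 * l + 8) * ((LL l κ : ℤ) * MM l j) := by nlinarith
        have h9 : (0 : ℤ) ≤ l := by positivity
        nlinarith [mul_le_mul_of_nonneg_left h8 h9]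
  have h0 := TI_int_pos hmem one_pos
  have hpt : ∀ x, ‖H x‖ ^ (2 * l) * ((starRingEnd ℂ (H x)) * P x).re
      = (((H * star H) ^ l * (star H * P)) x).re := by
    intro x
    rw [ContinuousMap.mul_apply, ContinuousMap.pow_apply, mul_star_apply, ← pow_mul,
      ContinuousMap.mul_apply, ContinuousMap.star_apply, ← starRingEnd_apply,
      ← Complex.ofReal_pow, Complex.re_ofReal_mul]
  simp_rw [hpt]
  have := integral_re (𝕜 := ℂ) (cint ((H * star H) ^ l * (star H * P)).continuous)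
  simp only [RCLike.re_eq_complex_re] at this
  rw [this, h0, Complex.zero_re]

theorem MM_add (j : ℕ) : MM l (κ + (j + 1)) = LL l κ * MM l j := by
  unfold LL MM
  rw [← pow_add]
  congr 1
  ring

include hφ in
theorem Hh_mem' (j : ℕ) : Hh l i κ φ (j - κ) ∈ TI i 0 (0 + 2 * (MM l j : ℤ)) := by
  by_cases h : j ≤ κ
  · rw [Nat.sub_eq_zero_of_le h]
    simp [Hh]
  · push Not at h
    obtain ⟨j0, rfl⟩ : ∃ j0, j = κ + (j0 + 1) := ⟨j - κ - 1, by omega⟩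
    have h1 := Hh_mem l i κ φ hφ j0
    rw [show κ + (j0 + 1) - κ = j0 + 1 by omega]
    rw [MM_add]
    have e : (2 * (LL l κ : ℤ) * MM l j0) = 0 + 2 * ((LL l κ * MM l j0 : ℕ) : ℤ) := by
      push_cast
      ring
    rw [← e]
    exact h1

include hφ in
theorem partA (hB : ∀ j ξ, ∫ x, ‖φ j ξ x‖ ^ (2 * l + 2) ∂(mu ι) ≤ B) (j : ℕ) :
    ∫ x, ‖Hh l i κ φ (j - κ) x‖ ^ (2 * l) * ‖Ph l i κ φ j x‖ ^ 2 ∂(mu ι)
      ≤ (4 * l + 4) * ((LL l κ : ℝ)⁻¹ * (∫ x, ‖Hh l i κ φ (j - κ) x‖ ^ (2 * l + 2) ∂(mu ι))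
        + 2 * (LL l κ : ℝ) ^ (2 * l + 1) * B) := by
  have hL0 : (0 : ℝ) < LL l κ := by exact_mod_cast LL_pos l κ
  have h := OL l i (A := 0) (K := (MM l j : ℤ)) (by exact_mod_cast MM_pos l j)
    (Hh_mem' l i κ φ hφ j)
    (Finset.Ico (LL l κ) (2 * LL l κ)) (φ j) (fun ζ _ => hφ j ζ) hL0 (fun ζ _ => hB j ζ)
  rw [Nat.card_Ico, show 2 * LL l κ - LL l κ = LL l κ by omega, ← Ph_def] at h
  refine h.trans (le_of_eq ?_)
  generalize (∫ x, ‖Hh l i κ φ (j - κ) x‖ ^ (2 * l + 2) ∂(mu ι)) = Y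
  generalize (LL l κ : ℝ) = L at hL0 ⊢
  field_simp
  ring

/-- regrouping of `Φ_j` in blocks of length `Z = 2^{a(κ-t)}` -/
theorem Ph_regroup {t : ℕ} (ht : t ≤ κ) (j : ℕ) (hj : t ≤ j) :
    Ph l i κ φ j = ∑ η ∈ Finset.Ico (MM l t) (2 * MM l t),
      (∑ ζ ∈ Finset.range (MM l (κ + 1 - t)), φ j (ζ + MM l (κ + 1 - t) * η)
        * ei i ((MM l j : ℤ) * ζ)) * ei i (((LL l κ * MM l (j - t) : ℕ) : ℤ) * η) := by
  have hL : LL l κ = MM l (κ + 1 - t) * MM l t := by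
    unfold LL MM
    rw [← pow_add, ← Nat.mul_add]
    congr 2
    omega
  have hM : LL l κ * MM l (j - t) = MM l j * MM l (κ + 1 - t) := by
    unfold LL MM
    rw [← pow_add, ← pow_add, ← Nat.mul_add, ← Nat.mul_add]
    congr 2
    omega
  rw [Ph_def, hM, hL, sum_Ico_mul']
  refine Finset.sum_congr rfl (fun η _ => ?_)
  rw [Finset.sum_mul]
  refine Finset.sum_congr rfl (fun ζ _ => ?_)
  rw [mul_assoc, ei_mul]
  congr 2
  push_cast
  ring

include hφ in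
theorem partB (hl : 1 ≤ l) (hB : ∀ j ξ, ∫ x, ‖φ j ξ x‖ ^ (2 * l + 2) ∂(mu ι) ≤ B) (hB0 : 0 ≤ B)
    {t : ℕ} (ht : t ≤ κ) (j : ℕ) (hj : t ≤ j) :
    ∫ x, ‖Ph l i κ φ (j - t) x‖ ^ (2 * l) * ‖Ph l i κ φ j x‖ ^ 2 ∂(mu ι)
      ≤ 9 * (4 * l + 4) ^ 2 * (2⁻¹) ^ ((4 * l + 4) * t) * ((LL l κ : ℝ) ^ (2 * l + 1) * B) := by
  set Z : ℕ := MM l (κ + 1 - t) with hZ
  set W : ℕ := MM l t with hW
  have hZ0 : 0 < Z := MM_pos _ _
  have hW0 : 0 < W := MM_pos _ _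
  have hL : LL l κ = Z * W := by
    rw [hZ, hW]
    unfold LL MM
    rw [← pow_add, ← Nat.mul_add]
    congr 2
    omega
  have hM : LL l κ * MM l (j - t) = MM l j * Z := by
    rw [hZ]
    unfold LL MM
    rw [← pow_add, ← pow_add, ← Nat.mul_add, ← Nat.mul_add]
    congr 2
    omega
  set K : ℕ := LL l κ * MM l (j - t) with hK
  have hK0 : 0 < K := Nat.mul_pos (LL_pos l κ) (MM_pos l _)
  set U : ℕ → C(UnitAddTorus ι, ℂ) := fun η =>
    ∑ ζ ∈ Finset.range Z, φ j (ζ + Z * η) * ei i ((MM l j : ℤ) * ζ) with hU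
  have hUm : ∀ η, U η ∈ TI i 0 (K : ℤ) := by
    intro η
    refine Submodule.sum_mem _ (fun ζ hζ => ?_)
    rw [Finset.mem_range] at hζ
    have h := TI_mul (hφ j (ζ + Z * η)) (ei_mem i ((MM l j : ℤ) * ζ))
    refine TI_mono (by positivity) ?_ h
    rw [hM]
    have : (ζ : ℤ) + 1 ≤ Z := by exact_mod_cast hζ
    have h0 : (0 : ℤ) ≤ MM l j := by positivity
    push_cast
    nlinarith
  have hUn : ∀ η, ∫ x, ‖U η x‖ ^ (2 * l + 2) ∂(mu ι) ≤ 3 * (4 * l + 4) * (Z : ℝ) ^ (2 * l + 1) * B := by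
    intro η
    have h := E1 l hl i (M := (MM l j : ℤ)) (by exact_mod_cast MM_pos l j)
      (Finset.range Z) (fun ζ => φ j (ζ + Z * η)) (fun ζ _ => hφ j _) (fun ζ _ => hB j _)
    rw [Finset.card_range] at h
    exact h
  have hG : Ph l i κ φ (j - t) ∈ TI i 0 (0 + 2 * (K : ℤ)) := by
    have h := Ph_mem l i κ φ hφ (j - t)
    refine TI_mono (by positivity) ?_ h
    rw [hK]
    push_cast
    linarith
  have h := OL l i (A := 0) (K := (K : ℤ)) (by exact_mod_cast hK0) hG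
    (Finset.Ico W (2 * W)) U (fun η _ => hUm η) (τ := 2 ^ ((6 * l + 6) * t)) (by positivity)
    (fun η _ => hUn η)
  have hreg := Ph_regroup l i κ φ ht j hj
  rw [Nat.card_Ico, show 2 * W - W = W by omega] at h
  rw [← hreg] at h
  refine h.trans ?_
  have hP := Ph_norm l i κ φ hφ hl hB (j - t)
  have hLr : (LL l κ : ℝ) = Z * W := by rw [hL]; push_cast; ring
  have hWr : (W : ℝ) = 2 ^ ((8 * l + 8) * t) := by
    rw [hW]; unfold MM; push_cast; ring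
  have hτW : ((2 ^ ((6 * l + 6) * t)) ^ (2 * l + 2) : ℝ) ≤ (W : ℝ) ^ (2 * l + 1) := by
    rw [hWr, ← pow_mul, ← pow_mul]
    refine pow_le_pow_right₀ (by norm_num) ?_
    nlinarith [Nat.mul_le_mul_right t hl, Nat.mul_le_mul_right (l * t) hl]
  have hfac : (W : ℝ) * ((2 ^ ((6 * l + 6) * t)) ^ 2)⁻¹ = (2⁻¹) ^ ((4 * l + 4) * t) := by
    have h1 : ((2 ^ ((6 * l + 6) * t)) ^ 2 : ℝ) = W * 2 ^ ((4 * l + 4) * t) := by
      rw [hWr, ← pow_mul, ← pow_add]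
      congr 1
      ring
    rw [h1, inv_pow]
    field_simp
  calc (4 * (l : ℝ) + 4) * W * ((2 ^ ((6 * l + 6) * t)) ^ 2)⁻¹ *
        ((∫ x, ‖Ph l i κ φ (j - t) x‖ ^ (2 * l + 2) ∂(mu ι))
          + 2 * (2 ^ ((6 * l + 6) * t)) ^ (2 * l + 2) * (3 * (4 * l + 4) * (Z : ℝ) ^ (2 * l + 1) * B))
      ≤ (4 * (l : ℝ) + 4) * W * ((2 ^ ((6 * l + 6) * t)) ^ 2)⁻¹ *
        (3 * (4 * l + 4) * (LL l κ : ℝ) ^ (2 * l + 1) * B
          + 2 * (W : ℝ) ^ (2 * l + 1) * (3 * (4 * l + 4) * (Z : ℝ) ^ (2 * l + 1) * B)) := by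
        gcongr
    _ = (4 * (l : ℝ) + 4) * (W * ((2 ^ ((6 * l + 6) * t)) ^ 2)⁻¹) *
        (9 * (4 * l + 4) * ((LL l κ : ℝ) ^ (2 * l + 1) * B)) := by
        rw [hLr, mul_pow]
        ring
    _ = _ := by
        rw [hfac]
        ring

end onevar

end Run7.h481
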