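import Pool.Agent.Run7.h481.OneVar2

namespace Run7.h481

open MeasureTheory UnitAddTorus

variable {ι : Type*} [Fintype ι] [DecidableEq ι]
variable (l : ℕ) (i : ι) (κ : ℕ) (φ : ℕ → ℕ → C(UnitAddTorus ι, ℂ))
variable (hφ : ∀ j ξ, φ j ξ ∈ TI i 0 (MM l j))
variable {B : ℝ}

theorem Hh_split (t j : ℕ) (ht : t ≤ j) :
    Hh l i κ φ j = Hh l i κ φ (j - t) + ∑ s ∈ Finset.range t, Ph l i κ φ (j - (s + 1)) := by
  induction t with
  | zero => simp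
  | succ t ih =>
    rw [ih (by omega), Finset.sum_range_succ]
    have : j - t = (j - (t + 1)) + 1 := by omega
    rw [this]
    have h2 : Hh l i κ φ (j - (t + 1) + 1)
        = Hh l i κ φ (j - (t + 1)) + Ph l i κ φ (j - (t + 1)) := by
      unfold Hh
      rw [Finset.sum_range_succ]
    rw [h2]
    abel

theorem Hh_pt (hl : 1 ≤ l) (j : ℕ) (x : UnitAddTorus ι) :
    ‖Hh l i κ φ j x‖ ^ (2 * l) ≤ 2 ^ (2 * l) * ‖Hh l i κ φ (j - κ) x‖ ^ (2 * l)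
      + ∑ s ∈ Finset.range (min κ j), (2 ^ (s + 2)) ^ (2 * l)
        * ‖Ph l i κ φ (j - (s + 1)) x‖ ^ (2 * l) := by
  have h1 := Hh_split l i κ φ (min κ j) j (min_le_right _ _)
  have h2 : j - min κ j = j - κ := by omega
  rw [h2] at h1
  have h3 : ‖Hh l i κ φ j x‖ ≤ ‖Hh l i κ φ (j - κ) x‖
      + ∑ s ∈ Finset.range (min κ j), ‖Ph l i κ φ (j - (s + 1)) x‖ := by
    rw [h1]
    simp only [ContinuousMap.add_apply, ContinuousMap.coe_sum, Finset.sum_apply]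
    exact (norm_add_le _ _).trans (by gcongr; exact norm_sum_le _ _)
  calc ‖Hh l i κ φ j x‖ ^ (2 * l) ≤ (‖Hh l i κ φ (j - κ) x‖
      + ∑ s ∈ Finset.range (min κ j), ‖Ph l i κ φ (j - (s + 1)) x‖) ^ (2 * l) := by gcongr
    _ ≤ _ := add_sum_pow_le (2 * l) (by omega) (min κ j) _ (norm_nonneg _)
        (fun s => ‖Ph l i κ φ (j - (s + 1)) x‖) (fun _ => norm_nonneg _)

include hφ in
theorem Q_bound (hl : 1 ≤ l) (hB : ∀ j ξ, ∫ x, ‖φ j ξ x‖ ^ (2 * l + 2) ∂(mu ι) ≤ B) (hB0 : 0 ≤ B)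
    (j : ℕ) :
    ∫ x, ‖Hh l i κ φ j x‖ ^ (2 * l) * ‖Ph l i κ φ j x‖ ^ 2 ∂(mu ι)
      ≤ 2 ^ (2 * l) * ((4 * l + 4) * ((LL l κ : ℝ)⁻¹ *
          (∫ x, ‖Hh l i κ φ (j - κ) x‖ ^ (2 * l + 2) ∂(mu ι))
        + 2 * (LL l κ : ℝ) ^ (2 * l + 1) * B))
        + 2 ^ (2 * l) * (9 * (4 * l + 4) ^ 2 * ((LL l κ : ℝ) ^ (2 * l + 1) * B)) := by
  set t := min κ j with ht
  have hA := partA l i κ φ hφ hB j
  have hBd : ∀ s ∈ Finset.range t, ∫ x, ‖Ph l i κ φ (j - (s + 1)) x‖ ^ (2 * l)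
      * ‖Ph l i κ φ j x‖ ^ 2 ∂(mu ι)
      ≤ 9 * (4 * l + 4) ^ 2 * (2⁻¹) ^ ((4 * l + 4) * (s + 1))
        * ((LL l κ : ℝ) ^ (2 * l + 1) * B) := by
    intro s hs
    rw [Finset.mem_range] at hs
    exact partB l i κ φ hφ hl hB hB0 (by omega) j (by omega)
  calc ∫ x, ‖Hh l i κ φ j x‖ ^ (2 * l) * ‖Ph l i κ φ j x‖ ^ 2 ∂(mu ι)
      ≤ ∫ x, (2 ^ (2 * l) * (‖Hh l i κ φ (j - κ) x‖ ^ (2 * l) * ‖Ph l i κ φ j x‖ ^ 2)
      + ∑ s ∈ Finset.range t, (2 ^ (s + 2)) ^ (2 * l)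
        * (‖Ph l i κ φ (j - (s + 1)) x‖ ^ (2 * l) * ‖Ph l i κ φ j x‖ ^ 2)) ∂(mu ι) := by
        apply integral_mono (cint (by fun_prop)) (cint (by fun_prop))
        intro x
        have h := mul_le_mul_of_nonneg_right (Hh_pt l i κ φ hl j x)
          (by positivity : 0 ≤ ‖Ph l i κ φ j x‖ ^ 2)
        rw [add_mul, Finset.sum_mul] at h
        simp only [mul_assoc] at h ⊢
        exact h
    _ = 2 ^ (2 * l) * (∫ x, ‖Hh l i κ φ (j - κ) x‖ ^ (2 * l) * ‖Ph l i κ φ j x‖ ^ 2 ∂(mu ι))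
      + ∑ s ∈ Finset.range t, (2 ^ (s + 2)) ^ (2 * l)
        * ∫ x, (‖Ph l i κ φ (j - (s + 1)) x‖ ^ (2 * l) * ‖Ph l i κ φ j x‖ ^ 2) ∂(mu ι) := by
        rw [integral_add (cint (by fun_prop)) (cint (by fun_prop)), integral_const_mul,
          integral_finsetSum]
        · simp only [integral_const_mul]
        · intro s _
          exact cint (by fun_prop)
    _ ≤ 2 ^ (2 * l) * ((4 * l + 4) * ((LL l κ : ℝ)⁻¹ *
          (∫ x, ‖Hh l i κ φ (j - κ) x‖ ^ (2 * l + 2) ∂(mu ι))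
        + 2 * (LL l κ : ℝ) ^ (2 * l + 1) * B))
      + ∑ s ∈ Finset.range t, (2 ^ (s + 2)) ^ (2 * l)
        * (9 * (4 * l + 4) ^ 2 * (2⁻¹) ^ ((4 * l + 4) * (s + 1))
        * ((LL l κ : ℝ) ^ (2 * l + 1) * B)) := by
        gcongr with s hs
        exact hBd s hs
    _ ≤ _ := by
        gcongr
        have hL0 : (0 : ℝ) ≤ LL l κ := by positivity
        calc ∑ s ∈ Finset.range t, (2 ^ (s + 2)) ^ (2 * l)
            * (9 * (4 * l + 4) ^ 2 * (2⁻¹) ^ ((4 * l + 4) * (s + 1))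
            * ((LL l κ : ℝ) ^ (2 * l + 1) * B))
            ≤ ∑ s ∈ Finset.range t, (1 / 2 : ℝ) ^ (s + 1) * (2 ^ (2 * l) *
              (9 * (4 * l + 4) ^ 2 * ((LL l κ : ℝ) ^ (2 * l + 1) * B))) := by
              refine Finset.sum_le_sum (fun s _ => ?_)
              have e : ((2 ^ (s + 2)) ^ (2 * l) : ℝ) * (2⁻¹) ^ ((4 * l + 4) * (s + 1))
                  ≤ 2 ^ (2 * l) * (1 / 2) ^ (s + 1) := by
                rw [← pow_mul, inv_pow, one_div, inv_pow, ← div_eq_mul_inv, ← div_eq_mul_inv,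
                  div_le_div_iff₀ (by positivity) (by positivity), ← pow_add, ← pow_add]
                refine pow_le_pow_right₀ (by norm_num) ?_
                nlinarith
              calc _ = ((2 ^ (s + 2)) ^ (2 * l) : ℝ) * (2⁻¹) ^ ((4 * l + 4) * (s + 1)) *
                    (9 * (4 * l + 4) ^ 2 * ((LL l κ : ℝ) ^ (2 * l + 1) * B)) := by ring
                _ ≤ (2 ^ (2 * l) * (1 / 2) ^ (s + 1)) *
                    (9 * (4 * l + 4) ^ 2 * ((LL l κ : ℝ) ^ (2 * l + 1) * B)) := by gcongr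
                _ = _ := by ring
          _ ≤ 1 * (2 ^ (2 * l) *
              (9 * (4 * l + 4) ^ 2 * ((LL l κ : ℝ) ^ (2 * l + 1) * B))) := by
              rw [← Finset.sum_mul]
              gcongr
              exact half_geom t
          _ = _ := one_mul _

theorem onevar_rec (hl : 1 ≤ l) : ∃ C : ℝ, 0 < C ∧ ∀ (i : ι) (κ : ℕ)
    (φ : ℕ → ℕ → C(UnitAddTorus ι, ℂ)) (_ : ∀ j ξ, φ j ξ ∈ TI i 0 (MM l j)) (B : ℝ) (_ : 0 ≤ B)
    (_ : ∀ j ξ, ∫ x, ‖φ j ξ x‖ ^ (2 * l + 2) ∂(mu ι) ≤ B) (j : ℕ),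
    ∫ x, ‖Hh l i κ φ (j + 1) x‖ ^ (2 * l + 2) ∂(mu ι)
      ≤ (∫ x, ‖Hh l i κ φ j x‖ ^ (2 * l + 2) ∂(mu ι))
        + C * ((LL l κ : ℝ)⁻¹ * (∫ x, ‖Hh l i κ φ (j - κ) x‖ ^ (2 * l + 2) ∂(mu ι))
          + (LL l κ : ℝ) ^ (2 * l + 1) * B) := by
  obtain ⟨Cp, hCp, hpt⟩ := pointwise l
  refine ⟨Cp * (2 ^ (2 * l) * (4 * l + 4) * 2 + 2 ^ (2 * l) * 9 * (4 * l + 4) ^ 2
    + 3 * (4 * l + 4)), by positivity, ?_⟩
  intro i κ φ hφ B hB0 hB j
  have hQ := Q_bound l i κ φ hφ hl hB hB0 j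
  have hP := Ph_norm l i κ φ hφ hl hB j
  have hlin := lin_zero l i κ φ hφ j
  set X := ∫ x, ‖Hh l i κ φ (j - κ) x‖ ^ (2 * l + 2) ∂(mu ι) with hX
  have hX0 : 0 ≤ X := integral_nonneg (fun x => by positivity)
  set W := (LL l κ : ℝ) ^ (2 * l + 1) * B with hW
  have hW0 : 0 ≤ W := by positivity
  have hLi : 0 ≤ (LL l κ : ℝ)⁻¹ := by positivity
  have hsucc : Hh l i κ φ (j + 1) = Hh l i κ φ j + Ph l i κ φ j := by
    unfold Hh
    rw [Finset.sum_range_succ]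
  have c1 : Integrable (fun x => ‖Hh l i κ φ j x‖ ^ (2 * l + 2)) (mu ι) := cint (by fun_prop)
  have c2 : Integrable (fun x => (2 * (l : ℝ) + 2) * (‖Hh l i κ φ j x‖ ^ (2 * l)
      * ((starRingEnd ℂ (Hh l i κ φ j x)) * Ph l i κ φ j x).re)) (mu ι) := cint (by fun_prop)
  have c3 : Integrable (fun x => ‖Hh l i κ φ j x‖ ^ (2 * l) * ‖Ph l i κ φ j x‖ ^ 2) (mu ι) :=
    cint (by fun_prop)
  have c4 : Integrable (fun x => ‖Ph l i κ φ j x‖ ^ (2 * l + 2)) (mu ι) := cint (by fun_prop)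
  have c34 : Integrable (fun x => Cp * (‖Hh l i κ φ j x‖ ^ (2 * l) * ‖Ph l i κ φ j x‖ ^ 2
      + ‖Ph l i κ φ j x‖ ^ (2 * l + 2))) (mu ι) := (c3.add c4).const_mul Cp
  have c12 : Integrable (fun x => ‖Hh l i κ φ j x‖ ^ (2 * l + 2)
      + (2 * (l : ℝ) + 2) * (‖Hh l i κ φ j x‖ ^ (2 * l)
      * ((starRingEnd ℂ (Hh l i κ φ j x)) * Ph l i κ φ j x).re)) (mu ι) := c1.add c2
  calc ∫ x, ‖Hh l i κ φ (j + 1) x‖ ^ (2 * l + 2) ∂(mu ι)
      ≤ ∫ x, (‖Hh l i κ φ j x‖ ^ (2 * l + 2)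
        + (2 * (l : ℝ) + 2) * (‖Hh l i κ φ j x‖ ^ (2 * l)
          * ((starRingEnd ℂ (Hh l i κ φ j x)) * Ph l i κ φ j x).re)
        + Cp * (‖Hh l i κ φ j x‖ ^ (2 * l) * ‖Ph l i κ φ j x‖ ^ 2
          + ‖Ph l i κ φ j x‖ ^ (2 * l + 2))) ∂(mu ι) := by
        apply integral_mono (cint (by fun_prop)) (c12.add c34)
        intro x
        simp only [hsucc, ContinuousMap.add_apply]
        exact hpt _ _
    _ = (∫ x, ‖Hh l i κ φ j x‖ ^ (2 * l + 2) ∂(mu ι)) + 0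
        + Cp * ((∫ x, ‖Hh l i κ φ j x‖ ^ (2 * l) * ‖Ph l i κ φ j x‖ ^ 2 ∂(mu ι))
          + (∫ x, ‖Ph l i κ φ j x‖ ^ (2 * l + 2) ∂(mu ι))) := by
        rw [integral_add c12 c34, integral_add c1 c2, integral_const_mul, hlin, mul_zero,
          integral_const_mul, integral_add c3 c4]
    _ ≤ _ := by
        rw [add_zero]
        gcongr (∫ x, ‖Hh l i κ φ j x‖ ^ (2 * l + 2) ∂(mu ι)) + ?_
        rw [mul_assoc Cp]
        gcongr Cp * ?_
        have hW' : 3 * (4 * l + 4) * (LL l κ : ℝ) ^ (2 * l + 1) * B = 3 * (4 * l + 4) * W := by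
          rw [hW]; ring
        rw [hW'] at hP
        have e2 : 2 * (LL l κ : ℝ) ^ (2 * l + 1) * B = 2 * W := by rw [hW]; ring
        rw [e2] at hQ
        have hY : 0 ≤ (LL l κ : ℝ)⁻¹ * X := by positivity
        generalize (LL l κ : ℝ)⁻¹ * X = Y at hQ hY ⊢
        have g1 : (0 : ℝ) ≤ 2 ^ (2 * l) * (4 * l + 4) * Y := by positivity
        have g2 : (0 : ℝ) ≤ 2 ^ (2 * l) * 9 * (4 * l + 4) ^ 2 * Y := by positivity
        have g3 : (0 : ℝ) ≤ 3 * (4 * l + 4) * Y := by positivity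
        nlinarith

theorem onevar (hl : 1 ≤ l) : ∃ C : ℝ, 0 < C ∧ ∀ (i : ι) (κ : ℕ)
    (φ : ℕ → ℕ → C(UnitAddTorus ι, ℂ)) (_ : ∀ j ξ, φ j ξ ∈ TI i 0 (MM l j)) (B : ℝ) (_ : 0 ≤ B)
    (_ : ∀ j ξ, ∫ x, ‖φ j ξ x‖ ^ (2 * l + 2) ∂(mu ι) ≤ B),
    ∫ x, ‖Hh l i κ φ (LL l κ) x‖ ^ (2 * l + 2) ∂(mu ι) ≤ C * (LL l κ : ℝ) ^ (2 * l + 2) * B := by
  obtain ⟨C, hC, hrec⟩ := onevar_rec (ι := ι) l hl
  refine ⟨Real.exp (2 * C), Real.exp_pos _, ?_⟩
  intro i κ φ hφ B hB0 hB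
  have hL0 : (0 : ℝ) < LL l κ := by exact_mod_cast LL_pos l κ
  have hL1 : (1 : ℝ) ≤ LL l κ := by exact_mod_cast LL_pos l κ
  set L : ℝ := (LL l κ : ℝ) with hL
  set r : ℝ := 1 + 2 * C / L with hr
  have hr1 : 1 ≤ r := by
    rw [hr]
    have : 0 ≤ 2 * C / L := by positivity
    linarith
  have key : ∀ j, ∫ x, ‖Hh l i κ φ j x‖ ^ (2 * l + 2) ∂(mu ι) ≤ r ^ j * (L ^ (2 * l + 2) * B) := by
    intro j
    induction j using Nat.strong_induction_on with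
    | _ j ih =>
      rcases j with _ | j
      · simp only [Hh, Finset.range_zero, Finset.sum_empty, ContinuousMap.zero_apply, norm_zero,
          pow_zero, one_mul]
        rw [zero_pow (by omega)]
        simp only [integral_zero]
        positivity
      · have h1 := ih j (by omega)
        have h2 := ih (j - κ) (by omega)
        have h3 := hrec i κ φ hφ B hB0 hB j
        have h4 : r ^ (j - κ) ≤ r ^ j := pow_le_pow_right₀ hr1 (by omega)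
        have hrj : 1 ≤ r ^ j := one_le_pow₀ hr1
        refine h3.trans ?_
        have hLB : 0 ≤ L ^ (2 * l + 1) * B := by positivity
        calc (∫ x, ‖Hh l i κ φ j x‖ ^ (2 * l + 2) ∂(mu ι))
            + C * (L⁻¹ * (∫ x, ‖Hh l i κ φ (j - κ) x‖ ^ (2 * l + 2) ∂(mu ι))
              + L ^ (2 * l + 1) * B)
            ≤ r ^ j * (L ^ (2 * l + 2) * B)
            + C * (L⁻¹ * (r ^ j * (L ^ (2 * l + 2) * B)) + r ^ j * (L ^ (2 * l + 1) * B)) := by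
              have h7 : L ^ (2 * l + 1) * B ≤ r ^ j * (L ^ (2 * l + 1) * B) := by nlinarith
              have h8 : ∫ x, ‖Hh l i κ φ (j - κ) x‖ ^ (2 * l + 2) ∂(mu ι)
                  ≤ r ^ j * (L ^ (2 * l + 2) * B) := h2.trans (by gcongr)
              exact add_le_add h1 (mul_le_mul_of_nonneg_left (add_le_add
                (mul_le_mul_of_nonneg_left h8 (by positivity)) h7) hC.le)
          _ = r ^ (j + 1) * (L ^ (2 * l + 2) * B) := by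
              rw [pow_succ r j, hr]
              field_simp
              ring
  refine (key (LL l κ)).trans ?_
  have h5 : r ^ (LL l κ) ≤ Real.exp (2 * C) := by
    have h6 : r ≤ Real.exp (2 * C / L) := by
      rw [hr, add_comm]
      exact Real.add_one_le_exp _
    calc r ^ (LL l κ) ≤ (Real.exp (2 * C / L)) ^ (LL l κ) := by gcongr
      _ = Real.exp (2 * C) := by
        rw [← Real.exp_nat_mul, ← hL]
        congr 1
        field_simp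
  calc r ^ (LL l κ) * (L ^ (2 * l + 2) * B) ≤ Real.exp (2 * C) * (L ^ (2 * l + 2) * B) := by
        gcongr
    _ = _ := by ring

end Run7.h481
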