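import Pool.Agent.Run7.h481.Basic

namespace Run7.h481

open MeasureTheory UnitAddTorus

section khinchin

variable {α : Type*} [DecidableEq α]

/-- the sign vector attached to a set -/
def sgn (A : Finset α) (k : α) : ℝ := if k ∈ A then 1 else -1

theorem sgn_cases (A : Finset α) (k : α) : sgn A k = 1 ∨ sgn A k = -1 := by
  unfold sgn; split_ifs <;> simp

theorem sum_exp (R : Finset α) (b : α → ℝ) :
    ∑ A ∈ R.powerset, Real.exp (∑ k ∈ R, sgn A k * b k)
      = ∏ k ∈ R, (Real.exp (b k) + Real.exp (-b k)) := by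
  rw [Finset.prod_add]
  refine Finset.sum_congr rfl (fun A hA => ?_)
  rw [Finset.mem_powerset] at hA
  rw [Real.exp_sum, ← Finset.prod_sdiff hA, mul_comm]
  congr 1
  · refine Finset.prod_congr rfl (fun k hk => ?_)
    simp [sgn, hk]
  · refine Finset.prod_congr rfl (fun k hk => ?_)
    rw [Finset.mem_sdiff] at hk
    simp [sgn, hk.2]

theorem exp_pair (t : ℝ) : Real.exp t + Real.exp (-t) ≤ 2 * Real.exp (t ^ 2 / 2) := by
  have h := Real.cosh_le_exp_half_sq t
  rw [Real.cosh_eq] at h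
  linarith

theorem pow_le_exp_pair (n : ℕ) (t : ℝ) :
    t ^ (2 * n) ≤ (2 * n).factorial * (Real.exp t + Real.exp (-t)) := by
  have h1 : |t| ^ (2 * n) / (2 * n).factorial ≤ Real.exp |t| :=
    Real.pow_div_factorial_le_exp (|t|) (abs_nonneg t) (2 * n)
  rw [div_le_iff₀ (by positivity)] at h1
  have h2 : Real.exp |t| ≤ Real.exp t + Real.exp (-t) := by
    rcases abs_cases t with ⟨h, _⟩ | ⟨h, _⟩ <;> rw [h]
    · have := Real.exp_pos (-t); linarith
    · have := Real.exp_pos t; linarith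
  have h3 : t ^ (2 * n) = |t| ^ (2 * n) := by
    rw [pow_mul, pow_mul, sq_abs]
  rw [h3]
  calc |t| ^ (2 * n) ≤ Real.exp |t| * (2 * n).factorial := h1
    _ ≤ (Real.exp t + Real.exp (-t)) * (2 * n).factorial := by gcongr
    _ = _ := by ring

theorem khin_real (n : ℕ) (R : Finset α) (hR : 0 < R.card) (a : α → ℝ)
    (ha : ∀ k ∈ R, |a k| ≤ 1) :
    ∑ A ∈ R.powerset, (∑ k ∈ R, sgn A k * a k) ^ (2 * n)
      ≤ 2 ^ R.card * ((2 * n).factorial * (2 * Real.exp (1 / 2))) * (R.card : ℝ) ^ n := by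
  set D : ℝ := (R.card : ℝ) with hD
  have hD0 : 0 < D := by rw [hD]; exact_mod_cast hR
  set s : ℝ := (Real.sqrt D)⁻¹ with hs
  have hs2 : s ^ 2 = D⁻¹ := by rw [hs, inv_pow, Real.sq_sqrt hD0.le]
  have hb : ∀ b : α → ℝ, (∀ k ∈ R, |b k| ≤ s) →
      ∑ A ∈ R.powerset, Real.exp (∑ k ∈ R, sgn A k * b k) ≤ 2 ^ R.card * Real.exp (1 / 2) := by
    intro b hb
    rw [sum_exp]
    calc ∏ k ∈ R, (Real.exp (b k) + Real.exp (-b k))
        ≤ ∏ k ∈ R, (2 * Real.exp (D⁻¹ / 2)) := by
          refine Finset.prod_le_prod (fun k _ => by positivity) (fun k hk => ?_)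
          refine (exp_pair (b k)).trans ?_
          have : b k ^ 2 ≤ D⁻¹ := by
            rw [← hs2]
            exact sq_le_sq' (by linarith [abs_le.mp (hb k hk)]) (abs_le.mp (hb k hk)).2
          gcongr
      _ = 2 ^ R.card * Real.exp (1 / 2) := by
          rw [Finset.prod_const, mul_pow, ← Real.exp_nat_mul]
          congr 2
          rw [← hD]
          field_simp
  have key : ∀ A : Finset α, (∑ k ∈ R, sgn A k * a k) ^ (2 * n)
      ≤ D ^ n * ((2 * n).factorial * (Real.exp (∑ k ∈ R, sgn A k * (a k * s))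
        + Real.exp (∑ k ∈ R, sgn A k * (-(a k * s))))) := by
    intro A
    have h1 := pow_le_exp_pair n (∑ k ∈ R, sgn A k * (a k * s))
    have e1 : ∑ k ∈ R, sgn A k * (-(a k * s)) = -(∑ k ∈ R, sgn A k * (a k * s)) := by
      rw [← Finset.sum_neg_distrib]
      exact Finset.sum_congr rfl (fun k _ => by ring)
    have e2 : ∑ k ∈ R, sgn A k * (a k * s) = (∑ k ∈ R, sgn A k * a k) * s := by
      rw [Finset.sum_mul]
      exact Finset.sum_congr rfl (fun k _ => by ring)
    rw [e1]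
    have h2 : (∑ k ∈ R, sgn A k * a k) ^ (2 * n)
        = D ^ n * (∑ k ∈ R, sgn A k * (a k * s)) ^ (2 * n) := by
      rw [e2, mul_pow, pow_mul s 2 n, hs2, inv_pow]
      field_simp
    rw [h2]
    gcongr
  calc ∑ A ∈ R.powerset, (∑ k ∈ R, sgn A k * a k) ^ (2 * n)
      ≤ ∑ A ∈ R.powerset, D ^ n * ((2 * n).factorial * (Real.exp (∑ k ∈ R, sgn A k * (a k * s))
        + Real.exp (∑ k ∈ R, sgn A k * (-(a k * s))))) := Finset.sum_le_sum (fun A _ => key A)
    _ = D ^ n * ((2 * n).factorial * (∑ A ∈ R.powerset, Real.exp (∑ k ∈ R, sgn A k * (a k * s))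
        + ∑ A ∈ R.powerset, Real.exp (∑ k ∈ R, sgn A k * (-(a k * s))))) := by
        rw [← Finset.mul_sum, ← Finset.mul_sum, Finset.sum_add_distrib]
    _ ≤ D ^ n * ((2 * n).factorial * (2 ^ R.card * Real.exp (1 / 2)
        + 2 ^ R.card * Real.exp (1 / 2))) := by
        have hs0 : 0 ≤ s := by rw [hs]; positivity
        gcongr
        · refine hb _ (fun k hk => ?_)
          rw [abs_mul, abs_of_nonneg hs0]
          have := ha k hk
          nlinarith
        · refine hb _ (fun k hk => ?_)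
          rw [abs_neg, abs_mul, abs_of_nonneg hs0]
          have := ha k hk
          nlinarith
    _ = _ := by ring

theorem khin_complex (n : ℕ) (R : Finset α) (hR : 0 < R.card) (z : α → ℂ)
    (hz : ∀ k ∈ R, ‖z k‖ ≤ 1) :
    ∑ A ∈ R.powerset, ‖∑ k ∈ R, (sgn A k : ℂ) * z k‖ ^ (2 * n)
      ≤ 2 ^ R.card * (2 ^ (2 * n) * 2 * ((2 * n).factorial * (2 * Real.exp (1 / 2))))
        * (R.card : ℝ) ^ n := by
  have h1 : ∀ w : ℂ, ‖w‖ ^ (2 * n) ≤ 2 ^ (2 * n) * (w.re ^ (2 * n) + w.im ^ (2 * n)) := by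
    intro w
    have h2 : ‖w‖ ≤ |w.re| + |w.im| := Complex.norm_le_abs_re_add_abs_im w
    have e1 : w.re ^ (2 * n) = |w.re| ^ (2 * n) := by rw [pow_mul, pow_mul, sq_abs]
    have e2 : w.im ^ (2 * n) = |w.im| ^ (2 * n) := by rw [pow_mul, pow_mul, sq_abs]
    rw [e1, e2]
    have ha := abs_nonneg w.re
    have hb := abs_nonneg w.im
    rcases le_total |w.re| |w.im| with h | h
    · calc ‖w‖ ^ (2 * n) ≤ (2 * |w.im|) ^ (2 * n) := by gcongr; linarith
        _ = 2 ^ (2 * n) * |w.im| ^ (2 * n) := mul_pow _ _ _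
        _ ≤ _ := by gcongr; linarith [pow_nonneg ha (2 * n)]
    · calc ‖w‖ ^ (2 * n) ≤ (2 * |w.re|) ^ (2 * n) := by gcongr; linarith
        _ = 2 ^ (2 * n) * |w.re| ^ (2 * n) := mul_pow _ _ _
        _ ≤ _ := by gcongr; linarith [pow_nonneg hb (2 * n)]
  have hre : ∀ A : Finset α, (∑ k ∈ R, (sgn A k : ℂ) * z k).re = ∑ k ∈ R, sgn A k * (z k).re := by
    intro A
    rw [Complex.re_sum]
    exact Finset.sum_congr rfl (fun k _ => Complex.re_ofReal_mul _ _)
  have him : ∀ A : Finset α, (∑ k ∈ R, (sgn A k : ℂ) * z k).im = ∑ k ∈ R, sgn A k * (z k).im := by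
    intro A
    rw [Complex.im_sum]
    exact Finset.sum_congr rfl (fun k _ => Complex.im_ofReal_mul _ _)
  have k1 := khin_real n R hR (fun k => (z k).re)
    (fun k hk => (Complex.abs_re_le_norm _).trans (hz k hk))
  have k2 := khin_real n R hR (fun k => (z k).im)
    (fun k hk => (Complex.abs_im_le_norm _).trans (hz k hk))
  calc ∑ A ∈ R.powerset, ‖∑ k ∈ R, (sgn A k : ℂ) * z k‖ ^ (2 * n)
      ≤ ∑ A ∈ R.powerset, 2 ^ (2 * n) * ((∑ k ∈ R, sgn A k * (z k).re) ^ (2 * n)
        + (∑ k ∈ R, sgn A k * (z k).im) ^ (2 * n)) := by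
        refine Finset.sum_le_sum (fun A _ => ?_)
        rw [← hre A, ← him A]
        exact h1 _
    _ = 2 ^ (2 * n) * (∑ A ∈ R.powerset, (∑ k ∈ R, sgn A k * (z k).re) ^ (2 * n)
        + ∑ A ∈ R.powerset, (∑ k ∈ R, sgn A k * (z k).im) ^ (2 * n)) := by
        rw [← Finset.mul_sum, Finset.sum_add_distrib]
    _ ≤ 2 ^ (2 * n) * (2 ^ R.card * ((2 * n).factorial * (2 * Real.exp (1 / 2))) * (R.card : ℝ) ^ n
        + 2 ^ R.card * ((2 * n).factorial * (2 * Real.exp (1 / 2))) * (R.card : ℝ) ^ n) := by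
        gcongr
    _ = _ := by ring

end khinchin

section counting

variable {α : Type*} [DecidableEq α]

omit [DecidableEq α] in
theorem small_sets (R : Finset α) (E : ℕ) (hR : R.card = 64 * E) :
    (R.powerset.filter (fun A => A.card ≤ E)).card ≤ 2 ^ (12 * E) := by
  have h1 : (R.powerset.filter (fun A => A.card ≤ E)).card * 16 ^ (63 * E) ≤ 17 ^ (64 * E) := by
    calc (R.powerset.filter (fun A => A.card ≤ E)).card * 16 ^ (63 * E)
        = ∑ A ∈ R.powerset.filter (fun A => A.card ≤ E), 16 ^ (63 * E) := by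
          rw [Finset.sum_const, smul_eq_mul]
      _ ≤ ∑ A ∈ R.powerset.filter (fun A => A.card ≤ E), 1 ^ A.card * 16 ^ (R.card - A.card) := by
          refine Finset.sum_le_sum (fun A hA => ?_)
          rw [Finset.mem_filter] at hA
          rw [one_pow, one_mul]
          exact Nat.pow_le_pow_right (by norm_num) (by omega)
      _ ≤ ∑ A ∈ R.powerset, 1 ^ A.card * 16 ^ (R.card - A.card) :=
          Finset.sum_le_sum_of_subset (Finset.filter_subset _ _)
      _ = 17 ^ (64 * E) := by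
          rw [Finset.sum_pow_mul_eq_add_pow, hR]
  have h2 : 17 ^ (64 * E) ≤ 2 ^ (12 * E) * 16 ^ (63 * E) := by
    rw [pow_mul, pow_mul, pow_mul, ← mul_pow]
    exact Nat.pow_le_pow_left (by norm_num) E
  exact Nat.le_of_mul_le_mul_right (h1.trans h2) (by positivity)

/-- the combinatorial core: a robustly bad sign vector -/
theorem robust_core (R : Finset α) (E : ℕ) (hE : 1 ≤ E) (hR : R.card = 64 * E)
    (U : Finset (Finset α)) (hU : U ⊆ R.powerset) (hUc : 2 ^ (64 * E) ≤ 2 * U.card) :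
    ∃ A ∈ U, ∀ Λ ⊆ R, Λ.card ≤ E → ∃ A' ∈ U, A ∩ Λ = A' ∩ Λ ∧ E < (symmDiff A A').card := by
  classical
  by_contra hcon
  push Not at hcon
  set V := R.powerset.filter (fun A => A.card ≤ E) with hV
  have hVc := small_sets R E hR
  rw [← hV] at hVc
  set bad : Finset α → Finset (Finset α) := fun Λ =>
    U.filter (fun A => ∀ A' ∈ U, A ∩ Λ = A' ∩ Λ → (symmDiff A A').card ≤ E) with hbad
  have hcover : U ⊆ V.biUnion bad := by
    intro A hA
    obtain ⟨Λ, hΛ, hc, h⟩ := hcon A hA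
    rw [Finset.mem_biUnion]
    exact ⟨Λ, by rw [hV, Finset.mem_filter, Finset.mem_powerset]; exact ⟨hΛ, hc⟩,
      by rw [hbad, Finset.mem_filter]; exact ⟨hA, h⟩⟩
  have hbc : ∀ Λ ∈ V, (bad Λ).card ≤ 2 ^ (12 * E) * 2 ^ E := by
    intro Λ hΛ
    rw [hV, Finset.mem_filter, Finset.mem_powerset] at hΛ
    have h1 : (bad Λ).card ≤ 2 ^ (12 * E) * ((bad Λ).image (fun A => A ∩ Λ)).card := by
      refine Finset.card_le_mul_card_image _ _ (fun b hb => ?_)
      rw [Finset.mem_image] at hb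
      obtain ⟨A0, hA0, rfl⟩ := hb
      refine le_trans ?_ hVc
      refine Finset.card_le_card_of_injOn (fun A => symmDiff A0 A) ?_ ?_
      · intro A hA
        rw [Finset.mem_coe, Finset.mem_filter] at hA
        rw [hbad, Finset.mem_filter] at hA0 hA
        have hs : symmDiff A0 A ⊆ R := by
          have a0 := Finset.mem_powerset.mp (hU hA0.1)
          have a1 := Finset.mem_powerset.mp (hU hA.1.1)
          intro y hy
          rw [Finset.mem_symmDiff] at hy
          rcases hy with h | h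
          · exact a0 h.1
          · exact a1 h.1
        rw [Finset.mem_coe, hV, Finset.mem_filter, Finset.mem_powerset]
        exact ⟨hs, hA0.2 A hA.1.1 hA.2.symm⟩
      · intro A _ A' _ h
        exact symmDiff_right_injective A0 h
    have h2 : ((bad Λ).image (fun A => A ∩ Λ)).card ≤ 2 ^ E := by
      have : (bad Λ).image (fun A => A ∩ Λ) ⊆ Λ.powerset := by
        intro b hb
        rw [Finset.mem_image] at hb
        obtain ⟨A0, _, rfl⟩ := hb
        rw [Finset.mem_powerset]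
        exact Finset.inter_subset_right
      calc _ ≤ Λ.powerset.card := Finset.card_le_card this
        _ = 2 ^ Λ.card := Finset.card_powerset _
        _ ≤ 2 ^ E := Nat.pow_le_pow_right (by norm_num) hΛ.2
    exact h1.trans (Nat.mul_le_mul_left _ h2)
  have hUb : U.card ≤ 2 ^ (12 * E) * (2 ^ (12 * E) * 2 ^ E) :=
    calc U.card ≤ (V.biUnion bad).card := Finset.card_le_card hcover
      _ ≤ V.card * (2 ^ (12 * E) * 2 ^ E) := Finset.card_biUnion_le_card_mul _ _ _ hbc
      _ ≤ _ := Nat.mul_le_mul_right _ hVc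
  have h3 : 2 ^ (64 * E) ≤ 2 * (2 ^ (12 * E) * (2 ^ (12 * E) * 2 ^ E)) := by omega
  have h4 : 2 * (2 ^ (12 * E) * (2 ^ (12 * E) * 2 ^ E)) = 2 ^ (25 * E + 1) := by ring
  rw [h4] at h3
  have h5 := (Nat.pow_le_pow_iff_right (by norm_num : 1 < 2)).mp h3
  omega

end counting

variable {ι : Type*} [Fintype ι] [DecidableEq ι]

/-- trigonometric polynomial with real coefficients `c` on `R` -/
noncomputable def poly (R : Finset (ι → ℤ)) (c : (ι → ℤ) → ℝ) : C(UnitAddTorus ι, ℂ) :=
  ∑ k ∈ R, (c k : ℂ) • mFourier k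

omit [DecidableEq ι] in
theorem poly_apply (R : Finset (ι → ℤ)) (c : (ι → ℤ) → ℝ) (x : UnitAddTorus ι) :
    poly R c x = ∑ k ∈ R, (c k : ℂ) * mFourier k x := by
  simp [poly, ContinuousMap.coe_sum, Finset.sum_apply]

omit [DecidableEq ι] in
theorem poly_sub (R : Finset (ι → ℤ)) (c c' : (ι → ℤ) → ℝ) :
    poly R (fun k => c k - c' k) = poly R c - poly R c' := by
  ext x
  simp only [poly_apply, ContinuousMap.sub_apply]
  rw [← Finset.sum_sub_distrib]
  refine Finset.sum_congr rfl (fun k _ => ?_)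
  push_cast
  ring

theorem RB (ι : Type*) [Fintype ι] [DecidableEq ι] (l : ℕ) : ∃ C : ℝ, 0 < C ∧
    ∀ (R : Finset (ι → ℤ)) (E : ℕ), 1 ≤ E → R.card = 64 * E →
    ∃ ε : (ι → ℤ) → ℝ, (∀ k, ε k = 1 ∨ ε k = -1) ∧
      ∀ Λ : Finset (ι → ℤ), (R ∩ Λ).card ≤ E → ∃ c : (ι → ℤ) → ℝ, (∀ k ∈ Λ, c k = 0) ∧
        (∫ x, ‖poly R c x‖ ^ (2 * l + 2) ∂(mu ι) ≤ C * (R.card : ℝ) ^ (l + 1)) ∧
        2 * (E : ℝ) ≤ ∑ k ∈ R, ε k * c k := by
  classical
  set C1 : ℝ := 2 ^ (2 * (l + 1)) * 2 * ((2 * (l + 1)).factorial * (2 * Real.exp (1 / 2)))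
    with hC1
  have hC1p : 0 < C1 := by positivity
  refine ⟨2 ^ (2 * l + 2) * (4 * C1), by positivity, ?_⟩
  intro R E hE hR
  have hRpos : 0 < R.card := by omega
  set F : Finset (ι → ℤ) → ℝ := fun A => ∫ x, ‖poly R (sgn A) x‖ ^ (2 * l + 2) ∂(mu ι) with hF
  have hF0 : ∀ A, 0 ≤ F A := fun A => integral_nonneg (fun x => by positivity)
  set T : ℝ := C1 * (R.card : ℝ) ^ (l + 1) with hT
  have hTp : 0 < T := by positivity
  have hsum : ∑ A ∈ R.powerset, F A ≤ 2 ^ R.card * T := by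
    rw [hF]
    simp only
    rw [← integral_finsetSum]
    · calc ∫ x, ∑ A ∈ R.powerset, ‖poly R (sgn A) x‖ ^ (2 * l + 2) ∂(mu ι)
          ≤ ∫ _, 2 ^ R.card * T ∂(mu ι) := by
            apply integral_mono (cint (by fun_prop)) (integrable_const _)
            intro x
            have h := khin_complex (l + 1) R hRpos (fun k => mFourier k x)
              (fun k _ => (norm_e k x).le)
            simp only [poly_apply]
            rw [show 2 * l + 2 = 2 * (l + 1) by ring]
            refine h.trans (le_of_eq ?_)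
            rw [hT, hC1]
            ring
        _ = 2 ^ R.card * T := by simp
    · intro A _
      exact cint (by fun_prop)
  set U := R.powerset.filter (fun A => F A ≤ 2 * T) with hUdef
  have hUc : 2 ^ (64 * E) ≤ 2 * U.card := by
    have h1 : (R.powerset.filter (fun A => ¬ F A ≤ 2 * T)).card * (2 * T) ≤ 2 ^ R.card * T := by
      calc (R.powerset.filter (fun A => ¬ F A ≤ 2 * T)).card * (2 * T)
          = ∑ A ∈ R.powerset.filter (fun A => ¬ F A ≤ 2 * T), 2 * T := by
            rw [Finset.sum_const, nsmul_eq_mul]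
        _ ≤ ∑ A ∈ R.powerset.filter (fun A => ¬ F A ≤ 2 * T), F A := by
            refine Finset.sum_le_sum (fun A hA => ?_)
            rw [Finset.mem_filter] at hA
            exact (not_le.mp hA.2).le
        _ ≤ ∑ A ∈ R.powerset, F A :=
            Finset.sum_le_sum_of_subset_of_nonneg (Finset.filter_subset _ _)
              (fun A _ _ => hF0 A)
        _ ≤ _ := hsum
    have h2 : ((R.powerset.filter (fun A => ¬ F A ≤ 2 * T)).card : ℝ) * 2 ≤ 2 ^ R.card := by
      have : ((R.powerset.filter (fun A => ¬ F A ≤ 2 * T)).card * 2 : ℝ) * T ≤ 2 ^ R.card * T := by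
        linarith
      exact le_of_mul_le_mul_right this hTp
    have h3 : (R.powerset.filter (fun A => ¬ F A ≤ 2 * T)).card * 2 ≤ 2 ^ R.card := by
      exact_mod_cast h2
    have h4 := Finset.card_filter_add_card_filter_not (s := R.powerset) (fun A => F A ≤ 2 * T)
    rw [Finset.card_powerset, hR] at h4
    rw [hR] at h3
    have h5 : U.card = (R.powerset.filter (fun A => F A ≤ 2 * T)).card := rfl
    omega
  obtain ⟨A, hA, hrob⟩ := robust_core R E hE hR U (Finset.filter_subset _ _) hUc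
  refine ⟨sgn A, sgn_cases A, ?_⟩
  intro Λ hΛ
  obtain ⟨A', hA', heq, hcard⟩ := hrob (R ∩ Λ) Finset.inter_subset_left hΛ
  rw [hUdef, Finset.mem_filter, Finset.mem_powerset] at hA hA'
  refine ⟨fun k => sgn A k - sgn A' k, ?_, ?_, ?_⟩
  · intro k hk
    have : k ∈ A ↔ k ∈ A' := by
      by_cases hkR : k ∈ R
      · have h1 : k ∈ A ∩ (R ∩ Λ) ↔ k ∈ A' ∩ (R ∩ Λ) := by rw [heq]
        simp only [Finset.mem_inter, hkR, hk, and_true] at h1
        exact h1
      · constructor
        · intro h; exact absurd (hA.1 h) hkR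
        · intro h; exact absurd (hA'.1 h) hkR
    unfold sgn
    simp [this]
  · rw [poly_sub]
    have c1 : Integrable (fun x => ‖poly R (sgn A) x‖ ^ (2 * l + 2)) (mu ι) := cint (by fun_prop)
    have c2 : Integrable (fun x => ‖poly R (sgn A') x‖ ^ (2 * l + 2)) (mu ι) := cint (by fun_prop)
    calc ∫ x, ‖(poly R (sgn A) - poly R (sgn A')) x‖ ^ (2 * l + 2) ∂(mu ι)
        ≤ ∫ x, 2 ^ (2 * l + 2) * (‖poly R (sgn A) x‖ ^ (2 * l + 2)
          + ‖poly R (sgn A') x‖ ^ (2 * l + 2)) ∂(mu ι) := by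
          apply integral_mono (cint (by fun_prop)) ((c1.add c2).const_mul _)
          intro x
          have h1 : ‖(poly R (sgn A) - poly R (sgn A')) x‖
              ≤ ‖poly R (sgn A) x‖ + ‖poly R (sgn A') x‖ := norm_sub_le _ _
          have h2 := add_pow_le (norm_nonneg (poly R (sgn A) x))
            (norm_nonneg (poly R (sgn A') x)) (2 * l + 2)
          have h3 : (2 : ℝ) ^ (2 * l + 2 - 1) ≤ 2 ^ (2 * l + 2) :=
            pow_le_pow_right₀ (by norm_num) (by omega)
          calc _ ≤ (‖poly R (sgn A) x‖ + ‖poly R (sgn A') x‖) ^ (2 * l + 2) :=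
                pow_le_pow_left₀ (norm_nonneg _) h1 _
            _ ≤ 2 ^ (2 * l + 2 - 1) * (‖poly R (sgn A) x‖ ^ (2 * l + 2)
              + ‖poly R (sgn A') x‖ ^ (2 * l + 2)) := h2
            _ ≤ _ := mul_le_mul_of_nonneg_right h3 (by positivity)
      _ = 2 ^ (2 * l + 2) * (F A + F A') := by
          rw [integral_const_mul, integral_add c1 c2]
      _ ≤ 2 ^ (2 * l + 2) * (2 * T + 2 * T) := by
          gcongr
          · exact hA.2
          · exact hA'.2
      _ = _ := by rw [hT]; ring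
  · have hs : symmDiff A A' ⊆ R := by
      intro y hy
      rw [Finset.mem_symmDiff] at hy
      rcases hy with h | h
      · exact hA.1 h.1
      · exact hA'.1 h.1
    have h1 : ∑ k ∈ R, sgn A k * (sgn A k - sgn A' k)
        = ∑ k ∈ R, (if k ∈ symmDiff A A' then (2 : ℝ) else 0) := by
      refine Finset.sum_congr rfl (fun k _ => ?_)
      unfold sgn
      by_cases h1 : k ∈ A <;> by_cases h2 : k ∈ A' <;>
        simp [h1, h2, Finset.mem_symmDiff] <;> norm_num
    rw [h1, ← Finset.sum_filter, Finset.sum_const, nsmul_eq_mul,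
      Finset.filter_mem_eq_inter, Finset.inter_eq_right.mpr hs]
    have : (E : ℝ) ≤ (symmDiff A A').card := by exact_mod_cast hcard.le
    linarith

end Run7.h481
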