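import Mathlib

/-!
The setting of problem MP_c90581_an, written out literally: functions on `[0, 2π)^d` with
normalised Lebesgue measure, the dyadic blocks, the Nikol'skii and Besov classes of mixed
smoothness and the best `m`-term trigonometric approximation.
-/

namespace Run7.h481.Setting

open MeasureTheory

open scoped ENNReal

/-- Normalised Lebesgue measure on `[0, 2π)^d`. -/
noncomputable def torus (d : ℕ) : Measure (Fin d → ℝ) :=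
  (ENNReal.ofReal ((2 * Real.pi) ^ d))⁻¹ •
    (volume : Measure (Fin d → ℝ)).restrict (Set.univ.pi fun _ => Set.Ico 0 (2 * Real.pi))

/-- The character `x ↦ exp (i (k, x))`. -/
noncomputable def ch {d : ℕ} (k : Fin d → ℤ) (x : Fin d → ℝ) : ℂ :=
  Complex.exp (Complex.I * ∑ j, (k j : ℂ) * (x j : ℂ))

/-- The Fourier coefficient `∫ f(x) exp (-i (k, x))` with respect to the normalised measure. -/
noncomputable def fcoef {d : ℕ} (f : (Fin d → ℝ) → ℂ) (k : Fin d → ℤ) : ℂ :=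
  ∫ x, f x * ch (-k) x ∂(torus d)

/-- The set `ρ(s)` of frequencies `k` with `⌊2^{s_j-1}⌋ ≤ |k_j| < 2^{s_j}` for all `j`. -/
def rho {d : ℕ} (s : Fin d → ℕ) : Set (Fin d → ℤ) :=
  {k | ∀ j, ⌊(2 : ℝ) ^ ((s j : ℝ) - 1)⌋ ≤ |k j| ∧ |k j| < 2 ^ s j}

/-- The dyadic block `δ_s(f)` (the set `ρ(s)` is finite, see `rho_finite`). -/
noncomputable def block {d : ℕ} (s : Fin d → ℕ) (f : (Fin d → ℝ) → ℂ) (x : Fin d → ℝ) : ℂ :=
  ∑ᶠ k ∈ rho s, fcoef f k * ch k x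

/-- The norm of `L_p([0, 2π)^d)` for the normalised measure, with values in `[0, ∞]`. -/
noncomputable def nrm {d : ℕ} (p : ℝ) (f : (Fin d → ℝ) → ℂ) : ℝ≥0∞ :=
  eLpNorm f (ENNReal.ofReal p) (torus d)

/-- The Nikol'skii norm `sup_s 2^{r |s|_1} ‖δ_s(f)‖_q`. -/
noncomputable def normH {d : ℕ} (r q : ℝ) (f : (Fin d → ℝ) → ℂ) : ℝ≥0∞ :=
  ⨆ s : Fin d → ℕ, ENNReal.ofReal ((2 : ℝ) ^ (r * ∑ j, (s j : ℝ))) * nrm q (block s f)

/-- The Besov norm `(∑_s 2^{r θ |s|_1} ‖δ_s(f)‖_q^θ)^{1/θ}`. -/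
noncomputable def normB {d : ℕ} (r q θ : ℝ) (f : (Fin d → ℝ) → ℂ) : ℝ≥0∞ :=
  (∑' s : Fin d → ℕ,
    ENNReal.ofReal ((2 : ℝ) ^ (r * θ * ∑ j, (s j : ℝ))) * (nrm q (block s f)) ^ θ) ^ (1 / θ)

/-- The class `H^r_q`: the functions in `L_q` whose Nikol'skii norm is at most one. -/
def classH (d : ℕ) (r q : ℝ) : Set ((Fin d → ℝ) → ℂ) :=
  {f | MemLp f (ENNReal.ofReal q) (torus d) ∧ normH r q f ≤ 1}

/-- The class `B^r_{q,θ}`: the functions in `L_q` whose Besov norm is at most one. -/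
def classB (d : ℕ) (r q θ : ℝ) : Set ((Fin d → ℝ) → ℂ) :=
  {f | MemLp f (ENNReal.ofReal q) (torus d) ∧ normB r q θ f ≤ 1}

/-- The best `m`-term trigonometric approximation `σ_m(f)_p`. -/
noncomputable def sigma {d : ℕ} (m : ℕ) (p : ℝ) (f : (Fin d → ℝ) → ℂ) : ℝ≥0∞ :=
  ⨅ (k : Fin m → Fin d → ℤ) (c : Fin m → ℂ), nrm p (fun x => f x - ∑ j, c j * ch (k j) x)

/-- `σ_m(F)_p = sup_{f ∈ F} σ_m(f)_p`. -/
noncomputable def sigmaClass {d : ℕ} (m : ℕ) (p : ℝ) (F : Set ((Fin d → ℝ) → ℂ)) : ℝ≥0∞ :=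
  ⨆ f ∈ F, sigma m p f

end Run7.h481.Setting
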