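import Pool.Agent.Run7.h481.Level2

namespace Run7.h481

open MeasureTheory UnitAddTorus ENNReal

/-- the box of the single block -/
noncomputable def R1 (e n : ℕ) : Finset (Fin (e + 1) → ℤ) :=
  Fintype.piFinset (Fin.cons (Finset.Ico 0 (2 ^ (n - 1))) (fun _ => {0}))

/-- the shift of the single block -/
def v1 (e n : ℕ) : Fin (e + 1) → ℤ := Fin.cons (2 ^ (n - 1)) (fun _ => 0)

/-- the index of the single block -/
def s1 (e n : ℕ) : Fin (e + 1) → ℕ := Fin.cons n (fun _ => 0)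

theorem mem_R1 {e n : ℕ} (k : Fin (e + 1) → ℤ) : k ∈ R1 e n ↔
    (0 ≤ k 0 ∧ k 0 < 2 ^ (n - 1)) ∧ ∀ i : Fin e, k i.succ = 0 := by
  unfold R1
  rw [Fintype.mem_piFinset, Fin.forall_fin_succ]
  simp only [Fin.cons_zero, Fin.cons_succ, Finset.mem_Ico, Finset.mem_singleton]

theorem card_R1 {e n : ℕ} : (R1 e n).card = 2 ^ (n - 1) := by
  unfold R1
  rw [Fintype.card_piFinset, Fin.prod_univ_succ]
  simp only [Fin.cons_zero, Fin.cons_succ, Int.card_Ico, sub_zero, Finset.card_singleton,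
    Finset.prod_const_one, mul_one]
  have : ((2 : ℤ) ^ (n - 1)) = ((2 ^ (n - 1) : ℕ) : ℤ) := by push_cast; rfl
  rw [this, Int.toNat_natCast]

theorem v1_mem {e n : ℕ} (hn : 1 ≤ n) {k : Fin (e + 1) → ℤ} (hk : k ∈ R1 e n) :
    v1 e n + k ∈ rho (s1 e n) := by
  rw [mem_R1] at hk
  rw [mem_rho, Fin.forall_fin_succ]
  constructor
  · simp only [s1, Fin.cons_zero, Pi.add_apply, v1]
    rw [half_pow_nat _ hn]
    have hp : (0 : ℤ) < 2 ^ (n - 1) := by positivity
    have e1 : (2 : ℤ) ^ n = 2 * 2 ^ (n - 1) := by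
      rw [← pow_succ']
      congr 1
      omega
    rw [e1, abs_of_nonneg (by linarith [hk.1.1])]
    constructor <;> linarith [hk.1.1, hk.1.2]
  · intro i
    simp only [s1, Fin.cons_succ, Pi.add_apply, v1, hk.2 i]
    simp

theorem sum_s1 {e n : ℕ} : ∑ i, (s1 e n i : ℝ) = n := by
  rw [Fin.sum_univ_succ]
  simp [s1]

theorem single_B (e : ℕ) {p q : ℝ} (r : ℝ) (hp : 1 < p) (hq2 : q ≤ 2) {θ : ℝ}
    (hθ : 0 < θ) : ∃ c : ℝ, 0 < c ∧ ∀ n : ℕ, 7 ≤ n → ∀ m : ℕ, m ≤ 2 ^ (n - 7) →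
      ENNReal.ofReal (c * (2 : ℝ) ^ (-(r * n))) ≤ sigC m p (BC (e + 1) r q θ) := by
  classical
  obtain ⟨l, hl2⟩ : ∃ l : ℕ, p / (p - 1) ≤ 2 * l + 2 := by
    obtain ⟨l0, hl0⟩ := exists_nat_ge (p / (p - 1))
    refine ⟨l0, ?_⟩
    have : (0 : ℝ) ≤ l0 := by positivity
    linarith
  obtain ⟨C1, hC1, hRB⟩ := RB (Fin (e + 1)) l
  set C3 : ℝ := C1 ^ ((1 : ℝ) / (2 * l + 2)) with hC3
  have hC3p : 0 < C3 := by positivity
  refine ⟨(32 * C3)⁻¹, by positivity, ?_⟩
  intro n hn m hm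
  set E : ℕ := 2 ^ (n - 7) with hE
  have hE1 : 1 ≤ E := Nat.one_le_two_pow
  have hcard : (R1 e n).card = 64 * E := by
    rw [card_R1, hE, show (64 : ℕ) = 2 ^ 6 by norm_num, ← pow_add]
    congr 1
    omega
  obtain ⟨ε, hε, hrob⟩ := hRB (R1 e n) E hE1 hcard
  set D : ℝ := ((64 * E : ℕ) : ℝ) with hD
  have hD0 : 0 < D := by rw [hD]; positivity
  have hsD : 0 < Real.sqrt D := Real.sqrt_pos.mpr hD0
  set F : C(UnitAddTorus (Fin (e + 1)), ℂ) := mFourier (v1 e n) * poly (R1 e n) ε with hF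
  -- L2 norm of F
  have hF2 : eLpNorm F 2 (mu (Fin (e + 1))) = ENNReal.ofReal (Real.sqrt D) := by
    rw [eLpNorm_two]
    congr 2
    have h1 : ∀ x, ‖F x‖ ^ 2 = ‖(∑ k ∈ R1 e n, (ε k : ℂ) • mFourier k :
        C(UnitAddTorus (Fin (e + 1)), ℂ)) x‖ ^ 2 := by
      intro x
      rw [hF, ContinuousMap.mul_apply, norm_mul, norm_e, one_mul]
      rfl
    simp_rw [h1]
    have h2 := l2_inj (R1 e n) (fun k => k) (fun a _ b _ h => h) ε
    refine h2.trans ?_
    have e2 : ∀ y ∈ R1 e n, ε y ^ 2 = 1 := by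
      intro y _
      rcases hε y with h | h <;> rw [h] <;> norm_num
    rw [Finset.sum_congr rfl e2, Finset.sum_const, nsmul_eq_mul, mul_one, hcard]
  have hFq : eLpNorm F (ENNReal.ofReal q) (mu (Fin (e + 1))) ≤ ENNReal.ofReal (Real.sqrt D) := by
    rw [← hF2]
    refine eLpNorm_le_eLpNorm_of_exponent_le ?_ (memLp_cont F 1).1
    calc ENNReal.ofReal q ≤ ENNReal.ofReal 2 := ENNReal.ofReal_le_ofReal hq2
      _ = 2 := by norm_num
  -- lower bound for F
  have hlow : ∀ (K : Fin m → Fin (e + 1) → ℤ) (a : Fin m → ℂ),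
      ENNReal.ofReal ((32 * C3)⁻¹ * Real.sqrt D) ≤ eLpNorm (F - ∑ i, a i • mFourier (K i) :
          C(UnitAddTorus (Fin (e + 1)), ℂ)) (ENNReal.ofReal p) (mu (Fin (e + 1))) := by
    intro K a
    set Λ : Finset (Fin (e + 1) → ℤ) := Finset.univ.image (fun i => K i - v1 e n) with hΛ
    have hΛc : (R1 e n ∩ Λ).card ≤ E := by
      refine (Finset.card_le_card Finset.inter_subset_right).trans ?_
      refine (Finset.card_image_le).trans ?_
      rw [Finset.card_univ, Fintype.card_fin]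
      exact hm
    obtain ⟨c, hc1, hc2, hc3⟩ := hrob Λ hΛc
    rw [hcard, ← hD] at hc2
    set h : C(UnitAddTorus (Fin (e + 1)), ℂ) := mFourier (v1 e n) * poly (R1 e n) c with hh
    have hhn : ∫ x, ‖h x‖ ^ (2 * l + 2) ∂(mu (Fin (e + 1))) ≤ C1 * D ^ (l + 1) := by
      refine le_trans (le_of_eq ?_) hc2
      congr 1
      ext x
      rw [hh, ContinuousMap.mul_apply, norm_mul, norm_e, one_mul]
    have hroot : (∫ x, ‖h x‖ ^ (2 * l + 2) ∂(mu (Fin (e + 1)))) ^ ((1 : ℝ) / (2 * l + 2))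
        ≤ C3 * Real.sqrt D := by
      have hnn : 0 ≤ ∫ x, ‖h x‖ ^ (2 * l + 2) ∂(mu (Fin (e + 1))) :=
        integral_nonneg (fun x => by positivity)
      calc (∫ x, ‖h x‖ ^ (2 * l + 2) ∂(mu (Fin (e + 1)))) ^ ((1 : ℝ) / (2 * l + 2))
          ≤ (C1 * D ^ (l + 1)) ^ ((1 : ℝ) / (2 * l + 2)) :=
            Real.rpow_le_rpow hnn hhn (by positivity)
        _ = (C1 * (Real.sqrt D) ^ (2 * l + 2)) ^ ((1 : ℝ) / (2 * l + 2)) := by
            congr 1
            rw [show 2 * l + 2 = 2 * (l + 1) by ring, pow_mul, Real.sq_sqrt hD0.le]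
        _ = _ := by
            rw [Real.mul_rpow (by positivity) (by positivity), ← hC3]
            have h2 : (1 : ℝ) / (2 * l + 2) = ((2 * l + 2 : ℕ) : ℝ)⁻¹ := by
              push_cast
              rw [one_div]
            rw [h2, Real.pow_rpow_inv_natCast (by positivity) (by omega)]
    have horth : ip (∑ i, a i • mFourier (K i)) h = 0 := by
      rw [ip_sum_left]
      refine Finset.sum_eq_zero (fun i _ => ?_)
      rw [ip_smul_left, hh]
      unfold poly
      rw [Finset.mul_sum, ip_sum_right, Finset.sum_eq_zero, mul_zero]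
      intro k hk
      rw [mul_smul_comm, e_mul, ip_smul_right, ip_e]
      split_ifs with heq
      · rw [hc1 k]
        · simp
        · rw [hΛ, Finset.mem_image]
          refine ⟨i, Finset.mem_univ _, ?_⟩
          rw [heq]
          simp
      · simp
    have hipF : ip F h = ((∑ k ∈ R1 e n, ε k * c k : ℝ) : ℂ) := ip_poly_same _ _ _ _
    have hip : ip (F - ∑ i, a i • mFourier (K i)) h = ((∑ k ∈ R1 e n, ε k * c k : ℝ) : ℂ) := by
      rw [ip_sub_left, horth, sub_zero, hipF]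
    have hdual := dual_bound (F - ∑ i, a i • mFourier (K i)) h hp l hl2
    rw [hip, Complex.norm_real, Real.norm_of_nonneg (le_trans (by positivity) hc3)] at hdual
    set N := eLpNorm (F - ∑ i, a i • mFourier (K i) :
        C(UnitAddTorus (Fin (e + 1)), ℂ)) (ENNReal.ofReal p) (mu (Fin (e + 1))) with hN
    have h1 : ENNReal.ofReal (2 * (E : ℝ)) ≤ N * ENNReal.ofReal (C3 * Real.sqrt D) :=
      (ENNReal.ofReal_le_ofReal hc3).trans (hdual.trans (by gcongr))
    have hpos : 0 < C3 * Real.sqrt D := by positivity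
    rw [← ENNReal.div_le_iff (by simpa using hpos) ENNReal.ofReal_ne_top,
      ← ENNReal.ofReal_div_of_pos hpos] at h1
    refine le_trans (ENNReal.ofReal_le_ofReal (le_of_eq ?_)) h1
    have hDE : D = 64 * E := by rw [hD]; push_cast; ring
    have hDs : Real.sqrt D * Real.sqrt D = 64 * E := by rw [Real.mul_self_sqrt hD0.le, hDE]
    rw [eq_div_iff hpos.ne']
    calc (32 * C3)⁻¹ * Real.sqrt D * (C3 * Real.sqrt D)
        = (32 * C3)⁻¹ * C3 * (Real.sqrt D * Real.sqrt D) := by ring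
      _ = _ := by
          rw [hDs]
          field_simp
          norm_num
  set A : ℝ := (2 : ℝ) ^ (r * n) * Real.sqrt D with hA
  have hA0 : 0 < A := by positivity
  have h1 := sig_scale m p hA0 F hlow
  have e1 : ENNReal.ofReal ((32 * C3)⁻¹ * (2 : ℝ) ^ (-(r * n)))
      = ENNReal.ofReal A⁻¹ * ENNReal.ofReal ((32 * C3)⁻¹ * Real.sqrt D) := by
    rw [← ENNReal.ofReal_mul (by positivity)]
    congr 1
    rw [hA, Real.rpow_neg (by norm_num)]
    have h2r : (2 : ℝ) ^ (r * n) ≠ 0 := by positivity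
    field_simp
  rw [e1]
  refine h1.trans ?_
  unfold sigC
  have hmem := family_BC (d := e + 1) (J := Unit) (fun _ => ((A⁻¹ : ℝ) : ℂ) • F)
    (fun _ => s1 e n) (fun a b _ => rfl) (fun _ => by
      refine Submodule.smul_mem _ _ ?_
      rw [hF]
      unfold poly
      rw [Finset.mul_sum]
      refine Submodule.sum_mem _ (fun k hk => ?_)
      rw [mul_smul_comm, e_mul]
      exact Submodule.smul_mem _ _ (e_mem (v1_mem (by omega) hk))) (r := r) (q := q) hθ 1
    (fun _ => by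
      rw [sum_s1]
      have e3 : (⇑(((A⁻¹ : ℝ) : ℂ) • F : C(UnitAddTorus (Fin (e + 1)), ℂ)) :
          UnitAddTorus (Fin (e + 1)) → ℂ) = ((A⁻¹ : ℝ) : ℂ) • ⇑F := rfl
      have e2 : ‖(((A⁻¹ : ℝ) : ℂ))‖ₑ = ENNReal.ofReal A⁻¹ := by
        rw [← ofReal_norm, Complex.norm_real, Real.norm_of_nonneg (by positivity)]
      rw [e3, eLpNorm_const_smul, e2]
      calc ENNReal.ofReal ((2 : ℝ) ^ (r * n)) * (ENNReal.ofReal A⁻¹ *
            eLpNorm F (ENNReal.ofReal q) (mu (Fin (e + 1))))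
          ≤ ENNReal.ofReal ((2 : ℝ) ^ (r * n)) * (ENNReal.ofReal A⁻¹ *
            ENNReal.ofReal (Real.sqrt D)) := by gcongr
        _ = 1 := by
            rw [← ENNReal.ofReal_mul (by positivity), ← ENNReal.ofReal_mul (by positivity)]
            rw [← ENNReal.ofReal_one]
            congr 1
            rw [hA]
            field_simp)
    (by simp)
  have e4 : (∑ _j : Unit, ((A⁻¹ : ℝ) : ℂ) • F) = ((A⁻¹ : ℝ) : ℂ) • F := by simp
  rw [e4] at hmem
  exact le_iSup₂_of_le _ hmem le_rfl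

end Run7.h481
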