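import Mathlib

/-!
# The superadditive (Kingman) ergodic theorem for bounded sequences

`superadditive_converges`: if `T` preserves the probability `P` and the measurable functions
`X n` satisfy `|X n| <= C n` and `X m + X n o T^m <= X (m+n)`, then `X n / n` converges almost
surely. No ergodicity is assumed. The proof is the covering argument of Katznelson and Weiss.
-/

namespace Pool.Agent.Run7.h481.SuperadditiveErgodic

open MeasureTheory Filter Topology

section Superadditive

variable {Ω : Type*} [MeasurableSpace Ω] {P : Measure Ω} [IsProbabilityMeasure P]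
  {T : Ω → Ω} {X : ℕ → Ω → ℝ} {C : ℝ}

theorem div_bound (hC : 0 ≤ C) (hb : ∀ n ω, |X n ω| ≤ C * n) (n : ℕ) (ω : Ω) :
    |X n ω / n| ≤ C := by
  rcases Nat.eq_zero_or_pos n with rfl | hn
  · simp [hC]
  · have hn' : (0:ℝ) < n := by exact_mod_cast hn
    rw [abs_div, abs_of_pos hn', div_le_iff₀ hn']
    exact hb n ω

theorem bdd_le {u : ℕ → ℝ} (h : ∀ n, |u n| ≤ C) : IsBoundedUnder (· ≤ ·) atTop u :=
  isBoundedUnder_of ⟨C, fun n => (abs_le.1 (h n)).2⟩

theorem bdd_ge {u : ℕ → ℝ} (h : ∀ n, |u n| ≤ C) : IsBoundedUnder (· ≥ ·) atTop u :=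
  isBoundedUnder_of ⟨-C, fun n => (abs_le.1 (h n)).1⟩

theorem limsup_bd {u : ℕ → ℝ} (h : ∀ n, |u n| ≤ C) : |limsup u atTop| ≤ C := by
  rw [abs_le]
  constructor
  · exact le_limsup_of_frequently_le (Frequently.of_forall (fun n => (abs_le.1 (h n)).1))
      (bdd_le h)
  · exact limsup_le_of_le (bdd_ge h).isCoboundedUnder_le
      (Eventually.of_forall fun n => (abs_le.1 (h n)).2)

theorem liminf_bd {u : ℕ → ℝ} (h : ∀ n, |u n| ≤ C) : |liminf u atTop| ≤ C := by
  rw [abs_le]
  constructor
  · exact le_liminf_of_le (bdd_le h).isCoboundedUnder_ge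
      (Eventually.of_forall fun n => (abs_le.1 (h n)).1)
  · exact liminf_le_of_frequently_le (Frequently.of_forall (fun n => (abs_le.1 (h n)).2))
      (bdd_ge h)

/-- the upper growth rate does not increase along orbits -/
theorem limsup_mono (hC : 0 ≤ C) (hb : ∀ n ω, |X n ω| ≤ C * n)
    (hs : ∀ m n ω, X m ω + X n (T^[m] ω) ≤ X (m + n) ω) (ω : Ω) :
    limsup (fun n : ℕ => X n (T ω) / n) atTop ≤ limsup (fun n : ℕ => X n ω / n) atTop := by
  refine le_of_forall_pos_le_add fun ε hε => ?_
  have h1 : ∀ᶠ n : ℕ in atTop, X n ω / n < limsup (fun n : ℕ => X n ω / n) atTop + ε / 2 :=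
    eventually_lt_of_limsup_lt (by linarith) (bdd_le fun n => div_bound hC hb n ω)
  have h2 : ∀ᶠ n : ℕ in atTop, X (n + 1) ω / ((n + 1 : ℕ) : ℝ) <
      limsup (fun n : ℕ => X n ω / n) atTop + ε / 2 :=
    (tendsto_add_atTop_nat 1).eventually h1
  have h3 : Tendsto (fun n : ℕ => 2 * C / (n : ℝ)) atTop (𝓝 0) :=
    tendsto_const_div_atTop_nhds_zero_nat (2 * C)
  have h4 : ∀ᶠ n : ℕ in atTop, 2 * C / (n : ℝ) < ε / 2 :=
    h3.eventually (gt_mem_nhds (by positivity))
  refine limsup_le_of_le (bdd_ge fun n => div_bound hC hb n (T ω)).isCoboundedUnder_le ?_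
  filter_upwards [h2, h4, eventually_ge_atTop 1] with n h2 h4 hn
  have hn' : (1:ℝ) ≤ n := by exact_mod_cast hn
  have hn0 : (0:ℝ) < n := by linarith
  have hs1 := hs 1 n ω
  rw [Function.iterate_one, add_comm 1 n] at hs1
  have hb1 := (abs_le.1 (hb 1 ω)).1
  have hb2 := (abs_le.1 (hb (n + 1) ω)).2
  push_cast at hb1 hb2 h2
  have e1 : X n (T ω) ≤ X (n + 1) ω + C := by linarith
  have e2 : X n (T ω) / n ≤ X (n + 1) ω / (n + 1) + 2 * C / n := by
    rw [div_add_div _ _ (by positivity) (by positivity), div_le_div_iff₀ hn0 (by positivity)]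
    nlinarith [mul_le_mul_of_nonneg_right e1 (show (0:ℝ) ≤ (n + 1) * n by positivity),
      mul_le_mul_of_nonneg_right hb2 (show (0:ℝ) ≤ n by positivity), mul_nonneg hC hn0.le]
  linarith

open Classical in
/-- the comparison function of the covering argument -/
noncomputable def cmp (X : ℕ → Ω → ℝ) (C ε : ℝ) (L : ℕ) (ω : Ω) : ℝ :=
  limsup (fun n : ℕ => X n ω / n) atTop - ε -
    (if ∀ N ∈ Finset.Icc 1 L, X N ω < N * (limsup (fun n : ℕ => X n ω / n) atTop - ε)
      then 2 * C else 0)

theorem cover (hC : 0 ≤ C) (hb : ∀ n ω, |X n ω| ≤ C * n)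
    (hs : ∀ m n ω, X m ω + X n (T^[m] ω) ≤ X (m + n) ω) {ε : ℝ} (hε : 0 < ε) (L : ℕ) (n : ℕ) :
    ∀ ω, ∑ m ∈ Finset.range n, cmp X C ε L (T^[m] ω) ≤ X n ω + 2 * C * L := by
  have hZ : ∀ ω, |limsup (fun n : ℕ => X n ω / n) atTop| ≤ C := fun ω =>
    limsup_bd fun n => div_bound hC hb n ω
  have hmono : ∀ m ω, limsup (fun n : ℕ => X n (T^[m] ω) / n) atTop ≤
      limsup (fun n : ℕ => X n ω / n) atTop := by
    intro m
    induction m with
    | zero => intro ω; exact le_rfl
    | succ m ih =>
      intro ω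
      rw [Function.iterate_succ_apply]
      exact (ih (T ω)).trans (limsup_mono hC hb hs ω)
  have hg1 : ∀ ω, cmp X C ε L ω ≤ limsup (fun n : ℕ => X n ω / n) atTop - ε := by
    intro ω
    unfold cmp
    split_ifs <;> linarith
  induction n using Nat.strong_induction_on with
  | _ n ih =>
    intro ω
    by_cases hnL : n ≤ L
    · have h1 : ∑ m ∈ Finset.range n, cmp X C ε L (T^[m] ω) ≤ ∑ _m ∈ Finset.range n, C :=
        Finset.sum_le_sum fun m _ => by
          have := hg1 (T^[m] ω)
          have h2 := (abs_le.1 (hZ (T^[m] ω))).2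
          linarith
      rw [Finset.sum_const, Finset.card_range, nsmul_eq_mul] at h1
      have h3 := (abs_le.1 (hb n ω)).1
      have h4 : (n:ℝ) ≤ L := by exact_mod_cast hnL
      nlinarith [mul_le_mul_of_nonneg_left h4 hC]
    · push Not at hnL
      by_cases hbad : ∀ N ∈ Finset.Icc 1 L,
          X N ω < N * (limsup (fun n : ℕ => X n ω / n) atTop - ε)
      · obtain ⟨k, rfl⟩ : ∃ k, n = k + 1 := ⟨n - 1, by omega⟩
        rw [Finset.sum_range_succ']
        have h1 : cmp X C ε L ω ≤ -C := by
          unfold cmp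
          rw [if_pos hbad]
          have := (abs_le.1 (hZ ω)).2
          linarith
        have h2 := ih k (by omega) (T ω)
        have h3 := hs 1 k ω
        rw [Function.iterate_one, add_comm 1 k] at h3
        have h4 := (abs_le.1 (hb 1 ω)).1
        push_cast at h4
        simp only [Function.iterate_succ_apply, Function.iterate_zero, id] at h2 ⊢
        linarith
      · push Not at hbad
        obtain ⟨N, hN, hXN⟩ := hbad
        rw [Finset.mem_Icc] at hN
        obtain ⟨k, rfl⟩ : ∃ k, n = N + k := ⟨n - N, by omega⟩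
        rw [Finset.sum_range_add]
        have h1 : ∑ m ∈ Finset.range N, cmp X C ε L (T^[m] ω) ≤
            ∑ _m ∈ Finset.range N, (limsup (fun n : ℕ => X n ω / n) atTop - ε) :=
          Finset.sum_le_sum fun m _ => by
            have := hg1 (T^[m] ω)
            have h2 := hmono m ω
            linarith
        rw [Finset.sum_const, Finset.card_range, nsmul_eq_mul] at h1
        have h2 := ih k (by omega) (T^[N] ω)
        have h3 := hs N k ω
        have h5 : ∀ m, T^[N + m] ω = T^[m] (T^[N] ω) := fun m => by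
          rw [add_comm, Function.iterate_add_apply]
        simp only [h5]
        linarith

theorem measurable_growth (hm : ∀ n, Measurable (X n)) :
    Measurable (fun ω => limsup (fun n : ℕ => X n ω / n) atTop) :=
  Measurable.limsup fun n => (hm n).div_const _

theorem integrable_of_bd {f : Ω → ℝ} {K : ℝ} (hf : Measurable f) (h : ∀ ω, |f ω| ≤ K) :
    Integrable f P :=
  Integrable.of_bound hf.aestronglyMeasurable K (Eventually.of_forall fun ω => by
    rw [Real.norm_eq_abs]; exact h ω)

theorem integral_comp_iter (hT : MeasurePreserving T P P) {f : Ω → ℝ} (hf : Measurable f)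
    (m : ℕ) : ∫ ω, f (T^[m] ω) ∂P = ∫ ω, f ω ∂P := by
  have h := hT.iterate m
  conv_rhs => rw [← h.map_eq]
  rw [integral_map h.measurable.aemeasurable hf.aestronglyMeasurable]

/-- upper half of the superadditive ergodic theorem: the mean of the upper growth rate is at
most every linear bound of the means -/
theorem mean_limsup_le (hT : MeasurePreserving T P P) (hC : 0 ≤ C)
    (hm : ∀ n, Measurable (X n)) (hb : ∀ n ω, |X n ω| ≤ C * n)
    (hs : ∀ m n ω, X m ω + X n (T^[m] ω) ≤ X (m + n) ω) {γ : ℝ}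
    (hγ : ∀ n : ℕ, ∫ ω, X n ω ∂P ≤ γ * n) :
    ∫ ω, limsup (fun n : ℕ => X n ω / n) atTop ∂P ≤ γ := by
  set Z : Ω → ℝ := fun ω => limsup (fun n : ℕ => X n ω / n) atTop with hZdef
  have hZm : Measurable Z := measurable_growth hm
  have hZ : ∀ ω, |Z ω| ≤ C := fun ω => limsup_bd fun n => div_bound hC hb n ω
  have hZi : Integrable Z P := integrable_of_bd hZm hZ
  refine le_of_forall_pos_le_add fun ε hε => ?_
  set B : ℕ → Set Ω := fun L => ⋂ N ∈ Finset.Icc 1 L, {ω | X N ω < N * (Z ω - ε)} with hB
  have hBm : ∀ L, MeasurableSet (B L) := fun L =>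
    Finset.measurableSet_biInter _ fun N _ => measurableSet_lt (hm N) (by fun_prop)
  have hcmp : ∀ L, cmp X C ε L = fun ω => Z ω - ε - (B L).indicator (fun _ => 2 * C) ω := by
    intro L
    funext ω
    unfold cmp
    by_cases h : ω ∈ B L
    · rw [Set.indicator_of_mem h, if_pos]
      intro N hN
      have := Set.mem_iInter₂.1 h N hN
      exact this
    · rw [Set.indicator_of_notMem h, if_neg]
      intro h'
      exact h (Set.mem_iInter₂.2 fun N hN => h' N hN)
  have hcm : ∀ L, Measurable (cmp X C ε L) := by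
    intro L
    rw [hcmp]
    exact (hZm.sub_const ε).sub (measurable_const.indicator (hBm L))
  have hcint : ∀ L, ∫ ω, cmp X C ε L ω ∂P = ∫ ω, Z ω ∂P - ε - 2 * C * P.real (B L) := by
    intro L
    rw [hcmp]
    have hi : Integrable ((B L).indicator fun _ => 2 * C) P :=
      (integrable_const (2 * C)).indicator (hBm L)
    have hZe : Integrable (fun ω => Z ω - ε) P := hZi.sub (integrable_const ε)
    show ∫ ω, (Z ω - ε - (B L).indicator (fun _ => 2 * C) ω) ∂P = _
    rw [integral_sub hZe hi, integral_sub hZi (integrable_const ε),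
      integral_indicator_const _ (hBm L)]
    simp only [integral_const, probReal_univ, smul_eq_mul, one_mul]
    ring
  have key : ∀ L, ∫ ω, Z ω ∂P - ε - 2 * C * P.real (B L) ≤ γ := by
    intro L
    rw [← hcint]
    by_contra hcon
    push Not at hcon
    obtain ⟨n, hn⟩ := exists_nat_gt (2 * C * L / (∫ ω, cmp X C ε L ω ∂P - γ))
    rw [div_lt_iff₀ (by linarith)] at hn
    have hbc : ∀ ω, |cmp X C ε L ω| ≤ 3 * C + ε := by
      intro ω
      rw [hcmp]
      have h1 := abs_le.1 (hZ ω)
      have h2 : 0 ≤ (B L).indicator (fun _ => 2 * C) ω :=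
        Set.indicator_nonneg (fun _ _ => by positivity) ω
      have h3 : (B L).indicator (fun _ => 2 * C) ω ≤ 2 * C :=
        Set.indicator_le_self' (fun _ _ => by positivity) ω
      rw [abs_le]
      constructor <;> simp only <;> linarith
    have hint : ∀ m ∈ Finset.range n, Integrable (fun ω => cmp X C ε L (T^[m] ω)) P :=
      fun m _ => integrable_of_bd ((hcm L).comp (hT.iterate m).measurable) fun ω => hbc _
    have h1 : ∫ ω, ∑ m ∈ Finset.range n, cmp X C ε L (T^[m] ω) ∂P ≤
        ∫ ω, (X n ω + 2 * C * L) ∂P := by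
      refine integral_mono ?_ ?_ fun ω => cover hC hb hs hε L n ω
      · exact integrable_finsetSum _ hint
      · exact (integrable_of_bd (hm n) (hb n)).add (integrable_const _)
    rw [integral_finsetSum _ hint] at h1
    simp only [integral_comp_iter hT (hcm L)] at h1
    rw [Finset.sum_const, Finset.card_range, nsmul_eq_mul,
      integral_add (integrable_of_bd (hm n) (hb n)) (integrable_const _)] at h1
    simp only [integral_const, probReal_univ, smul_eq_mul, one_mul] at h1
    have h2 := hγ n
    nlinarith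
  have hBanti : Antitone B := by
    intro L L' h ω hω
    rw [hB] at hω ⊢
    simp only [Set.mem_iInter] at hω ⊢
    intro N hN
    exact hω N (Finset.Icc_subset_Icc_right h hN)
  have hBempty : ⋂ L, B L = ∅ := by
    rw [Set.eq_empty_iff_forall_notMem]
    intro ω hω
    have hfr : ∃ᶠ n : ℕ in atTop, Z ω - ε < X n ω / n :=
      frequently_lt_of_lt_limsup (bdd_ge fun n => div_bound hC hb n ω).isCoboundedUnder_le
        (by show Z ω - ε < Z ω; linarith)
    obtain ⟨n, h1, hn⟩ := (hfr.and_eventually (eventually_ge_atTop 1)).exists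
    have h2 := Set.mem_iInter₂.1 (Set.mem_iInter.1 hω n) n (Finset.mem_Icc.2 ⟨hn, le_rfl⟩)
    have hn' : (0:ℝ) < n := by exact_mod_cast hn
    rw [lt_div_iff₀ hn'] at h1
    have h3 : X n ω < n * (Z ω - ε) := h2
    linarith
  have hlim : Tendsto (fun L => P.real (B L)) atTop (𝓝 0) := by
    have h1 := tendsto_measure_iInter_atTop (μ := P) (s := B)
      (fun L => (hBm L).nullMeasurableSet) hBanti ⟨0, measure_ne_top _ _⟩
    rw [hBempty, measure_empty] at h1
    have h2 := (ENNReal.tendsto_toReal ENNReal.zero_ne_top).comp h1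
    simpa [Measure.real, Function.comp_def] using h2
  have hlim2 : Tendsto (fun L => γ + ε + 2 * C * P.real (B L)) atTop (𝓝 (γ + ε + 2 * C * 0)) :=
    tendsto_const_nhds.add (tendsto_const_nhds.mul hlim)
  rw [mul_zero, add_zero] at hlim2
  exact ge_of_tendsto' hlim2 fun L => by linarith [key L]

/-- lower half: the mean of the lower growth rate is at least the mean of one block -/
theorem le_mean_liminf (hT : MeasurePreserving T P P) (hC : 0 ≤ C)
    (hm : ∀ n, Measurable (X n)) (hb : ∀ n ω, |X n ω| ≤ C * n)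
    (hs : ∀ m n ω, X m ω + X n (T^[m] ω) ≤ X (m + n) ω) {L : ℕ} (hL : 1 ≤ L) :
    (∫ ω, X L ω ∂P) / L ≤ ∫ ω, liminf (fun n : ℕ => X n ω / n) atTop ∂P := by
  have hL0 : (0:ℝ) < L := by exact_mod_cast hL
  -- block sums
  set S : Ω → Ω := T^[L] with hS
  set W : ℕ → Ω → ℝ := fun j ω => - ∑ i ∈ Finset.range j, X L (S^[i] ω) with hW
  have hSmp : MeasurePreserving S P P := hT.iterate L
  have hWm : ∀ n, Measurable (W n) := fun n =>
    (Finset.measurable_sum _ fun i _ => (hm L).comp (hSmp.iterate i).measurable).neg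
  have hWb : ∀ n ω, |W n ω| ≤ (C * L) * n := by
    intro n ω
    rw [hW]
    simp only [abs_neg]
    calc |∑ i ∈ Finset.range n, X L (S^[i] ω)| ≤ ∑ i ∈ Finset.range n, |X L (S^[i] ω)| :=
          Finset.abs_sum_le_sum_abs _ _
      _ ≤ ∑ _i ∈ Finset.range n, C * L := Finset.sum_le_sum fun i _ => hb L _
      _ = (C * L) * n := by rw [Finset.sum_const, Finset.card_range, nsmul_eq_mul]; ring
  have hWs : ∀ m n ω, W m ω + W n (S^[m] ω) ≤ W (m + n) ω := by
    intro m n ω
    rw [hW]
    simp only
    rw [Finset.sum_range_add]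
    have h5 : ∀ i, S^[m + i] ω = S^[i] (S^[m] ω) := fun i => by
      rw [add_comm, Function.iterate_add_apply]
    simp only [h5]
    linarith
  have hWγ : ∀ n : ℕ, ∫ ω, W n ω ∂P ≤ (- ∫ ω, X L ω ∂P) * n := by
    intro n
    rw [hW]
    simp only
    have hint : ∀ i ∈ Finset.range n, Integrable (fun ω => X L (S^[i] ω)) P :=
      fun i _ => integrable_of_bd ((hm L).comp (hSmp.iterate i).measurable) fun ω => hb L _
    rw [integral_neg, integral_finsetSum _ hint]
    simp only [integral_comp_iter hSmp (hm L)]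
    rw [Finset.sum_const, Finset.card_range, nsmul_eq_mul]
    linarith
  have h1 := mean_limsup_le hSmp (by positivity) hWm hWb hWs hWγ
  -- pointwise comparison
  have hpt : ∀ ω, - limsup (fun n : ℕ => W n ω / n) atTop ≤
      L * liminf (fun n : ℕ => X n ω / n) atTop := by
    intro ω
    have hWn : ∀ n, |W n ω / n| ≤ C * L := fun n => div_bound (by positivity) hWb n ω
    have hWX : ∀ j, - W j ω ≤ X (L * j) ω := by
      intro j
      induction j with
      | zero =>
        have := (abs_le.1 (hb 0 ω)).1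
        simp [hW] at this ⊢
        exact this
      | succ j ih =>
        have h1 := hs (L * j) L ω
        have h2 : W (j + 1) ω = W j ω - X L (S^[j] ω) := by
          rw [hW]
          simp only
          rw [Finset.sum_range_succ]
          ring
        have h3 : S^[j] ω = T^[L * j] ω := by
          rw [hS, ← Function.iterate_mul]
        rw [h2, h3, Nat.mul_succ]
        linarith
    refine le_of_forall_pos_le_add fun ε hε => ?_
    set w := limsup (fun n : ℕ => W n ω / n) atTop with hw
    have h1 : ∀ᶠ j : ℕ in atTop, W j ω / j < w + ε / 2 :=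
      eventually_lt_of_limsup_lt (by linarith) (bdd_le hWn)
    have h2 : Tendsto (fun n : ℕ => n / L) atTop atTop :=
      Nat.tendsto_div_const_atTop (by omega)
    have h3 := h2.eventually h1
    have h4 : ∀ᶠ n : ℕ in atTop, (|w| + ε + 2 * C) * L / (n : ℝ) < ε / 2 / L :=
      (tendsto_const_div_atTop_nhds_zero_nat _).eventually (gt_mem_nhds (by positivity))
    have h5 : (-w - ε) / L ≤ liminf (fun n : ℕ => X n ω / n) atTop := by
      refine le_liminf_of_le (bdd_le fun n => div_bound hC hb n ω).isCoboundedUnder_ge ?_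
      filter_upwards [h3, h4, eventually_ge_atTop L] with n h3 h4 hn
      have hn0 : (0:ℝ) < n := by exact_mod_cast (lt_of_lt_of_le hL hn)
      set j := n / L with hj
      have hj1 : 1 ≤ j := (Nat.one_le_div_iff (by omega)).2 hn
      have hj0 : (0:ℝ) < j := by exact_mod_cast hj1
      obtain ⟨r, hr1, hr2⟩ : ∃ r, n = L * j + r ∧ r < L :=
        ⟨n % L, (Nat.div_add_mod n L).symm, Nat.mod_lt _ (by omega)⟩
      rw [div_lt_iff₀ hj0] at h3
      have h6 := hs (L * j) r ω
      rw [← hr1] at h6
      have h7 := (abs_le.1 (hb r (T^[L * j] ω))).1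
      have h8 := hWX j
      have hr3 : (r:ℝ) ≤ L := by exact_mod_cast hr2.le
      have hnr : (n:ℝ) = L * j + r := by exact_mod_cast hr1
      have h9 : -((w + ε / 2) * j) - C * L ≤ X n ω := by
        nlinarith [mul_le_mul_of_nonneg_left hr3 hC]
      rw [div_lt_div_iff₀ hn0 hL0] at h4
      rw [div_le_div_iff₀ hL0 hn0]
      have hr0 : (0:ℝ) ≤ r := Nat.cast_nonneg r
      have hw1 := neg_abs_le w
      have hL1 : (1:ℝ) ≤ L := by exact_mod_cast hL
      have e1 : (-((w + ε / 2) * j) - C * L) * L ≤ X n ω * L :=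
        mul_le_mul_of_nonneg_right h9 hL0.le
      have e4 : (j:ℝ) * L = n - r := by rw [hnr]; ring
      have e5 : (-((w + ε / 2) * j) - C * L) * L = -(w + ε / 2) * (n - r) - C * (L * L) := by
        rw [← e4]; ring
      have e2 : -(|w| * L) ≤ (w + ε / 2) * r := by
        have a1 : -(|w| * r) ≤ (w + ε / 2) * r := by
          nlinarith [mul_le_mul_of_nonneg_right (show -|w| ≤ w + ε / 2 by linarith) hr0]
        have a2 : |w| * r ≤ |w| * L := mul_le_mul_of_nonneg_left hr3 (abs_nonneg w)
        linarith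
      have hLL : (L:ℝ) ≤ L * L := by nlinarith
      have e3 : |w| * L ≤ |w| * (L * L) := mul_le_mul_of_nonneg_left hLL (abs_nonneg w)
      have e6 : 0 ≤ C * (L * L) := by positivity
      have e7 : 0 ≤ ε * (L * L) := by positivity
      rw [e5] at e1
      nlinarith
    rw [div_le_iff₀ hL0] at h5
    linarith
  have hYm : Measurable (fun ω => liminf (fun n : ℕ => X n ω / n) atTop) :=
    Measurable.liminf fun n => (hm n).div_const _
  have hYi : Integrable (fun ω => liminf (fun n : ℕ => X n ω / n) atTop) P :=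
    integrable_of_bd hYm fun ω => liminf_bd fun n => div_bound hC hb n ω
  have hWi : Integrable (fun ω => limsup (fun n : ℕ => W n ω / n) atTop) P :=
    integrable_of_bd (measurable_growth hWm) fun ω =>
      limsup_bd fun n => div_bound (by positivity) hWb n ω
  have h2 : ∫ ω, - limsup (fun n : ℕ => W n ω / n) atTop ∂P ≤
      ∫ ω, L * liminf (fun n : ℕ => X n ω / n) atTop ∂P :=
    integral_mono hWi.neg (hYi.const_mul L) hpt
  rw [integral_neg, integral_const_mul] at h2
  rw [div_le_iff₀ hL0]
  linarith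

/-- superadditive ergodic theorem for bounded stationary superadditive sequences (no
ergodicity assumed) -/
theorem superadditive_converges (hT : MeasurePreserving T P P) (hC : 0 ≤ C)
    (hm : ∀ n, Measurable (X n)) (hb : ∀ n ω, |X n ω| ≤ C * n)
    (hs : ∀ m n ω, X m ω + X n (T^[m] ω) ≤ X (m + n) ω) :
    ∀ᵐ ω ∂P, ∃ l : ℝ, Tendsto (fun n : ℕ => X n ω / n) atTop (𝓝 l) := by
  set Z : Ω → ℝ := fun ω => limsup (fun n : ℕ => X n ω / n) atTop with hZdef
  set Y : Ω → ℝ := fun ω => liminf (fun n : ℕ => X n ω / n) atTop with hYdef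
  have hXd : ∀ ω n, |X n ω / n| ≤ C := fun ω n => div_bound hC hb n ω
  have hZi : Integrable Z P := integrable_of_bd (measurable_growth hm) fun ω =>
    limsup_bd (hXd ω)
  have hYm : Measurable Y := Measurable.liminf fun n => (hm n).div_const _
  have hYi : Integrable Y P := integrable_of_bd hYm fun ω => liminf_bd (hXd ω)
  have hYZ : ∀ ω, Y ω ≤ Z ω := fun ω => liminf_le_limsup (bdd_le (hXd ω)) (bdd_ge (hXd ω))
  have h1 : ∫ ω, Z ω ∂P ≤ ∫ ω, Y ω ∂P := by
    refine mean_limsup_le hT hC hm hb hs fun n => ?_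
    rcases Nat.eq_zero_or_pos n with rfl | hn
    · have h0 : ∀ ω, X 0 ω = 0 := fun ω => by
        have := hb 0 ω
        simpa using this
      simp [h0]
    · have hn0 : (0:ℝ) < n := by exact_mod_cast hn
      have := le_mean_liminf (P := P) hT hC hm hb hs hn
      rwa [div_le_iff₀ hn0] at this
  have h2 : Z =ᵐ[P] Y := by
    have h3 : ∫ ω, (Z ω - Y ω) ∂P = 0 := by
      apply le_antisymm
      · rw [integral_sub hZi hYi]; linarith
      · exact integral_nonneg fun ω => by
          show 0 ≤ Z ω - Y ω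
          linarith [hYZ ω]
    have h4 := (integral_eq_zero_iff_of_nonneg (fun ω => by
          show 0 ≤ Z ω - Y ω
          linarith [hYZ ω]) (hZi.sub hYi)).1 h3
    filter_upwards [h4] with ω h
    have : Z ω - Y ω = 0 := h
    linarith
  filter_upwards [h2] with ω h
  refine ⟨Y ω, tendsto_of_liminf_eq_limsup rfl ?_ (bdd_le (hXd ω)) (bdd_ge (hXd ω))⟩
  exact h

end Superadditive

end Pool.Agent.Run7.h481.SuperadditiveErgodic
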