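import Pool.Agent.Run7.h481.Setting
import Pool.Agent.Run7.h481.Class

namespace Run7.h481

open MeasureTheory UnitAddTorus ENNReal Filter Topology

/-- one-dimensional normalised measure on `[0, 2π)` -/
noncomputable def b1 : Measure ℝ :=
  (ENNReal.ofReal (2 * Real.pi))⁻¹ • (volume : Measure ℝ).restrict (Set.Ico 0 (2 * Real.pi))

theorem tpi : (0 : ℝ) < 2 * Real.pi := by positivity

instance : IsProbabilityMeasure b1 := by
  constructor
  unfold b1
  rw [Measure.smul_apply, Measure.restrict_apply_univ, Real.volume_Ico, sub_zero, smul_eq_mul]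
  exact ENNReal.inv_mul_cancel (by rw [Ne, ENNReal.ofReal_eq_zero, not_le]; exact tpi)
    ENNReal.ofReal_ne_top

theorem torus_eq (d : ℕ) : Setting.torus d = Measure.pi (fun _ : Fin d => b1) := by
  symm
  refine Measure.pi_eq (fun s hs => ?_)
  unfold Setting.torus
  rw [volume_pi, Measure.smul_apply, Measure.restrict_apply (MeasurableSet.univ_pi hs),
    ← Set.pi_inter_distrib, Measure.pi_pi]
  have h : ∀ i : Fin d, b1 (s i) = (ENNReal.ofReal (2 * Real.pi))⁻¹
      * volume (s i ∩ Set.Ico 0 (2 * Real.pi)) := by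
    intro i
    unfold b1
    rw [Measure.smul_apply, Measure.restrict_apply (hs i), smul_eq_mul]
  simp_rw [h]
  rw [Finset.prod_mul_distrib, Finset.prod_const, Finset.card_univ, Fintype.card_fin,
    smul_eq_mul, ENNReal.ofReal_pow tpi.le, ENNReal.inv_pow]

/-- the covering map -/
noncomputable def ph (x : ℝ) : UnitAddCircle := ((x / (2 * Real.pi) : ℝ) : UnitAddCircle)

/-- the representative in `[0, 2π)` -/
noncomputable def ps (t : UnitAddCircle) : ℝ := 2 * Real.pi * (AddCircle.equivIco 1 0 t : ℝ)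

theorem ph_ps (t : UnitAddCircle) : ph (ps t) = t := by
  unfold ph ps
  rw [mul_div_cancel_left₀ _ tpi.ne']
  exact AddCircle.coe_equivIco

theorem ps_ph {x : ℝ} (hx : x ∈ Set.Ico 0 (2 * Real.pi)) : ps (ph x) = x := by
  unfold ph ps
  have h : x / (2 * Real.pi) ∈ Set.Ico (0 : ℝ) (0 + 1) := by
    refine ⟨div_nonneg hx.1 tpi.le, ?_⟩
    rw [zero_add, div_lt_one tpi]
    exact hx.2
  rw [AddCircle.equivIco_coe_eq h]
  simp only
  field_simp

theorem ph_meas : Measurable ph :=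
  (AddCircle.measurable_mk' (a := 1)).comp (measurable_id.div_const _)

theorem ps_meas : Measurable ps :=
  ((AddCircle.measurableEquivIco 1 0).measurable.subtype_val).const_mul _

theorem ph_mp : MeasurePreserving ph b1 (AddCircle.haarAddCircle (T := 1)) := by
  have h1 : MeasurePreserving ((↑) : ℝ → UnitAddCircle) (volume.restrict (Set.Ioc (0 : ℝ) (0 + 1)))
      := UnitAddCircle.measurePreserving_mk 0
  have h2 : (volume : Measure UnitAddCircle) = AddCircle.haarAddCircle := by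
    rw [AddCircle.volume_eq_smul_haarAddCircle, ENNReal.ofReal_one, one_smul]
  rw [h2, zero_add] at h1
  have h3 : MeasurePreserving (fun x : ℝ => x / (2 * Real.pi)) b1
      (volume.restrict (Set.Ioc (0 : ℝ) 1)) := by
    have hmd : Measurable (fun x : ℝ => x / (2 * Real.pi)) := measurable_id.div_const _
    refine ⟨hmd, ?_⟩
    have h4 : (volume : Measure ℝ).restrict (Set.Ioc (0 : ℝ) 1)
        = volume.restrict (Set.Ico (0 : ℝ) 1) :=
      Measure.restrict_congr_set Ico_ae_eq_Ioc.symm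
    rw [h4]
    ext s hs
    rw [Measure.map_apply hmd hs]
    unfold b1
    rw [Measure.smul_apply, Measure.restrict_apply (hmd hs),
      Measure.restrict_apply hs]
    have h5 : (fun x : ℝ => x / (2 * Real.pi)) ⁻¹' s ∩ Set.Ico 0 (2 * Real.pi)
        = (fun x : ℝ => (2 * Real.pi)⁻¹ * x) ⁻¹' (s ∩ Set.Ico 0 1) := by
      ext x
      simp only [Set.mem_inter_iff, Set.mem_preimage, Set.mem_Ico, div_eq_inv_mul]
      rw [← div_eq_inv_mul, le_div_iff₀ tpi, div_lt_one tpi, zero_mul]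
    rw [h5, Real.volume_preimage_mul_left (by positivity), smul_eq_mul, inv_inv,
      abs_of_pos tpi, ← mul_assoc, ENNReal.inv_mul_cancel (by
        rw [Ne, ENNReal.ofReal_eq_zero, not_le]; exact tpi) ENNReal.ofReal_ne_top, one_mul]
  exact h1.comp h3

theorem ps_mp : MeasurePreserving ps (AddCircle.haarAddCircle (T := 1)) b1 := by
  refine ⟨ps_meas, ?_⟩
  rw [← ph_mp.map_eq, Measure.map_map ps_meas ph_meas]
  have h : ps ∘ ph =ᵐ[b1] id := by
    unfold b1
    refine Measure.ae_smul_measure ?_ _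
    rw [ae_restrict_iff' measurableSet_Ico]
    exact Filter.Eventually.of_forall (fun x hx => ps_ph hx)
  rw [Measure.map_congr h, Measure.map_id]

variable {d : ℕ}

/-- the covering map in `d` variables -/
noncomputable def Ph2 (x : Fin d → ℝ) : UnitAddTorus (Fin d) := fun j => ph (x j)

/-- the representative in `[0, 2π)^d` -/
noncomputable def Ps2 (t : UnitAddTorus (Fin d)) : Fin d → ℝ := fun j => ps (t j)

theorem Ph2_Ps2 (t : UnitAddTorus (Fin d)) : Ph2 (Ps2 t) = t := funext fun j => ph_ps (t j)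

theorem Ph2_mp : MeasurePreserving (Ph2 (d := d)) (Setting.torus d) (mu (Fin d)) := by
  rw [torus_eq]
  exact measurePreserving_pi _ _ (fun _ => ph_mp)

theorem Ps2_mp : MeasurePreserving (Ps2 (d := d)) (mu (Fin d)) (Setting.torus d) := by
  rw [torus_eq]
  exact measurePreserving_pi _ _ (fun _ => ps_mp)

theorem Ps2_Ph2 : ∀ᵐ x ∂(Setting.torus d), Ps2 (Ph2 x) = x := by
  unfold Setting.torus
  refine Measure.ae_smul_measure ?_ _
  rw [ae_restrict_iff' (MeasurableSet.univ_pi fun _ => measurableSet_Ico)]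
  refine Filter.Eventually.of_forall (fun x hx => funext fun j => ?_)
  exact ps_ph (hx j (Set.mem_univ j))

theorem ch_eq (k : Fin d → ℤ) (x : Fin d → ℝ) : Setting.ch k x = mFourier k (Ph2 x) := by
  unfold Setting.ch
  simp only [mFourier, ContinuousMap.coe_mk, Ph2, ph]
  rw [Finset.mul_sum, Complex.exp_sum]
  refine Finset.prod_congr rfl (fun j _ => ?_)
  rw [fourier_coe_apply]
  congr 1
  push_cast
  have : (Real.pi : ℂ) ≠ 0 := by exact_mod_cast Real.pi_ne_zero
  field_simp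

theorem ch_Ps2 (k : Fin d → ℤ) (t : UnitAddTorus (Fin d)) :
    Setting.ch k (Ps2 t) = mFourier k t := by rw [ch_eq, Ph2_Ps2]

theorem fcoef_eq (f : (Fin d → ℝ) → ℂ) (hf : AEStronglyMeasurable f (Setting.torus d))
    (k : Fin d → ℤ) : Setting.fcoef f k = coef (f ∘ Ps2) k := by
  unfold Setting.fcoef coef
  rw [← Ps2_mp.map_eq, integral_map Ps2_mp.measurable.aemeasurable]
  · simp only [ch_Ps2, Function.comp_apply]
  · rw [Ps2_mp.map_eq]
    refine hf.mul ?_
    have h1 : Continuous (Setting.ch (-k)) := by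
      unfold Setting.ch
      fun_prop
    exact h1.aestronglyMeasurable

theorem rho_eq (s : Fin d → ℕ) : Setting.rho s = (rho s : Set (Fin d → ℤ)) := by
  ext k
  rw [Finset.mem_coe, mem_rho]
  unfold Setting.rho
  rw [Set.mem_ofPred_eq]
  refine forall_congr' (fun j => ?_)
  have h : ⌊(2 : ℝ) ^ ((s j : ℝ) - 1)⌋ = ((2 ^ s j / 2 : ℕ) : ℤ) := by
    rcases Nat.eq_zero_or_pos (s j) with h0 | h0
    · rw [h0]
      simp only [Nat.cast_zero, zero_sub, pow_zero]
      rw [Int.floor_eq_iff]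
      constructor
      · norm_num
      · rw [Real.rpow_neg (by norm_num), Real.rpow_one]
        norm_num
    · obtain ⟨t, ht⟩ := Nat.exists_eq_add_of_le' h0
      rw [ht, pow_succ, Nat.mul_div_cancel _ (by norm_num)]
      push_cast
      rw [add_sub_cancel_right, Real.rpow_natCast]
      have : ((2 : ℝ) ^ t) = (((2 : ℤ) ^ t : ℤ) : ℝ) := by push_cast; rfl
      rw [this, Int.floor_intCast]
  rw [h]

theorem rho_finite (s : Fin d → ℕ) : (Setting.rho s).Finite := by
  rw [rho_eq]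
  exact Finset.finite_toSet _

theorem block_eq (f : (Fin d → ℝ) → ℂ) (hf : AEStronglyMeasurable f (Setting.torus d))
    (s : Fin d → ℕ) (x : Fin d → ℝ) :
    Setting.block s f x = blk s (f ∘ Ps2) (Ph2 x) := by
  unfold Setting.block blk
  rw [rho_eq, finsum_mem_coe_finset]
  refine Finset.sum_congr rfl (fun k _ => ?_)
  rw [fcoef_eq f hf, ch_eq]

theorem blk_cont (s : Fin d → ℕ) (F : UnitAddTorus (Fin d) → ℂ) : Continuous (blk s F) := by
  unfold blk
  refine continuous_finsetSum _ (fun k _ => ?_)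
  exact continuous_const.mul (mFourier k).continuous

theorem nrm_block (q : ℝ) (f : (Fin d → ℝ) → ℂ) (hf : AEStronglyMeasurable f (Setting.torus d))
    (s : Fin d → ℕ) : Setting.nrm q (Setting.block s f)
      = eLpNorm (blk s (f ∘ Ps2)) (ENNReal.ofReal q) (mu (Fin d)) := by
  unfold Setting.nrm
  rw [← eLpNorm_comp_measurePreserving (blk_cont s (f ∘ Ps2)).aestronglyMeasurable Ph2_mp]
  congr 1
  funext x
  exact block_eq f hf s x

theorem nrm_sub (p : ℝ) (f : (Fin d → ℝ) → ℂ) (hf : AEStronglyMeasurable f (Setting.torus d))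
    {m : ℕ} (K : Fin m → Fin d → ℤ) (c : Fin m → ℂ) :
    Setting.nrm p (fun x => f x - ∑ j, c j * Setting.ch (K j) x)
      = eLpNorm (fun t => (f ∘ Ps2) t - ∑ i, c i * mFourier (K i) t) (ENNReal.ofReal p)
        (mu (Fin d)) := by
  unfold Setting.nrm
  rw [← eLpNorm_comp_measurePreserving (p := ENNReal.ofReal p)
    (g := fun x => f x - ∑ j, c j * Setting.ch (K j) x) (f := Ps2) ?_ Ps2_mp]
  · congr 1
    funext t
    simp only [Function.comp_apply, ch_Ps2]
  · refine hf.sub ?_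
    have h1 : Continuous (fun x : Fin d → ℝ => ∑ j, c j * Setting.ch (K j) x) := by
      refine continuous_finsetSum _ (fun j _ => continuous_const.mul ?_)
      unfold Setting.ch
      fun_prop
    exact h1.aestronglyMeasurable

theorem sigma_eq (m : ℕ) (p : ℝ) (f : (Fin d → ℝ) → ℂ)
    (hf : AEStronglyMeasurable f (Setting.torus d)) :
    Setting.sigma m p f = sig m p (f ∘ Ps2) := by
  unfold Setting.sigma sig
  refine iInf_congr (fun K => iInf_congr (fun c => ?_))
  exact nrm_sub p f hf K c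

theorem memLp_comp {p : ℝ≥0∞} {f : (Fin d → ℝ) → ℂ} (hf : MemLp f p (Setting.torus d)) :
    MemLp (f ∘ Ps2) p (mu (Fin d)) := hf.comp_measurePreserving Ps2_mp

theorem normH_eq (r q : ℝ) (f : (Fin d → ℝ) → ℂ)
    (hf : AEStronglyMeasurable f (Setting.torus d)) :
    Setting.normH r q f ≤ 1 ↔ ∀ s, wt r q (f ∘ Ps2) s ≤ 1 := by
  unfold Setting.normH wt
  rw [iSup_le_iff]
  refine forall_congr' (fun s => ?_)
  rw [nrm_block q f hf]

theorem normB_eq (r q : ℝ) {θ : ℝ} (hθ : 0 < θ) (f : (Fin d → ℝ) → ℂ)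
    (hf : AEStronglyMeasurable f (Setting.torus d)) :
    Setting.normB r q θ f ≤ 1 ↔ ∑' s, (wt r q (f ∘ Ps2) s) ^ θ ≤ 1 := by
  unfold Setting.normB wt
  have h1 : (∑' s : Fin d → ℕ, ENNReal.ofReal ((2 : ℝ) ^ (r * θ * ∑ j, (s j : ℝ)))
      * (Setting.nrm q (Setting.block s f)) ^ θ)
      = ∑' s : Fin d → ℕ, (ENNReal.ofReal ((2 : ℝ) ^ (r * ∑ j, (s j : ℝ)))
        * eLpNorm (blk s (f ∘ Ps2)) (ENNReal.ofReal q) (mu (Fin d))) ^ θ := by
    refine tsum_congr (fun s => ?_)
    rw [ENNReal.mul_rpow_of_nonneg _ _ hθ.le, ENNReal.ofReal_rpow_of_nonneg (by positivity) hθ.le,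
      ← Real.rpow_mul (by norm_num), nrm_block q f hf]
    congr 3
    ring
  rw [h1]
  constructor
  · intro h
    have h2 := ENNReal.rpow_le_rpow h hθ.le
    rw [← ENNReal.rpow_mul, one_div, inv_mul_cancel₀ hθ.ne', ENNReal.rpow_one,
      ENNReal.one_rpow] at h2
    exact h2
  · intro h
    have h2 := ENNReal.rpow_le_rpow h (z := 1 / θ) (by positivity)
    rwa [ENNReal.one_rpow] at h2

theorem comp_H {r q : ℝ} {f : (Fin d → ℝ) → ℂ} (hf : f ∈ Setting.classH d r q) :
    f ∘ Ps2 ∈ HC d r q :=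
  ⟨memLp_comp hf.1, (normH_eq r q f hf.1.1).mp hf.2⟩

theorem comp_B {r q θ : ℝ} (hθ : 0 < θ) {f : (Fin d → ℝ) → ℂ}
    (hf : f ∈ Setting.classB d r q θ) : f ∘ Ps2 ∈ BC d r q θ :=
  ⟨memLp_comp hf.1, (normB_eq r q hθ f hf.1.1).mp hf.2⟩

theorem lift_comp (F : UnitAddTorus (Fin d) → ℂ) : (F ∘ Ph2) ∘ Ps2 = F := by
  funext t
  simp only [Function.comp_apply, Ph2_Ps2]

theorem lift_H {r q : ℝ} {F : UnitAddTorus (Fin d) → ℂ} (hF : F ∈ HC d r q) :
    F ∘ Ph2 ∈ Setting.classH d r q := by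
  have h1 : MemLp (F ∘ Ph2) (ENNReal.ofReal q) (Setting.torus d) :=
    hF.1.comp_measurePreserving Ph2_mp
  refine ⟨h1, (normH_eq r q _ h1.1).mpr ?_⟩
  rw [lift_comp]
  exact hF.2

theorem lift_B {r q θ : ℝ} (hθ : 0 < θ) {F : UnitAddTorus (Fin d) → ℂ} (hF : F ∈ BC d r q θ) :
    F ∘ Ph2 ∈ Setting.classB d r q θ := by
  have h1 : MemLp (F ∘ Ph2) (ENNReal.ofReal q) (Setting.torus d) :=
    hF.1.comp_measurePreserving Ph2_mp
  refine ⟨h1, (normB_eq r q hθ _ h1.1).mpr ?_⟩
  rw [lift_comp]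
  exact hF.2

theorem sigmaClass_H (m : ℕ) (p r q : ℝ) :
    Setting.sigmaClass m p (Setting.classH d r q) = sigC m p (HC d r q) := by
  unfold Setting.sigmaClass sigC
  apply le_antisymm
  · refine iSup₂_le (fun f hf => ?_)
    rw [sigma_eq m p f hf.1.1]
    exact le_iSup₂_of_le (f ∘ Ps2) (comp_H hf) le_rfl
  · refine iSup₂_le (fun F hF => ?_)
    refine le_iSup₂_of_le (F ∘ Ph2) (lift_H hF) ?_
    rw [sigma_eq m p _ (lift_H hF).1.1, lift_comp]

theorem sigmaClass_B (m : ℕ) (p r q : ℝ) {θ : ℝ} (hθ : 0 < θ) :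
    Setting.sigmaClass m p (Setting.classB d r q θ) = sigC m p (BC d r q θ) := by
  unfold Setting.sigmaClass sigC
  apply le_antisymm
  · refine iSup₂_le (fun f hf => ?_)
    rw [sigma_eq m p f hf.1.1]
    exact le_iSup₂_of_le (f ∘ Ps2) (comp_B hθ hf) le_rfl
  · refine iSup₂_le (fun F hF => ?_)
    refine le_iSup₂_of_le (F ∘ Ph2) (lift_B hθ hF) ?_
    rw [sigma_eq m p _ (lift_B hθ hF).1.1, lift_comp]

end Run7.h481
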