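import Pool.Agent.Run7.h481.Class

namespace Run7.h481

open MeasureTheory UnitAddTorus

/-- Haar measure of the circle -/
noncomputable abbrev hc1 : Measure UnitAddCircle := AddCircle.haarAddCircle (T := 1)

theorem circ_int {E : Type*} [NormedAddCommGroup E] {f : UnitAddCircle → E} (hf : Continuous f) :
    Integrable f hc1 :=
  hf.integrable_of_hasCompactSupport (HasCompactSupport.of_compactSpace f)

theorem circ_l2 (I : Finset ℤ) :
    ∫ x, ‖∑ a ∈ I, (fourier a x : ℂ)‖ ^ 2 ∂hc1 = I.card := by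
  have key : ((∫ x, ‖∑ a ∈ I, (fourier a x : ℂ)‖ ^ 2 ∂hc1 : ℝ) : ℂ) = I.card := by
    rw [← integral_complex_ofReal]
    have h1 : ∀ x : UnitAddCircle, ((‖∑ a ∈ I, (fourier a x : ℂ)‖ ^ 2 : ℝ) : ℂ)
        = ∑ a ∈ I, ∑ b ∈ I, (fourier (a - b) x : ℂ) := by
      intro x
      have h2 : ((‖∑ a ∈ I, (fourier a x : ℂ)‖ ^ 2 : ℝ) : ℂ)
          = (∑ a ∈ I, (fourier a x : ℂ)) * (starRingEnd ℂ) (∑ a ∈ I, (fourier a x : ℂ)) := by
        rw [Complex.mul_conj, Complex.normSq_eq_norm_sq]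
      rw [h2, map_sum, Finset.sum_mul_sum]
      refine Finset.sum_congr rfl (fun a _ => Finset.sum_congr rfl (fun b _ => ?_))
      rw [sub_eq_add_neg, fourier_add, fourier_neg]
    simp_rw [h1]
    rw [integral_finsetSum]
    · have h3 : ∀ a ∈ I, ∫ x, ∑ b ∈ I, (fourier (a - b) x : ℂ) ∂hc1 = 1 := by
        intro a ha
        rw [integral_finsetSum]
        · simp_rw [int_fourier, sub_eq_zero]
          rw [Finset.sum_ite_eq, if_pos ha]
        · intro b _
          exact circ_int (by fun_prop)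
      rw [Finset.sum_congr rfl h3, Finset.sum_const, nsmul_eq_mul, mul_one]
    · intro a _
      exact circ_int (by fun_prop)
  exact_mod_cast key

/-- coefficients of the de la Vallee Poussin type kernel -/
noncomputable def vM (M : ℕ) (κ : ℤ) : ℝ :=
  (((Finset.range M).filter (fun b : ℕ => |κ - b| ≤ 2 * M)).card : ℝ) / M

theorem vM_nonneg (M : ℕ) (κ : ℤ) : 0 ≤ vM M κ := by unfold vM; positivity

theorem vM_le_one (M : ℕ) (κ : ℤ) : vM M κ ≤ 1 := by
  unfold vM
  rcases Nat.eq_zero_or_pos M with h | h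
  · subst h; simp
  · rw [div_le_one (by exact_mod_cast h)]
    have := Finset.card_filter_le (Finset.range M) (fun b : ℕ => |κ - b| ≤ 2 * M)
    rw [Finset.card_range] at this
    exact_mod_cast this

theorem vM_one {M : ℕ} (hM : 0 < M) {κ : ℤ} (h : |κ| ≤ M) : vM M κ = 1 := by
  unfold vM
  rw [Finset.filter_true_of_mem, Finset.card_range, div_self]
  · exact_mod_cast hM.ne'
  · intro b hb
    rw [Finset.mem_range] at hb
    have h1 := abs_le.mp h
    rw [abs_le]
    constructor <;> omega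

theorem vM_zero {M : ℕ} {κ : ℤ} (h : 3 * M < |κ|) : vM M κ = 0 := by
  unfold vM
  rw [Finset.filter_false_of_mem]
  · simp
  · intro b hb
    rw [Finset.mem_range] at hb
    rw [not_le]
    rcases lt_abs.mp h with h1 | h1
    · exact lt_of_lt_of_le (by omega) (le_abs_self _)
    · exact lt_of_lt_of_le (by omega) (neg_le_abs _)

theorem kernel_eq {M : ℕ} {W : ℤ} (hW : 3 * (M : ℤ) ≤ W) (x : UnitAddCircle) :
    ∑ κ ∈ Finset.Icc (-W) W, (vM M κ : ℂ) * fourier κ x
      = (M : ℂ)⁻¹ * ((∑ a ∈ Finset.Icc (-(2 * M : ℤ)) (2 * M), (fourier a x : ℂ))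
        * (∑ b ∈ Finset.range M, (fourier (b : ℤ) x : ℂ))) := by
  have h1 : ∀ b ∈ Finset.range M, (∑ a ∈ Finset.Icc (-(2 * M : ℤ)) (2 * M), (fourier a x : ℂ))
      * fourier (b : ℤ) x = ∑ κ ∈ Finset.Icc (-W) W,
        (if |κ - b| ≤ 2 * M then (fourier κ x : ℂ) else 0) := by
    intro b hb
    rw [Finset.mem_range] at hb
    rw [← Finset.sum_filter, Finset.sum_mul]
    refine Finset.sum_bij (fun a _ => a + b) ?_ ?_ ?_ ?_
    · intro a ha
      rw [Finset.mem_Icc] at ha
      rw [Finset.mem_filter, Finset.mem_Icc, abs_le]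
      refine ⟨⟨by omega, by omega⟩, by omega, by omega⟩
    · intro a _ a' _ h
      omega
    · intro κ hκ
      rw [Finset.mem_filter, Finset.mem_Icc, abs_le] at hκ
      refine ⟨κ - b, ?_, by ring⟩
      rw [Finset.mem_Icc]
      omega
    · intro a _
      rw [← fourier_add]
  rw [Finset.mul_sum, Finset.sum_congr rfl h1, Finset.sum_comm, Finset.mul_sum]
  refine Finset.sum_congr rfl (fun κ _ => ?_)
  rw [← Finset.sum_filter, Finset.sum_const, nsmul_eq_mul, vM]
  push_cast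
  ring

theorem kernel_L1 {M : ℕ} (hM : 0 < M) {W : ℤ} (hW : 3 * (M : ℤ) ≤ W) :
    ∫ x, ‖∑ κ ∈ Finset.Icc (-W) W, (vM M κ : ℂ) * fourier κ x‖ ∂hc1 ≤ 3 := by
  have hMr : (0 : ℝ) < M := by exact_mod_cast hM
  simp_rw [kernel_eq hW, norm_mul]
  rw [integral_const_mul]
  have h2 : (Real.HolderConjugate 2 2) := Real.HolderConjugate.two_two
  have c1 : Continuous (fun x : UnitAddCircle => ∑ a ∈ Finset.Icc (-(2 * M : ℤ)) (2 * M),
    (fourier a x : ℂ)) := by fun_prop
  have c2 : Continuous (fun x : UnitAddCircle => ∑ b ∈ Finset.range M, (fourier (b : ℤ) x : ℂ)) :=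
    by fun_prop
  have h3 := integral_mul_norm_le_Lp_mul_Lq (μ := hc1) h2
    (c1.memLp_of_hasCompactSupport (HasCompactSupport.of_compactSpace _))
    (c2.memLp_of_hasCompactSupport (HasCompactSupport.of_compactSpace _))
  have e1 : ∫ x, ‖∑ a ∈ Finset.Icc (-(2 * M : ℤ)) (2 * M), (fourier a x : ℂ)‖ ^ (2 : ℝ) ∂hc1
      = 4 * M + 1 := by
    simp_rw [Real.rpow_two]
    rw [circ_l2, Int.card_Icc]
    have : (2 * (M : ℤ) + 1 - -(2 * M : ℤ)).toNat = 4 * M + 1 := by omega
    rw [this]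
    push_cast
    ring
  have e2 : ∫ x, ‖∑ b ∈ Finset.range M, (fourier (b : ℤ) x : ℂ)‖ ^ (2 : ℝ) ∂hc1 = M := by
    simp_rw [Real.rpow_two]
    have h4 : ∀ x : UnitAddCircle, ∑ b ∈ Finset.range M, (fourier (b : ℤ) x : ℂ)
        = ∑ a ∈ (Finset.range M).image (fun b : ℕ => (b : ℤ)), (fourier a x : ℂ) := by
      intro x
      rw [Finset.sum_image]
      intro a _ b _ h
      exact Nat.cast_injective h
    simp_rw [h4]
    rw [circ_l2, Finset.card_image_of_injective _ Nat.cast_injective, Finset.card_range]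
  rw [e1, e2] at h3
  calc ‖(M : ℂ)⁻¹‖ * ∫ x, ‖∑ a ∈ Finset.Icc (-(2 * M : ℤ)) (2 * M), (fourier a x : ℂ)‖
        * ‖∑ b ∈ Finset.range M, (fourier (b : ℤ) x : ℂ)‖ ∂hc1
      ≤ (M : ℝ)⁻¹ * ((4 * M + 1 : ℝ) ^ ((1 : ℝ) / 2) * (M : ℝ) ^ ((1 : ℝ) / 2)) := by
        rw [norm_inv, Complex.norm_natCast]
        gcongr
    _ ≤ (M : ℝ)⁻¹ * (3 * M) := by
        rw [← Real.mul_rpow (by positivity) (by positivity), ← Real.sqrt_eq_rpow]
        gcongr
        rw [Real.sqrt_le_left (by positivity)]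
        have : (1 : ℝ) ≤ M := by exact_mod_cast hM
        nlinarith
    _ = 3 := by field_simp

/-- band multiplier -/
noncomputable def al (t : ℕ) (κ : ℤ) : ℝ :=
  vM (2 ^ t) κ - (if 3 ≤ t then vM (2 ^ (t - 3)) κ else 0)

theorem al_abs (t : ℕ) (κ : ℤ) : |al t κ| ≤ 1 := by
  unfold al
  have h1 := vM_nonneg (2 ^ t) κ
  have h2 := vM_le_one (2 ^ t) κ
  split_ifs
  · have h3 := vM_nonneg (2 ^ (t - 3)) κ
    have h4 := vM_le_one (2 ^ (t - 3)) κ
    rw [abs_le]
    constructor <;> linarith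
  · rw [abs_le]
    constructor <;> linarith

theorem al_one {t : ℕ} {κ : ℤ} (h1 : ((2 ^ t / 2 : ℕ) : ℤ) ≤ |κ|) (h2 : |κ| < 2 ^ t) :
    al t κ = 1 := by
  unfold al
  rw [vM_one (by positivity) (by push_cast; exact h2.le)]
  split_ifs with h3
  · rw [half_pow_nat t (by omega)] at h1
    rw [vM_zero, sub_zero]
    push_cast
    have : (2 : ℤ) ^ (t - 1) = 4 * 2 ^ (t - 3) := by
      rw [show t - 1 = (t - 3) + 2 by omega, pow_add]
      ring
    have h4 : (0 : ℤ) < 2 ^ (t - 3) := by positivity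
    linarith
  · rw [sub_zero]

theorem al_zero_high {t : ℕ} {κ : ℤ} (h : 3 * (2 : ℤ) ^ t < |κ|) : al t κ = 0 := by
  unfold al
  rw [vM_zero (by push_cast; exact h)]
  split_ifs with h3
  · rw [vM_zero, sub_zero]
    push_cast
    have : (2 : ℤ) ^ (t - 3) ≤ 2 ^ t := pow_le_pow_right₀ (by norm_num) (by omega)
    linarith
  · rw [sub_zero]

theorem al_zero_low {t : ℕ} (ht : 3 ≤ t) {κ : ℤ} (h : |κ| ≤ 2 ^ (t - 3)) : al t κ = 0 := by
  unfold al
  rw [if_pos ht, vM_one (M := 2 ^ (t - 3)) (by positivity) (by push_cast; exact h),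
    vM_one (M := 2 ^ t) (by positivity), sub_self]
  push_cast
  exact h.trans (pow_le_pow_right₀ (by norm_num) (by omega))

/-- bounded overlap -/
theorem al_overlap (N : ℕ) (κ : ℤ) : ∑ t ∈ Finset.range N, al t κ ^ 2 ≤ 8 := by
  set u := Nat.log 2 κ.natAbs with hu
  set T : Finset ℕ := Finset.range 3 ∪ Finset.Icc (u - 1) (u + 3) with hT
  have h0 : ∀ t ∉ T, al t κ = 0 := by
    intro t ht
    rw [hT, Finset.mem_union, Finset.mem_range, Finset.mem_Icc] at ht
    push Not at ht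
    obtain ⟨h3, h4⟩ := ht
    by_cases hκ : κ = 0
    · subst hκ
      exact al_zero_low h3 (by simp)
    · have hna : κ.natAbs ≠ 0 := Int.natAbs_ne_zero.mpr hκ
      have h5 : 2 ^ u ≤ κ.natAbs := Nat.pow_log_le_self 2 hna
      have h6 : κ.natAbs < 2 ^ (u + 1) := Nat.lt_pow_succ_log_self (by norm_num) _
      have h7 : |κ| = (κ.natAbs : ℤ) := (Int.natCast_natAbs κ).symm
      by_cases h8 : u - 1 ≤ t
      · have h9 := h4 h8
        refine al_zero_low h3 ?_
        rw [h7]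
        have : 2 ^ (u + 1) ≤ 2 ^ (t - 3) := Nat.pow_le_pow_right (by norm_num) (by omega)
        exact_mod_cast (h6.le.trans this)
      · refine al_zero_high ?_
        rw [h7]
        have h10 : 2 ^ (t + 2) ≤ 2 ^ u := Nat.pow_le_pow_right (by norm_num) (by omega)
        have h11 : 3 * 2 ^ t < 2 ^ (t + 2) := by
          rw [pow_add]
          have : 0 < 2 ^ t := by positivity
          omega
        exact_mod_cast (h11.trans_le (h10.trans h5))
  have hcard : T.card ≤ 8 := by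
    rw [hT]
    refine (Finset.card_union_le _ _).trans ?_
    rw [Finset.card_range, Nat.card_Icc]
    omega
  calc ∑ t ∈ Finset.range N, al t κ ^ 2 ≤ ∑ t ∈ T, (1 : ℝ) := by
        rw [← Finset.sum_filter_add_sum_filter_not (Finset.range N) (fun t => t ∈ T)]
        have h1 : ∑ t ∈ (Finset.range N).filter (fun t => ¬ t ∈ T), al t κ ^ 2 = 0 := by
          refine Finset.sum_eq_zero (fun t ht => ?_)
          rw [Finset.mem_filter] at ht
          rw [h0 t ht.2]
          norm_num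
        rw [h1, add_zero]
        calc ∑ t ∈ (Finset.range N).filter (fun t => t ∈ T), al t κ ^ 2
            ≤ ∑ t ∈ (Finset.range N).filter (fun t => t ∈ T), (1 : ℝ) := by
              refine Finset.sum_le_sum (fun t _ => ?_)
              have := al_abs t κ
              rw [← sq_abs]
              exact pow_le_one₀ (abs_nonneg _) this
          _ ≤ ∑ t ∈ T, (1 : ℝ) := by
              refine Finset.sum_le_sum_of_subset_of_nonneg ?_ (fun _ _ _ => zero_le_one)
              intro t ht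
              exact (Finset.mem_filter.mp ht).2
    _ ≤ 8 := by
        rw [Finset.sum_const, nsmul_eq_mul, mul_one]
        exact_mod_cast hcard

theorem al_L1 {t N : ℕ} (ht : t ≤ N) :
    ∫ x, ‖∑ κ ∈ Finset.Icc (-(3 * 2 ^ N : ℤ)) (3 * 2 ^ N), (al t κ : ℂ) * fourier κ x‖ ∂hc1 ≤ 6 := by
  have hN : (3 : ℤ) * ((2 ^ t : ℕ) : ℤ) ≤ 3 * 2 ^ N := by
    push_cast
    have : (2 : ℤ) ^ t ≤ 2 ^ N := pow_le_pow_right₀ (by norm_num) ht
    linarith
  have h1 := kernel_L1 (M := 2 ^ t) (by positivity) hN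
  unfold al
  split_ifs with h3
  · have hN2 : (3 : ℤ) * ((2 ^ (t - 3) : ℕ) : ℤ) ≤ 3 * 2 ^ N := by
      push_cast
      have : (2 : ℤ) ^ (t - 3) ≤ 2 ^ N := pow_le_pow_right₀ (by norm_num) (by omega)
      linarith
    have h2 := kernel_L1 (M := 2 ^ (t - 3)) (by positivity) hN2
    calc ∫ x, ‖∑ κ ∈ Finset.Icc (-(3 * 2 ^ N : ℤ)) (3 * 2 ^ N),
          ((vM (2 ^ t) κ - vM (2 ^ (t - 3)) κ : ℝ) : ℂ) * fourier κ x‖ ∂hc1
        ≤ ∫ x, (‖∑ κ ∈ Finset.Icc (-(3 * 2 ^ N : ℤ)) (3 * 2 ^ N),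
            (vM (2 ^ t) κ : ℂ) * fourier κ x‖
          + ‖∑ κ ∈ Finset.Icc (-(3 * 2 ^ N : ℤ)) (3 * 2 ^ N),
            (vM (2 ^ (t - 3)) κ : ℂ) * fourier κ x‖) ∂hc1 := by
          apply integral_mono (circ_int (by fun_prop)) (circ_int (by fun_prop))
          intro x
          simp only
          refine le_trans (le_of_eq ?_) (norm_sub_le _ _)
          rw [← Finset.sum_sub_distrib]
          congr 1
          refine Finset.sum_congr rfl (fun κ _ => ?_)
          push_cast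
          ring
      _ ≤ 3 + 3 := by
          rw [integral_add (circ_int (by fun_prop)) (circ_int (by fun_prop))]
          linarith
      _ = 6 := by norm_num
  · simp only [sub_zero]
    linarith

end Run7.h481
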