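import Pool.Agent.Run7.h481.U1

namespace Run7.h481

open MeasureTheory UnitAddTorus ENNReal

variable {d : ℕ}

/-- a large box of frequencies -/
noncomputable def KB (d N : ℕ) : Finset (Fin d → ℤ) :=
  Fintype.piFinset fun _ => Finset.Icc (-(3 * 2 ^ N)) (3 * 2 ^ N)

/-- tensor multiplier -/
noncomputable def vs (s : Fin d → ℕ) (k : Fin d → ℤ) : ℝ := ∏ i, al (s i) (k i)

/-- multiplier operator -/
noncomputable def mult (N : ℕ) (s : Fin d → ℕ) (G : UnitAddTorus (Fin d) → ℂ) :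
    C(UnitAddTorus (Fin d), ℂ) :=
  ∑ k ∈ KB d N, ((vs s k : ℂ) * coef G k) • mFourier k

/-- the kernel -/
noncomputable def ker (N : ℕ) (s : Fin d → ℕ) : C(UnitAddTorus (Fin d), ℂ) :=
  ∑ k ∈ KB d N, (vs s k : ℂ) • mFourier k

theorem ker_prod (N : ℕ) (s : Fin d → ℕ) (z : UnitAddTorus (Fin d)) :
    ker N s z = ∏ i, ∑ κ ∈ Finset.Icc (-(3 * 2 ^ N : ℤ)) (3 * 2 ^ N),
      (al (s i) κ : ℂ) * fourier κ (z i) := by
  unfold ker KB vs
  rw [Finset.prod_univ_sum]
  simp only [ContinuousMap.coe_sum, Finset.sum_apply, ContinuousMap.smul_apply, smul_eq_mul]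
  refine Finset.sum_congr rfl (fun k _ => ?_)
  rw [Finset.prod_mul_distrib]
  congr 1
  push_cast
  rfl

theorem ker_L1 {N : ℕ} {s : Fin d → ℕ} (hs : ∀ i, s i ≤ N) :
    ∫ z, ‖ker N s z‖ ∂(mu (Fin d)) ≤ 6 ^ d := by
  simp_rw [ker_prod, norm_prod]
  unfold mu
  rw [integral_fintype_prod_eq_prod (fun i (z : UnitAddCircle) =>
    ‖∑ κ ∈ Finset.Icc (-(3 * 2 ^ N : ℤ)) (3 * 2 ^ N), (al (s i) κ : ℂ) * fourier κ z‖)]
  calc _ ≤ ∏ _i : Fin d, (6 : ℝ) := by
        refine Finset.prod_le_prod (fun i _ => integral_nonneg (fun x => norm_nonneg _))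
          (fun i _ => al_L1 (hs i))
    _ = 6 ^ d := by simp

theorem fourier_sub_arg (n : ℤ) (x y : UnitAddCircle) :
    (fourier n (x - y) : ℂ) = fourier n x * fourier (-n) y := by
  have h1 : (fourier n (x - y) : ℂ) * fourier n y = fourier n x := by
    rw [fourier_apply, fourier_apply, fourier_apply, ← Circle.coe_mul, ← AddCircle.toCircle_add,
      ← smul_add, sub_add_cancel]
  have h2 : (fourier n y : ℂ) * fourier (-n) y = 1 := by
    rw [← fourier_add, add_neg_cancel, fourier_zero]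
  calc (fourier n (x - y) : ℂ) = fourier n (x - y) * (fourier n y * fourier (-n) y) := by
        rw [h2, mul_one]
    _ = _ := by rw [← mul_assoc, h1]

theorem mFourier_sub_arg (k : Fin d → ℤ) (x y : UnitAddTorus (Fin d)) :
    mFourier k (x - y) = mFourier k x * mFourier (-k) y := by
  simp only [mFourier, ContinuousMap.coe_mk, Pi.sub_apply, Pi.neg_apply, fourier_sub_arg,
    Finset.prod_mul_distrib]

theorem e_int {G : UnitAddTorus (Fin d) → ℂ} (hG : Integrable G (mu (Fin d))) (f : C(UnitAddTorus (Fin d), ℂ)) :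
    Integrable (fun x => G x * f x) (mu (Fin d)) := by
  refine hG.mul_bdd (c := ‖f‖) f.continuous.aestronglyMeasurable
    (Filter.Eventually.of_forall (fun x => f.norm_coe_le_norm x))

theorem mult_conv {N : ℕ} {s : Fin d → ℕ} {G : UnitAddTorus (Fin d) → ℂ}
    (hG : Integrable G (mu (Fin d))) (x : UnitAddTorus (Fin d)) :
    mult N s G x = ∫ y, G y * ker N s (x - y) ∂(mu (Fin d)) := by
  unfold mult ker
  simp only [ContinuousMap.coe_sum, Finset.sum_apply, ContinuousMap.smul_apply, smul_eq_mul,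
    Finset.mul_sum]
  rw [integral_finsetSum]
  · refine Finset.sum_congr rfl (fun k _ => ?_)
    unfold coef
    rw [mul_comm (vs s k : ℂ), mul_assoc, ← integral_mul_const]
    congr 1
    ext y
    rw [mFourier_sub_arg]
    ring
  · intro k _
    have h1 := e_int hG (((vs s k : ℂ) * mFourier k x) • mFourier (-k))
    refine h1.congr (Filter.Eventually.of_forall (fun y => ?_))
    simp only [ContinuousMap.smul_apply, smul_eq_mul]
    rw [mFourier_sub_arg]
    ring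

instance : (mu (Fin d)).IsAddLeftInvariant := by unfold mu; infer_instance
instance : (mu (Fin d)).IsAddRightInvariant := by
  constructor
  intro g
  have : (fun x => x + g) = (fun x : UnitAddTorus (Fin d) => g + x) := by
    ext x
    rw [add_comm]
  rw [this]
  exact map_add_left_eq_self _ g

theorem mult_L1 {N : ℕ} {s : Fin d → ℕ} (hs : ∀ i, s i ≤ N) {G : UnitAddTorus (Fin d) → ℂ}
    (hG : Integrable G (mu (Fin d))) :
    eLpNorm (mult N s G) 1 (mu (Fin d)) ≤ 6 ^ d * eLpNorm G 1 (mu (Fin d)) := by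
  rw [eLpNorm_one_eq_lintegral_enorm, eLpNorm_one_eq_lintegral_enorm]
  have hK : ∫⁻ z, ‖ker N s z‖ₑ ∂(mu (Fin d)) ≤ 6 ^ d := by
    have h1 := ofReal_integral_norm_eq_lintegral_enorm (cint (ker N s).continuous)
    rw [← h1]
    calc ENNReal.ofReal (∫ z, ‖ker N s z‖ ∂(mu (Fin d))) ≤ ENNReal.ofReal (6 ^ d) :=
          ENNReal.ofReal_le_ofReal (ker_L1 hs)
      _ = 6 ^ d := by
          rw [ENNReal.ofReal_pow (by norm_num)]
          norm_num
  calc ∫⁻ x, ‖mult N s G x‖ₑ ∂(mu (Fin d))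
      ≤ ∫⁻ x, ∫⁻ y, ‖G y‖ₑ * ‖ker N s (x - y)‖ₑ ∂(mu (Fin d)) ∂(mu (Fin d)) := by
        refine lintegral_mono (fun x => ?_)
        simp only
        rw [mult_conv hG]
        refine (enorm_integral_le_lintegral_enorm _).trans (le_of_eq ?_)
        refine lintegral_congr (fun y => ?_)
        rw [enorm_mul]
    _ = ∫⁻ y, ∫⁻ x, ‖G y‖ₑ * ‖ker N s (x - y)‖ₑ ∂(mu (Fin d)) ∂(mu (Fin d)) := by
        refine lintegral_lintegral_swap ?_
        have h1 : AEMeasurable (fun z : UnitAddTorus (Fin d) × UnitAddTorus (Fin d) => ‖G z.2‖ₑ)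
            ((mu (Fin d)).prod (mu (Fin d))) :=
          hG.1.enorm.comp_quasiMeasurePreserving Measure.quasiMeasurePreserving_snd
        have h2 : AEMeasurable (fun z : UnitAddTorus (Fin d) × UnitAddTorus (Fin d) =>
            ‖ker N s (z.1 - z.2)‖ₑ) ((mu (Fin d)).prod (mu (Fin d))) := by
          refine Continuous.aemeasurable ?_
          fun_prop
        exact h1.mul h2
    _ = ∫⁻ y, ‖G y‖ₑ * ∫⁻ z, ‖ker N s z‖ₑ ∂(mu (Fin d)) ∂(mu (Fin d)) := by
        refine lintegral_congr (fun y => ?_)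
        rw [lintegral_const_mul _ (by fun_prop)]
        congr 1
        exact lintegral_sub_right_eq_self (fun z => ‖ker N s z‖ₑ) y
    _ = (∫⁻ y, ‖G y‖ₑ ∂(mu (Fin d))) * ∫⁻ z, ‖ker N s z‖ₑ ∂(mu (Fin d)) := by
        rw [lintegral_mul_const'' _ hG.1.enorm]
    _ ≤ (∫⁻ y, ‖G y‖ₑ ∂(mu (Fin d))) * 6 ^ d := by gcongr
    _ = _ := mul_comm _ _

/-- Parseval with complex coefficients -/
theorem l2_cplx (I : Finset (Fin d → ℤ)) (c : (Fin d → ℤ) → ℂ) :
    ∫ x, ‖(∑ k ∈ I, c k • mFourier k : C(UnitAddTorus (Fin d), ℂ)) x‖ ^ 2 ∂(mu (Fin d))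
      = ∑ k ∈ I, ‖c k‖ ^ 2 := by
  have h := ip_self (∑ k ∈ I, c k • mFourier k : C(UnitAddTorus (Fin d), ℂ))
  rw [ip_sum_left] at h
  have h2 : ∀ i ∈ I, ip (c i • mFourier i)
      (∑ i ∈ I, c i • mFourier i : C(UnitAddTorus (Fin d), ℂ)) = ((‖c i‖ ^ 2 : ℝ) : ℂ) := by
    intro i hi
    rw [ip_sum_right, Finset.sum_eq_single i]
    · rw [ip_smul_left, ip_smul_right, ip_e, if_pos rfl, mul_one, ← starRingEnd_apply,
        Complex.mul_conj, Complex.normSq_eq_norm_sq]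
    · intro j hj hne
      rw [ip_smul_left, ip_smul_right, ip_e, if_neg hne.symm]
      ring
    · intro h
      exact absurd hi h
  rw [Finset.sum_congr rfl h2] at h
  have h3 : ((∑ i ∈ I, ‖c i‖ ^ 2 : ℝ) : ℂ)
      = ((∫ x, ‖(∑ i ∈ I, c i • mFourier i : C(UnitAddTorus (Fin d), ℂ)) x‖ ^ 2 ∂(mu (Fin d)) : ℝ) : ℂ)
      := by
    rw [← h]
    push_cast
    rfl
  exact_mod_cast h3.symm

/-- Bessel -/
theorem bessel {G : UnitAddTorus (Fin d) → ℂ} (hG : MemLp G 2 (mu (Fin d)))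
    (I : Finset (Fin d → ℤ)) :
    ∑ k ∈ I, ‖coef G k‖ ^ 2 ≤ ∫ x, ‖G x‖ ^ 2 ∂(mu (Fin d)) := by
  set P : C(UnitAddTorus (Fin d), ℂ) := ∑ k ∈ I, coef G k • mFourier k with hP
  have hPn := l2_cplx I (coef G)
  rw [← hP] at hPn
  have hG1 : Integrable G (mu (Fin d)) := hG.integrable (by norm_num)
  have hG2 : Integrable (fun x => ‖G x‖ ^ 2) (mu (Fin d)) := by
    have := hG.integrable_norm_pow (by norm_num)
    simpa using this
  have hGP : Integrable (fun x => G x * star (P x)) (mu (Fin d)) := e_int hG1 (star P)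
  have hcross : ∫ x, G x * star (P x) ∂(mu (Fin d)) = ((∑ k ∈ I, ‖coef G k‖ ^ 2 : ℝ) : ℂ) := by
    have h1 : ∀ x, G x * star (P x) = ∑ k ∈ I, star (coef G k) * (G x * mFourier (-k) x) := by
      intro x
      rw [hP]
      simp only [ContinuousMap.coe_sum, Finset.sum_apply, ContinuousMap.smul_apply, smul_eq_mul,
        star_sum, star_mul', Finset.mul_sum]
      refine Finset.sum_congr rfl (fun k _ => ?_)
      rw [mFourier_neg, starRingEnd_apply]
      ring
    simp_rw [h1]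
    rw [integral_finsetSum]
    · push_cast
      refine Finset.sum_congr rfl (fun k _ => ?_)
      rw [integral_const_mul]
      have : ∫ x, G x * mFourier (-k) x ∂(mu (Fin d)) = coef G k := rfl
      rw [this, mul_comm, ← starRingEnd_apply, Complex.mul_conj, Complex.normSq_eq_norm_sq]
      push_cast
      rfl
    · intro k _
      exact (e_int hG1 _).const_mul _
  have hre : ∫ x, (G x * star (P x)).re ∂(mu (Fin d)) = ∑ k ∈ I, ‖coef G k‖ ^ 2 := by
    have := integral_re (𝕜 := ℂ) hGP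
    simp only [RCLike.re_eq_complex_re] at this
    rw [this, hcross, Complex.ofReal_re]
  have hnn : 0 ≤ ∫ x, ‖G x - P x‖ ^ 2 ∂(mu (Fin d)) := integral_nonneg (fun x => by positivity)
  have hpt : ∀ x, ‖G x - P x‖ ^ 2 = ‖G x‖ ^ 2 - 2 * (G x * star (P x)).re + ‖P x‖ ^ 2 := by
    intro x
    rw [Complex.sq_norm, Complex.sq_norm, Complex.sq_norm, Complex.normSq_sub]
    rw [← starRingEnd_apply]
    ring
  simp_rw [hpt] at hnn
  have hGPre : Integrable (fun x => (G x * star (P x)).re) (mu (Fin d)) := hGP.re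
  have c1 : Integrable (fun x => ‖G x‖ ^ 2 - 2 * (G x * star (P x)).re) (mu (Fin d)) :=
    hG2.sub (hGPre.const_mul 2)
  rw [integral_add c1 (cint (by fun_prop)), integral_sub hG2 (hGPre.const_mul 2),
    integral_const_mul, hre, hPn] at hnn
  linarith

theorem overlap {N : ℕ} (S : Finset (Fin d → ℕ)) (hS : ∀ s ∈ S, ∀ i, s i < N) (k : Fin d → ℤ) :
    ∑ s ∈ S, vs s k ^ 2 ≤ 8 ^ d := by
  calc ∑ s ∈ S, vs s k ^ 2 ≤ ∑ s ∈ Fintype.piFinset (fun _ : Fin d => Finset.range N), vs s k ^ 2 := by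
        refine Finset.sum_le_sum_of_subset_of_nonneg ?_ (fun _ _ _ => by positivity)
        intro s hs
        rw [Fintype.mem_piFinset]
        intro i
        rw [Finset.mem_range]
        exact hS s hs i
    _ = ∏ i, ∑ t ∈ Finset.range N, al t (k i) ^ 2 := by
        rw [Finset.prod_univ_sum]
        refine Finset.sum_congr rfl (fun s _ => ?_)
        rw [vs, Finset.prod_pow]
    _ ≤ ∏ _i : Fin d, (8 : ℝ) := by
        refine Finset.prod_le_prod (fun i _ => Finset.sum_nonneg (fun t _ => by positivity))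
          (fun i _ => al_overlap N (k i))
    _ = 8 ^ d := by simp

theorem mult_L2 {N : ℕ} (S : Finset (Fin d → ℕ)) (hS : ∀ s ∈ S, ∀ i, s i < N)
    (G : (Fin d → ℕ) → UnitAddTorus (Fin d) → ℂ) (hG : ∀ s ∈ S, MemLp (G s) 2 (mu (Fin d))) :
    ∫ x, ‖(∑ s ∈ S, mult N s (G s) : C(UnitAddTorus (Fin d), ℂ)) x‖ ^ 2 ∂(mu (Fin d))
      ≤ 8 ^ d * ∑ s ∈ S, ∫ x, ‖G s x‖ ^ 2 ∂(mu (Fin d)) := by
  have e1 : (∑ s ∈ S, mult N s (G s) : C(UnitAddTorus (Fin d), ℂ))
      = ∑ k ∈ KB d N, (∑ s ∈ S, (vs s k : ℂ) * coef (G s) k) • mFourier k := by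
    unfold mult
    rw [Finset.sum_comm]
    refine Finset.sum_congr rfl (fun k _ => ?_)
    ext x
    simp only [ContinuousMap.coe_sum, Finset.sum_apply, ContinuousMap.smul_apply, smul_eq_mul,
      Finset.sum_mul]
  rw [e1, l2_cplx]
  have h1 : ∀ k, ‖∑ s ∈ S, (vs s k : ℂ) * coef (G s) k‖ ^ 2 ≤ 8 ^ d * ∑ s ∈ S, ‖coef (G s) k‖ ^ 2 := by
    intro k
    have h2 : ‖∑ s ∈ S, (vs s k : ℂ) * coef (G s) k‖ ≤ ∑ s ∈ S, |vs s k| * ‖coef (G s) k‖ := by
      refine (norm_sum_le _ _).trans (le_of_eq (Finset.sum_congr rfl (fun s _ => ?_)))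
      rw [norm_mul, Complex.norm_real, Real.norm_eq_abs]
    calc ‖∑ s ∈ S, (vs s k : ℂ) * coef (G s) k‖ ^ 2
        ≤ (∑ s ∈ S, |vs s k| * ‖coef (G s) k‖) ^ 2 := by gcongr
      _ ≤ (∑ s ∈ S, |vs s k| ^ 2) * ∑ s ∈ S, ‖coef (G s) k‖ ^ 2 :=
          Finset.sum_mul_sq_le_sq_mul_sq _ _ _
      _ ≤ 8 ^ d * ∑ s ∈ S, ‖coef (G s) k‖ ^ 2 := by
          have := overlap S hS k
          simp only [sq_abs]
          gcongr
  calc ∑ k ∈ KB d N, ‖∑ s ∈ S, (vs s k : ℂ) * coef (G s) k‖ ^ 2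
      ≤ ∑ k ∈ KB d N, 8 ^ d * ∑ s ∈ S, ‖coef (G s) k‖ ^ 2 := Finset.sum_le_sum (fun k _ => h1 k)
    _ = 8 ^ d * ∑ s ∈ S, ∑ k ∈ KB d N, ‖coef (G s) k‖ ^ 2 := by
        rw [← Finset.mul_sum, Finset.sum_comm]
    _ ≤ _ := by
        gcongr with s hs
        exact bessel (hG s hs) _

theorem mult_id {N : ℕ} {s : Fin d → ℕ} (hs : ∀ i, s i ≤ N) {g : C(UnitAddTorus (Fin d), ℂ)}
    (hg : g ∈ TP (rho s : Set (Fin d → ℤ))) : mult N s g = g := by
  ext x
  rw [← recon_TP hg x]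
  unfold mult
  simp only [ContinuousMap.coe_sum, Finset.sum_apply, ContinuousMap.smul_apply, smul_eq_mul]
  have hsub : rho s ⊆ KB d N := by
    intro k hk
    rw [mem_rho] at hk
    unfold KB
    rw [Fintype.mem_piFinset]
    intro i
    have h1 := (hk i).2
    have h2 : (2 : ℤ) ^ s i ≤ 2 ^ N := pow_le_pow_right₀ (by norm_num) (hs i)
    have h3 := abs_lt.mp h1
    have h4 : (0 : ℤ) < 2 ^ N := by positivity
    rw [Finset.mem_Icc]
    constructor <;> linarith [h3.1, h3.2]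
  rw [← Finset.sum_subset hsub]
  · refine Finset.sum_congr rfl (fun k hk => ?_)
    have : vs s k = 1 := by
      rw [mem_rho] at hk
      unfold vs
      exact Finset.prod_eq_one (fun i _ => al_one (hk i).1 (hk i).2)
    rw [this]
    push_cast
    ring
  · intro k _ hk
    rw [coef_TP hg hk]
    ring

theorem mult_sum {N : ℕ} {s : Fin d → ℕ} {J : Type*} (T : Finset J)
    (G : J → UnitAddTorus (Fin d) → ℂ) (hG : ∀ j ∈ T, Integrable (G j) (mu (Fin d))) :
    mult N s (fun x => ∑ j ∈ T, G j x) = ∑ j ∈ T, mult N s (G j) := by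
  unfold mult
  rw [Finset.sum_comm]
  refine Finset.sum_congr rfl (fun k _ => ?_)
  have h1 : coef (fun x => ∑ j ∈ T, G j x) k = ∑ j ∈ T, coef (G j) k := by
    unfold coef
    rw [← integral_finsetSum]
    · congr 1
      ext x
      rw [Finset.sum_mul]
    · intro j hj
      exact e_int (hG j hj) _
  rw [h1]
  ext x
  simp only [ContinuousMap.coe_sum, Finset.sum_apply, ContinuousMap.smul_apply, smul_eq_mul,
    Finset.mul_sum, Finset.sum_mul]

end Run7.h481
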