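import Pool.Agent.Run7.h481.U2

namespace Run7.h481

open MeasureTheory UnitAddTorus ENNReal

variable {d : ℕ}

/-- level sets -/
def lev {X : Type*} (g : X → ℂ) : ℕ → Set X
  | 0 => {x | ‖g x‖ ≤ 1}
  | i + 1 => {x | 2 ^ i < ‖g x‖ ∧ ‖g x‖ ≤ 2 ^ (i + 1)}

theorem lev_meas (g : C(UnitAddTorus (Fin d), ℂ)) (j : ℕ) : MeasurableSet (lev g j) := by
  have hm : Measurable (fun x => ‖g x‖) := g.continuous.norm.measurable
  cases j with
  | zero => exact measurableSet_le hm measurable_const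
  | succ i => exact (measurableSet_lt measurable_const hm).inter (measurableSet_le hm measurable_const)

theorem lev_sum {X : Type*} (g : X → ℂ) (J : ℕ) (x : X) :
    ∑ j ∈ Finset.range (J + 1), (lev g j).indicator g x = if ‖g x‖ ≤ 2 ^ J then g x else 0 := by
  classical
  induction J with
  | zero =>
    simp only [zero_add, Finset.range_one, Finset.sum_singleton, pow_zero]
    rw [Set.indicator_apply]
    rfl
  | succ J ih =>
    rw [Finset.sum_range_succ, ih, Set.indicator_apply]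
    have hmem : x ∈ lev g (J + 1) ↔ (2 ^ J < ‖g x‖ ∧ ‖g x‖ ≤ 2 ^ (J + 1)) := Iff.rfl
    have hle : (2 : ℝ) ^ J ≤ 2 ^ (J + 1) := pow_le_pow_right₀ (by norm_num) (by omega)
    by_cases h1 : ‖g x‖ ≤ 2 ^ J
    · rw [if_pos h1, if_neg, if_pos (h1.trans hle), add_zero]
      rw [hmem]
      intro h
      exact absurd h.1 (not_lt.mpr h1)
    · rw [if_neg h1, zero_add]
      by_cases h2 : ‖g x‖ ≤ 2 ^ (J + 1)
      · rw [if_pos, if_pos h2]
        rw [hmem]
        exact ⟨not_le.mp h1, h2⟩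
      · rw [if_neg, if_neg h2]
        rw [hmem]
        intro h
        exact h2 h.2

theorem qpow_int (g : C(UnitAddTorus (Fin d), ℂ)) {q : ℝ} (hq : 0 < q) :
    Integrable (fun x => ‖g x‖ ^ q) (mu (Fin d)) :=
  cint (g.continuous.norm.rpow_const (fun _ => Or.inr hq.le))

theorem low_L2 (g : C(UnitAddTorus (Fin d), ℂ)) {q : ℝ} (hq : 0 < q) (hq2 : q ≤ 2) :
    ∫ x, ‖(lev g 0).indicator g x‖ ^ 2 ∂(mu (Fin d)) ≤ ∫ x, ‖g x‖ ^ q ∂(mu (Fin d)) := by
  classical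
  refine integral_mono_of_nonneg (Filter.Eventually.of_forall (fun x => by positivity))
    (qpow_int g hq) (Filter.Eventually.of_forall (fun x => ?_))
  simp only [Set.indicator_apply]
  split_ifs with h
  · have h1 : ‖g x‖ ≤ 1 := h
    rw [← Real.rpow_two]
    exact Real.rpow_le_rpow_of_exponent_ge' (norm_nonneg _) h1 hq.le hq2
  · rw [norm_zero, zero_pow two_ne_zero]
    positivity

theorem high_L1 (g : C(UnitAddTorus (Fin d), ℂ)) {q : ℝ} (hq : 1 ≤ q) (i : ℕ) :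
    ∫ x, ‖(lev g (i + 1)).indicator g x‖ ∂(mu (Fin d))
      ≤ (2 : ℝ) ^ ((i : ℝ) * (1 - q)) * ∫ x, ‖g x‖ ^ q ∂(mu (Fin d)) := by
  classical
  rw [← integral_const_mul]
  refine integral_mono_of_nonneg (Filter.Eventually.of_forall (fun x => by positivity))
    ((qpow_int g (by linarith)).const_mul _) (Filter.Eventually.of_forall (fun x => ?_))
  simp only [Set.indicator_apply]
  split_ifs with h
  · have h1 : (2 : ℝ) ^ i < ‖g x‖ := h.1
    have h0 : 0 < ‖g x‖ := lt_trans (by positivity) h1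
    have h2 : ‖g x‖ ^ (1 - q) ≤ (2 : ℝ) ^ ((i : ℝ) * (1 - q)) := by
      rw [Real.rpow_mul (by norm_num), Real.rpow_natCast]
      exact Real.rpow_le_rpow_of_nonpos (by positivity) h1.le (by linarith)
    calc ‖g x‖ = ‖g x‖ ^ (1 - q) * ‖g x‖ ^ q := by
          rw [← Real.rpow_add h0]
          simp
      _ ≤ _ := by gcongr
  · simp only [norm_zero]
    positivity

theorem high_L2 (g : C(UnitAddTorus (Fin d), ℂ)) {q : ℝ} (hq : 0 < q) (hq2 : q ≤ 2) (i : ℕ) :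
    ∫ x, ‖(lev g (i + 1)).indicator g x‖ ^ 2 ∂(mu (Fin d))
      ≤ (2 : ℝ) ^ (((i : ℝ) + 1) * (2 - q)) * ∫ x, ‖g x‖ ^ q ∂(mu (Fin d)) := by
  classical
  rw [← integral_const_mul]
  refine integral_mono_of_nonneg (Filter.Eventually.of_forall (fun x => by positivity))
    ((qpow_int g hq).const_mul _) (Filter.Eventually.of_forall (fun x => ?_))
  simp only [Set.indicator_apply]
  split_ifs with h
  · have h1 : (2 : ℝ) ^ i < ‖g x‖ := h.1
    have h1' : ‖g x‖ ≤ (2 : ℝ) ^ (i + 1) := h.2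
    have h0 : 0 < ‖g x‖ := lt_trans (by positivity) h1
    have h2 : ‖g x‖ ^ (2 - q) ≤ (2 : ℝ) ^ (((i : ℝ) + 1) * (2 - q)) := by
      rw [Real.rpow_mul (by norm_num)]
      have : ((2 : ℝ) ^ ((i : ℝ) + 1)) = 2 ^ (i + 1) := by
        rw [← Real.rpow_natCast]
        push_cast
        rfl
      rw [this]
      exact Real.rpow_le_rpow h0.le h1' (by linarith)
    calc ‖g x‖ ^ 2 = ‖g x‖ ^ (2 - q) * ‖g x‖ ^ q := by
          rw [← Real.rpow_add h0, sub_add_cancel, Real.rpow_two]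
      _ ≤ _ := by gcongr
  · rw [norm_zero, zero_pow two_ne_zero]
    positivity

theorem lev_memLp (g : C(UnitAddTorus (Fin d), ℂ)) (j : ℕ) (r : ℝ≥0∞) :
    MemLp ((lev g j).indicator g) r (mu (Fin d)) := (memLp_cont g r).indicator (lev_meas g j)

theorem eLpNorm_one_le {G : UnitAddTorus (Fin d) → ℂ} (hG : Integrable G (mu (Fin d))) :
    eLpNorm G 1 (mu (Fin d)) = ENNReal.ofReal (∫ x, ‖G x‖ ∂(mu (Fin d))) := by
  rw [eLpNorm_one_eq_lintegral_enorm, ofReal_integral_norm_eq_lintegral_enorm hG]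

/-- normalised form of the upper estimate -/
theorem U1n (d : ℕ) {p q : ℝ} (hp : 1 ≤ p) (hpq : p < q) (hq2 : q ≤ 2) : ∃ C : ℝ, 0 < C ∧
    ∀ (S : Finset (Fin d → ℕ)) (g : (Fin d → ℕ) → C(UnitAddTorus (Fin d), ℂ)),
      (∀ s ∈ S, g s ∈ TP (rho s : Set (Fin d → ℤ))) →
      ∑ s ∈ S, ∫ x, ‖g s x‖ ^ q ∂(mu (Fin d)) ≤ 1 →
      eLpNorm (∑ s ∈ S, g s : C(UnitAddTorus (Fin d), ℂ)) (ENNReal.ofReal p) (mu (Fin d))
        ≤ ENNReal.ofReal C := by
  have hp0 : 0 < p := by linarith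
  have hq0 : 0 < q := by linarith
  have hq1 : 1 ≤ q := by linarith
  have hp2 : p ≤ 2 := by linarith
  set δ : ℝ := q / p - 1 with hδ
  have hδ0 : 0 < δ := by
    rw [hδ, sub_pos, one_lt_div hp0]; exact hpq
  set y : ℝ := (2 : ℝ) ^ (-δ) with hy
  have hy0 : 0 < y := by positivity
  have hy1 : y < 1 := Real.rpow_lt_one_of_one_lt_of_neg (by norm_num) (by linarith)
  refine ⟨Real.sqrt (8 ^ d) + 2 * 48 ^ d * (1 - y)⁻¹, by
    have : 0 < 1 - y := by linarith
    positivity, ?_⟩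
  intro S g hg hsum
  -- parameters
  obtain ⟨N, hN⟩ : ∃ N : ℕ, ∀ s ∈ S, ∀ i, s i < N := by
    refine ⟨(S.sup (fun s => Finset.univ.sup (fun i => s i))) + 1, fun s hs i => ?_⟩
    have h1 : s i ≤ Finset.univ.sup (fun i => s i) := Finset.le_sup (f := fun i => s i) (Finset.mem_univ i)
    have h2 : Finset.univ.sup (fun i => s i) ≤ S.sup (fun s => Finset.univ.sup (fun i => s i)) :=
      Finset.le_sup (f := fun s : Fin d → ℕ => Finset.univ.sup (fun i => s i)) hs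
    omega
  obtain ⟨J, hJ⟩ : ∃ J : ℕ, ∀ s ∈ S, ∀ x, ‖g s x‖ ≤ 2 ^ J := by
    obtain ⟨M, hM⟩ := exists_nat_ge (∑ s ∈ S, ‖g s‖)
    refine ⟨M, fun s hs x => ?_⟩
    calc ‖g s x‖ ≤ ‖g s‖ := (g s).norm_coe_le_norm x
      _ ≤ ∑ s ∈ S, ‖g s‖ := Finset.single_le_sum (f := fun s => ‖g s‖) (fun _ _ => norm_nonneg _) hs
      _ ≤ M := hM
      _ ≤ 2 ^ M := by exact_mod_cast (Nat.lt_two_pow_self (n := M)).le
  set F : ℕ → C(UnitAddTorus (Fin d), ℂ) := fun j => ∑ s ∈ S, mult N s ((lev (g s) j).indicator (g s))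
    with hF
  have hdecomp : ∑ s ∈ S, g s = ∑ j ∈ Finset.range (J + 1), F j := by
    rw [hF, Finset.sum_comm]
    refine Finset.sum_congr rfl (fun s hs => ?_)
    rw [← mult_sum (N := N) (s := s) (Finset.range (J + 1)) (fun j => (lev (g s) j).indicator (g s))
      (fun j _ => (lev_memLp (g s) j 1).integrable le_rfl)]
    have e1 : (fun x => ∑ j ∈ Finset.range (J + 1), (lev (g s) j).indicator (g s) x) = g s := by
      ext x
      rw [lev_sum, if_pos (hJ s hs x)]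
    rw [e1, mult_id (fun i => (hN s hs i).le) (hg s hs)]
  have hF2 : ∀ j, eLpNorm (F j) 2 (mu (Fin d)) ≤ ENNReal.ofReal (Real.sqrt (8 ^ d *
      ∑ s ∈ S, ∫ x, ‖(lev (g s) j).indicator (g s) x‖ ^ 2 ∂(mu (Fin d)))) := by
    intro j
    rw [eLpNorm_two]
    refine ENNReal.ofReal_le_ofReal (Real.sqrt_le_sqrt ?_)
    exact mult_L2 S hN (fun s => (lev (g s) j).indicator (g s)) (fun s _ => lev_memLp (g s) j 2)
  -- low part
  have hlow : eLpNorm (F 0) (ENNReal.ofReal p) (mu (Fin d)) ≤ ENNReal.ofReal (Real.sqrt (8 ^ d)) := by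
    calc eLpNorm (F 0) (ENNReal.ofReal p) (mu (Fin d)) ≤ eLpNorm (F 0) 2 (mu (Fin d)) := by
          refine eLpNorm_le_eLpNorm_of_exponent_le ?_ (memLp_cont (F 0) 1).1
          calc ENNReal.ofReal p ≤ ENNReal.ofReal 2 := ENNReal.ofReal_le_ofReal hp2
            _ = 2 := by norm_num
      _ ≤ _ := hF2 0
      _ ≤ _ := by
          refine ENNReal.ofReal_le_ofReal (Real.sqrt_le_sqrt ?_)
          calc (8 : ℝ) ^ d * ∑ s ∈ S, ∫ x, ‖(lev (g s) 0).indicator (g s) x‖ ^ 2 ∂(mu (Fin d))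
              ≤ 8 ^ d * ∑ s ∈ S, ∫ x, ‖g s x‖ ^ q ∂(mu (Fin d)) :=
                mul_le_mul_of_nonneg_left
                  (Finset.sum_le_sum (fun s _ => low_L2 (g s) hq0 hq2)) (by positivity)
            _ ≤ 8 ^ d * 1 := by gcongr
            _ = 8 ^ d := mul_one _
  -- high parts
  have hhigh : ∀ i, eLpNorm (F (i + 1)) (ENNReal.ofReal p) (mu (Fin d))
      ≤ ENNReal.ofReal (2 * 48 ^ d * y ^ i) := by
    intro i
    have hA : eLpNorm (F (i + 1)) 1 (mu (Fin d)) ≤ ENNReal.ofReal (6 ^ d * (2 : ℝ) ^ ((i : ℝ) * (1 - q))) := by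
      have h1 : (⇑(F (i + 1)) : UnitAddTorus (Fin d) → ℂ)
          = ∑ s ∈ S, ⇑(mult N s ((lev (g s) (i + 1)).indicator (g s))) := by
        rw [hF]
        simp only [ContinuousMap.coe_sum]
      rw [h1]
      refine (eLpNorm_sum_le (fun s _ => (memLp_cont _ 1).1) le_rfl).trans ?_
      calc ∑ s ∈ S, eLpNorm (mult N s ((lev (g s) (i + 1)).indicator (g s))) 1 (mu (Fin d))
          ≤ ∑ s ∈ S, 6 ^ d * ENNReal.ofReal ((2 : ℝ) ^ ((i : ℝ) * (1 - q))
            * ∫ x, ‖g s x‖ ^ q ∂(mu (Fin d))) := by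
            refine Finset.sum_le_sum (fun s hs => ?_)
            refine (mult_L1 (fun i => (hN s hs i).le)
              ((lev_memLp (g s) (i + 1) 1).integrable le_rfl)).trans ?_
            rw [eLpNorm_one_le ((lev_memLp (g s) (i + 1) 1).integrable le_rfl)]
            gcongr
            exact high_L1 (g s) hq1 i
        _ = 6 ^ d * ENNReal.ofReal (∑ s ∈ S, (2 : ℝ) ^ ((i : ℝ) * (1 - q))
            * ∫ x, ‖g s x‖ ^ q ∂(mu (Fin d))) := by
            rw [← Finset.mul_sum, ENNReal.ofReal_sum_of_nonneg]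
            intro s _
            have : 0 ≤ ∫ x, ‖g s x‖ ^ q ∂(mu (Fin d)) := integral_nonneg (fun x => by positivity)
            positivity
        _ ≤ 6 ^ d * ENNReal.ofReal ((2 : ℝ) ^ ((i : ℝ) * (1 - q))) := by
            gcongr
            rw [← Finset.mul_sum]
            have h2 : (0 : ℝ) ≤ (2 : ℝ) ^ ((i : ℝ) * (1 - q)) := by positivity
            nlinarith
        _ = _ := by
            rw [ENNReal.ofReal_mul (by positivity), ENNReal.ofReal_pow (by norm_num)]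
            norm_num
    have hB : eLpNorm (F (i + 1)) 2 (mu (Fin d))
        ≤ ENNReal.ofReal ((8 ^ d * (2 : ℝ) ^ (((i : ℝ) + 1) * (2 - q))) ^ ((1 : ℝ) / 2)) := by
      refine (hF2 (i + 1)).trans ?_
      rw [Real.sqrt_eq_rpow]
      refine ENNReal.ofReal_le_ofReal ?_
      have h0 : 0 ≤ ∑ s ∈ S, ∫ x, ‖(lev (g s) (i + 1)).indicator (g s) x‖ ^ 2 ∂(mu (Fin d)) :=
        Finset.sum_nonneg (fun s _ => integral_nonneg (fun x => by positivity))
      refine Real.rpow_le_rpow (by positivity) ?_ (by norm_num)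
      gcongr
      calc ∑ s ∈ S, ∫ x, ‖(lev (g s) (i + 1)).indicator (g s) x‖ ^ 2 ∂(mu (Fin d))
          ≤ ∑ s ∈ S, (2 : ℝ) ^ (((i : ℝ) + 1) * (2 - q)) * ∫ x, ‖g s x‖ ^ q ∂(mu (Fin d)) :=
            Finset.sum_le_sum (fun s _ => high_L2 (g s) hq0 hq2 i)
        _ ≤ _ := by
            rw [← Finset.mul_sum]
            have h2 : (0 : ℝ) ≤ (2 : ℝ) ^ (((i : ℝ) + 1) * (2 - q)) := by positivity
            nlinarith
    refine (interp_real (memLp_cont (F (i + 1)) 1).1 hp hp2 (by positivity) (by positivity)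
      hA hB).trans (ENNReal.ofReal_le_ofReal ?_)
    have e1 : 0 ≤ 2 / p - 1 := by
      rw [sub_nonneg, le_div_iff₀ hp0]; linarith
    have e2 : 0 ≤ 2 - 2 / p := by
      rw [sub_nonneg, div_le_iff₀ hp0]; linarith
    have e3 : 2 / p - 1 ≤ 1 := by
      rw [sub_le_iff_le_add, div_le_iff₀ hp0]; linarith
    have fA : (6 ^ d * (2 : ℝ) ^ ((i : ℝ) * (1 - q))) ^ (2 / p - 1)
        = ((6 : ℝ) ^ d) ^ (2 / p - 1) * (2 : ℝ) ^ ((i : ℝ) * (1 - q) * (2 / p - 1)) := by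
      rw [Real.mul_rpow (by positivity) (by positivity), ← Real.rpow_mul (by norm_num)]
    have fB : ((8 ^ d * (2 : ℝ) ^ (((i : ℝ) + 1) * (2 - q))) ^ ((1 : ℝ) / 2)) ^ (2 - 2 / p)
        = ((8 : ℝ) ^ d) ^ (1 / 2 * (2 - 2 / p))
          * (2 : ℝ) ^ (((i : ℝ) + 1) * (2 - q) * (1 / 2 * (2 - 2 / p))) := by
      rw [← Real.rpow_mul (by positivity), Real.mul_rpow (by positivity) (by positivity),
        ← Real.rpow_mul (by norm_num)]
    rw [fA, fB]
    have f1 : ((6 : ℝ) ^ d) ^ (2 / p - 1) ≤ 6 ^ d := by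
      calc ((6 : ℝ) ^ d) ^ (2 / p - 1) ≤ ((6 : ℝ) ^ d) ^ (1 : ℝ) :=
            Real.rpow_le_rpow_of_exponent_le (one_le_pow₀ (by norm_num)) e3
        _ = _ := Real.rpow_one _
    have f2 : ((8 : ℝ) ^ d) ^ (1 / 2 * (2 - 2 / p)) ≤ 8 ^ d := by
      calc ((8 : ℝ) ^ d) ^ (1 / 2 * (2 - 2 / p)) ≤ ((8 : ℝ) ^ d) ^ (1 : ℝ) := by
            refine Real.rpow_le_rpow_of_exponent_le (one_le_pow₀ (by norm_num)) ?_
            have : 0 < 2 / p := by positivity
            linarith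
        _ = _ := Real.rpow_one _
    have f3 : (2 : ℝ) ^ ((i : ℝ) * (1 - q) * (2 / p - 1))
        * (2 : ℝ) ^ (((i : ℝ) + 1) * (2 - q) * (1 / 2 * (2 - 2 / p))) ≤ 2 * y ^ i := by
      rw [← Real.rpow_add (by norm_num), hy, ← Real.rpow_natCast, ← Real.rpow_mul (by norm_num)]
      have h3 : (i : ℝ) * (1 - q) * (2 / p - 1) + ((i : ℝ) + 1) * (2 - q) * (1 / 2 * (2 - 2 / p))
          ≤ 1 + -δ * i := by
        have h4 : (i : ℝ) * (1 - q) * (2 / p - 1) + ((i : ℝ) + 1) * (2 - q) * (1 / 2 * (2 - 2 / p))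
            = (2 - q) * (1 - 1 / p) + -δ * i := by
          rw [hδ]
          field_simp
          ring
        rw [h4]
        have h5 : 0 < 1 / p := by positivity
        have h6 : 1 / p ≤ 1 := by rw [div_le_one hp0]; exact hp
        have h7 : (2 - q) * (1 - 1 / p) ≤ 1 := by nlinarith
        linarith
      calc (2 : ℝ) ^ ((i : ℝ) * (1 - q) * (2 / p - 1) + ((i : ℝ) + 1) * (2 - q) * (1 / 2 * (2 - 2 / p)))
          ≤ (2 : ℝ) ^ (1 + -δ * i) := Real.rpow_le_rpow_of_exponent_le (by norm_num) h3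
        _ = 2 * (2 : ℝ) ^ (-δ * i) := by rw [Real.rpow_add (by norm_num), Real.rpow_one]
    calc ((6 : ℝ) ^ d) ^ (2 / p - 1) * (2 : ℝ) ^ ((i : ℝ) * (1 - q) * (2 / p - 1))
          * (((8 : ℝ) ^ d) ^ (1 / 2 * (2 - 2 / p)) * (2 : ℝ) ^ (((i : ℝ) + 1) * (2 - q) * (1 / 2 * (2 - 2 / p))))
        = (((6 : ℝ) ^ d) ^ (2 / p - 1) * ((8 : ℝ) ^ d) ^ (1 / 2 * (2 - 2 / p)))
          * ((2 : ℝ) ^ ((i : ℝ) * (1 - q) * (2 / p - 1))
            * (2 : ℝ) ^ (((i : ℝ) + 1) * (2 - q) * (1 / 2 * (2 - 2 / p)))) := by ring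
      _ ≤ (6 ^ d * 8 ^ d) * (2 * y ^ i) := by gcongr
      _ = _ := by
          rw [← mul_pow]
          norm_num
          ring
  -- sum up
  rw [hdecomp]
  have h1 : (⇑(∑ j ∈ Finset.range (J + 1), F j : C(UnitAddTorus (Fin d), ℂ)) : UnitAddTorus (Fin d) → ℂ)
      = ∑ j ∈ Finset.range (J + 1), ⇑(F j) := by
    simp only [ContinuousMap.coe_sum]
  rw [h1]
  refine (eLpNorm_sum_le (fun s _ => (memLp_cont _ 1).1) (by
    rw [← ENNReal.ofReal_one]; exact ENNReal.ofReal_le_ofReal hp)).trans ?_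
  rw [Finset.sum_range_succ']
  have hgeo : ∑ i ∈ Finset.range J, y ^ i ≤ (1 - y)⁻¹ := by
    rw [← tsum_geometric_of_lt_one hy0.le hy1]
    exact (summable_geometric_of_lt_one hy0.le hy1).sum_le_tsum _ (fun i _ => by positivity)
  calc ∑ i ∈ Finset.range J, eLpNorm (F (i + 1)) (ENNReal.ofReal p) (mu (Fin d))
        + eLpNorm (F 0) (ENNReal.ofReal p) (mu (Fin d))
      ≤ ∑ i ∈ Finset.range J, ENNReal.ofReal (2 * 48 ^ d * y ^ i) + ENNReal.ofReal (Real.sqrt (8 ^ d)) := by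
        gcongr with i _
        · exact hhigh i
    _ = ENNReal.ofReal (∑ i ∈ Finset.range J, 2 * 48 ^ d * y ^ i + Real.sqrt (8 ^ d)) := by
        rw [ENNReal.ofReal_add (by positivity) (by positivity), ENNReal.ofReal_sum_of_nonneg]
        intro i _
        positivity
    _ ≤ _ := by
        refine ENNReal.ofReal_le_ofReal ?_
        rw [← Finset.mul_sum, add_comm]
        gcongr

end Run7.h481
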