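import Pool.Agent.Run7.h481.U3

namespace Run7.h481

open MeasureTheory UnitAddTorus ENNReal Filter Topology

variable {d : ℕ}

theorem int_cont_zero {h : UnitAddTorus (Fin d) → ℂ} (hh : Integrable h (mu (Fin d)))
    (h0 : ∀ k, coef h k = 0) (φ : C(UnitAddTorus (Fin d), ℂ)) :
    ∫ x, h x * φ x ∂(mu (Fin d)) = 0 := by
  have hspan : ∀ ψ ∈ Submodule.span ℂ (Set.range (mFourier (d := Fin d))),
      ∫ x, h x * ψ x ∂(mu (Fin d)) = 0 := by
    intro ψ hψ
    induction hψ using Submodule.span_induction with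
    | zero => simp
    | add f g _ _ hf hg =>
      simp only [ContinuousMap.add_apply, mul_add]
      rw [integral_add (e_int hh f) (e_int hh g), hf, hg, add_zero]
    | smul c f _ hf =>
      have : ∀ x, h x * (c • f) x = c * (h x * f x) := by
        intro x
        simp only [ContinuousMap.smul_apply, smul_eq_mul]
        ring
      simp_rw [this]
      rw [integral_const_mul, hf, mul_zero]
    | mem f hf =>
      obtain ⟨k, rfl⟩ := hf
      have := h0 (-k)
      unfold coef at this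
      rwa [neg_neg] at this
  have hφ : φ ∈ closure ((Submodule.span ℂ (Set.range (mFourier (d := Fin d)))) :
      Set C(UnitAddTorus (Fin d), ℂ)) := by
    have h1 := span_mFourier_closure_eq_top (d := Fin d)
    have h2 : φ ∈ (Submodule.span ℂ (Set.range (mFourier (d := Fin d)))).topologicalClosure := by
      rw [h1]; trivial
    exact h2
  rw [Metric.mem_closure_iff] at hφ
  set A := ∫ x, ‖h x‖ ∂(mu (Fin d)) with hA
  have hA0 : 0 ≤ A := integral_nonneg (fun x => norm_nonneg _)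
  have hle : ∀ ε > 0, ‖∫ x, h x * φ x ∂(mu (Fin d))‖ ≤ ε * A := by
    intro ε hε
    obtain ⟨ψ, hψ, hdist⟩ := hφ ε hε
    have h1 := hspan ψ hψ
    have h2 : ∫ x, h x * φ x ∂(mu (Fin d)) = ∫ x, h x * (φ - ψ) x ∂(mu (Fin d)) := by
      have : ∀ x, h x * (φ - ψ) x = h x * φ x - h x * ψ x := by
        intro x
        simp only [ContinuousMap.sub_apply, mul_sub]
      simp_rw [this]
      rw [integral_sub (e_int hh φ) (e_int hh ψ), h1, sub_zero]
    rw [h2]
    calc ‖∫ x, h x * (φ - ψ) x ∂(mu (Fin d))‖ ≤ ∫ x, ‖h x * (φ - ψ) x‖ ∂(mu (Fin d)) :=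
          norm_integral_le_integral_norm _
      _ ≤ ∫ x, ε * ‖h x‖ ∂(mu (Fin d)) := by
          refine integral_mono (e_int hh (φ - ψ)).norm (hh.norm.const_mul ε) (fun x => ?_)
          simp only [norm_mul]
          have h3 : ‖(φ - ψ) x‖ ≤ ε := ((φ - ψ).norm_coe_le_norm x).trans (by
            rw [← dist_eq_norm]; exact hdist.le)
          rw [mul_comm]
          gcongr
      _ = ε * A := by rw [integral_const_mul]
  by_contra hne
  have hpos : 0 < ‖∫ x, h x * φ x ∂(mu (Fin d))‖ := norm_pos_iff.mpr hne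
  have := hle (‖∫ x, h x * φ x ∂(mu (Fin d))‖ / (2 * (A + 1))) (by positivity)
  have h5 : ‖∫ x, h x * φ x ∂(mu (Fin d))‖ / (2 * (A + 1)) * A
      < ‖∫ x, h x * φ x ∂(mu (Fin d))‖ := by
    rw [div_mul_eq_mul_div, div_lt_iff₀ (by positivity)]
    nlinarith
  linarith

/-- uniqueness of Fourier coefficients -/
theorem uniq {h : UnitAddTorus (Fin d) → ℂ} (hh : Integrable h (mu (Fin d)))
    (h0 : ∀ k, coef h k = 0) : h =ᵐ[mu (Fin d)] 0 := by
  refine ae_eq_zero_of_forall_setIntegral_isClosed_eq_zero hh (fun F hF => ?_)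
  have hlim : Tendsto (fun n => ∫ x, h x * ((hF.apprSeq n x : NNReal) : ℂ) ∂(mu (Fin d))) atTop
      (𝓝 (∫ x, h x * (((F.indicator (fun _ => (1 : NNReal)) x : NNReal)) : ℂ) ∂(mu (Fin d)))) := by
    refine tendsto_integral_of_dominated_convergence (fun x => ‖h x‖) ?_ hh.norm ?_ ?_
    · intro n
      refine hh.1.mul ?_
      refine Continuous.aestronglyMeasurable ?_
      have := (hF.apprSeq n).continuous
      fun_prop
    · intro n
      refine Filter.Eventually.of_forall (fun x => ?_)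
      rw [norm_mul]
      have h1 : ‖((hF.apprSeq n x : NNReal) : ℂ)‖ ≤ 1 := by
        have h2 := HasOuterApproxClosed.apprSeq_apply_le_one hF n x
        have h3 : ((hF.apprSeq n x : NNReal) : ℝ) ≤ 1 := by exact_mod_cast h2
        have h4 : ((hF.apprSeq n x : NNReal) : ℂ) = (((hF.apprSeq n x : NNReal) : ℝ) : ℂ) := rfl
        rw [h4, Complex.norm_real, Real.norm_of_nonneg (NNReal.coe_nonneg _)]
        exact h3
      calc ‖h x‖ * _ ≤ ‖h x‖ * 1 := by gcongr
        _ = ‖h x‖ := mul_one _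
    · refine Filter.Eventually.of_forall (fun x => ?_)
      have h1 := HasOuterApproxClosed.tendsto_apprSeq hF
      rw [tendsto_pi_nhds] at h1
      have h2 := h1 x
      refine Tendsto.mul tendsto_const_nhds ?_
      have h3 : Continuous (fun y : NNReal => ((y : ℝ) : ℂ)) := by fun_prop
      exact (h3.tendsto _).comp h2
  have hz : ∀ n, ∫ x, h x * ((hF.apprSeq n x : NNReal) : ℂ) ∂(mu (Fin d)) = 0 := by
    intro n
    exact int_cont_zero hh h0 ⟨fun x => ((hF.apprSeq n x : NNReal) : ℂ), by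
      have := (hF.apprSeq n).continuous
      fun_prop⟩
  simp_rw [hz] at hlim
  have h1 := tendsto_nhds_unique hlim tendsto_const_nhds
  rw [← integral_indicator hF.measurableSet]
  rw [← h1]
  congr 1
  ext x
  classical
  simp only [Set.indicator_apply]
  split_ifs <;> simp

/-- the block as a continuous function -/
noncomputable def blkC (s : Fin d → ℕ) (f : UnitAddTorus (Fin d) → ℂ) :
    C(UnitAddTorus (Fin d), ℂ) := ∑ k ∈ rho s, coef f k • mFourier k

theorem blkC_coe (s : Fin d → ℕ) (f : UnitAddTorus (Fin d) → ℂ) : ⇑(blkC s f) = blk s f := by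
  ext x
  unfold blkC blk
  simp only [ContinuousMap.coe_sum, Finset.sum_apply, ContinuousMap.smul_apply, smul_eq_mul]

theorem blkC_TP (s : Fin d → ℕ) (f : UnitAddTorus (Fin d) → ℂ) :
    blkC s f ∈ TP (rho s : Set (Fin d → ℤ)) :=
  Submodule.sum_mem _ (fun _ hk => Submodule.smul_mem _ _ (e_mem hk))

theorem exists_block (k : Fin d → ℤ) : ∃ s : Fin d → ℕ, k ∈ rho s := by
  refine ⟨fun j => if k j = 0 then 0 else Nat.log 2 (k j).natAbs + 1, ?_⟩
  rw [mem_rho]
  intro j
  by_cases h : k j = 0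
  · simp [h]
  · simp only [h, if_false]
    rw [half_pow_nat _ (by omega), Nat.add_sub_cancel]
    have hna : (k j).natAbs ≠ 0 := Int.natAbs_ne_zero.mpr h
    have h5 : 2 ^ (Nat.log 2 (k j).natAbs) ≤ (k j).natAbs := Nat.pow_log_le_self 2 hna
    have h6 : (k j).natAbs < 2 ^ (Nat.log 2 (k j).natAbs + 1) :=
      Nat.lt_pow_succ_log_self (by norm_num) _
    have h7 : |k j| = ((k j).natAbs : ℤ) := (Int.natCast_natAbs (k j)).symm
    rw [h7]
    exact ⟨by exact_mod_cast h5, by exact_mod_cast h6⟩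

theorem coef_sub {f g : UnitAddTorus (Fin d) → ℂ} (hf : Integrable f (mu (Fin d)))
    (hg : Integrable g (mu (Fin d))) (k : Fin d → ℤ) :
    coef (fun x => f x - g x) k = coef f k - coef g k := by
  unfold coef
  rw [← integral_sub (e_int hf _) (e_int hg _)]
  congr 1
  ext x
  ring

theorem coef_le {f : UnitAddTorus (Fin d) → ℂ} (k : Fin d → ℤ) :
    ‖coef f k‖ₑ ≤ eLpNorm f 1 (mu (Fin d)) := by
  unfold coef
  rw [eLpNorm_one_eq_lintegral_enorm]
  refine (enorm_integral_le_lintegral_enorm _).trans (le_of_eq ?_)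
  refine lintegral_congr (fun x => ?_)
  rw [enorm_mul]
  have : ‖mFourier (-k) x‖ₑ = 1 := by
    rw [← ofReal_norm, norm_e, ENNReal.ofReal_one]
  rw [this, mul_one]

theorem coef_blkC_sum (S : Finset (Fin d → ℕ)) (f : UnitAddTorus (Fin d) → ℂ)
    {k : Fin d → ℤ} {s : Fin d → ℕ} (hk : k ∈ rho s) (hs : s ∈ S) :
    coef (∑ s ∈ S, blkC s f : C(UnitAddTorus (Fin d), ℂ)) k = coef f k := by
  rw [coef_sum, Finset.sum_eq_single s]
  · unfold blkC
    rw [coef_sum, Finset.sum_eq_single k]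
    · rw [coef_eq, ip_smul_left, ip_e, if_pos rfl, mul_one]
    · intro b _ hb
      rw [coef_eq, ip_smul_left, ip_e, if_neg hb, mul_zero]
    · intro h; exact absurd hk h
  · intro b _ hb
    exact coef_TP (blkC_TP b f) (fun hk' => hb (rho_inj hk' hk))
  · intro h; exact absurd hs h

theorem complete {q : ℝ} (hq : 1 ≤ q) {f : UnitAddTorus (Fin d) → ℂ}
    (hf : MemLp f (ENNReal.ofReal q) (mu (Fin d)))
    (hsum : ∑' s, eLpNorm (blk s f) (ENNReal.ofReal q) (mu (Fin d)) ≠ ∞) :
    Tendsto (fun S : Finset (Fin d → ℕ) =>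
      eLpNorm (fun x => f x - (∑ s ∈ S, blkC s f : C(UnitAddTorus (Fin d), ℂ)) x)
        (ENNReal.ofReal q) (mu (Fin d))) atTop (𝓝 0) := by
  have hq1 : (1 : ℝ≥0∞) ≤ ENNReal.ofReal q := by
    rw [← ENNReal.ofReal_one]; exact ENNReal.ofReal_le_ofReal hq
  have : Fact (1 ≤ ENNReal.ofReal q) := ⟨hq1⟩
  set u : (Fin d → ℕ) → Lp ℂ (ENNReal.ofReal q) (mu (Fin d)) := fun s =>
    ContinuousMap.toLp (E := ℂ) (ENNReal.ofReal q) (mu (Fin d)) ℂ (blkC s f) with hu
  have hun : ∀ s, ‖u s‖ = (eLpNorm (blk s f) (ENNReal.ofReal q) (mu (Fin d))).toReal := by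
    intro s
    rw [Lp.norm_def, ← blkC_coe]
    congr 1
    exact eLpNorm_congr_ae (ContinuousMap.coeFn_toLp _ _)
  have hsm : Summable u := by
    refine Summable.of_norm ?_
    simp_rw [hun]
    exact ENNReal.summable_toReal hsum
  obtain ⟨F, hF⟩ := hsm
  have hS : ∀ S : Finset (Fin d → ℕ), ∑ s ∈ S, u s
      = ContinuousMap.toLp (E := ℂ) (ENNReal.ofReal q) (mu (Fin d)) ℂ (∑ s ∈ S, blkC s f) := by
    intro S
    rw [map_sum]
  have hnorm : ∀ S : Finset (Fin d → ℕ),
      eLpNorm (fun x => F x - (∑ s ∈ S, blkC s f : C(UnitAddTorus (Fin d), ℂ)) x)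
        (ENNReal.ofReal q) (mu (Fin d)) = ENNReal.ofReal ‖F - ∑ s ∈ S, u s‖ := by
    intro S
    rw [Lp.norm_def, ENNReal.ofReal_toReal (Lp.eLpNorm_ne_top _)]
    refine (eLpNorm_congr_ae ?_).symm
    filter_upwards [Lp.coeFn_sub F (∑ s ∈ S, u s),
      ContinuousMap.coeFn_toLp (p := ENNReal.ofReal q) (𝕜 := ℂ) (mu (Fin d))
        (∑ s ∈ S, blkC s f : C(UnitAddTorus (Fin d), ℂ))] with x h1 h2
    rw [h1, Pi.sub_apply, hS S, h2]
  have hlim : Tendsto (fun S : Finset (Fin d → ℕ) =>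
      eLpNorm (fun x => F x - (∑ s ∈ S, blkC s f : C(UnitAddTorus (Fin d), ℂ)) x)
        (ENNReal.ofReal q) (mu (Fin d))) atTop (𝓝 0) := by
    simp_rw [hnorm]
    have h1 : Tendsto (fun S : Finset (Fin d → ℕ) => ‖F - ∑ s ∈ S, u s‖) atTop (𝓝 0) := by
      have h2 : Tendsto (fun S : Finset (Fin d → ℕ) => F - ∑ s ∈ S, u s) atTop (𝓝 (F - F)) :=
        tendsto_const_nhds.sub hF
      rw [sub_self] at h2
      simpa using h2.norm
    have h3 := (ENNReal.continuous_ofReal.tendsto 0).comp h1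
    rw [ENNReal.ofReal_zero] at h3
    exact h3
  have hFm : MemLp F (ENNReal.ofReal q) (mu (Fin d)) := Lp.memLp F
  have hFi : Integrable F (mu (Fin d)) := hFm.integrable hq1
  have hfi : Integrable f (mu (Fin d)) := hf.integrable hq1
  have hcoef : ∀ k, coef (fun x => F x - f x) k = 0 := by
    intro k
    obtain ⟨s, hk⟩ := exists_block k
    rw [coef_sub hFi hfi]
    have h1 : ∀ S : Finset (Fin d → ℕ), s ∈ S → ‖coef F k - coef f k‖ₑ ≤
        eLpNorm (fun x => F x - (∑ s ∈ S, blkC s f : C(UnitAddTorus (Fin d), ℂ)) x)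
        (ENNReal.ofReal q) (mu (Fin d)) := by
      intro S hs
      have h2 := coef_le (f := fun x => F x - (∑ s ∈ S, blkC s f : C(UnitAddTorus (Fin d), ℂ)) x) k
      rw [coef_sub hFi (cint (ContinuousMap.continuous _)), coef_blkC_sum S f hk hs] at h2
      refine h2.trans (eLpNorm_le_eLpNorm_of_exponent_le hq1 ?_)
      exact hFm.1.sub (ContinuousMap.continuous _).aestronglyMeasurable
    have h3 : ‖coef F k - coef f k‖ₑ ≤ 0 := by
      refine ge_of_tendsto hlim ?_
      filter_upwards [eventually_ge_atTop ({s} : Finset (Fin d → ℕ))] with S hSs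
      exact h1 S (hSs (Finset.mem_singleton_self s))
    simpa using h3
  have hae := uniq (hFi.sub hfi) (by
    intro k
    exact hcoef k)
  refine hlim.congr (fun S => ?_)
  refine eLpNorm_congr_ae ?_
  filter_upwards [hae] with x hx
  have : F x - f x = 0 := hx
  rw [sub_eq_zero.mp this]

end Run7.h481
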