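import Pool.Agent.Run7.h481.U4

namespace Run7.h481

open MeasureTheory UnitAddTorus ENNReal Filter Topology

variable {d : ℕ}

theorem eLpNorm_qpow (g : C(UnitAddTorus (Fin d), ℂ)) {q : ℝ} (hq : 0 < q) :
    (eLpNorm g (ENNReal.ofReal q) (mu (Fin d))) ^ q
      = ENNReal.ofReal (∫ x, ‖g x‖ ^ q ∂(mu (Fin d))) := by
  rw [(memLp_cont g _).eLpNorm_eq_integral_rpow_norm (by simpa using hq) ENNReal.ofReal_ne_top,
    ENNReal.toReal_ofReal hq.le]
  have h0 : 0 ≤ ∫ x, ‖g x‖ ^ q ∂(mu (Fin d)) := integral_nonneg (fun x => by positivity)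
  rw [ENNReal.ofReal_rpow_of_nonneg (by positivity) hq.le, ← Real.rpow_mul h0,
    inv_mul_cancel₀ hq.ne', Real.rpow_one]

theorem U1p (d : ℕ) {p q : ℝ} (hp : 1 ≤ p) (hpq : p < q) (hq2 : q ≤ 2) : ∃ C : ℝ, 0 < C ∧
    ∀ (S : Finset (Fin d → ℕ)) (g : (Fin d → ℕ) → C(UnitAddTorus (Fin d), ℂ)),
      (∀ s ∈ S, g s ∈ TP (rho s : Set (Fin d → ℤ))) → ∀ T : ℝ, 0 < T →
      ∑ s ∈ S, (eLpNorm (g s) (ENNReal.ofReal q) (mu (Fin d))) ^ q ≤ ENNReal.ofReal T →
      eLpNorm (∑ s ∈ S, g s : C(UnitAddTorus (Fin d), ℂ)) (ENNReal.ofReal p) (mu (Fin d))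
        ≤ ENNReal.ofReal (C * T ^ (1 / q)) := by
  obtain ⟨C, hC, h⟩ := U1n d hp hpq hq2
  have hq0 : 0 < q := by linarith
  refine ⟨C, hC, ?_⟩
  intro S g hg T hT hsum
  set t : ℝ := T ^ (1 / q) with ht
  have ht0 : 0 < t := by positivity
  have htq : t ^ q = T := by
    rw [ht, ← Real.rpow_mul hT.le, one_div_mul_cancel hq0.ne', Real.rpow_one]
  have hsum' : ∑ s ∈ S, ∫ x, ‖g s x‖ ^ q ∂(mu (Fin d)) ≤ T := by
    simp_rw [eLpNorm_qpow _ hq0] at hsum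
    rw [← ENNReal.ofReal_sum_of_nonneg (fun s _ => integral_nonneg (fun x => by positivity))] at hsum
    exact (ENNReal.ofReal_le_ofReal_iff hT.le).mp hsum
  have h1 := h S (fun s => ((t⁻¹ : ℝ) : ℂ) • g s) (fun s hs => Submodule.smul_mem _ _ (hg s hs)) (by
    have h2 : ∀ s, ∫ x, ‖(((t⁻¹ : ℝ) : ℂ) • g s : C(UnitAddTorus (Fin d), ℂ)) x‖ ^ q ∂(mu (Fin d))
        = T⁻¹ * ∫ x, ‖g s x‖ ^ q ∂(mu (Fin d)) := by
      intro s
      rw [← integral_const_mul]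
      congr 1
      ext x
      rw [ContinuousMap.smul_apply, norm_smul, Complex.norm_real, Real.norm_of_nonneg (by positivity),
        Real.mul_rpow (by positivity) (norm_nonneg _), Real.inv_rpow ht0.le, htq]
    simp_rw [h2]
    rw [← Finset.mul_sum, inv_mul_le_iff₀ hT, mul_one]
    exact hsum')
  rw [← Finset.smul_sum] at h1
  have e1 : (⇑(((t⁻¹ : ℝ) : ℂ) • ∑ s ∈ S, g s : C(UnitAddTorus (Fin d), ℂ)) :
      UnitAddTorus (Fin d) → ℂ) = ((t⁻¹ : ℝ) : ℂ) • ⇑(∑ s ∈ S, g s) := rfl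
  have e2 : ‖(((t⁻¹ : ℝ) : ℂ))‖ₑ = ENNReal.ofReal t⁻¹ := by
    rw [← ofReal_norm, Complex.norm_real, Real.norm_of_nonneg (by positivity)]
  rw [e1, eLpNorm_const_smul, e2, ENNReal.ofReal_inv_of_pos ht0, mul_comm,
    ← div_eq_mul_inv, ENNReal.div_le_iff (by simpa using ht0) ENNReal.ofReal_ne_top] at h1
  rw [ENNReal.ofReal_mul hC.le]
  exact h1

/-- enumeration of a set of characters -/
theorem enum (m : ℕ) (Λ : Finset (Fin d → ℤ)) (hΛ : Λ.card ≤ m) (a : (Fin d → ℤ) → ℂ) :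
    ∃ (K : Fin m → Fin d → ℤ) (c : Fin m → ℂ), ∀ x : UnitAddTorus (Fin d),
      ∑ i, c i * mFourier (K i) x = ∑ k ∈ Λ, a k * mFourier k x := by
  classical
  set e := Λ.equivFin with he
  set K' : ℕ → Fin d → ℤ := fun i => if h : i < Λ.card then (e.symm ⟨i, h⟩ : Fin d → ℤ) else 0 with hK'
  set c' : ℕ → ℂ := fun i => if h : i < Λ.card then a (e.symm ⟨i, h⟩ : Fin d → ℤ) else 0 with hc'
  refine ⟨fun i => K' i, fun i => c' i, fun x => ?_⟩
  have h1 : ∑ i : Fin m, c' i * mFourier (K' i) x = ∑ i ∈ Finset.range m, c' i * mFourier (K' i) x :=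
    (Finset.sum_range (fun i => c' i * mFourier (K' i) x)).symm
  have h2 : ∑ i ∈ Finset.range m, c' i * mFourier (K' i) x
      = ∑ i ∈ Finset.range Λ.card, c' i * mFourier (K' i) x := by
    symm
    refine Finset.sum_subset (Finset.range_subset_range.mpr hΛ) (fun i _ hi => ?_)
    rw [Finset.mem_range] at hi
    simp only [hc', hi, dif_neg, not_false_eq_true, zero_mul]
  have h3 : ∑ i ∈ Finset.range Λ.card, c' i * mFourier (K' i) x
      = ∑ i : Fin Λ.card, a (e.symm i : Fin d → ℤ) * mFourier (e.symm i : Fin d → ℤ) x := by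
    rw [Finset.sum_range]
    refine Finset.sum_congr rfl (fun i _ => ?_)
    simp only [hc', hK', i.2, dif_pos]
  calc ∑ i : Fin m, c' i * mFourier (K' i) x
      = ∑ i : Fin Λ.card, a (e.symm i : Fin d → ℤ) * mFourier (e.symm i : Fin d → ℤ) x := by
        rw [h1, h2, h3]
    _ = ∑ k : Λ, a k * mFourier (k : Fin d → ℤ) x :=
        e.symm.sum_comp (fun k : Λ => a k * mFourier (k : Fin d → ℤ) x)
    _ = ∑ k ∈ Λ, a k * mFourier k x := Finset.sum_coe_sort Λ (fun k => a k * mFourier k x)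

theorem card_band (t : ℕ) : ((Finset.Icc (-(2 : ℤ) ^ t) (2 ^ t)).filter
    fun k => ((2 ^ t / 2 : ℕ) : ℤ) ≤ |k| ∧ |k| < 2 ^ t).card ≤ 2 ^ t := by
  rcases Nat.eq_zero_or_pos t with h | h
  · subst h
    have : ((Finset.Icc (-(2 : ℤ) ^ 0) (2 ^ 0)).filter
        fun k => ((2 ^ 0 / 2 : ℕ) : ℤ) ≤ |k| ∧ |k| < 2 ^ 0) ⊆ {0} := by
      intro k hk
      rw [Finset.mem_filter, pow_zero] at hk
      rw [Finset.mem_singleton]
      have := hk.2.2
      exact Int.abs_lt_one_iff.mp this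
    exact (Finset.card_le_card this).trans (by simp)
  · rw [half_pow_nat t h]
    have hp : (2 : ℤ) ^ t = 2 * 2 ^ (t - 1) := by
      rw [← pow_succ']
      congr 1
      omega
    have hsub : ((Finset.Icc (-(2 : ℤ) ^ t) (2 ^ t)).filter
        fun k => (2 : ℤ) ^ (t - 1) ≤ |k| ∧ |k| < 2 ^ t)
        ⊆ Finset.Ico (2 ^ (t - 1)) (2 ^ t) ∪ Finset.Ioc (-(2 ^ t)) (-(2 ^ (t - 1))) := by
      intro k hk
      rw [Finset.mem_filter] at hk
      rw [Finset.mem_union, Finset.mem_Ico, Finset.mem_Ioc]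
      obtain ⟨_, h1, h2⟩ := hk
      rcases le_abs.mp h1 with h3 | h3
      · left; exact ⟨h3, (abs_lt.mp h2).2⟩
      · right
        have := (abs_lt.mp h2).1
        constructor <;> linarith
    refine (Finset.card_le_card hsub).trans ((Finset.card_union_le _ _).trans ?_)
    rw [Int.card_Ico, Int.card_Ioc]
    have h1 : ((2 : ℤ) ^ t - 2 ^ (t - 1)).toNat = 2 ^ (t - 1) := by
      rw [hp]
      have : (2 * 2 ^ (t - 1) - 2 ^ (t - 1) : ℤ) = ((2 ^ (t - 1) : ℕ) : ℤ) := by push_cast; ring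
      rw [this, Int.toNat_natCast]
    have h2 : (-(2 : ℤ) ^ (t - 1) - -(2 ^ t)).toNat = 2 ^ (t - 1) := by
      rw [hp]
      have : (-2 ^ (t - 1) - -(2 * 2 ^ (t - 1)) : ℤ) = ((2 ^ (t - 1) : ℕ) : ℤ) := by push_cast; ring
      rw [this, Int.toNat_natCast]
    rw [h1, h2]
    have : 2 ^ t = 2 ^ (t - 1) + 2 ^ (t - 1) := by
      obtain ⟨t', rfl⟩ : ∃ t', t = t' + 1 := ⟨t - 1, by omega⟩
      rw [Nat.add_sub_cancel, pow_succ]
      ring
    omega

theorem card_rho (s : Fin d → ℕ) : (rho s).card ≤ 2 ^ (∑ i, s i) := by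
  unfold rho
  rw [Fintype.card_piFinset, ← Finset.prod_pow_eq_pow_sum]
  exact Finset.prod_le_prod' (fun i _ => card_band (s i))

theorem sig_le (m : ℕ) (p : ℝ) (f : UnitAddTorus (Fin d) → ℂ) (S : Finset (Fin d → ℕ))
    (hS : ∑ s ∈ S, 2 ^ (∑ i, s i) ≤ m) :
    sig m p f ≤ eLpNorm (fun x => f x - (∑ s ∈ S, blkC s f : C(UnitAddTorus (Fin d), ℂ)) x)
      (ENNReal.ofReal p) (mu (Fin d)) := by
  classical
  set Λ := S.biUnion rho with hΛ
  have hc : Λ.card ≤ m := by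
    refine (Finset.card_biUnion_le).trans (le_trans ?_ hS)
    exact Finset.sum_le_sum (fun s _ => card_rho s)
  obtain ⟨K, c, h⟩ := enum m Λ hc (coef f)
  refine (iInf₂_le K c).trans (le_of_eq ?_)
  congr 1
  ext x
  rw [h x]
  congr 1
  rw [hΛ, Finset.sum_biUnion]
  · simp only [ContinuousMap.coe_sum, Finset.sum_apply, blkC_coe]
    rfl
  · intro s _ s' _ hne
    rw [Function.onFun, Finset.disjoint_left]
    intro k hk hk'
    exact hne (rho_inj hk hk')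

theorem upper_core (d : ℕ) {p q : ℝ} (hp : 1 ≤ p) (hpq : p < q) (hq2 : q ≤ 2) : ∃ C : ℝ, 0 < C ∧
    ∀ (f : UnitAddTorus (Fin d) → ℂ), MemLp f (ENNReal.ofReal q) (mu (Fin d)) →
      ∑' s, eLpNorm (blk s f) (ENNReal.ofReal q) (mu (Fin d)) ≠ ∞ →
      ∀ (S0 : Finset (Fin d → ℕ)) (T : ℝ), 0 < T →
      (∀ S : Finset (Fin d → ℕ), Disjoint S S0 →
        ∑ s ∈ S, (eLpNorm (blk s f) (ENNReal.ofReal q) (mu (Fin d))) ^ q ≤ ENNReal.ofReal T) →
      ∀ m : ℕ, ∑ s ∈ S0, 2 ^ (∑ i, s i) ≤ m → sig m p f ≤ ENNReal.ofReal (C * T ^ (1 / q)) := by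
  classical
  obtain ⟨C, hC, hU⟩ := U1p d hp hpq hq2
  refine ⟨C, hC, ?_⟩
  intro f hf hsum S0 T hT hrest m hm
  have hq1 : 1 ≤ q := by linarith
  have hp1 : (1 : ℝ≥0∞) ≤ ENNReal.ofReal p := by
    rw [← ENNReal.ofReal_one]; exact ENNReal.ofReal_le_ofReal hp
  refine (sig_le m p f S0 hm).trans ?_
  have hlim := complete hq1 hf hsum
  have hle : ∀ S : Finset (Fin d → ℕ), S0 ⊆ S →
      eLpNorm (fun x => f x - (∑ s ∈ S0, blkC s f : C(UnitAddTorus (Fin d), ℂ)) x)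
      (ENNReal.ofReal p) (mu (Fin d)) ≤
      eLpNorm (fun x => f x - (∑ s ∈ S, blkC s f : C(UnitAddTorus (Fin d), ℂ)) x)
        (ENNReal.ofReal q) (mu (Fin d)) + ENNReal.ofReal (C * T ^ (1 / q)) := by
    intro S hS
    have e1 : (fun x => f x - (∑ s ∈ S0, blkC s f : C(UnitAddTorus (Fin d), ℂ)) x)
        = (fun x => f x - (∑ s ∈ S, blkC s f : C(UnitAddTorus (Fin d), ℂ)) x)
          + ⇑(∑ s ∈ S \ S0, blkC s f : C(UnitAddTorus (Fin d), ℂ)) := by
      ext x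
      rw [Pi.add_apply, ← Finset.sum_sdiff hS, ContinuousMap.add_apply]
      ring
    rw [e1]
    have hm1 : AEStronglyMeasurable (fun x => f x - (∑ s ∈ S, blkC s f : C(UnitAddTorus (Fin d), ℂ)) x)
        (mu (Fin d)) := hf.1.sub (ContinuousMap.continuous _).aestronglyMeasurable
    refine (eLpNorm_add_le hm1 (memLp_cont _ 1).1 hp1).trans ?_
    refine add_le_add ?_ ?_
    · exact eLpNorm_le_eLpNorm_of_exponent_le (ENNReal.ofReal_le_ofReal hpq.le) hm1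
    · refine hU (S \ S0) (fun s => blkC s f) (fun s _ => blkC_TP s f) T hT ?_
      simp only [blkC_coe]
      exact hrest (S \ S0) Finset.sdiff_disjoint
  have hlim2 : Tendsto (fun S : Finset (Fin d → ℕ) =>
      eLpNorm (fun x => f x - (∑ s ∈ S, blkC s f : C(UnitAddTorus (Fin d), ℂ)) x)
        (ENNReal.ofReal q) (mu (Fin d)) + ENNReal.ofReal (C * T ^ (1 / q))) atTop
        (𝓝 (0 + ENNReal.ofReal (C * T ^ (1 / q)))) := hlim.add tendsto_const_nhds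
  rw [zero_add] at hlim2
  refine ge_of_tendsto hlim2 ?_
  filter_upwards [eventually_ge_atTop S0] with S hS
  exact hle S hS

end Run7.h481
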