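import Pool.Agent.Run7.h481.U5

namespace Run7.h481

open MeasureTheory UnitAddTorus ENNReal Filter Topology

/-- sums over levels -/
theorem tsum_level (e : ℕ) (F : ℕ → ℝ≥0∞) :
    ∑' s : Fin (e + 1) → ℕ, F (∑ i, s i) ≤ ∑' j : ℕ, ((j + 1 : ℕ) : ℝ≥0∞) ^ e * F j := by
  set φ : (Fin (e + 1) → ℕ) → (Σ j : ℕ, (Fin e → Fin (j + 1))) := fun s =>
    ⟨∑ i, s i, fun i => ⟨s i.succ, by
      have h1 : s i.succ ≤ ∑ i, s i := Finset.single_le_sum (f := s) (fun _ _ => Nat.zero_le _)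
        (Finset.mem_univ _)
      omega⟩⟩ with hφ
  have hinj : Function.Injective φ := by
    intro s s' h
    rw [hφ] at h
    simp only at h
    have h1 : ∑ i, s i = ∑ i, s' i := congrArg Sigma.fst h
    have h2 : ∀ i : Fin e, s i.succ = s' i.succ := by
      intro i
      have key : ∀ (j j' : ℕ) (v : Fin e → Fin (j + 1)) (v' : Fin e → Fin (j' + 1)),
          (⟨j, v⟩ : Σ j : ℕ, (Fin e → Fin (j + 1))) = ⟨j', v'⟩ → ∀ i, (v i : ℕ) = (v' i : ℕ) := by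
        intro j j' v v' hh i
        cases hh
        rfl
      exact key _ _ _ _ h i
    rw [Fin.sum_univ_succ, Fin.sum_univ_succ, Finset.sum_congr rfl (fun i _ => h2 i)] at h1
    funext i
    refine Fin.cases ?_ (fun i => h2 i) i
    omega
  calc ∑' s : Fin (e + 1) → ℕ, F (∑ i, s i)
      = ∑' s : Fin (e + 1) → ℕ, (fun y : Σ j : ℕ, (Fin e → Fin (j + 1)) => F y.1) (φ s) := rfl
    _ ≤ ∑' y : Σ j : ℕ, (Fin e → Fin (j + 1)), F y.1 := ENNReal.tsum_comp_le_tsum_of_injective hinj _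
    _ = ∑' j : ℕ, ∑' _v : Fin e → Fin (j + 1), F j :=
        ENNReal.tsum_sigma (fun j (_ : Fin e → Fin (j + 1)) => F j)
    _ = _ := by
        refine tsum_congr (fun j => ?_)
        rw [tsum_fintype, Finset.sum_const, Finset.card_univ, Fintype.card_pi, Finset.prod_const,
          Finset.card_univ, Fintype.card_fin, Fintype.card_fin, nsmul_eq_mul]
        push_cast
        rfl

theorem tail_series (e : ℕ) {a : ℝ} (ha : 0 < a) : ∃ C : ℝ, 0 < C ∧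
    ∑' i : ℕ, ((i + 2 : ℕ) : ℝ≥0∞) ^ e * ENNReal.ofReal ((2 : ℝ) ^ (-(a * i))) ≤ ENNReal.ofReal C := by
  set y : ℝ := (2 : ℝ) ^ (-a) with hy
  have hy0 : 0 < y := by positivity
  have hy1 : y < 1 := Real.rpow_lt_one_of_one_lt_of_neg (by norm_num) (by linarith)
  have h1 : Summable (fun n : ℕ => (n : ℝ) ^ e * y ^ n) :=
    summable_pow_mul_geometric_of_norm_lt_one e (by rw [Real.norm_of_nonneg hy0.le]; exact hy1)
  have h2 : Summable (fun n : ℕ => ((n + 2 : ℕ) : ℝ) ^ e * y ^ n) := by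
    have h3 := (summable_nat_add_iff 2).mpr h1
    have h4 := h3.mul_left (y ^ 2)⁻¹
    refine h4.congr (fun n => ?_)
    rw [pow_add]
    field_simp
  refine ⟨∑' n : ℕ, ((n + 2 : ℕ) : ℝ) ^ e * y ^ n + 1, ?_, ?_⟩
  · have : 0 ≤ ∑' n : ℕ, ((n + 2 : ℕ) : ℝ) ^ e * y ^ n := tsum_nonneg (fun n => by positivity)
    linarith
  · have h5 : ∀ i : ℕ, ((i + 2 : ℕ) : ℝ≥0∞) ^ e * ENNReal.ofReal ((2 : ℝ) ^ (-(a * i)))
        = ENNReal.ofReal (((i + 2 : ℕ) : ℝ) ^ e * y ^ i) := by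
      intro i
      rw [ENNReal.ofReal_mul (by positivity), ENNReal.ofReal_pow (by positivity),
        ENNReal.ofReal_natCast]
      congr 2
      rw [hy, ← Real.rpow_natCast, ← Real.rpow_mul (by norm_num)]
      congr 1
      ring
    simp_rw [h5]
    rw [← ENNReal.ofReal_tsum_of_nonneg (fun n => by positivity) h2]
    exact ENNReal.ofReal_le_ofReal (by linarith)

theorem tail_bound (e : ℕ) {a : ℝ} (ha : 0 < a) : ∃ C : ℝ, 0 < C ∧
    (∑' s : Fin (e + 1) → ℕ, ENNReal.ofReal ((2 : ℝ) ^ (-(a * ∑ i, (s i : ℝ)))) ≤ ENNReal.ofReal C) ∧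
    ∀ n : ℕ, 1 ≤ n → ∑' s : Fin (e + 1) → ℕ, (if n ≤ ∑ i, s i then
      ENNReal.ofReal ((2 : ℝ) ^ (-(a * ∑ i, (s i : ℝ)))) else 0)
      ≤ ENNReal.ofReal (C * (n : ℝ) ^ e * (2 : ℝ) ^ (-(a * n))) := by
  obtain ⟨C, hC, h⟩ := tail_series e ha
  refine ⟨C, hC, ?_, ?_⟩
  · have e1 : ∀ s : Fin (e + 1) → ℕ, ENNReal.ofReal ((2 : ℝ) ^ (-(a * ∑ i, (s i : ℝ))))
        = (fun j : ℕ => ENNReal.ofReal ((2 : ℝ) ^ (-(a * j)))) (∑ i, s i) := by
      intro s
      simp only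
      push_cast
      rfl
    simp_rw [e1]
    refine (tsum_level e (fun j : ℕ => ENNReal.ofReal ((2 : ℝ) ^ (-(a * j))))).trans (le_trans ?_ h)
    refine ENNReal.tsum_le_tsum (fun j => ?_)
    gcongr
    omega
  · intro n hn
    have e1 : ∀ s : Fin (e + 1) → ℕ, (if n ≤ ∑ i, s i then
        ENNReal.ofReal ((2 : ℝ) ^ (-(a * ∑ i, (s i : ℝ)))) else 0)
        = (fun j : ℕ => if n ≤ j then ENNReal.ofReal ((2 : ℝ) ^ (-(a * j))) else 0) (∑ i, s i) := by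
      intro s
      simp only
      push_cast
      rfl
    simp_rw [e1]
    refine (tsum_level e (fun j : ℕ =>
      if n ≤ j then ENNReal.ofReal ((2 : ℝ) ^ (-(a * j))) else 0)).trans ?_
    rw [← (ENNReal.summable).sum_add_tsum_nat_add' (k := n)]
    have h0 : ∑ j ∈ Finset.range n, ((j + 1 : ℕ) : ℝ≥0∞) ^ e *
        (if n ≤ j then ENNReal.ofReal ((2 : ℝ) ^ (-(a * j))) else 0) = 0 := by
      refine Finset.sum_eq_zero (fun j hj => ?_)
      rw [Finset.mem_range] at hj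
      rw [if_neg (by omega), mul_zero]
    rw [h0, zero_add]
    calc ∑' i : ℕ, ((i + n + 1 : ℕ) : ℝ≥0∞) ^ e *
          (if n ≤ i + n then ENNReal.ofReal ((2 : ℝ) ^ (-(a * (i + n : ℕ)))) else 0)
        ≤ ∑' i : ℕ, (n : ℝ≥0∞) ^ e * ENNReal.ofReal ((2 : ℝ) ^ (-(a * n))) *
          (((i + 2 : ℕ) : ℝ≥0∞) ^ e * ENNReal.ofReal ((2 : ℝ) ^ (-(a * i)))) := by
          refine ENNReal.tsum_le_tsum (fun i => ?_)
          rw [if_pos (by omega)]
          have h1 : ((i + n + 1 : ℕ) : ℝ≥0∞) ^ e ≤ (n : ℝ≥0∞) ^ e * ((i + 2 : ℕ) : ℝ≥0∞) ^ e := by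
            rw [← mul_pow]
            gcongr
            have : i + n + 1 ≤ n * (i + 2) := by nlinarith
            exact_mod_cast this
          have h2 : ENNReal.ofReal ((2 : ℝ) ^ (-(a * (i + n : ℕ))))
              = ENNReal.ofReal ((2 : ℝ) ^ (-(a * n))) * ENNReal.ofReal ((2 : ℝ) ^ (-(a * i))) := by
            rw [← ENNReal.ofReal_mul (by positivity), ← Real.rpow_add (by norm_num)]
            congr 2
            push_cast
            ring
          rw [h2]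
          calc ((i + n + 1 : ℕ) : ℝ≥0∞) ^ e * (ENNReal.ofReal ((2 : ℝ) ^ (-(a * n)))
                * ENNReal.ofReal ((2 : ℝ) ^ (-(a * i))))
              ≤ ((n : ℝ≥0∞) ^ e * ((i + 2 : ℕ) : ℝ≥0∞) ^ e) * (ENNReal.ofReal ((2 : ℝ) ^ (-(a * n)))
                * ENNReal.ofReal ((2 : ℝ) ^ (-(a * i)))) := by gcongr
            _ = _ := by ring
      _ = (n : ℝ≥0∞) ^ e * ENNReal.ofReal ((2 : ℝ) ^ (-(a * n))) *
          ∑' i : ℕ, (((i + 2 : ℕ) : ℝ≥0∞) ^ e * ENNReal.ofReal ((2 : ℝ) ^ (-(a * i)))) := by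
          rw [ENNReal.tsum_mul_left]
      _ ≤ (n : ℝ≥0∞) ^ e * ENNReal.ofReal ((2 : ℝ) ^ (-(a * n))) * ENNReal.ofReal C := by gcongr
      _ = _ := by
          rw [ENNReal.ofReal_mul (by positivity), ENNReal.ofReal_mul (by positivity),
            ENNReal.ofReal_pow (by positivity), ENNReal.ofReal_natCast]
          ring

/-- the number of low frequencies -/
theorem low_count (e n : ℕ) (S : Finset (Fin (e + 1) → ℕ)) (hS : ∀ s ∈ S, ∑ i, s i < n) :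
    ∑ s ∈ S, 2 ^ (∑ i, s i) ≤ 2 ^ n * n ^ e := by
  have h1 : ((∑ s ∈ S, 2 ^ (∑ i, s i) : ℕ) : ℝ≥0∞) ≤ ((2 ^ n * n ^ e : ℕ) : ℝ≥0∞) := by
    calc ((∑ s ∈ S, 2 ^ (∑ i, s i) : ℕ) : ℝ≥0∞)
        = ∑ s ∈ S, (fun j : ℕ => if j < n then ((2 ^ j : ℕ) : ℝ≥0∞) else 0) (∑ i, s i) := by
          push_cast
          refine Finset.sum_congr rfl (fun s hs => ?_)
          rw [if_pos (hS s hs)]
      _ ≤ ∑' s : Fin (e + 1) → ℕ, (fun j : ℕ => if j < n then ((2 ^ j : ℕ) : ℝ≥0∞) else 0) (∑ i, s i) :=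
          ENNReal.sum_le_tsum S
      _ ≤ ∑' j : ℕ, ((j + 1 : ℕ) : ℝ≥0∞) ^ e * (if j < n then ((2 ^ j : ℕ) : ℝ≥0∞) else 0) :=
          tsum_level e _
      _ = ∑ j ∈ Finset.range n, ((j + 1 : ℕ) : ℝ≥0∞) ^ e * ((2 ^ j : ℕ) : ℝ≥0∞) := by
          rw [tsum_eq_sum (s := Finset.range n)]
          · refine Finset.sum_congr rfl (fun j hj => ?_)
            rw [if_pos (Finset.mem_range.mp hj)]
          · intro j hj
            rw [Finset.mem_range] at hj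
            rw [if_neg hj, mul_zero]
      _ ≤ ∑ j ∈ Finset.range n, (n : ℝ≥0∞) ^ e * ((2 ^ j : ℕ) : ℝ≥0∞) := by
          refine Finset.sum_le_sum (fun j hj => ?_)
          rw [Finset.mem_range] at hj
          gcongr
          omega
      _ = (n : ℝ≥0∞) ^ e * ((∑ j ∈ Finset.range n, 2 ^ j : ℕ) : ℝ≥0∞) := by
          rw [← Finset.mul_sum]
          push_cast
          rfl
      _ ≤ (n : ℝ≥0∞) ^ e * ((2 ^ n : ℕ) : ℝ≥0∞) := by
          gcongr
          have := Nat.geomSum_lt (m := 2) (n := n) (s := Finset.range n) le_rfl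
            (fun k hk => Finset.mem_range.mp hk)
          exact this.le
      _ = _ := by push_cast; ring
  exact_mod_cast h1

/-- choice of the level -/
theorem select (e : ℕ) : ∃ C0 : ℝ, 1 ≤ C0 ∧ ∀ m : ℕ, 4 ≤ m → ∃ n : ℕ, 1 ≤ n ∧
    2 * (2 ^ n * n ^ e) ≤ m ∧ (m : ℝ) ≤ C0 * (2 ^ n * (n : ℝ) ^ e) ∧ (n : ℝ) ≤ C0 * Real.log m := by
  refine ⟨4 * 2 ^ e, ?_, ?_⟩
  · have : (1 : ℝ) ≤ 2 ^ e := one_le_pow₀ (by norm_num)
    linarith
  intro m hm
  have hex : ∃ n : ℕ, m < 2 * (2 ^ (n + 1) * (n + 1) ^ e) := by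
    refine ⟨m, ?_⟩
    have h1 : m < 2 ^ m := Nat.lt_two_pow_self
    have h2 : 1 ≤ (m + 1) ^ e := Nat.one_le_pow _ _ (by omega)
    calc m < 2 ^ m := h1
      _ ≤ 2 ^ (m + 1) := Nat.pow_le_pow_right (by norm_num) (by omega)
      _ ≤ 2 ^ (m + 1) * (m + 1) ^ e := Nat.le_mul_of_pos_right _ (by omega)
      _ ≤ _ := by omega
  classical
  have hspec := Nat.find_spec hex
  have hmin := fun k => Nat.find_min hex (m := k)
  set n := Nat.find hex with hn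
  have hn1 : 1 ≤ n := by
    by_contra hcon
    have : n = 0 := by omega
    rw [this] at hspec
    simp at hspec
    omega
  have h1 : ¬ m < 2 * (2 ^ (n - 1 + 1) * (n - 1 + 1) ^ e) := hmin (n - 1) (by omega)
  rw [Nat.sub_add_cancel hn1, not_lt] at h1
  refine ⟨n, hn1, h1, ?_, ?_⟩
  · have h2 : (n + 1) ^ e ≤ 2 ^ e * n ^ e := by
      rw [← mul_pow]
      exact Nat.pow_le_pow_left (by omega) e
    have h3 : m ≤ 4 * 2 ^ e * (2 ^ n * n ^ e) := by
      calc m ≤ 2 * (2 ^ (n + 1) * (n + 1) ^ e) := hspec.le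
        _ ≤ 2 * (2 ^ (n + 1) * (2 ^ e * n ^ e)) := by gcongr
        _ = _ := by ring
    exact_mod_cast h3
  · have h2 : 2 ^ n ≤ m := by
      have h3 : 1 ≤ n ^ e := Nat.one_le_pow _ _ hn1
      calc 2 ^ n ≤ 2 ^ n * n ^ e := Nat.le_mul_of_pos_right _ (by omega)
        _ ≤ m := by omega
    have h3 : (2 : ℝ) ^ n ≤ m := by exact_mod_cast h2
    have h4 := Real.log_le_log (by positivity) h3
    rw [Real.log_pow] at h4
    have h5 : (1 : ℝ) / 2 < Real.log 2 := by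
      have := Real.log_two_gt_d9
      linarith
    have h6 : (1 : ℝ) ≤ 2 ^ e := one_le_pow₀ (by norm_num)
    have h7 : (0 : ℝ) ≤ n := by positivity
    have h8 : (n : ℝ) ≤ 2 * Real.log m := by nlinarith
    have h9 : 0 ≤ Real.log m := Real.log_nonneg (by exact_mod_cast (by omega : 1 ≤ m))
    nlinarith

end Run7.h481
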