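import Pool.Agent.Run7.h481.U6

namespace Run7.h481

open MeasureTheory UnitAddTorus ENNReal Filter Topology

variable {e : ℕ}

/-- total degree -/
def deg {d : ℕ} (s : Fin d → ℕ) : ℕ := ∑ i, s i

theorem deg_cast {d : ℕ} (s : Fin d → ℕ) : ∑ i, (s i : ℝ) = (deg s : ℝ) := by
  unfold deg; push_cast; rfl

theorem x_eq {d : ℕ} (r q : ℝ) (f : UnitAddTorus (Fin d) → ℂ) (s : Fin d → ℕ) :
    eLpNorm (blk s f) (ENNReal.ofReal q) (mu (Fin d))
      = ENNReal.ofReal ((2 : ℝ) ^ (-(r * deg s))) * wt r q f s := by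
  unfold wt
  rw [deg_cast, ← mul_assoc, ← ENNReal.ofReal_mul (by positivity), ← Real.rpow_add (by norm_num),
    neg_add_cancel, Real.rpow_zero, ENNReal.ofReal_one, one_mul]

theorem x_pow {d : ℕ} {r q : ℝ} (hq : 0 < q) (f : UnitAddTorus (Fin d) → ℂ) (s : Fin d → ℕ) :
    (eLpNorm (blk s f) (ENNReal.ofReal q) (mu (Fin d))) ^ q
      = ENNReal.ofReal ((2 : ℝ) ^ (-(r * q * deg s))) * (wt r q f s) ^ q := by
  rw [x_eq r q f s, ENNReal.mul_rpow_of_nonneg _ _ hq.le,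
    ENNReal.ofReal_rpow_of_nonneg (by positivity) hq.le, ← Real.rpow_mul (by norm_num)]
  congr 3
  ring

theorem BC_wt {d : ℕ} {r q θ : ℝ} (hθ : 0 < θ) {f : UnitAddTorus (Fin d) → ℂ}
    (hf : f ∈ BC d r q θ) (s : Fin d → ℕ) : wt r q f s ≤ 1 := by
  have h1 : (wt r q f s) ^ θ ≤ 1 := (ENNReal.le_tsum s).trans hf.2
  have h2 : (wt r q f s) ^ θ ≤ 1 ^ θ := by rwa [ENNReal.one_rpow]
  exact (ENNReal.rpow_le_rpow_iff hθ).mp h2

theorem fin_sum {r q : ℝ} (hr : 0 < r) {f : UnitAddTorus (Fin (e + 1)) → ℂ}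
    (hw : ∀ s, wt r q f s ≤ 1) :
    ∑' s, eLpNorm (blk s f) (ENNReal.ofReal q) (mu (Fin (e + 1))) ≠ ∞ := by
  obtain ⟨C, _, h1, _⟩ := tail_bound e hr
  refine ne_top_of_le_ne_top ENNReal.ofReal_ne_top (le_trans ?_ h1)
  refine ENNReal.tsum_le_tsum (fun s => ?_)
  rw [x_eq r q f s, deg_cast]
  calc ENNReal.ofReal ((2 : ℝ) ^ (-(r * deg s))) * wt r q f s
      ≤ ENNReal.ofReal ((2 : ℝ) ^ (-(r * deg s))) * 1 := by gcongr; exact hw s
    _ = _ := mul_one _

theorem upper_small (e : ℕ) {p q r : ℝ} (hp : 1 ≤ p) (hpq : p < q) (hq2 : q ≤ 2) (hr : 0 < r) :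
    ∃ C : ℝ, 0 < C ∧ ∀ f : UnitAddTorus (Fin (e + 1)) → ℂ,
      MemLp f (ENNReal.ofReal q) (mu (Fin (e + 1))) → (∀ s, wt r q f s ≤ 1) →
      ∀ m : ℕ, sig m p f ≤ ENNReal.ofReal C := by
  obtain ⟨C, hC, hU⟩ := upper_core (e + 1) hp hpq hq2
  have hq0 : 0 < q := by linarith
  obtain ⟨C1, hC1, h1, _⟩ := tail_bound e (a := r * q) (by positivity)
  refine ⟨C * C1 ^ (1 / q), by positivity, ?_⟩
  intro f hf hw m
  refine hU f hf (fin_sum hr hw) ∅ C1 hC1 (fun S _ => ?_) m (by simp)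
  calc ∑ s ∈ S, (eLpNorm (blk s f) (ENNReal.ofReal q) (mu (Fin (e + 1)))) ^ q
      ≤ ∑' s, (eLpNorm (blk s f) (ENNReal.ofReal q) (mu (Fin (e + 1)))) ^ q := ENNReal.sum_le_tsum S
    _ ≤ ∑' s : Fin (e + 1) → ℕ, ENNReal.ofReal ((2 : ℝ) ^ (-(r * q * ∑ i, (s i : ℝ)))) := by
        refine ENNReal.tsum_le_tsum (fun s => ?_)
        rw [x_pow (r := r) hq0, deg_cast]
        calc ENNReal.ofReal ((2 : ℝ) ^ (-(r * q * deg s))) * (wt r q f s) ^ q
            ≤ ENNReal.ofReal ((2 : ℝ) ^ (-(r * q * deg s))) * 1 := by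
              gcongr
              calc (wt r q f s) ^ q ≤ 1 ^ q := ENNReal.rpow_le_rpow (hw s) hq0.le
                _ = 1 := ENNReal.one_rpow q
          _ = _ := mul_one _
    _ ≤ _ := h1

/-- the low blocks -/
def lowS (e n : ℕ) : Finset (Fin (e + 1) → ℕ) :=
  (Fintype.piFinset (fun _ => Finset.range n)).filter (fun s => deg s < n)

theorem mem_lowS {n : ℕ} (s : Fin (e + 1) → ℕ) : s ∈ lowS e n ↔ deg s < n := by
  unfold lowS
  rw [Finset.mem_filter, Fintype.mem_piFinset]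
  constructor
  · exact fun h => h.2
  · intro h
    refine ⟨fun i => ?_, h⟩
    rw [Finset.mem_range]
    have h1 : s i ≤ deg s := Finset.single_le_sum (f := s) (fun _ _ => Nat.zero_le _)
        (Finset.mem_univ _)
    omega

theorem lowS_count (n : ℕ) : ∑ s ∈ lowS e n, 2 ^ (∑ i, s i) ≤ 2 ^ n * n ^ e :=
  low_count e n _ (fun s hs => (mem_lowS s).mp hs)

theorem upper_H_level (e : ℕ) {p q r : ℝ} (hp : 1 ≤ p) (hpq : p < q) (hq2 : q ≤ 2) (hr : 0 < r) :
    ∃ C : ℝ, 0 < C ∧ ∀ f ∈ HC (e + 1) r q, ∀ n m : ℕ, 1 ≤ n → 2 ^ n * n ^ e ≤ m →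
      sig m p f ≤ ENNReal.ofReal (C * (n : ℝ) ^ ((e : ℝ) / q) * (2 : ℝ) ^ (-(r * n))) := by
  obtain ⟨C, hC, hU⟩ := upper_core (e + 1) hp hpq hq2
  have hq0 : 0 < q := by linarith
  obtain ⟨C1, hC1, _, h1⟩ := tail_bound e (a := r * q) (by positivity)
  refine ⟨C * C1 ^ (1 / q), by positivity, ?_⟩
  intro f hf n m hn hm
  have hn0 : (0 : ℝ) < n := by exact_mod_cast hn
  have h2 := hU f hf.1 (fin_sum hr hf.2) (lowS e n) (C1 * (n : ℝ) ^ e * (2 : ℝ) ^ (-(r * q * n)))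
    (by positivity) (fun S hS => by
      calc ∑ s ∈ S, (eLpNorm (blk s f) (ENNReal.ofReal q) (mu (Fin (e + 1)))) ^ q
          ≤ ∑ s ∈ S, (if n ≤ ∑ i, s i then
            ENNReal.ofReal ((2 : ℝ) ^ (-(r * q * ∑ i, (s i : ℝ)))) else 0) := by
            refine Finset.sum_le_sum (fun s hs => ?_)
            have hns : n ≤ ∑ i, s i := by
              by_contra hcon
              exact Finset.disjoint_left.mp hS hs ((mem_lowS s).mpr (not_le.mp hcon))
            rw [if_pos hns, x_pow (r := r) hq0, deg_cast]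
            calc ENNReal.ofReal ((2 : ℝ) ^ (-(r * q * deg s))) * (wt r q f s) ^ q
                ≤ ENNReal.ofReal ((2 : ℝ) ^ (-(r * q * deg s))) * 1 := by
                  gcongr
                  calc (wt r q f s) ^ q ≤ 1 ^ q := ENNReal.rpow_le_rpow (hf.2 s) hq0.le
                    _ = 1 := ENNReal.one_rpow q
              _ = _ := mul_one _
        _ ≤ _ := ENNReal.sum_le_tsum S
        _ ≤ _ := h1 n hn) m ((lowS_count n).trans hm)
  refine h2.trans (ENNReal.ofReal_le_ofReal (le_of_eq ?_))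
  rw [Real.mul_rpow (by positivity) (by positivity), Real.mul_rpow (by positivity) (by positivity),
    ← Real.rpow_natCast, ← Real.rpow_mul hn0.le, ← Real.rpow_mul (by norm_num)]
  have e1 : (e : ℝ) * (1 / q) = e / q := by ring
  have e2 : -(r * q * n) * (1 / q) = -(r * n) := by field_simp
  rw [e1, e2]
  ring

theorem upper_B_level (e : ℕ) {p q r θ : ℝ} (hp : 1 ≤ p) (hpq : p < q) (hq2 : q ≤ 2) (hr : 0 < r)
    (hθ : q < θ) :
    ∃ C : ℝ, 0 < C ∧ ∀ f ∈ BC (e + 1) r q θ, ∀ n m : ℕ, 1 ≤ n → 2 ^ n * n ^ e ≤ m →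
      sig m p f ≤ ENNReal.ofReal (C * (n : ℝ) ^ ((e : ℝ) * (1 / q - 1 / θ)) * (2 : ℝ) ^ (-(r * n))) := by
  obtain ⟨C, hC, hU⟩ := upper_core (e + 1) hp hpq hq2
  have hq0 : 0 < q := by linarith
  have hθ0 : 0 < θ := by linarith
  have hP : 1 < θ / q := by rw [one_lt_div hq0]; exact hθ
  set Q : ℝ := (θ / q) / (θ / q - 1) with hQ
  have hPQ : (θ / q).HolderConjugate Q := Real.HolderConjugate.conjExponent hP
  have hQ0 : 0 < Q := hPQ.symm.pos
  obtain ⟨C1, hC1, _, h1⟩ := tail_bound e (a := r * q * Q) (by positivity)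
  refine ⟨C * (C1 ^ (1 / Q)) ^ (1 / q), by positivity, ?_⟩
  intro f hf n m hn hm
  have hn0 : (0 : ℝ) < n := by exact_mod_cast hn
  have h2 := hU f hf.1 (fin_sum hr (BC_wt hθ0 hf)) (lowS e n)
    ((C1 * (n : ℝ) ^ e * (2 : ℝ) ^ (-(r * q * Q * n))) ^ (1 / Q))
    (by positivity) (fun S hS => by
      calc ∑ s ∈ S, (eLpNorm (blk s f) (ENNReal.ofReal q) (mu (Fin (e + 1)))) ^ q
          = ∑ s ∈ S, (wt r q f s) ^ q * ENNReal.ofReal ((2 : ℝ) ^ (-(r * q * deg s))) := by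
            refine Finset.sum_congr rfl (fun s _ => ?_)
            rw [x_pow (r := r) hq0, mul_comm]
        _ ≤ (∑ s ∈ S, ((wt r q f s) ^ q) ^ (θ / q)) ^ (1 / (θ / q))
            * (∑ s ∈ S, (ENNReal.ofReal ((2 : ℝ) ^ (-(r * q * deg s)))) ^ Q) ^ (1 / Q) :=
            ENNReal.inner_le_Lp_mul_Lq S _ _ hPQ
        _ ≤ 1 ^ (1 / (θ / q))
            * (ENNReal.ofReal (C1 * (n : ℝ) ^ e * (2 : ℝ) ^ (-(r * q * Q * n)))) ^ (1 / Q) := by
            gcongr
            · calc ∑ s ∈ S, ((wt r q f s) ^ q) ^ (θ / q) = ∑ s ∈ S, (wt r q f s) ^ θ := by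
                    refine Finset.sum_congr rfl (fun s _ => ?_)
                    rw [← ENNReal.rpow_mul]
                    congr 1
                    field_simp
                _ ≤ ∑' s, (wt r q f s) ^ θ := ENNReal.sum_le_tsum S
                _ ≤ 1 := hf.2
            · calc ∑ s ∈ S, (ENNReal.ofReal ((2 : ℝ) ^ (-(r * q * deg s)))) ^ Q
                  ≤ ∑ s ∈ S, (if n ≤ ∑ i, s i then
                    ENNReal.ofReal ((2 : ℝ) ^ (-(r * q * Q * ∑ i, (s i : ℝ)))) else 0) := by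
                    refine Finset.sum_le_sum (fun s hs => ?_)
                    have hns : n ≤ ∑ i, s i := by
                      by_contra hcon
                      exact Finset.disjoint_left.mp hS hs ((mem_lowS s).mpr (not_le.mp hcon))
                    rw [if_pos hns, deg_cast, ENNReal.ofReal_rpow_of_nonneg (by positivity) hQ0.le,
                      ← Real.rpow_mul (by norm_num)]
                    refine le_of_eq ?_
                    congr 2
                    ring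
                _ ≤ _ := ENNReal.sum_le_tsum S
                _ ≤ _ := h1 n hn
        _ = _ := by
            rw [ENNReal.one_rpow, one_mul, ENNReal.ofReal_rpow_of_nonneg (by positivity)
              (by positivity)]) m ((lowS_count n).trans hm)
  refine h2.trans (ENNReal.ofReal_le_ofReal (le_of_eq ?_))
  have e0 : 1 / Q * (1 / q) = 1 / q - 1 / θ := by
    rw [hQ]
    have : θ / q - 1 ≠ 0 := by linarith
    have h3 : θ - q ≠ 0 := by linarith
    field_simp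
  have hb : (0 : ℝ) ≤ C1 * (n : ℝ) ^ e * (2 : ℝ) ^ (-(r * q * Q * n)) := by positivity
  have f1 : ((C1 * (n : ℝ) ^ e * (2 : ℝ) ^ (-(r * q * Q * n))) ^ (1 / Q)) ^ (1 / q)
      = C1 ^ (1 / Q * (1 / q)) * (n : ℝ) ^ ((e : ℝ) * (1 / Q * (1 / q)))
        * (2 : ℝ) ^ (-(r * q * Q * n) * (1 / Q * (1 / q))) := by
    rw [← Real.rpow_mul hb, Real.mul_rpow (by positivity) (by positivity),
      Real.mul_rpow (by positivity) (by positivity), ← Real.rpow_natCast, ← Real.rpow_mul hn0.le,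
      ← Real.rpow_mul (by norm_num)]
  have f2 : (C1 ^ (1 / Q)) ^ (1 / q) = C1 ^ (1 / Q * (1 / q)) := by
    rw [← Real.rpow_mul hC1.le]
  have e2 : -(r * q * Q * n) * (1 / Q * (1 / q)) = -(r * n) := by field_simp
  rw [f1, f2, e2, e0]
  ring

end Run7.h481
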