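import Pool.Agent.Run7.h481.U7

namespace Run7.h481

open MeasureTheory UnitAddTorus ENNReal Filter Topology

variable {e : ℕ}

/-- the exceptional (large) blocks -/
theorem large_blocks {r q θ : ℝ} (f : UnitAddTorus (Fin (e + 1)) → ℂ)
    (hf : ∑' s, (wt r q f s) ^ θ ≤ 1) {m : ℕ} (hm : 1 ≤ m) :
    ∃ A : Finset (Fin (e + 1) → ℕ),
      (∀ s, s ∉ A → (wt r q f s) ^ θ ≤ ENNReal.ofReal (2 * 2 ^ deg s / m)) ∧
      2 * ∑ s ∈ A, 2 ^ (∑ i, s i) ≤ m := by
  have hm0 : (0 : ℝ) < m := by exact_mod_cast hm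
  have hfin : {s | ENNReal.ofReal (2 / m) ≤ (wt r q f s) ^ θ}.Finite := by
    refine ENNReal.finite_const_le_of_tsum_ne_top (ne_top_of_le_ne_top ENNReal.one_ne_top hf) ?_
    rw [Ne, ENNReal.ofReal_eq_zero, not_le]
    positivity
  classical
  set A : Finset (Fin (e + 1) → ℕ) :=
    hfin.toFinset.filter (fun s => ENNReal.ofReal (2 * 2 ^ deg s / m) ≤ (wt r q f s) ^ θ) with hA
  have hmem : ∀ s, s ∈ A ↔ ENNReal.ofReal (2 * 2 ^ deg s / m) ≤ (wt r q f s) ^ θ := by
    intro s
    rw [hA, Finset.mem_filter, Set.Finite.mem_toFinset, Set.mem_setOf_eq]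
    constructor
    · exact fun h => h.2
    · intro h
      refine ⟨le_trans (ENNReal.ofReal_le_ofReal ?_) h, h⟩
      have h1 : (1 : ℝ) ≤ 2 ^ deg s := one_le_pow₀ (by norm_num)
      gcongr
      linarith
  refine ⟨A, ?_, ?_⟩
  · intro s hs
    rw [hmem, not_le] at hs
    exact hs.le
  · have h1 : ∑ s ∈ A, ENNReal.ofReal (2 * 2 ^ deg s / m) ≤ ENNReal.ofReal 1 := by
      rw [ENNReal.ofReal_one]
      calc ∑ s ∈ A, ENNReal.ofReal (2 * 2 ^ deg s / m) ≤ ∑ s ∈ A, (wt r q f s) ^ θ :=
            Finset.sum_le_sum (fun s hs => (hmem s).mp hs)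
        _ ≤ ∑' s, (wt r q f s) ^ θ := ENNReal.sum_le_tsum A
        _ ≤ 1 := hf
    rw [← ENNReal.ofReal_sum_of_nonneg (fun s _ => by positivity),
      ENNReal.ofReal_le_ofReal_iff (by norm_num)] at h1
    have h2 : ∑ s ∈ A, (2 * 2 ^ deg s / m : ℝ) = (2 * ∑ s ∈ A, 2 ^ deg s) / m := by
      rw [Finset.mul_sum, Finset.sum_div]
    rw [h2, div_le_one hm0] at h1
    have h3 : (((2 * ∑ s ∈ A, 2 ^ (∑ i, s i) : ℕ)) : ℝ) ≤ (m : ℝ) := by
      push_cast
      exact h1
    exact_mod_cast h3

theorem upper_B_small (e : ℕ) {p q r θ : ℝ} (hp : 1 ≤ p) (hpq : p < q) (hq2 : q ≤ 2) (hr : 0 < r)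
    (hθ0 : 0 < θ) (hθ : θ ≤ q) :
    ∃ C : ℝ, 0 < C ∧ ∀ f ∈ BC (e + 1) r q θ, ∀ n m : ℕ, 1 ≤ n → 2 * (2 ^ n * n ^ e) ≤ m →
      sig m p f ≤ ENNReal.ofReal (C * (m : ℝ) ^ (-(min (1 / θ - 1 / q) r))
        * (2 : ℝ) ^ (-((r - min (1 / θ - 1 / q) r) * n))) := by
  obtain ⟨C, hC, hU⟩ := upper_core (e + 1) hp hpq hq2
  have hq0 : 0 < q := by linarith
  set g : ℝ := min (1 / θ - 1 / q) r with hg
  have hg0 : 0 ≤ g := by
    rw [hg]
    refine le_min ?_ hr.le
    rw [sub_nonneg]
    exact one_div_le_one_div_of_le hθ0 hθ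
  have hgr : g ≤ r := min_le_right _ _
  have hgθ : g ≤ 1 / θ - 1 / q := min_le_left _ _
  have hgq : g * q ≤ (q - θ) / θ := by
    calc g * q ≤ (1 / θ - 1 / q) * q := by gcongr
      _ = (q - θ) / θ := by field_simp
  refine ⟨C * 2 ^ g, by positivity, ?_⟩
  intro f hf n m hn hm
  have hn0 : (0 : ℝ) < n := by exact_mod_cast hn
  have hm1 : 1 ≤ m := by
    have : 1 ≤ 2 ^ n * n ^ e := Nat.one_le_iff_ne_zero.mpr (by positivity)
    omega
  have hm0 : (0 : ℝ) < m := by exact_mod_cast hm1
  obtain ⟨A, hA1, hA2⟩ := large_blocks f hf.2 hm1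
  classical
  have hcost : ∑ s ∈ lowS e n ∪ A, 2 ^ (∑ i, s i) ≤ m := by
    have h1 : ∑ s ∈ lowS e n ∪ A, 2 ^ (∑ i, s i)
        ≤ ∑ s ∈ lowS e n, 2 ^ (∑ i, s i) + ∑ s ∈ A, 2 ^ (∑ i, s i) := by
      rw [← Finset.sum_union_inter]
      exact Nat.le_add_right _ _
    have h2 := lowS_count (e := e) n
    omega
  set T : ℝ := (2 / m) ^ (g * q) * 2 ^ (-((r - g) * q * n)) with hT
  have hT0 : 0 < T := by positivity
  have h2 := hU f hf.1 (fin_sum hr (BC_wt hθ0 hf)) (lowS e n ∪ A) T hT0 (fun S hS => by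
      calc ∑ s ∈ S, (eLpNorm (blk s f) (ENNReal.ofReal q) (mu (Fin (e + 1)))) ^ q
          ≤ ∑ s ∈ S, (wt r q f s) ^ θ * ENNReal.ofReal T := by
            refine Finset.sum_le_sum (fun s hs => ?_)
            have hsn : s ∉ lowS e n ∪ A := Finset.disjoint_left.mp hS hs
            rw [Finset.mem_union, not_or, mem_lowS, not_lt] at hsn
            obtain ⟨hs1, hs2⟩ := hsn
            have hs1' : (n : ℝ) ≤ deg s := by exact_mod_cast hs1
            have hw1 : (wt r q f s) ^ θ ≤ 1 := (ENNReal.le_tsum s).trans hf.2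
            rw [x_pow (r := r) hq0]
            have h3 : (wt r q f s) ^ q = (wt r q f s) ^ θ * ((wt r q f s) ^ θ) ^ ((q - θ) / θ) := by
              have hne : 0 ≤ (q - θ) / θ := div_nonneg (by linarith) hθ0.le
              rw [← ENNReal.rpow_mul, ← ENNReal.rpow_add_of_nonneg _ _ hθ0.le (by positivity)]
              congr 1
              field_simp
              ring
            have h4 : ((wt r q f s) ^ θ) ^ ((q - θ) / θ)
                ≤ ENNReal.ofReal ((2 * 2 ^ deg s / m) ^ (g * q)) := by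
              calc ((wt r q f s) ^ θ) ^ ((q - θ) / θ) ≤ ((wt r q f s) ^ θ) ^ (g * q) :=
                    ENNReal.rpow_le_rpow_of_exponent_ge hw1 hgq
                _ ≤ (ENNReal.ofReal (2 * 2 ^ deg s / m)) ^ (g * q) :=
                    ENNReal.rpow_le_rpow (hA1 s hs2) (by positivity)
                _ = _ := by
                    rw [ENNReal.ofReal_rpow_of_nonneg (by positivity) (by positivity)]
            have h5 : (2 : ℝ) ^ (-(r * q * deg s)) * (2 * 2 ^ deg s / m) ^ (g * q) ≤ T := by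
              have h6 : (2 * 2 ^ deg s / m : ℝ) ^ (g * q)
                  = (2 / m) ^ (g * q) * 2 ^ (g * q * deg s) := by
                have : (2 * 2 ^ deg s / m : ℝ) = (2 / m) * 2 ^ (deg s : ℝ) := by
                  rw [Real.rpow_natCast]; ring
                rw [this, Real.mul_rpow (by positivity) (by positivity),
                  ← Real.rpow_mul (by norm_num)]
                congr 2
                ring
              rw [h6, hT]
              have h7 : (2 : ℝ) ^ (-(r * q * deg s)) * ((2 / m : ℝ) ^ (g * q) * 2 ^ (g * q * deg s))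
                  = (2 / m : ℝ) ^ (g * q) * 2 ^ (-((r - g) * q * deg s)) := by
                rw [mul_left_comm, ← Real.rpow_add (by norm_num)]
                congr 2
                ring
              rw [h7]
              have h8 : -((r - g) * q * deg s) ≤ -((r - g) * q * n) := by
                have : (r - g) * q * n ≤ (r - g) * q * deg s := by
                  refine mul_le_mul_of_nonneg_left hs1' ?_
                  exact mul_nonneg (by linarith) hq0.le
                linarith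
              gcongr
              norm_num
            calc ENNReal.ofReal ((2 : ℝ) ^ (-(r * q * deg s))) * (wt r q f s) ^ q
                ≤ ENNReal.ofReal ((2 : ℝ) ^ (-(r * q * deg s))) * ((wt r q f s) ^ θ
                  * ENNReal.ofReal ((2 * 2 ^ deg s / m) ^ (g * q))) := by
                  rw [h3]
                  gcongr
              _ = (wt r q f s) ^ θ * ENNReal.ofReal ((2 : ℝ) ^ (-(r * q * deg s))
                    * (2 * 2 ^ deg s / m) ^ (g * q)) := by
                  rw [ENNReal.ofReal_mul (by positivity)]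
                  ring
              _ ≤ _ := by gcongr
        _ = (∑ s ∈ S, (wt r q f s) ^ θ) * ENNReal.ofReal T := by rw [Finset.sum_mul]
        _ ≤ 1 * ENNReal.ofReal T := by
            gcongr
            exact (ENNReal.sum_le_tsum S).trans hf.2
        _ = _ := one_mul _) m hcost
  refine h2.trans (ENNReal.ofReal_le_ofReal (le_of_eq ?_))
  have f1 : T ^ (1 / q) = (2 : ℝ) ^ g * (m : ℝ) ^ (-g) * 2 ^ (-((r - g) * n)) := by
    rw [hT, Real.mul_rpow (by positivity) (by positivity), ← Real.rpow_mul (by positivity),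
      ← Real.rpow_mul (by positivity)]
    have e1 : g * q * (1 / q) = g := by field_simp
    have e2 : -((r - g) * q * n) * (1 / q) = -((r - g) * n) := by field_simp
    rw [e1, e2, Real.div_rpow (by norm_num) hm0.le, Real.rpow_neg hm0.le]
    ring
  rw [f1]
  ring

end Run7.h481
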